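import Pool.Agent.MP_8be872_ag.H63.ApiB
import Pool.Agent.MP_8be872_ag.H38.Hahn

/-! Substitution, finiteness, shifts, and the Nullstellensatz. -/

namespace Pool.Agent.MP_8be872_ag.H63

open Finset H38 H56 MvPolynomial

section

variable {E O : Type} [Fintype E] [Fintype O] [DecidableEq E] [DecidableEq O]
  {R : Type} [Ring R] [Algebra ℂ R] {ρ : E ⊕ O → R} {P : (E ⊕ O → ℕ) → Prop}

omit [DecidableEq E] in
theorem apiC_lift_bas (S : Finset O) (m : E →₀ ℕ) : lift ρ (bas S m) =
    ((univ : Finset E).toList.map fun e => ρ (.inl e) ^ m e).prod *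
      ((List.finRange (Fintype.card O)).map fun i => if (Fintype.equivFin O).symm i ∈ S then
        ρ (.inr ((Fintype.equivFin O).symm i)) else 1).prod := by
  unfold lift bas
  rw [LinearMap.sum_apply, Finset.sum_eq_single S]
  · rw [LinearMap.comp_apply, LinearMap.proj_apply, Pi.single_eq_same]
    exact (basisMonomials E ℂ).constr_basis ℂ _ m
  · intro T _ hT
    rw [LinearMap.comp_apply, LinearMap.proj_apply, Pi.single_eq_of_ne hT, map_zero]
  · exact fun h => (h (mem_univ S)).elim

omit [Algebra ℂ R] in
theorem apiC_ev {ι : Type} (a : ι → R) (e : ι) (hc : ∀ x, Commute (a x) (a e)) (m m' : ι → ℕ)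
    (h1 : m' e = m e + 1) (h2 : ∀ x, x ≠ e → m' x = m x) (L : List ι) (hn : L.Nodup)
    (he : e ∈ L) : (L.map fun x => a x ^ m' x).prod = a e * (L.map fun x => a x ^ m x).prod := by
  induction L with
  | nil => simp at he
  | cons x L ih =>
    rw [List.nodup_cons] at hn
    rw [List.map_cons, List.prod_cons, List.map_cons, List.prod_cons]
    by_cases hx : x = e
    · subst hx
      rw [List.map_congr_left (g := fun y => a y ^ m y) fun y hy => by
        rw [h2 y fun h => hn.1 (h ▸ hy)], h1, pow_succ', mul_assoc]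
    · rw [ih hn.2 ((List.mem_cons.1 he).resolve_left (Ne.symm hx)), h2 x hx, ← mul_assoc,
        ((hc x).pow_left _).eq, mul_assoc]

omit [Algebra ℂ R] in
theorem apiC_od0 {ι : Type} (b : ι → R) (i : ι) (hb : ∀ x, b i * b x = -(b x * b i))
    (h0 : b i * b i = 0) (p : ι → Prop) [DecidablePred p] (hp : p i) (L : List ι) (hi : i ∈ L) :
    b i * (L.map fun x => if p x then b x else 1).prod = 0 := by
  induction L with
  | nil => simp at hi
  | cons x L ih =>
    rw [List.map_cons, List.prod_cons]
    by_cases hx : x = i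
    · rw [hx, if_pos hp, ← mul_assoc, h0, zero_mul]
    · have := ih ((List.mem_cons.1 hi).resolve_left (Ne.symm hx))
      split_ifs
      · rw [← mul_assoc, hb, neg_mul, mul_assoc, this, mul_zero, neg_zero]
      · rw [one_mul, this]

theorem apiC_od1 {ι : Type} [LinearOrder ι] (b : ι → R) (i : ι)
    (hb : ∀ x, b i * b x = -(b x * b i)) (p q : ι → Prop) [DecidablePred p] [DecidablePred q]
    (hp : ¬ p i) (hq : q i) (h : ∀ x, x ≠ i → (q x ↔ p x)) (L : List ι)
    (hn : L.Pairwise (· < ·)) (hi : i ∈ L) :
    b i * (L.map fun x => if p x then b x else 1).prod =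
      (L.map fun x => if p x then (if x < i then (-1 : ℂ) else 1) else 1).prod •
        (L.map fun x => if q x then b x else 1).prod := by
  induction L with
  | nil => simp at hi
  | cons x L ih =>
    rw [List.pairwise_cons] at hn
    simp only [List.map_cons, List.prod_cons]
    by_cases hx : x = i
    · subst hx
      have e1 : (L.map fun y => if p y then (if y < x then (-1 : ℂ) else 1) else 1).prod = 1 :=
        List.prod_eq_one fun c hc => by
          obtain ⟨y, hy, rfl⟩ := List.mem_map.1 hc
          rw [if_neg (hn.1 y hy).not_gt, ite_self]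
      have e2 : (L.map fun y => if q y then b y else 1) = L.map fun y => if p y then b y else 1 :=
        List.map_congr_left fun y hy => by simp only [h y (hn.1 y hy).ne']
      rw [e1, e2, if_neg hp, if_neg hp, if_pos hq, one_mul, one_mul, one_smul]
    · have hi' := (List.mem_cons.1 hi).resolve_left (Ne.symm hx)
      have := ih hn.2 hi'
      by_cases hpx : p x
      · rw [if_pos hpx, if_pos hpx, if_pos (hn.1 i hi'), if_pos ((h x hx).2 hpx), ← mul_assoc, hb,
          neg_mul, mul_assoc, this, mul_smul_comm, neg_one_mul, neg_smul]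
      · rw [if_neg hpx, if_neg hpx, if_neg (mt (h x hx).1 hpx), one_mul, one_mul, one_mul, this]

omit [Fintype E] [DecidableEq E] in
theorem apiC_sgn (o : O) (S : Finset O) : sgn o S = ((List.finRange (Fintype.card O)).map fun x =>
    if (Fintype.equivFin O).symm x ∈ S then
      (if x < Fintype.equivFin O o then (-1 : ℂ) else 1) else 1).prod := by
  rw [← Fin.prod_univ_def, ← (Fintype.equivFin O).prod_comp]
  simp only [Equiv.symm_apply_apply]
  rw [Finset.prod_ite_mem, univ_inter, Finset.prod_ite, prod_const, prod_const_one, mul_one, sgn]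

theorem apiC_top (x : Sp E O) : x ∈ mono fun _ => True := by
  rw [mono_true]
  trivial

theorem lift_one : lift ρ (one : Sp E O) = 1 := by
  have := apiC_lift_bas (ρ := ρ) ∅ 0
  refine Eq.trans this ?_
  simp

theorem lift_gn (hρ : ∀ g h, ρ g * ρ h = sg (g.isRight && h.isRight) • (ρ h * ρ g)) (g : E ⊕ O)
    (x : Sp E O) : lift ρ (gn g x) = ρ g * lift ρ x := by
  have hc : ∀ e h, Commute (ρ (.inl e)) (ρ h) := fun e h => by
    have := hρ (.inl e) h
    simpa [sg, commute_iff_eq] using this
  have ha : ∀ o o', ρ (.inr o) * ρ (.inr o') = -(ρ (.inr o') * ρ (.inr o)) := fun o o' => by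
    have := hρ (.inr o) (.inr o')
    simpa [sg] using this
  have key : ∀ S m, lift ρ (gn g (bas S m)) = ρ g * lift ρ (bas S m) := by
    intro S m
    rcases g with e | o
    · have e1 : gn (.inl e) (bas S m : Sp E O) = bas S (m + Finsupp.single e 1) := by
        funext T
        rw [gn, mul_apply', bas, bas]
        by_cases h : T = S
        · rw [h, Pi.single_eq_same, Pi.single_eq_same, X, monomial_mul, add_comm, one_mul]
        · rw [Pi.single_eq_of_ne h, Pi.single_eq_of_ne h, mul_zero]
      rw [e1, apiC_lift_bas, apiC_lift_bas, ← mul_assoc,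
        apiC_ev (fun x => ρ (.inl x)) e (fun x => hc x _) m _ (by simp)
          (fun x hx => by simp [hx]) _ (Finset.nodup_toList _) (by simp)]
    · have e0 : Commute (ρ (.inr o)) ((univ : Finset E).toList.map
          fun e => ρ (.inl e) ^ m e).prod :=
        Commute.list_prod_right _ _ fun y hy => by
          obtain ⟨e, -, rfl⟩ := List.mem_map.1 hy
          exact (hc e _).symm.pow_right _
      have eo : ρ (.inr o) = ρ (.inr ((Fintype.equivFin O).symm (Fintype.equivFin O o))) := by
        rw [Equiv.symm_apply_apply]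
      rw [apiC_lift_bas S, ← mul_assoc, e0.eq, mul_assoc, eo]
      by_cases ho : o ∈ S
      · have e1 : gn (.inr o) (bas S m : Sp E O) = 0 := by
          funext T
          rw [gn, H29.wedge_apply, bas, 
            Pi.single_eq_of_ne fun h : T.erase o = S => notMem_erase o T (by rwa [h]),
            smul_zero, ite_self, Pi.zero_apply]
        have e2 : ρ (.inr o) * ρ (.inr o) = 0 := by
          have h2 : (2 : ℂ) • (ρ (.inr o) * ρ (.inr o)) = 0 := by
            rw [two_smul, add_eq_zero_iff_eq_neg]
            exact ha o o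
          exact (smul_eq_zero.1 h2).resolve_left two_ne_zero
        rw [e1, map_zero, apiC_od0 (fun i => ρ (.inr ((Fintype.equivFin O).symm i))) _
          (fun x => ha _ _) (by rw [← eo]; exact e2) (fun i => (Fintype.equivFin O).symm i ∈ S)
          (by simpa using ho) _ (List.mem_finRange _), mul_zero]
      · have e1 : gn (.inr o) (bas S m : Sp E O) = sgn o S • bas (insert o S) m := by
          funext T
          rw [gn, H29.wedge_apply, bas, bas, Pi.smul_apply]
          by_cases h : T = insert o S
          · rw [h, if_pos (mem_insert_self o S), erase_insert ho, Pi.single_eq_same,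
              Pi.single_eq_same, H29.sgn_insert o o ho, H29.eps_self, one_mul]
          · rw [Pi.single_eq_of_ne h, smul_zero]
            split_ifs with h'
            · rw [Pi.single_eq_of_ne fun e => h (by rw [← e, insert_erase h']), smul_zero]
            · rfl
        rw [e1, map_smul, apiC_lift_bas, apiC_od1
          (fun i => ρ (.inr ((Fintype.equivFin O).symm i))) _ (fun x => ha _ _)
          (fun i => (Fintype.equivFin O).symm i ∈ S)
          (fun i => (Fintype.equivFin O).symm i ∈ insert o S) (by simpa using ho) (by simp)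
          (fun x hx => by
            rw [mem_insert, or_iff_right]
            exact fun h => hx (by rw [← h, Equiv.apply_symm_apply]))
          _ (List.pairwise_lt_finRange _) (List.mem_finRange _), ← apiC_sgn, mul_smul_comm]
  have := map_mem_of_bas (L := lift ρ ∘ₗ gn g - LinearMap.mulLeft ℂ (ρ g) ∘ₗ lift ρ) (C := ⊥)
    (fun S m _ => by simpa [sub_eq_zero] using key S m) (apiC_top x)
  simpa [sub_eq_zero] using this

theorem apiC_word (hρ : ∀ g h, ρ g * ρ h = sg (g.isRight && h.isRight) • (ρ h * ρ g))
    (l : List (E ⊕ O)) (x : Sp E O) :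
    lift ρ ((l.map gn).prod x) = (l.map ρ).prod * lift ρ x := by
  induction l with
  | nil => simp
  | cons g l ih =>
    rw [List.map_cons, List.prod_cons, Module.End.mul_apply, lift_gn hρ, ih, List.map_cons,
      List.prod_cons, mul_assoc]

theorem lift_words (hρ : ∀ g h, ρ g * ρ h = sg (g.isRight && h.isRight) • (ρ h * ρ g))
    {m : Module.End ℂ (Sp E O)} (hm : m ∈ words P) (x : Sp E O) :
    lift ρ (m x) = lift ρ (m one) * lift ρ x := by
  induction hm using Submodule.span_induction with
  | mem m hm =>
    obtain ⟨l, -, rfl⟩ := hm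
    rw [apiC_word hρ, apiC_word hρ, lift_one, mul_one]
  | zero => simp
  | add m m' _ _ h h' => simp only [LinearMap.add_apply, map_add, h, h', add_mul]
  | smul a m _ h => simp only [LinearMap.smul_apply, map_smul, h, smul_mul_assoc]

theorem lift_gn_one (x : Sp E O) : lift gn x one = x := by
  have h := mono_ind (A := fun _ : E ⊕ O => True)
    (C := LinearMap.eqLocus (LinearMap.applyₗ one ∘ₗ lift gn) LinearMap.id)
    (by simp [LinearMap.mem_eqLocus, lift_one]) fun g _ y _ hy => by
      have hy' : lift gn y one = y := hy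
      change lift gn (gn g y) one = gn g y
      rw [lift_gn gn_mul_gn, Module.End.mul_apply, hy']
  exact h (mono_le (fun _ _ _ _ => trivial) (apiC_top x))

theorem lift_gn_words {m : Module.End ℂ (Sp E O)} (hm : m ∈ words P) : lift gn (m one) = m := by
  induction hm using Submodule.span_induction with
  | mem m hm =>
    obtain ⟨l, -, rfl⟩ := hm
    rw [apiC_word gn_mul_gn, lift_one, mul_one]
  | zero => simp
  | add m m' _ _ h h' => simp only [LinearMap.add_apply, map_add, h, h']
  | smul a m _ h => simp only [LinearMap.smul_apply, map_smul, h]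

/-- The multiplication operators form a subalgebra. -/
noncomputable def wordsA : Subalgebra ℂ (Module.End ℂ (Sp E O)) where
  carrier := {m | m ∈ words fun _ => True}
  mul_mem' h h' := mul_mem_words (P := fun _ => True) (P' := fun _ => True)
    (P'' := fun _ => True) h h' fun _ _ _ _ => trivial
  add_mem' h h' := Submodule.add_mem (words fun _ => True) h h'
  algebraMap_mem' r := by
    rw [Algebra.algebraMap_eq_smul_one]
    exact Submodule.smul_mem (words fun _ => True) r (one_mem_words trivial)

/-- Substitution as an algebra map on multiplication operators. -/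
noncomputable def liftA (hρ : ∀ g h, ρ g * ρ h = sg (g.isRight && h.isRight) • (ρ h * ρ g)) :
    (wordsA : Subalgebra ℂ (Module.End ℂ (Sp E O))) →ₐ[ℂ] R where
  toFun m := lift ρ (m.1 one)
  map_one' := lift_one
  map_mul' m m' := by
    rw [Subalgebra.coe_mul, Module.End.mul_apply]
    exact lift_words (P := fun _ => True) hρ m.2 _
  map_zero' := map_zero _
  map_add' m m' := by rw [Subalgebra.coe_add, LinearMap.add_apply, map_add]
  commutes' r := by
    change lift ρ (r • one) = _
    rw [map_smul, lift_one, Algebra.algebraMap_eq_smul_one]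

theorem finite_deg (n : ℕ) :
    FiniteDimensional ℂ (mono fun μ : E ⊕ O → ℕ => ∑ g, μ g ≤ n) := by
  have hf := ((Set.finite_univ (α := Finset O)).prod
    (Finsupp.finite_of_degree_le (σ := E) n)).image fun a => (bas a.1 a.2 : Sp E O)
  have := FiniteDimensional.span_of_finite ℂ hf
  refine @Submodule.finiteDimensional_of_le _ _ _ _ _ _ _ this (mono_le_of_bas fun S m h =>
    Submodule.subset_span ⟨(S, m), ⟨Set.mem_univ _, ?_⟩, rfl⟩)
  rw [Fintype.sum_sum_type] at h
  change Finsupp.degree m ≤ n
  rw [Finsupp.degree_eq_sum]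
  exact le_trans (Nat.le_add_right _ _) h

theorem exists_deg (x : Sp E O) : ∃ n : ℕ, x ∈ mono fun μ => ∑ g, μ g ≤ n :=
  ⟨univ.sup fun S => (x S).support.sup fun m => ∑ g, ex S m g, mem_mono.2 fun S _ h =>
    (Finset.le_sup (f := fun m => ∑ g, ex S m g) (mem_support_iff.2 h)).trans
      (Finset.le_sup (f := fun S => (x S).support.sup fun m => ∑ g, ex S m g) (mem_univ S))⟩

/-- A monomial has at most `card O` odd factors. -/
theorem mono_odd_le (x : Sp E O) : x ∈ mono fun μ => ∑ o, μ (.inr o) ≤ Fintype.card O := by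
  refine mem_mono.2 fun S m _ => ?_
  rw [← card_univ, card_eq_sum_ones]
  refine sum_le_sum fun o _ => ?_
  change (if o ∈ S then 1 else 0) ≤ 1
  split_ifs <;> simp

omit [Fintype E] [Fintype O] in
open Classical in
theorem apiC_kill (K : E ⊕ O → Prop) (f : MvPolynomial E ℂ) (m : E →₀ ℕ) :
    coeff m (kill K f) = if ¬ has K (ex ∅ m) then coeff m f else 0 := by
  induction f using MvPolynomial.induction_on' with
  | add p q hp hq =>
    rw [map_add, coeff_add, coeff_add, hp, hq]
    split_ifs <;> simp
  | monomial n a =>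
    have e : kill K (monomial n a) = if ¬ has K (ex ∅ n) then monomial n a else 0 := by
      rw [kill, aeval_monomial]
      split_ifs with h
      · obtain ⟨e | o, h1, h2⟩ := h
        · rw [Finsupp.prod, Finset.prod_eq_zero (Finsupp.mem_support_iff.2 h2)
            (by rw [if_pos h1]; exact zero_pow h2), mul_zero]
        · simp [ex] at h2
      · rw [monomial_eq, algebraMap_eq]
        congr 1
        refine Finsupp.prod_congr fun e he => ?_
        rw [if_neg fun h1 => h ⟨.inl e, h1, Finsupp.mem_support_iff.1 he⟩]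
    rw [e]
    by_cases hn : n = m
    · subst hn
      split_ifs <;> simp
    · split_ifs <;> simp [coeff_monomial, hn]

theorem kill_sub (K : E ⊕ O → Prop) (f : MvPolynomial E ℂ) :
    (pol (f - kill K f) : Sp E O) ∈ mono (has K) ∧
      pol (kill K f) = proj (fun μ => ¬ has K μ) (pol f : Sp E O) := by
  classical
  have h : pol (kill K f) = proj (fun μ => ¬ has K μ) (pol f : Sp E O) := by
    funext S
    ext m
    rw [coeff_proj, pol, pol]
    by_cases hS : S = ∅
    · rw [hS, Pi.single_eq_same, Pi.single_eq_same, apiC_kill]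
    · rw [Pi.single_eq_of_ne hS, Pi.single_eq_of_ne hS, coeff_zero, ite_self]
  refine ⟨?_, h⟩
  have e : (pol (f - kill K f) : Sp E O) = pol f - pol (kill K f) := Pi.single_sub _ _ _
  rw [e, h]
  exact mono_le (fun _ => not_not.1) (sub_proj_mem _)

/-- Nullstellensatz with a set `A` of relevant variables. -/
theorem nullst (A : E → Prop) (I : Ideal (MvPolynomial E ℂ))
    (h : ∀ y : E → ℂ, (∀ e, ¬ A e → y e = 0) → ∃ p ∈ I, eval y p ≠ 0) :
    ∃ p ∈ I, (1 - p) ∈ Ideal.span {q | ∃ e, ¬ A e ∧ q = X e} := by
  by_cases ht : I ⊔ Ideal.span {q | ∃ e, ¬ A e ∧ q = X e} = ⊤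
  · obtain ⟨p, hp, q, hq, e⟩ := Submodule.mem_sup.1 ((Ideal.eq_top_iff_one _).1 ht)
    exact ⟨p, hp, by rwa [← e, add_sub_cancel_left]⟩
  · obtain ⟨M, hM, hle⟩ := Ideal.exists_le_maximal _ ht
    obtain ⟨y, rfl⟩ := isMaximal_iff_eq_vanishingIdeal_singleton.1 hM
    obtain ⟨p, hp, hy⟩ := h y fun e he => by
      have := (mem_vanishingIdeal_singleton_iff y _).1
        (hle (Ideal.mem_sup_right (Ideal.subset_span ⟨e, he, rfl⟩)))
      rwa [aeval_X] at this
    exact (hy ((mem_vanishingIdeal_singleton_iff y _).1 (hle (Ideal.mem_sup_left hp)))).elim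

end

section Shl

variable {Γ A : Type} [AddCommGroup Γ] [AddCommGroup A]

theorem shl_nil (χ : Γ → A) : shl [] χ = χ := rfl

theorem shl_cons (β : Γ) (L : List Γ) (χ : Γ → A) (g : Γ) :
    shl (β :: L) χ g = shl L χ g - shl L χ (g - β) := rfl

theorem shl_append (L L' : List Γ) (χ : Γ → A) : shl (L ++ L') χ = shl L (shl L' χ) :=
  List.foldr_append

theorem shl_perm {L L' : List Γ} (h : L.Perm L') (χ : Γ → A) : shl L χ = shl L' χ := by
  induction h with
  | nil => rfl
  | cons β _ ih => funext g; rw [shl_cons, shl_cons, ih]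
  | swap β β' L =>
    funext g
    simp only [shl_cons, sub_right_comm g β β']
    abel
  | trans _ _ h h' => exact h.trans h'

theorem shl_comm (L L' : List Γ) (χ : Γ → A) : shl L (shl L' χ) = shl L' (shl L χ) := by
  rw [← shl_append, ← shl_append, shl_perm List.perm_append_comm]

theorem shl_add (L : List Γ) (χ χ' : Γ → A) : shl L (χ + χ') = shl L χ + shl L χ' := by
  induction L with
  | nil => rfl
  | cons β L ih =>
    funext g
    simp only [shl_cons, ih, Pi.add_apply]
    abel

theorem shl_sum {ι : Type} (s : Finset ι) (L : List Γ) (χ : ι → Γ → A) (g : Γ) :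
    shl L (fun γ => ∑ i ∈ s, χ i γ) g = ∑ i ∈ s, shl L (χ i) g := by
  induction L generalizing g with
  | nil => rfl
  | cons β L ih => simp only [shl_cons, ih, Finset.sum_sub_distrib]

theorem shl_shift (L : List Γ) (χ : Γ → A) (κ g : Γ) :
    shl L (fun γ => χ (γ - κ)) g = shl L χ (g - κ) := by
  induction L generalizing g with
  | nil => rfl
  | cons β L ih => simp only [shl_cons, ih, sub_right_comm g β κ]

theorem shl_map {A' : Type} [AddCommGroup A'] (π : A →+ A') (L : List Γ) (χ : Γ → A) (g : Γ) :
    shl L (fun γ => π (χ γ)) g = π (shl L χ g) := by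
  induction L generalizing g with
  | nil => rfl
  | cons β L ih => simp only [shl_cons, ih, map_sub]

/-- The value of `shl L χ` at `g` depends only on finitely many values of `χ` on `g + H`. -/
theorem shl_dep (H : AddSubgroup Γ) (L : List Γ) (hL : ∀ β ∈ L, β ∈ H) (g : Γ) :
    ∃ s : Finset Γ, (∀ γ ∈ s, γ - g ∈ H) ∧
      ∀ χ χ' : Γ → A, (∀ γ ∈ s, χ γ = χ' γ) → shl L χ g = shl L χ' g := by
  classical
  induction L generalizing g with
  | nil => exact ⟨{g}, by simp, fun χ χ' h => h g (mem_singleton_self g)⟩
  | cons β L ih =>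
    have hL' : ∀ β' ∈ L, β' ∈ H := fun β' h => hL β' (List.mem_cons_of_mem _ h)
    obtain ⟨s, h1, h2⟩ := ih hL' g
    obtain ⟨t, h3, h4⟩ := ih hL' (g - β)
    refine ⟨s ∪ t, fun γ h => ?_, fun χ χ' h => ?_⟩
    · rcases mem_union.1 h with h | h
      · exact h1 γ h
      · have := H.sub_mem (h3 γ h) (hL β List.mem_cons_self)
        rwa [show γ - (g - β) - β = γ - g by abel] at this
    · rw [shl_cons, shl_cons, h2 χ χ' fun γ hγ => h γ (mem_union_left _ hγ),
        h4 χ χ' fun γ hγ => h γ (mem_union_right _ hγ)]

theorem apiC_bdd (l : Γ →+ ℤ) (L : List Γ) (χ : Γ → A) (C : ℤ) (hC : ∀ γ, C < l γ → χ γ = 0) :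
    ∃ C' : ℤ, ∀ γ, C' < l γ → shl L χ γ = 0 := by
  induction L with
  | nil => exact ⟨C, hC⟩
  | cons β L ih =>
    obtain ⟨C', h⟩ := ih
    refine ⟨C' + |l β|, fun γ hγ => ?_⟩
    have h1 := abs_nonneg (l β)
    have h2 := le_abs_self (l β)
    rw [shl_cons, h γ (by omega), h (γ - β) (by rw [map_sub]; omega), sub_zero]

/-- Injectivity on functions bounded on one side. -/
theorem shl_inj (l : Γ →+ ℤ) (L : List Γ) (hL : ∀ β ∈ L, l β ≠ 0) (χ : Γ → A) (C : ℤ)
    (hC : ∀ γ, C < l γ → χ γ = 0) (h : shl L χ = 0) : χ = 0 := by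
  induction L with
  | nil => exact h
  | cons β L ih =>
    refine ih (fun β' h' => hL β' (List.mem_cons_of_mem _ h')) ?_
    obtain ⟨C', hb⟩ := apiC_bdd l L χ C hC
    have hp : Function.Periodic (shl L χ) β := fun g => by
      have := congrFun h (g + β)
      rwa [shl_cons, add_sub_cancel_right, Pi.zero_apply, sub_eq_zero] at this
    funext g
    have h0 : 1 ≤ l β * l β := mul_self_pos.2 (hL β List.mem_cons_self)
    have h1 := abs_nonneg (C' - l g)
    have h2 := le_abs_self (C' - l g)
    rw [← hp.zsmul ((|C' - l g| + 1) * l β) g]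
    refine hb _ ?_
    rw [map_add, map_zsmul, smul_eq_mul]
    nlinarith

theorem shl_coeff (L : List G) (f : K) (g : G) :
    shl L f.coeff g = ((L.map fun β => 1 - mon β).prod * f).coeff g := by
  induction L generalizing g with
  | nil => simp [shl_nil]
  | cons β L ih =>
    rw [shl_cons, ih, ih, List.map_cons, List.prod_cons, mul_assoc, sub_mul, one_mul,
      HahnSeries.coeff_sub, mon, HahnSeries.coeff_single_mul, one_mul]

/-- Summing a recurrence over an auxiliary grading. -/
theorem shl_proj (L : List (Γ × ℤ)) (χ : Γ × ℤ → A)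
    (hχ : ∀ γ, (Function.support fun k => χ (γ, k)).Finite) (g : Γ) :
    (Function.support fun k => shl L χ (g, k)).Finite ∧
      shl (L.map Prod.fst) (fun γ => ∑ᶠ k, χ (γ, k)) g = ∑ᶠ k, shl L χ (g, k) := by
  induction L generalizing g with
  | nil => exact ⟨hχ g, rfl⟩
  | cons β L ih =>
    obtain ⟨h1, h2⟩ := ih g
    obtain ⟨h3, h4⟩ := ih (g - β.1)
    have e : ∀ k, shl (β :: L) χ (g, k) = shl L χ (g, k) - shl L χ (g - β.1, k - β.2) :=
      fun _ => rfl
    have h5 : (Function.support fun k => shl L χ (g - β.1, k - β.2)).Finite :=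
      h3.preimage (f := fun k => k - β.2) sub_left_injective.injOn
    simp only [e]
    refine ⟨(h1.union h5).subset (Function.support_sub _ _), ?_⟩
    rw [List.map_cons, shl_cons, h2, h4, finsum_sub_distrib h1 h5,
      ← finsum_comp_equiv (Equiv.subRight β.2) (f := fun k => shl L χ (g - β.1, k))]
    rfl

end Shl

end Pool.Agent.MP_8be872_ag.H63
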