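import Pool.Agent.MP_8be872_ag.H63.Base

/-! Homological algebra of `ℤ/2`-graded subquotient complexes. -/

namespace Pool.Agent.MP_8be872_ag.H63

open Finset

namespace TL

variable {M P : Type} [AddCommGroup M] [Module ℂ M] [AddCommGroup P] [Module ℂ P]

/-- The dimension of the subquotient `C / (C ⊓ N)`. -/
noncomputable def sq (C N : Submodule ℂ M) : Cardinal :=
  Module.rank ℂ (↥C ⧸ N.submoduleOf C)

theorem rank_map (S : Submodule ℂ P) (g : P →ₗ[ℂ] M) :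
    Module.rank ℂ (S.map g) = sq S (LinearMap.ker g) := by
  have h := (LinearMap.quotKerEquivRange (g.comp S.subtype)).rank_eq
  rw [LinearMap.range_comp, Submodule.range_subtype] at h
  exact h.symm

theorem sq_eq (C N : Submodule ℂ M) : sq C N = Module.rank ℂ (C.map N.mkQ) := by
  rw [rank_map, Submodule.ker_mkQ]

theorem sq_map {C N : Submodule ℂ M} (f : P →ₗ[ℂ] M) (S : Submodule ℂ P)
    (h1 : ∀ r ∈ S, ∃ x ∈ C, f r - x ∈ N) (h2 : ∀ x ∈ C, ∃ r ∈ S, x - f r ∈ N) :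
    sq C N = sq S (N.comap f) := by
  have e : C.map N.mkQ = S.map (N.mkQ.comp f) := by
    apply le_antisymm
    · rintro _ ⟨x, hx, rfl⟩
      obtain ⟨r, hr, h⟩ := h2 x hx
      exact ⟨r, hr, ((Submodule.Quotient.eq N).2 h).symm⟩
    · rintro _ ⟨r, hr, rfl⟩
      obtain ⟨x, hx, h⟩ := h1 r hr
      exact ⟨x, hx, ((Submodule.Quotient.eq N).2 h).symm⟩
  rw [sq_eq, e, rank_map, LinearMap.ker_comp, Submodule.ker_mkQ]

theorem sq_id {C S N : Submodule ℂ M} (h1 : S ≤ C) (h2 : ∀ x ∈ C, ∃ r ∈ S, x - r ∈ N) :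
    sq C N = sq S N :=
  sq_map LinearMap.id S (fun r hr => ⟨r, h1 hr, by simp⟩) h2

theorem sq_congr {S N N' : Submodule ℂ M} (h : ∀ x ∈ S, x ∈ N ↔ x ∈ N') : sq S N = sq S N' := by
  have e : N.submoduleOf S = N'.submoduleOf S := by
    ext x
    exact h x.1 x.2
  rw [sq, sq, e]

theorem sq_mono {C C' : Submodule ℂ M} (N : Submodule ℂ M) (h : C ≤ C') : sq C N ≤ sq C' N := by
  rw [sq_eq, sq_eq]
  exact Submodule.rank_mono (Submodule.map_mono h)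

theorem sq_add {C N K : Submodule ℂ M} (h : ∀ x ∈ C, x ∈ N → x ∈ K) :
    sq C N = sq (C ⊓ K) N + sq C K := by
  have hle : N.submoduleOf C ≤ K.submoduleOf C := fun x hx => h x.1 x.2 hx
  have h1 := Submodule.rank_quotient_add_rank ((K.submoduleOf C).map (N.submoduleOf C).mkQ)
  rw [(Submodule.quotientQuotientEquivQuotient _ _ hle).rank_eq, ← sq_eq] at h1
  have h2 : sq (C ⊓ K) N = sq (K.submoduleOf C) (N.comap C.subtype) :=
    sq_map C.subtype _ (fun r hr => ⟨r.1, ⟨r.2, hr⟩, by simp⟩)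
      fun x hx => ⟨⟨x, hx.1⟩, hx.2, by simp⟩
  rw [h2, add_comm]
  exact h1.symm

theorem sq_zero {C N : Submodule ℂ M} : sq C N = 0 ↔ C ≤ N := by
  rw [sq, rank_zero_iff, Submodule.Quotient.subsingleton_iff, Submodule.submoduleOf_eq_top]

theorem mem_bd {D : Module.End ℂ M} {Z B : Submodule ℂ M} {x : M} :
    x ∈ Z.map D ⊔ B ↔ ∃ y ∈ Z, x - D y ∈ B := by
  rw [Submodule.mem_sup]
  constructor
  · rintro ⟨_, ⟨y, hy, rfl⟩, b, hb, rfl⟩
    exact ⟨y, hy, by simpa using hb⟩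
  · rintro ⟨y, hy, h⟩
    exact ⟨_, ⟨y, hy, rfl⟩, _, h, by simp⟩

theorem hDim_eq (D : Module.End ℂ M) (Z : Bool → Submodule ℂ M) (B : Submodule ℂ M) (p : Bool) :
    hDim D Z B p = sq (Z p ⊓ B.comap D) ((Z (!p)).map D ⊔ B) := rfl

theorem acy_iff {D : Module.End ℂ M} {Z : Bool → Submodule ℂ M} {B : Submodule ℂ M} :
    Acy D Z B ↔ ∀ p, hDim D Z B p = 0 := by
  refine forall_congr' fun p => ?_
  rw [hDim_eq, sq_zero]
  exact ⟨fun h x hx => mem_bd.2 (h x hx.1 hx.2), fun h x h1 h2 => mem_bd.1 (h ⟨h1, h2⟩)⟩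

theorem of_sub {B : Submodule ℂ M} {x y : M} (h : x - y ∈ B) (hy : y ∈ B) : x ∈ B := by
  simpa using B.add_mem h hy

theorem of_sub' {B : Submodule ℂ M} {x y : M} (h : x - y ∈ B) (hx : x ∈ B) : y ∈ B := by
  simpa using B.sub_mem hx h

theorem of_eq {B : Submodule ℂ M} {x y : M} (h : x ∈ B) (e : y = x) : y ∈ B := e ▸ h

theorem mapZ' {D : Module.End ℂ M} {Z : Bool → Submodule ℂ M}
    (h : ∀ p, ∀ x ∈ Z p, D x ∈ Z (!p)) (p : Bool) (x : M) (hx : x ∈ Z (!p)) : D x ∈ Z p := by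
  simpa using h _ x hx

end TL

open TL

variable {M M' : Type} [AddCommGroup M] [Module ℂ M] [AddCommGroup M'] [Module ℂ M']
  {D : Module.End ℂ M} {Z Y : Bool → Submodule ℂ M} {B B' : Submodule ℂ M}

theorem HasChi.unique {a b : ℤ} (h : HasChi D Z B a) (h' : HasChi D Z B b) : a = b :=
  h.2.symm.trans h'.2

theorem Acy.hasChi (h : Acy D Z B) : HasChi D Z B 0 := by
  have h0 := acy_iff.1 h
  refine ⟨fun p => ?_, ?_⟩
  · rw [h0]; exact Cardinal.aleph0_pos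
  · rw [h0, h0]; simp

theorem acy_of_le (h : ∀ p, Z p ≤ B) : Acy D Z B :=
  fun p x hx _ => ⟨0, zero_mem _, by simpa using h p hx⟩

/-- `Y` is a subcomplex of `Z / B` and `Z / B'` is the quotient. -/
structure Ses (D : Module.End ℂ M) (Z Y : Bool → Submodule ℂ M) (B B' : Submodule ℂ M) : Prop where
  cx : IsCx D Z B
  le : ∀ p, Y p ≤ Z p
  stab : ∀ p, ∀ x ∈ Y p, D x ∈ Y (!p)
  quo : ∀ p, ∀ x ∈ Z p, x ∈ B' ↔ ∃ y ∈ Y p, x - y ∈ B

theorem Ses.ofB (h : Ses D Z Y B B') (p : Bool) (x : M) (hx : x ∈ Z p) (hb : x ∈ B) : x ∈ B' :=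
  (h.quo p x hx).2 ⟨0, zero_mem _, by simpa using hb⟩

theorem Ses.ofY (h : Ses D Z Y B B') (p : Bool) (x : M) (hx : x ∈ Y p) : x ∈ B' :=
  (h.quo p x (h.le p hx)).2 ⟨x, hx, by simp⟩

theorem Ses.cxQ (h : Ses D Z Y B B') : IsCx D Z B' := by
  refine ⟨h.cx.mapZ, fun p x hx hb => ?_, fun p x hx => ?_⟩
  · obtain ⟨y, hy, hxy⟩ := (h.quo p x hx).1 hb
    refine (h.quo _ _ (h.cx.mapZ p x hx)).2 ⟨D y, h.stab p y hy, ?_⟩
    rw [← map_sub]
    exact h.cx.mapB p _ (sub_mem hx (h.le p hy)) hxy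
  · exact h.ofB _ _ (h.cx.mapZ _ _ (h.cx.mapZ p x hx)) (h.cx.sq p x hx)

theorem Ses.cxS (h : Ses D Z Y B B') : IsCx D Y B :=
  ⟨h.stab, fun p x hx => h.cx.mapB p x (h.le p hx), fun p x hx => h.cx.sq p x (h.le p hx)⟩

/-- The long exact sequence, in terms of dimensions. -/
theorem Ses.card (h : Ses D Z Y B B') : ∃ a b c : Bool → Cardinal, ∀ p,
    hDim D Z B p = a p + b p ∧ hDim D Z B' p = b p + c (!p) ∧ hDim D Y B p = c p + a p := by
  refine ⟨fun p => sq (Y p ⊓ B.comap D) ((Z (!p)).map D ⊔ B),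
    fun p => sq (Z p ⊓ B.comap D) ((Z (!p)).map D ⊔ B'),
    fun p => sq (Y p ⊓ B.comap D ⊓ ((Z (!p)).map D ⊔ B)) ((Y (!p)).map D ⊔ B), fun p => ?_⟩
  have hZ' := mapZ' h.cx.mapZ
  refine ⟨?_, ?_, ?_⟩
  · rw [hDim_eq, sq_add (K := (Z (!p)).map D ⊔ B')]
    · refine congrArg (· + _) (sq_id ?_ ?_)
      · exact fun x hx => ⟨⟨h.le p hx.1, hx.2⟩, Submodule.mem_sup_right (h.ofY p x hx.1)⟩
      · rintro x ⟨⟨hx, hd⟩, hn⟩
        obtain ⟨z, hz, hb⟩ := mem_bd.1 hn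
        have h1 : x - D z ∈ Z p := sub_mem hx (hZ' p z hz)
        obtain ⟨y, hy, hxy⟩ := (h.quo p _ h1).1 hb
        have h2 := h.cx.mapB p _ (sub_mem h1 (h.le p hy)) hxy
        rw [map_sub, map_sub] at h2
        have h3 : D y ∈ B := of_sub' h2 (B.sub_mem hd (h.cx.sq _ z hz))
        exact ⟨y, ⟨hy, h3⟩,
          mem_bd.2 ⟨z, hz, of_eq hxy (by abel)⟩⟩
    · rintro x ⟨hx, -⟩ hn
      obtain ⟨z, hz, hb⟩ := mem_bd.1 hn
      exact mem_bd.2 ⟨z, hz, h.ofB p _ (sub_mem hx (hZ' p z hz)) hb⟩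
  · rw [hDim_eq, sq_add (K := ((Y p).map D ⊔ B).comap D)]
    · refine congrArg₂ (· + ·) (sq_id ?_ ?_) ?_
      · exact fun x hx => ⟨⟨hx.1, h.ofB _ _ (h.cx.mapZ p x hx.1) hx.2⟩,
          Submodule.mem_sup_right hx.2⟩
      · rintro x ⟨⟨hx, -⟩, hn⟩
        obtain ⟨y, hy, hb⟩ := mem_bd.1 hn
        refine ⟨x - y, ⟨sub_mem hx (h.le p hy), ?_⟩, Submodule.mem_sup_right ?_⟩
        · show D (x - y) ∈ B
          rwa [map_sub]
        · simpa using h.ofY p y hy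
      · simp only [Bool.not_not]
        rw [← sq_map (C := Z (!p) ⊓ B' ⊓ ((Z p).map D ⊔ B)) D]
        · refine sq_id ?_ ?_
          · exact fun y hy => ⟨⟨h.le _ hy.1.1, h.ofY _ y hy.1.1⟩, hy.2⟩
          · rintro w ⟨⟨hw, hb⟩, hn⟩
            obtain ⟨y, hy, hwy⟩ := (h.quo _ w hw).1 hb
            obtain ⟨z, hz, hwz⟩ := mem_bd.1 hn
            have h1 := h.cx.mapB _ _ (sub_mem hw (h.cx.mapZ p z hz)) hwz
            have h2 := h.cx.mapB _ _ (sub_mem hw (h.le _ hy)) hwy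
            rw [map_sub] at h1 h2
            have h3 : D y ∈ B := of_sub' h2 (of_sub h1 (h.cx.sq p z hz))
            exact ⟨y, ⟨⟨hy, h3⟩,
              of_sub' (Submodule.mem_sup_right hwy) hn⟩, Submodule.mem_sup_right hwy⟩
        · exact fun x hx => ⟨D x, ⟨⟨h.cx.mapZ p x hx.1, hx.2⟩,
            mem_bd.2 ⟨x, hx.1, by simp⟩⟩, by simp⟩
        · rintro w ⟨⟨hw, hb⟩, hn⟩
          obtain ⟨z, hz, hwz⟩ := mem_bd.1 hn
          have h3 : D z ∈ B' := of_sub' (h.ofB _ _ (sub_mem hw (h.cx.mapZ p z hz)) hwz) hb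
          exact ⟨z, ⟨hz, h3⟩, Submodule.mem_sup_right hwz⟩
    · rintro x ⟨hx, -⟩ hn
      obtain ⟨z, hz, hb⟩ := mem_bd.1 hn
      have h1 : x - D z ∈ Z p := sub_mem hx (hZ' p z hz)
      obtain ⟨y, hy, hxy⟩ := (h.quo p _ h1).1 hb
      have h2 := h.cx.mapB p _ (sub_mem h1 (h.le p hy)) hxy
      rw [map_sub, map_sub] at h2
      exact mem_bd.2 ⟨y, hy, of_eq (add_mem h2 (h.cx.sq _ z hz)) (by abel)⟩
  · rw [hDim_eq, sq_add (K := (Z (!p)).map D ⊔ B)]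
    rintro x - hn
    obtain ⟨y, hy, hb⟩ := mem_bd.1 hn
    exact mem_bd.2 ⟨y, h.le _ hy, hb⟩

/-- Finiteness of two of the three terms gives the numerical form. -/
theorem Ses.nat (h : Ses D Z Y B B')
    (hf : (∀ p, hDim D Y B p < Cardinal.aleph0) ∧ (∀ p, hDim D Z B' p < Cardinal.aleph0) ∨
      (∀ p, hDim D Z B p < Cardinal.aleph0) ∧ (∀ p, hDim D Y B p < Cardinal.aleph0) ∨
      (∀ p, hDim D Z B p < Cardinal.aleph0) ∧ ∀ p, hDim D Z B' p < Cardinal.aleph0) :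
    ∃ u v : ℤ, HasChi D Y B u ∧ HasChi D Z B' v ∧ HasChi D Z B (u + v) := by
  obtain ⟨a, b, c, e⟩ := h.card
  have key : ∀ p, a p < Cardinal.aleph0 ∧ b p < Cardinal.aleph0 ∧ c p < Cardinal.aleph0 := by
    intro p
    have e1 := e p
    have e2 := (e (!p)).2.1
    rw [Bool.not_not] at e2
    rcases hf with ⟨h1, h2⟩ | ⟨h1, h2⟩ | ⟨h1, h2⟩
    · have i1 := Cardinal.add_lt_aleph0_iff.1 (e1.2.2 ▸ h1 p)
      exact ⟨i1.2, (Cardinal.add_lt_aleph0_iff.1 (e1.2.1 ▸ h2 p)).1, i1.1⟩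
    · have i1 := Cardinal.add_lt_aleph0_iff.1 (e1.1 ▸ h1 p)
      exact ⟨i1.1, i1.2, (Cardinal.add_lt_aleph0_iff.1 (e1.2.2 ▸ h2 p)).1⟩
    · have i1 := Cardinal.add_lt_aleph0_iff.1 (e1.1 ▸ h1 p)
      exact ⟨i1.1, i1.2, (Cardinal.add_lt_aleph0_iff.1 (e2 ▸ h2 (!p))).2⟩
  refine ⟨_, _, ⟨fun p => ?_, rfl⟩, ⟨fun p => ?_, rfl⟩, fun p => ?_, ?_⟩
  · rw [(e p).2.2]; exact Cardinal.add_lt_aleph0 (key p).2.2 (key p).1
  · rw [(e p).2.1]; exact Cardinal.add_lt_aleph0 (key p).2.1 (key _).2.2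
  · rw [(e p).1]; exact Cardinal.add_lt_aleph0 (key p).1 (key p).2.1
  · rw [(e false).1, (e true).1, (e false).2.1, (e true).2.1, (e false).2.2, (e true).2.2]
    simp only [Bool.not_false, Bool.not_true]
    rw [Cardinal.toNat_add (key _).1 (key _).2.1, Cardinal.toNat_add (key _).1 (key _).2.1,
      Cardinal.toNat_add (key _).2.2 (key _).1, Cardinal.toNat_add (key _).2.2 (key _).1,
      Cardinal.toNat_add (key _).2.1 (key _).2.2, Cardinal.toNat_add (key _).2.1 (key _).2.2]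
    push_cast
    ring

variable (h : Ses D Z Y B B') {a b c : ℤ}
include h

theorem Ses.chi_mid (ha : HasChi D Y B a) (hb : HasChi D Z B' b) : HasChi D Z B (a + b) := by
  obtain ⟨u, v, h1, h2, h3⟩ := h.nat (Or.inl ⟨ha.1, hb.1⟩)
  rwa [ha.unique h1, hb.unique h2]

theorem Ses.chi_quo (hc : HasChi D Z B c) (ha : HasChi D Y B a) : HasChi D Z B' (c - a) := by
  obtain ⟨u, v, h1, h2, h3⟩ := h.nat (Or.inr (Or.inl ⟨hc.1, ha.1⟩))
  rwa [ha.unique h1, hc.unique h3, add_sub_cancel_left]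

theorem Ses.chi_sub (hc : HasChi D Z B c) (hb : HasChi D Z B' b) : HasChi D Y B (c - b) := by
  obtain ⟨u, v, h1, h2, h3⟩ := h.nat (Or.inr (Or.inr ⟨hc.1, hb.1⟩))
  rwa [hb.unique h2, hc.unique h3, add_sub_cancel_right]

theorem Ses.acy_mid (ha : Acy D Y B) (hb : Acy D Z B') : Acy D Z B := by
  obtain ⟨a, b, c, e⟩ := h.card
  rw [acy_iff] at *
  intro p
  rw [(e p).1, (add_eq_zero.1 ((e p).2.2.symm.trans (ha p))).2,
    (add_eq_zero.1 ((e p).2.1.symm.trans (hb p))).1, add_zero]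

theorem Ses.acy_quo (hc : Acy D Z B) (ha : Acy D Y B) : Acy D Z B' := by
  obtain ⟨a, b, c, e⟩ := h.card
  rw [acy_iff] at *
  intro p
  rw [(e p).2.1, (add_eq_zero.1 ((e p).1.symm.trans (hc p))).2,
    (add_eq_zero.1 ((e _).2.2.symm.trans (ha _))).1, add_zero]

theorem Ses.acy_sub (hc : Acy D Z B) (hb : Acy D Z B') : Acy D Y B := by
  obtain ⟨a, b, c, e⟩ := h.card
  rw [acy_iff] at *
  intro p
  have e2 := (add_eq_zero.1 ((e (!p)).2.1.symm.trans (hb _))).2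
  rw [Bool.not_not] at e2
  rw [(e p).2.2, (add_eq_zero.1 ((e p).1.symm.trans (hc p))).1, e2, add_zero]

omit h

/-- A chain map up to nonzero scalars, shifting the parity by `s`. -/
structure ChMap (ψ : M' →ₗ[ℂ] M) (s : Bool) (D' : Module.End ℂ M') (Z' : Bool → Submodule ℂ M')
    (B'' : Submodule ℂ M') (D : Module.End ℂ M) (Z : Bool → Submodule ℂ M) (B : Submodule ℂ M) :
    Prop where
  cx' : IsCx D' Z' B''
  cx : IsCx D Z B
  mapZ : ∀ p, ∀ x ∈ Z' p, ∃ y ∈ Z (xor p s), ψ x - y ∈ B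
  mapB : ∀ p, ∀ x ∈ Z' p, x ∈ B'' → ψ x ∈ B
  comm : ∀ p, ∃ u : ℂ, u ≠ 0 ∧ ∀ x ∈ Z' p, ∀ y ∈ Z (xor p s), ψ x - y ∈ B → ψ (D' x) - u • D y ∈ B

variable {ψ : M' →ₗ[ℂ] M} {s : Bool} {D' : Module.End ℂ M'} {Z' : Bool → Submodule ℂ M'}
  {B'' : Submodule ℂ M'}

theorem TL.xor_not (p s : Bool) : xor (!p) s = !(xor p s) := by
  cases p <;> cases s <;> rfl

theorem TL.xor_xor (p s : Bool) : xor (xor p s) s = p := by
  cases p <;> cases s <;> rfl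

/-- Quasi-isomorphisms. -/
theorem ChMap.qis (h : ChMap ψ s D' Z' B'' D Z B)
    (surj : ∀ p, ∀ x ∈ Z (xor p s), D x ∈ B →
      ∃ x' ∈ Z' p, D' x' ∈ B'' ∧ ∃ y ∈ Z (!(xor p s)), x - ψ x' - D y ∈ B)
    (inj : ∀ p, ∀ x' ∈ Z' p, D' x' ∈ B'' → (∃ y ∈ Z (!(xor p s)), ψ x' - D y ∈ B) →
      ∃ y' ∈ Z' (!p), x' - D' y' ∈ B'') :
    (∀ n, HasChi D' Z' B'' n ↔ HasChi D Z B (if s then -n else n)) ∧
      (Acy D' Z' B'' ↔ Acy D Z B) := by
  have key : ∀ p, hDim D Z B (xor p s) = hDim D' Z' B'' p := by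
    intro p
    rw [hDim_eq, hDim_eq, sq_map ψ (Z' p ⊓ B''.comap D')]
    · refine sq_congr ?_
      rintro x ⟨hx, hd⟩
      refine ⟨fun hn => mem_bd.2 (inj p x hx hd (mem_bd.1 hn)), fun hn => ?_⟩
      obtain ⟨y', hy', hb⟩ := mem_bd.1 hn
      obtain ⟨y, hy, hyy⟩ := h.mapZ _ y' hy'
      obtain ⟨u, -, hu⟩ := h.comm (!p)
      have h1 := hu y' hy' y hy hyy
      have h2 := h.mapB p _ (sub_mem hx (mapZ' h.cx'.mapZ p y' hy')) hb
      rw [TL.xor_not] at hy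
      refine mem_bd.2 ⟨u • y, Submodule.smul_mem _ _ hy, of_eq (add_mem h2 h1) ?_⟩
      rw [map_sub, map_smul]
      abel
    · rintro x ⟨hx, hd⟩
      obtain ⟨y, hy, hxy⟩ := h.mapZ p x hx
      obtain ⟨u, hu0, hu⟩ := h.comm p
      have h1 : u • D y ∈ B := of_sub' (hu x hx y hy hxy) (h.mapB _ _ (h.cx'.mapZ p x hx) hd)
      exact ⟨y, ⟨hy, (B.smul_mem_iff hu0).1 h1⟩, Submodule.mem_sup_right hxy⟩
    · rintro x ⟨hx, hd⟩
      obtain ⟨x', hx', hd', hy⟩ := surj p x hx hd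
      exact ⟨x', ⟨hx', hd'⟩, mem_bd.2 hy⟩
  have k0 := key false
  have k1 := key true
  unfold HasChi
  simp only [acy_iff, Bool.forall_bool]
  cases s
  · simp only [Bool.xor_false] at k0 k1
    simp [k0, k1]
  · simp only [Bool.xor_true, Bool.not_false, Bool.not_true] at k0 k1
    rw [k0, k1]
    refine ⟨fun n => ?_, and_comm⟩
    rw [and_comm (a := hDim D' Z' B'' false < Cardinal.aleph0)]
    refine and_congr_right fun _ => ?_
    simp only [if_true]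
    omega

/-- Isomorphisms. -/
theorem ChMap.iso (h : ChMap ψ s D' Z' B'' D Z B)
    (surj : ∀ p, ∀ x ∈ Z (xor p s), ∃ x' ∈ Z' p, x - ψ x' ∈ B)
    (inj : ∀ p, ∀ x' ∈ Z' p, ψ x' ∈ B → x' ∈ B'') :
    (∀ n, HasChi D' Z' B'' n ↔ HasChi D Z B (if s then -n else n)) ∧
      (Acy D' Z' B'' ↔ Acy D Z B) := by
  refine h.qis (fun p x hx hd => ?_) fun p x' hx' _ ⟨y, hy, hxy⟩ => ?_
  · obtain ⟨x', hx', hb⟩ := surj p x hx
    obtain ⟨u, -, hu⟩ := h.comm p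
    have h1 := hu x' hx' x hx (of_eq (neg_mem hb) (by abel))
    exact ⟨x', hx', inj _ _ (h.cx'.mapZ p x' hx') (of_sub h1 (B.smul_mem u hd)), 0, zero_mem _,
      by simpa using hb⟩
  · rw [← TL.xor_not] at hy
    obtain ⟨y', hy', hb⟩ := surj _ y hy
    obtain ⟨u, hu0, hu⟩ := h.comm (!p)
    have h1 := hu y' hy' y hy (of_eq (neg_mem hb) (by abel))
    have h2 : u⁻¹ • y' ∈ Z' (!p) := Submodule.smul_mem _ _ hy'
    refine ⟨u⁻¹ • y', h2, inj p _ (sub_mem hx' (mapZ' h.cx'.mapZ p _ h2))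
      (of_eq (sub_mem hxy (B.smul_mem u⁻¹ h1)) ?_)⟩
    rw [map_sub, map_smul, map_smul, smul_sub, smul_smul, inv_mul_cancel₀ hu0, one_smul]
    abel

/-- Isomorphisms when the target is not yet known to be a complex. -/
theorem isCx_of_iso (cx' : IsCx D' Z' B'') (hZ : ∀ p, ∀ x ∈ Z p, D x ∈ Z (!p))
    (comm : ∀ p, ∃ u : ℂ, u ≠ 0 ∧ ∀ x ∈ Z' p, ∀ y ∈ Z (xor p s), ψ x - y ∈ B →
      ψ (D' x) - u • D y ∈ B)
    (mapB : ∀ p, ∀ x ∈ Z' p, x ∈ B'' → ψ x ∈ B)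
    (surj : ∀ p, ∀ x ∈ Z (xor p s), ∃ x' ∈ Z' p, x - ψ x' ∈ B)
    (inj : ∀ p, ∀ x' ∈ Z' p, ψ x' ∈ B → x' ∈ B'') : IsCx D Z B := by
  refine ⟨hZ, fun p x hx hb => ?_, fun p x hx => ?_⟩
  · rw [← TL.xor_xor p s] at hx
    obtain ⟨x', hx', h1⟩ := surj _ x hx
    obtain ⟨u, hu0, hu⟩ := comm (xor p s)
    have h2 := hu x' hx' x hx (of_eq (neg_mem h1) (by abel))
    have h3 := mapB _ _ (cx'.mapZ _ x' hx') (cx'.mapB _ x' hx' (inj _ x' hx' (of_sub' h1 hb)))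
    exact (B.smul_mem_iff hu0).1 (of_sub' h2 h3)
  · rw [← TL.xor_xor p s] at hx
    obtain ⟨x', hx', h1⟩ := surj _ x hx
    obtain ⟨u, hu0, hu⟩ := comm (xor p s)
    have h2 := hu x' hx' x hx (of_eq (neg_mem h1) (by abel))
    obtain ⟨v, hv0, hv⟩ := comm (!(xor p s))
    have h3 : u • D x ∈ Z (xor (!(xor p s)) s) := by
      rw [TL.xor_not]
      exact Submodule.smul_mem _ _ (hZ _ x hx)
    have h4 := hv _ (cx'.mapZ _ x' hx') _ h3 h2
    have h5 := of_sub' h4 (mapB _ _ (cx'.mapZ _ _ (cx'.mapZ _ x' hx')) (cx'.sq _ x' hx'))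
    rw [map_smul] at h5
    exact (B.smul_mem_iff hu0).1 ((B.smul_mem_iff hv0).1 h5)

/-- Changing the differential, the cochains and the relations without changing the complex. -/
theorem cx_congr {D₁ : Module.End ℂ M} {Z₁ : Bool → Submodule ℂ M} {B₁ : Submodule ℂ M}
    (h : IsCx D Z B) (h₁ : IsCx D₁ Z₁ B₁) (hle : ∀ p, Z₁ p ≤ Z p)
    (hZ : ∀ p, ∀ x ∈ Z p, ∃ y ∈ Z₁ p, x - y ∈ B) (hB : ∀ p, ∀ x ∈ Z₁ p, x ∈ B₁ ↔ x ∈ B)
    (hD : ∀ p, ∀ x ∈ Z₁ p, D₁ x - D x ∈ B) :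
    (∀ n, HasChi D₁ Z₁ B₁ n ↔ HasChi D Z B n) ∧ (Acy D₁ Z₁ B₁ ↔ Acy D Z B) := by
  have hc : ChMap LinearMap.id false D₁ Z₁ B₁ D Z B := by
    refine ⟨h₁, h, fun p x hx => ⟨x, by simpa using hle p hx, by simp⟩,
      fun p x hx hb => (hB p x hx).1 hb, fun p => ⟨1, one_ne_zero, fun x hx y hy hxy => ?_⟩⟩
    rw [Bool.xor_false] at hy
    have h1 := h.mapB p _ (sub_mem (hle p hx) hy) hxy
    refine of_eq (add_mem (hD p x hx) h1) ?_
    rw [map_sub, one_smul, LinearMap.id_apply]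
    abel
  exact hc.iso (fun p x hx => hZ p x (by simpa using hx)) fun p x hx hb => (hB p x hx).2 hb

/-- A retract of a complex with finite-dimensional cohomology has finite-dimensional
cohomology. -/
theorem fin_of_retract (h : IsCx D Z B) (hY : ∀ p, ∀ x ∈ Y p, D x ∈ Y (!p)) (hle : ∀ p, Y p ≤ Z p)
    (π : Module.End ℂ M) (h1 : ∀ p, ∀ x ∈ Z p, π x ∈ Y p) (h2 : ∀ p, ∀ x ∈ Y p, π x - x ∈ B)
    (h3 : ∀ p, ∀ x ∈ Z p, x ∈ B → π x ∈ B) (h4 : ∀ p, ∀ x ∈ Z p, π (D x) - D (π x) ∈ B)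
    (hc : HasChi D Z B c) : ∃ a, HasChi D Y B a := by
  have _ := hY
  refine ⟨_, fun p => lt_of_le_of_lt ?_ (hc.1 p), rfl⟩
  rw [hDim_eq, hDim_eq, sq_congr (N' := (Z (!p)).map D ⊔ B)]
  · exact sq_mono _ (inf_le_inf_right _ (hle p))
  · rintro x ⟨hx, -⟩
    rw [mem_bd, mem_bd]
    refine ⟨fun ⟨y, hy, hb⟩ => ⟨y, hle _ hy, hb⟩, fun ⟨z, hz, hb⟩ => ⟨π z, h1 _ z hz, ?_⟩⟩
    have h5 := h3 p _ (sub_mem (hle p hx) (mapZ' h.mapZ p z hz)) hb
    refine of_eq (sub_mem (add_mem h5 (h4 _ z hz)) (h2 p x hx)) ?_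
    rw [map_sub]
    abel

/-- Filtration by a bounded grading: `D₀` preserves the degree and `D - D₀` raises it. -/
theorem ex_of_graded {Z₀ Z₁ : Submodule ℂ M} (D₀ : Module.End ℂ M) (π : ℕ → Module.End ℂ M) (N : ℕ)
    (hsum : ∀ x ∈ Z₁, x - ∑ k ∈ range N, π k x ∈ B)
    (hsum₀ : ∀ x ∈ Z₀, ∃ N', x - ∑ k ∈ range N', π k x ∈ B)
    (hZ₀ : ∀ k, ∀ x ∈ Z₀, π k x ∈ Z₀) (hZ₁ : ∀ k, ∀ x ∈ Z₁, π k x ∈ Z₁)
    (hB : ∀ k, ∀ x ∈ B, π k x ∈ B) (hπ : ∀ j k x, π j (π k x) = if j = k then π k x else 0)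
    (hD : ∀ x ∈ Z₀, D x ∈ Z₁) (hDB : ∀ x ∈ Z₁, x ∈ B → D x ∈ B) (hsq : ∀ x ∈ Z₀, D (D x) ∈ B)
    (h0 : ∀ j k, ∀ x ∈ Z₀ ⊔ Z₁, π j (D₀ (π k x)) - (if j = k then D₀ (π k x) else 0) ∈ B)
    (h1 : ∀ j k, j ≤ k → ∀ x ∈ Z₀ ⊔ Z₁, π j (D (π k x) - D₀ (π k x)) ∈ B)
    (h00 : ∀ x ∈ Z₀, x ∈ B → D₀ x ∈ B) (hex : Ex D₀ Z₀ Z₁ B) : Ex D Z₀ Z₁ B := by
  have h2 : ∀ j k, j ≤ k → ∀ x ∈ Z₀ ⊔ Z₁,
      π j (D (π k x)) - (if j = k then D₀ (π k x) else 0) ∈ B := fun j k hjk x hx =>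
    of_eq (add_mem (h1 j k hjk x hx) (h0 j k x hx)) (by rw [map_sub]; abel)
  have key : ∀ k, k ≤ N → ∀ x ∈ Z₁, D x ∈ B → (∀ j < k, π j x ∈ B) → ∃ y ∈ Z₀, x - D y ∈ B := by
    intro k hk
    induction hk using Nat.decreasingInduction with
    | self =>
      intro x hx _ hj
      refine ⟨0, zero_mem _, ?_⟩
      rw [map_zero, sub_zero]
      exact of_sub (hsum x hx) (sum_mem fun j hjN => hj j (mem_range.1 hjN))
    | of_succ k hkN ih =>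
      intro x hx hd hj
      have a1 := hDB _ (sub_mem hx (sum_mem fun j _ => hZ₁ j x hx)) (hsum x hx)
      rw [map_sub, map_sum] at a1
      have a2 := hB k _ (of_sub' a1 hd)
      rw [map_sum] at a2
      have a3 : ∑ j ∈ range N, (π k (D (π j x)) - if k = j then D₀ (π j x) else 0) ∈ B := by
        refine sum_mem fun j _ => ?_
        rcases lt_or_ge j k with hjk | hjk
        · rw [if_neg hjk.ne', sub_zero]
          exact hB k _ (hDB _ (hZ₁ j x hx) (hj j hjk))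
        · exact h2 k j hjk x (Submodule.mem_sup_right hx)
      rw [sum_sub_distrib, sum_ite_eq, if_pos (mem_range.2 hkN)] at a3
      obtain ⟨y, hy, hxy⟩ := hex _ (hZ₁ k x hx) (of_sub' a3 a2)
      have b0 : ∃ y' ∈ Z₀, π k x - D₀ (π k y') ∈ B := by
        obtain ⟨N', hN'⟩ := hsum₀ y hy
        have b1 := hB k _ (h00 _ (sub_mem hy (sum_mem fun j _ => hZ₀ j y hy)) hN')
        rw [map_sub, map_sum, map_sub, map_sum] at b1
        have b2 : ∑ j ∈ range N', (π k (D₀ (π j y)) - if k = j then D₀ (π j y) else 0) ∈ B :=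
          sum_mem fun j _ => h0 k j y (Submodule.mem_sup_left hy)
        rw [sum_sub_distrib, sum_ite_eq] at b2
        have b3 := hB k _ hxy
        rw [map_sub, hπ, if_pos rfl] at b3
        have b4 := add_mem (add_mem b3 b1) b2
        split_ifs at b4
        · exact ⟨y, hy, of_eq b4 (by abel)⟩
        · exact ⟨0, zero_mem _, of_eq b4 (by rw [map_zero, map_zero]; abel)⟩
      obtain ⟨y', hy', hb⟩ := b0
      have c0 := hZ₀ k y' hy'
      obtain ⟨z, hz, hxz⟩ := ih (x - D (π k y')) (sub_mem hx (hD _ c0))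
        (by rw [map_sub]; exact sub_mem hd (hsq _ c0)) (fun j hjk => by
          have c1 := h2 j k (by omega) y' (Submodule.mem_sup_left hy')
          rw [map_sub]
          by_cases e : j = k
          · subst e
            rw [if_pos rfl] at c1
            exact of_eq (sub_mem hb c1) (by abel)
          · rw [if_neg e, sub_zero] at c1
            exact sub_mem (hj j (by omega)) c1)
      exact ⟨π k y' + z, add_mem c0 hz, of_eq hxz (by rw [map_add]; abel)⟩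
  exact fun x hx hd => key 0 (Nat.zero_le _) x hx hd fun j hj => absurd hj (Nat.not_lt_zero j)

/-- Homotopy criterion. -/
theorem ex_of_homotopy {Z₀ Z₁ : Submodule ℂ M} (h : Module.End ℂ M) (hD : ∀ x ∈ Z₀, D x ∈ Z₁)
    (hsq : ∀ x ∈ Z₀, D (D x) ∈ B) (hDB : ∀ x ∈ Z₁, x ∈ B → D x ∈ B) (hh : ∀ x ∈ Z₁, h x ∈ Z₀)
    (hhB : ∀ x ∈ Z₁, D x ∈ B → h (D x) ∈ Z₁ ⊓ B)
    (hN : ∀ x ∈ Z₁, D x ∈ B → ∃ P : Polynomial ℂ, P.eval 0 ≠ 0 ∧
      Polynomial.aeval (D * h + h * D) P x ∈ B) : Ex D Z₀ Z₁ B := by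
  have hL : ∀ x ∈ Z₁ ⊓ B.comap D, (D * h + h * D) x ∈ Z₁ ⊓ B.comap D ∧
      (D * h + h * D) x ∈ Z₀.map D ⊔ B := by
    rintro x ⟨hx, hd⟩
    have a := hhB x hx hd
    refine ⟨⟨add_mem (hD _ (hh x hx)) a.1, ?_⟩, mem_bd.2 ⟨h x, hh x hx, by simpa using a.2⟩⟩
    show D (D (h x) + h (D x)) ∈ B
    rw [map_add]
    exact add_mem (hsq _ (hh x hx)) (hDB _ a.1 a.2)
  have hpow : ∀ (n : ℕ), ∀ x ∈ Z₁ ⊓ B.comap D, ((D * h + h * D) ^ n) x ∈ Z₁ ⊓ B.comap D := by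
    intro n x hx
    induction n with
    | zero => exact hx
    | succ n ih => rw [pow_succ']; exact (hL _ ih).1
  intro x hx hd
  obtain ⟨P, hP, hb⟩ := hN x hx hd
  have hQ : ∀ Q : Polynomial ℂ, Polynomial.aeval (D * h + h * D) Q x ∈ Z₁ ⊓ B.comap D := by
    intro Q
    induction Q using Polynomial.induction_on' with
    | add p q hp hq => rw [map_add]; exact add_mem hp hq
    | monomial n a =>
      rw [Polynomial.aeval_monomial, ← Algebra.smul_def]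
      exact Submodule.smul_mem _ a (hpow n x ⟨hx, hd⟩)
  have e : Polynomial.aeval (D * h + h * D) P x =
      (D * h + h * D) (Polynomial.aeval (D * h + h * D) P.divX x) + P.eval 0 • x := by
    conv_lhs => rw [← P.X_mul_divX_add]
    rw [map_add, map_mul, Polynomial.aeval_X, Polynomial.aeval_C, Polynomial.coeff_zero_eq_eval_zero,
      LinearMap.add_apply, Module.End.mul_apply, Module.algebraMap_end_apply]
  rw [e] at hb
  have h1 : P.eval 0 • x ∈ Z₀.map D ⊔ B :=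
    of_eq (sub_mem (Submodule.mem_sup_right hb) (hL _ (hQ P.divX)).2) (by abel)
  exact mem_bd.1 ((Submodule.smul_mem_iff _ hP).1 h1)

/-- One step of killing a closed generator `m` of weight `β` and parity `s`. -/
theorem step {Γ : Type} [AddCommGroup Γ] (W : Γ → Bool → Submodule ℂ M) (m : Module.End ℂ M)
    (β : Γ) (s : Bool) (l : Γ →+ ℤ) (hcx : ∀ γ, IsCx D (W γ) B)
    (hm : ∀ γ p, ∀ x ∈ W γ p, m x ∈ W (γ + β) (xor p s))
    (hDm : ∀ γ p, ∀ x ∈ W γ p, D (m x) - sg s • m (D x) ∈ B)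
    (hinj : ∀ γ p, ∀ x ∈ W γ p, m x ∈ B ↔ x ∈ if s then B' else B)
    (hB' : ∀ γ p, ∀ x ∈ W (γ + β) (xor p s), x ∈ B' ↔ ∃ y ∈ W γ p, x - m y ∈ B)
    (hl : s = false → 0 < l β ∧ ∀ γ, l γ < 0 → ∀ p, W γ p ≤ B)
    (e : Γ → ℤ) (he : ∀ γ, HasChi D (W γ) B' (e γ)) :
    ∃ e' : Γ → ℤ, (∀ γ, HasChi D (W γ) B (e' γ)) ∧
      (if s then e' = shl [β] e else shl [β] e' = e) ∧
      ∀ U : Set Γ, (∀ γ ∈ U, γ - β ∈ U) → (∀ γ ∈ U, Acy D (W γ) B') →
        ∀ γ ∈ U, Acy D (W γ) B := by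
  have hsg : sg s * sg s = 1 := by cases s <;> simp [sg]
  have hB2 : ∀ γ p, ∀ x ∈ W γ p, x ∈ B' ↔ ∃ y ∈ W (γ - β) (xor p s), x - m y ∈ B :=
    fun γ p x hx => hB' (γ - β) (xor p s) x (by rwa [sub_add_cancel, TL.xor_xor])
  have hm2 : ∀ γ p, ∀ y ∈ W (γ - β) (xor p s), m y ∈ W γ p := fun γ p y hy => by
    have := hm _ _ y hy
    rwa [sub_add_cancel, TL.xor_xor] at this
  have ses : ∀ γ, Ses D (W γ) (fun p => W γ p ⊓ B') B B' := by
    intro γ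
    refine ⟨hcx γ, fun p => inf_le_left, ?_, fun p x hx => ⟨fun hb => ⟨x, ⟨hx, hb⟩, by simp⟩, ?_⟩⟩
    · rintro p x ⟨hx, hb⟩
      obtain ⟨y, hy, hxy⟩ := (hB2 γ p x hx).1 hb
      have a1 := (hcx γ).mapB p _ (sub_mem hx (hm2 γ p y hy)) hxy
      have a2 := (hcx γ).mapZ p x hx
      refine ⟨a2, (hB2 γ _ _ a2).2 ⟨sg s • D y, ?_, of_eq (add_mem a1 (hDm _ _ y hy)) ?_⟩⟩
      · rw [TL.xor_not]
        exact Submodule.smul_mem _ _ ((hcx _).mapZ _ y hy)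
      · rw [map_sub, map_smul]
        abel
    · rintro ⟨y, ⟨hy, hb⟩, hxy⟩
      exact of_sub ((hB2 γ p _ (sub_mem hx hy)).2 ⟨0, zero_mem _, by simpa using hxy⟩) hb
  have iso : ∀ γ, (∀ n, HasChi D (W (γ - β)) (if s then B' else B) n ↔
      HasChi D (fun p => W γ p ⊓ B') B (if s then -n else n)) ∧
      (Acy D (W (γ - β)) (if s then B' else B) ↔ Acy D (fun p => W γ p ⊓ B') B) := by
    intro γ
    have hm3 : ∀ p, ∀ x ∈ W (γ - β) p, m x ∈ W γ (xor p s) := fun p x hx => by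
      have := hm _ _ x hx
      rwa [sub_add_cancel] at this
    have hc : ChMap m s D (W (γ - β)) (if s then B' else B) D (fun p => W γ p ⊓ B') B := by
      refine ⟨?_, (ses γ).cxS, fun p x hx => ⟨m x, ⟨hm3 p x hx, ?_⟩, by simp⟩,
        fun p x hx hb => (hinj _ p x hx).2 hb,
        fun p => ⟨sg s, left_ne_zero_of_mul_eq_one hsg, fun x hx y hy hxy => ?_⟩⟩
      · cases s
        · exact hcx _
        · exact (ses _).cxQ
      · exact (hB' _ p _ (hm _ p x hx)).2 ⟨x, hx, by simp⟩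
      · have a1 := (hcx γ).mapB _ _ (sub_mem (hm3 p x hx) hy.1) hxy
        refine of_eq (B.smul_mem (sg s) (sub_mem a1 (hDm _ p x hx))) ?_
        rw [map_sub, smul_sub, smul_sub, smul_sub, smul_smul, hsg, one_smul]
        abel
    exact hc.iso (fun p x hx => (hB' _ p x (by rw [sub_add_cancel]; exact hx.1)).1 hx.2)
      fun p x hx hb => (hinj _ p x hx).1 hb
  cases s
  · obtain ⟨hβ, hneg⟩ := hl rfl
    have ind : ∀ P : Γ → Prop, (∀ γ, l γ < 0 → P γ) → (∀ γ, P (γ - β) → P γ) → ∀ γ, P γ := by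
      intro P h0 h1 γ
      have : ∀ k : ℕ, ∀ γ, l γ < k → P γ := by
        intro k
        induction k with
        | zero => exact h0
        | succ k ih => exact fun γ hγ => h1 γ (ih _ (by rw [map_sub]; push_cast at hγ; omega))
      exact this ((l γ).toNat + 1) γ (by omega)
    have st : ∀ γ n, HasChi D (W (γ - β)) B n → HasChi D (W γ) B (n + e γ) :=
      fun γ n hn => (ses γ).chi_mid (((iso γ).1 n).1 hn) (he γ)
    choose e' he' using ind (fun γ => ∃ n, HasChi D (W γ) B n)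
      (fun γ hγ => ⟨0, (acy_of_le (hneg γ hγ)).hasChi⟩) fun γ ⟨n, hn⟩ => ⟨_, st γ n hn⟩
    refine ⟨e', he', ?_, fun U hU hA => ind (fun γ => γ ∈ U → Acy D (W γ) B)
      (fun γ hγ _ => acy_of_le (hneg γ hγ))
      fun γ ih hγ => (ses γ).acy_mid ((iso γ).2.1 (ih (hU γ hγ))) (hA γ hγ)⟩
    show shl [β] e' = e
    funext γ
    show e' γ - e' (γ - β) = e γ
    rw [(he' γ).unique (st γ _ (he' _))]
    ring
  · refine ⟨shl [β] e, fun γ => ?_, rfl, fun U hU hA γ hγ =>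
      (ses γ).acy_mid ((iso γ).2.1 (hA _ (hU γ hγ))) (hA γ hγ)⟩
    have := (ses γ).chi_mid (((iso γ).1 _).1 (he (γ - β))) (he γ)
    rw [if_pos rfl, neg_add_eq_sub] at this
    exact this

end Pool.Agent.MP_8be872_ag.H63
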