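import Pool.Agent.MP_8be872_ag.H63.LocB
import Pool.Agent.MP_8be872_ag.H63.Tool

/-! The total differential of the Čech complexes. -/

namespace Pool.Agent.MP_8be872_ag.H63

open Finset H38 H56 MvPolynomial

variable {E O J Γ : Type} [Fintype E] [Fintype O] [Fintype J] [DecidableEq E] [DecidableEq O]
  [DecidableEq J] [AddCommGroup Γ] {Al : Gn E O J → Prop} {c : Gn E O J → Γ}
  {δ : Gn E O J → Op E O J} {ω : Op E O J} {f : J → MvPolynomial (E ⊕ J) ℂ}
  {x : Sp (E ⊕ J) (O ⊕ J)}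

/-- The values of the differential on all generators. -/
noncomputable def dl (δ : Gn E O J → Op E O J) (f : J → MvPolynomial (E ⊕ J) ℂ) :
    Gn E O J → Op E O J
  | .inl (.inr j) => -(gn (tv j) * gn (tv j) * (vf δ * mul (f j) - mul (f j) * vf δ))
  | g => δ g

theorem words_false {P : (Gn E O J → ℕ) → Prop} {m : Op E O J} (hm : m ∈ words P)
    (h : ∀ μ, ¬ P μ) : m = 0 :=
  (Submodule.mem_bot ℂ).1 (Submodule.span_le.2 (by rintro _ ⟨_, a, _⟩; exact absurd a (h _)) hm)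

theorem sgT (m : Op E O J) : sg true • m = -m := neg_one_smul ℂ m

theorem sgF (m : Op E O J) : sg false • m = m := one_smul ℂ m

section Rg

variable {R : Type} [Ring R] {D g V T U F : R}

theorem rg1 (h : D * D = 0) : D * (D * g - g * D) - -((D * g - g * D) * D) = 0 := by
  rw [mul_sub, sub_mul, ← mul_assoc, h, mul_assoc g, h, ← mul_assoc]
  simp

theorem rg2 (h : D * D = 0) : D * (D * g - -(g * D)) - (D * g - -(g * D)) * D = 0 := by
  rw [sub_neg_eq_add, mul_add, add_mul, ← mul_assoc, h, mul_assoc g, h, ← mul_assoc]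
  simp

theorem rg3 (a1 : V * T = T * V + -(T * T * U)) (a2 : V * U = -(U * V)) (a3 : U * U = 0)
    (a4 : T * U = U * T) : V * -(T * T * U) = -(-(T * T * U) * V) :=
  calc V * -(T * T * U) = -((V * T) * T * U) := by noncomm_ring
    _ = -(T * (V * T) * U) + T * T * (U * T) * U := by
      conv_lhs => rw [a1]
      noncomm_ring
    _ = -(T * T * (V * U)) + T * T * T * (U * U) + T * T * T * (U * U) := by
      rw [a1, ← a4]; noncomm_ring
    _ = _ := by rw [a2, a3]; noncomm_ring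

theorem rg4 (a1 : V * T = T * V + -(T * T * U)) (a2 : V * F = F * V + U) (a3 : F * U = U * F)
    (a4 : T * U = U * T) (a5 : F * T = T * F) :
    V * (F * T - 1) - (F * T - 1) * V = -(T * U) * (F * T - 1) :=
  calc V * (F * T - 1) - (F * T - 1) * V = (V * F) * T - F * T * V := by noncomm_ring
    _ = F * (V * T) + U * T - F * T * V := by rw [a2]; noncomm_ring
    _ = T * U - (F * T) * (T * U) := by rw [a1, ← a4]; noncomm_ring
    _ = T * U - T * ((F * U) * T) := by rw [a5, a4]; noncomm_ring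
    _ = _ := by rw [a3]; noncomm_ring

end Rg

theorem od_ex (m : (E ⊕ J) →₀ ℕ) : od (ex (∅ : Finset (O ⊕ J)) m) = false := by simp [od, ex]

theorem gn_od (g : Gn E O J) : gn g ∈ words fun μ => od μ = g.isRight :=
  gn_mem_words (od_single g)

theorem cech_up {J₀ J₁ : Finset J} {μ ν : Gn E O J → ℕ} (h : cech Al J₀ J₁ μ)
    (hν : ∀ g, ν g ≠ 0 → Al g ∨ (∃ j, g = tv j ∧ μ (ev j) ≠ 0) ∨ ∃ j ∈ J₀ ∪ J₁, g = ev j) :
    cech Al J₀ J₁ (ν + μ) := by
  have k : ∀ j, μ (ev j) ≠ 0 → (ν + μ) (ev j) ≠ 0 := fun j hj => by simp [hj]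
  refine ⟨fun g hg => ?_, fun j hj => k j (h.2.1 j hj), h.2.2.imp k⟩
  by_cases h1 : ν g = 0
  · exact (h.1 g (by simpa [h1] using hg)).imp_right
      (Or.imp_left fun ⟨j, a, b⟩ => ⟨j, a, k j b⟩)
  · exact (hν g h1).imp_right (Or.imp_left fun ⟨j, a, b⟩ => ⟨j, a, k j b⟩)

theorem cech_down {J₀ J₁ : Finset J} {μ ν : Gn E O J → ℕ} (h : cech Al J₀ J₁ (μ + ν))
    (hν : ∀ j, ν (ev j) = 0) : cech Al J₀ J₁ μ ∧ ∀ g, ν g ≠ 0 →
      Al g ∨ (∃ j, g = tv j ∧ μ (ev j) ≠ 0) ∨ ∃ j ∈ J₀ ∪ J₁, g = ev j := by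
  simp only [cech, Pi.add_apply, hν, add_zero] at h ⊢
  exact ⟨⟨fun g hg => h.1 g (by simp [hg]), h.2⟩, fun g hg => h.1 g (by simp [hg])⟩

/-- `L₀` preserves the grading and `L - L₀` raises it. -/
def Lead (gr : Gn E O J → ℕ) (L L₀ : Op E O J) : Prop :=
  (∀ k, ∀ y ∈ mono fun μ => ws gr μ = k, L₀ y ∈ mono fun μ => ws gr μ = k) ∧
    ∀ k, ∀ y ∈ mono fun μ => k ≤ ws gr μ, L y - L₀ y ∈ mono fun μ => k < ws gr μ

section Lead

variable {gr : Gn E O J → ℕ} {L L₀ L' L₀' : Op E O J}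

theorem Lead.ge (h : Lead gr L L₀) (k : ℕ) {y} (hy : y ∈ mono fun μ => k ≤ ws gr μ) :
    L₀ y ∈ mono fun μ => k ≤ ws gr μ :=
  map_mem_of_bas (fun S m a => mono_le (fun _ b => b ▸ a) (h.1 _ _ (bas_mem rfl))) hy

theorem Lead.add (h : Lead gr L L₀) (h' : Lead gr L' L₀') : Lead gr (L + L') (L₀ + L₀') :=
  ⟨fun k y hy => add_mem (h.1 k y hy) (h'.1 k y hy), fun k y hy => by
    rw [LinearMap.add_apply, LinearMap.add_apply, add_sub_add_comm]
    exact add_mem (h.2 k y hy) (h'.2 k y hy)⟩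

theorem Lead.sub (h : Lead gr L L₀) (h' : Lead gr L' L₀') : Lead gr (L - L') (L₀ - L₀') :=
  ⟨fun k y hy => sub_mem (h.1 k y hy) (h'.1 k y hy), fun k y hy => by
    rw [LinearMap.sub_apply, LinearMap.sub_apply, sub_sub_sub_comm]
    exact sub_mem (h.2 k y hy) (h'.2 k y hy)⟩

theorem Lead.mul (h : Lead gr L L₀) (h' : Lead gr L' L₀') : Lead gr (L * L') (L₀ * L₀') :=
  ⟨fun k y hy => h.1 k _ (h'.1 k y hy), fun k y hy => by
    have e : (L * L') y - (L₀ * L₀') y = (L (L' y - L₀' y) - L₀ (L' y - L₀' y)) +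
        (L₀ (L' y - L₀' y) + (L (L₀' y) - L₀ (L₀' y))) := by
      simp only [Module.End.mul_apply, map_sub]
      abel
    rw [e]
    exact add_mem (mono_le (fun _ a => Nat.lt_of_succ_lt a) (h.2 (k + 1) _ (h'.2 k y hy)))
      (add_mem (h.ge (k + 1) (h'.2 k y hy)) (h.2 k _ (h'.ge k hy)))⟩

theorem Lead.sum (s : Finset J) {F F₀ : J → Op E O J} (h : ∀ j, Lead gr (F j) (F₀ j)) :
    Lead gr (∑ j ∈ s, F j) (∑ j ∈ s, F₀ j) := by
  induction s using Finset.induction_on with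
  | empty => exact ⟨fun _ _ _ => zero_mem _, fun _ _ _ => by simp⟩
  | insert j s hj ih =>
    rw [sum_insert hj, sum_insert hj]
    exact (h j).add ih

theorem Lead.zero (h : Lead gr 0 L₀) : L₀ = 0 :=
  LinearMap.ext fun y => map_mem_of_bas (P := fun _ => True) (C := ⊥) (fun S m _ =>
    eq_zero_of_mem_mono (P' := fun μ => ws gr (ex S m) < ws gr μ) (h.1 _ _ (bas_mem rfl))
      (by simpa using h.2 (ws gr (ex S m)) _ (bas_mem le_rfl)) fun _ a b => b.ne' a)
    (mem_mono.2 fun _ _ _ => trivial)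

theorem Lead.gn {g : Gn E O J} (h : gr g = 0) : Lead gr (gn g) (gn g) :=
  ⟨fun _ _ hy => gn_mem g hy fun μ a => by rw [ws_add, ws_single, h, add_zero, a],
    fun _ _ _ => by simp⟩

theorem Lead.dr {g : Gn E O J} (h : gr g = 0) : Lead gr (dr g) (dr g) :=
  ⟨fun _ _ hy => dr_mem g hy fun μ a => by rwa [ws_add, ws_single, h, add_zero] at a,
    fun _ _ _ => by simp⟩

theorem Lead.words (h : L₀ ∈ words fun μ => ws gr μ = 0) (h' : L - L₀ ∈ words fun μ => 0 < ws gr μ) :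
    Lead gr L L₀ :=
  ⟨fun _ _ hy => words_apply_mem h hy fun a b h1 h2 => by rw [ws_add, h1, h2, zero_add],
    fun _ _ hy => words_apply_mem h' hy fun a b h1 h2 => by rw [ws_add]; omega⟩

end Lead

variable (h : Good Al c δ ω f)
include h

theorem Good.f_mem (j : J) : (mul (f j) : Op E O J) ∈
    words fun μ => (sup Al μ ∧ ws c μ = -c (tv j)) ∧ od μ = false :=
  mul_mem_words_of_pol (pol_mem.2 fun m hm => ⟨pol_mem.1 (h.fw j) m hm, od_ex m⟩)

theorem Good.d_odd (g : Gn E O J) : δ g ∈ words fun μ => od μ = xor g.isRight true :=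
  words_le (fun _ a => by simpa using a.2.2) (h.dw g)

theorem Good.tfree (j : J) : (pol (f j) : Sp (E ⊕ J) (O ⊕ J)) ∈ mono tfree :=   mono_le (fun μ a j => of_not_not fun b => h.alT j (a.1 _ b)) (h.fw j)

theorem Good.uu_mem (j : J) : vf δ * mul (f j) - mul (f j) * vf δ ∈
    words fun μ => sup Al μ ∧ ws c μ = -c (tv j) ∧ od μ = true := by
  have := vf_br (s := true)
    (Pg := fun g μ => sup Al μ ∧ ws c μ = c g ∧ od μ = !g.isRight)
    (P := fun μ => (sup Al μ ∧ ws c μ = -c (tv j)) ∧ od μ = false)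
    (P' := fun μ => sup Al μ ∧ ws c μ = -c (tv j) ∧ od μ = true)
    (fun g => words_le (fun _ a => ⟨a, by simpa using a.2.2⟩) (h.dw g))
    (words_le (fun _ a => ⟨a, a.2⟩) (h.f_mem j)) fun g μ ν a b => by
      rw [sup_add, ws_add, od_add, ws_single, od_single] at a
      rw [sup_add, ws_add, od_add, b.2.1, b.2.2, add_comm, a.1.2]
      refine ⟨⟨b.1, a.1.1.1⟩, rfl, ?_⟩
      revert a
      cases od μ <;> cases g.isRight <;> simp
  simpa [sg] using this

theorem Good.Dloc_eq (A : Finset J) :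
    Dloc δ ω f A = vf (dl δ f) + ω + ∑ j ∈ A, gn (ev j) := by
  have : ∀ j, δ (tv j) = 0 := fun j => h.dz _ (h.alT j)
  unfold Dloc
  congr 2
  conv_rhs => rw [vf]
  conv_lhs => rw [sub_eq_add_neg]; enter [1]; rw [vf]
  have n : ∀ a b : Op E O J, -a * b = -(a * b) := fun a b => neg_mul a b
  simp only [Fintype.sum_sum_type, dl, this, zero_mul, sum_const_zero, add_zero, n,
    sum_neg_distrib]
  abel

theorem Good.dl_mem (g : Gn E O J) : dl δ f g ∈ words fun μ =>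
    ((∀ g', μ g' ≠ 0 → Al g' ∨ g' = g) ∧ ∀ j, g ≠ ev j) ∧ ws c μ = c g ∧ od μ = !g.isRight := by
  have k : δ g ∈ words fun μ =>
      ((∀ g', μ g' ≠ 0 → Al g' ∨ g' = g) ∧ ∀ j, g ≠ ev j) ∧ ws c μ = c g ∧ od μ = !g.isRight := by
    by_cases a : Al g
    · exact words_le (fun _ b => ⟨⟨fun g' e => .inl (b.1 g' e), fun j e => h.alE j (e ▸ a)⟩, b.2⟩)
        (h.dw g)
    · exact h.dz g a ▸ zero_mem _
  rcases g with (e | j) | o
  · exact k
  · have t : gn (tv j) ∈ words fun μ : Gn E O J → ℕ => μ = Pi.single (tv j) 1 := gn_mem_words rfl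
    refine neg_mem (mul_mem_words (mul_mem_words (P'' := fun μ => μ = Pi.single (tv j) 1 +
      Pi.single (tv j) 1) t t fun a b h1 h2 => by rw [h1, h2]) (h.uu_mem j) ?_)
    rintro _ b rfl h2
    refine ⟨⟨sup_add (A := fun g => Al g ∨ g = tv j) |>.2 ⟨sup_add.2
      ⟨sup_single.2 (.inr rfl), sup_single.2 (.inr rfl)⟩, fun g e => .inl (h2.1 g e)⟩,
      fun j => by simp⟩, ?_, ?_⟩
    · rw [ws_add, ws_add, ws_single, h2.2.1, add_neg_cancel_right]
    · rw [od_add, od_add, od_single, h2.2.2]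
      rfl
  · exact k

theorem Good.dl_odd (g : Gn E O J) : dl δ f g ∈ words fun μ => od μ = !g.isRight :=   words_le (fun _ a => a.2.2) (h.dl_mem g)

theorem Good.dl_odd' (g : Gn E O J) : dl δ f g ∈ words fun μ => od μ = xor g.isRight true :=
  words_le (fun _ a => by simpa using a) (h.dl_odd g)

theorem Good.w_odd (A : Finset J) : ω + ∑ j ∈ A, gn (ev j) ∈ words fun μ => od μ = true :=
  add_mem (words_le (fun _ a => a.2.2) h.ow) (Submodule.sum_mem _ fun j _ => gn_od (ev j))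

theorem Good.dl_gn (g : Gn E O J) :
    vf (dl δ f) * gn g = sg g.isRight • (gn g * vf (dl δ f)) + dl δ f g :=
  sub_eq_iff_eq_add'.1 (vf_gn h.dl_odd' g)

theorem Good.dl_words {a : Bool} {m : Op E O J} (hm : m ∈ words fun μ => sup Al μ ∧ od μ = a) :
    vf (dl δ f) * m - sg a • (m * vf (dl δ f)) = vf δ * m - sg a • (m * vf δ) := by
  have := words_false (vf_br (δ := dl δ f - δ) (s := true) (Pg := fun g _ => ¬ Al g)
    (P' := fun _ => False) (fun g => by
      rcases g with (e | j) | o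
      · simp [dl]
      · exact words_le (fun _ a => ⟨h.alT j, a⟩) (sub_mem (h.dl_odd' _) (h.d_odd _))
      · simp [dl]) hm fun g μ ν a b => b (sup_single.1 (sup_add.1 a).2)) fun _ => id
  rw [vf_sub, Bool.true_and, sub_mul, mul_sub, smul_sub, sub_sub_sub_comm] at this
  exact sub_eq_zero.1 this

/-- The value of the differential on a generator. -/
theorem Good.Dloc_gn (A : Finset J) (g : Gn E O J) :
    Dloc δ ω f A * gn g - sg g.isRight • (gn g * Dloc δ ω f A) = dl δ f g := by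
  rw [h.Dloc_eq, add_assoc, add_mul, mul_add, smul_add, h.dl_gn,
    words_comm (h.w_odd A) (gn_od g), Bool.true_and]
  abel

/-- The value on a multiplication operator in the generators `Al`. -/
theorem Good.Dloc_words (A : Finset J) {a : Bool} {m : Op E O J}
    (hm : m ∈ words fun μ => sup Al μ ∧ od μ = a) :
    Dloc δ ω f A * m - sg a • (m * Dloc δ ω f A) = vf δ * m - sg a • (m * vf δ) := by
  rw [h.Dloc_eq, add_assoc, add_mul, mul_add, smul_add, ← h.dl_words hm,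
    words_comm (h.w_odd A) (words_le (fun _ a => a.2) hm), Bool.true_and]
  abel

theorem Good.dl_f (j : J) : vf (dl δ f) * mul (f j) =
    mul (f j) * vf (dl δ f) + (vf δ * mul (f j) - mul (f j) * vf δ) := by
  have := h.dl_words (words_le (fun _ a => ⟨a.1.1, a.2⟩) (h.f_mem j))
  simp only [sg, Bool.false_eq_true, if_false, one_smul] at this
  exact sub_eq_iff_eq_add'.1 this

theorem Good.dl_sq : vf (dl δ f) * vf (dl δ f) = 0 := by
  have k : ∀ g, vf (dl δ f) * δ g = sg (!g.isRight) • (δ g * vf (dl δ f)) := fun g => by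
    rw [← sub_eq_zero, h.dl_words (words_le (fun _ a => ⟨a.1, a.2.2⟩) (h.dw g)),
      ← vf_gn h.d_odd g]
    cases g.isRight <;> simp only [Bool.and_false, Bool.and_true, Bool.not_false, Bool.not_true,
      sgT, sgF]
    exacts [rg1 h.sq, rg2 h.sq]
  refine vf_sq h.dl_odd fun g => ?_
  rcases g with (e | j) | o
  · exact k _
  · have u := h.uu_mem j
    have a1 := h.dl_gn (tv j)
    have a2 := h.dl_words (words_le (fun _ a => ⟨a.1, a.2.2⟩) u)
    have a3 := odd_sq (words_le (fun _ a => a.2.2) u)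
    have a4 : gn (tv j) * _ = _ * gn (tv j) := mul_comm_words _ u
    rw [sgT, sgT, rg1 h.sq, sub_eq_zero] at a2
    exact (rg3 (a1.trans (congrArg (· + _) (sgF _))) a2 a3 a4).trans (sgT _).symm
  · exact k _

theorem Good.Dloc_sq (A : Finset J) : Dloc δ ω f A * Dloc δ ω f A = 0 := by
  have a1 := h.dl_words (words_le (fun _ a => ⟨a.1, a.2.2⟩) h.ow)
  have a2 : ∀ j, vf (dl δ f) * gn (ev j) + gn (ev j) * vf (dl δ f) = 0 := fun j => by
    rw [h.dl_gn, show dl δ f (ev j) = 0 from h.dz _ (h.alE j)]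
    simp [sgT]
  rw [sgT, sgT, sub_neg_eq_add, sub_neg_eq_add, h.osq] at a1
  rw [h.Dloc_eq, add_assoc, add_mul, mul_add, mul_add (ω + _), h.dl_sq, odd_sq (h.w_odd A),
    mul_add, add_mul, mul_sum, sum_mul, zero_add, add_zero, add_add_add_comm, a1, ← sum_add_distrib]
  simp [a2]

theorem Good.Dloc_rel (A : Finset J) (hx : x ∈ rel f) : Dloc δ ω f A x ∈ rel f := by
  rw [h.Dloc_eq, add_assoc, LinearMap.add_apply]
  refine add_mem (vf_rel h.dl_odd' (fun j => h.dz _ (h.alE j)) (fun j => ?_) hx)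
    (words_rel (h.w_odd A) hx)
  have u := h.uu_mem j
  refine ⟨_, neg_mem (mul_mem_words (gn_od (tv j)) u fun _ _ _ _ => trivial), ?_⟩
  have e : (mul (f j * X (.inr j) - 1) : Op E O J) = mul (f j) * gn (tv j) - 1 := by
    exact (map_sub (mulA (O := O ⊕ J)) _ _).trans (by rw [map_mul, map_one]; rfl)
  have a1 := h.dl_gn (tv j)
  have a2 := h.dl_f j
  have a3 : mul (f j) * _ = _ * mul (f j) := mul_comm_words _ u
  have a4 : gn (tv j) * _ = _ * gn (tv j) := mul_comm_words _ u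
  have a5 : (mul (f j) : Op E O J) * gn (tv j) = _ := mul_comm_words _ (gn_od (tv j))
  rw [e]
  exact rg4 (a1.trans (congrArg (· + _) (sgF _))) a2 a3 a4 a5

theorem Good.Dloc_mem (A : Finset J) {P P' Pω : (Gn E O J → ℕ) → Prop}
    {Pg : Gn E O J → (Gn E O J → ℕ) → Prop} (hx : x ∈ mono P) (h1 : ∀ g, dl δ f g ∈ words (Pg g))
    (h2 : ω ∈ words Pω) (k1 : ∀ g μ ν, P (μ + Pi.single g 1) → Pg g ν → P' (ν + μ))
    (k2 : ∀ a b, Pω a → P b → P' (a + b))
    (k3 : ∀ j ∈ A, ∀ μ, P μ → P' (μ + Pi.single (ev j) 1)) : Dloc δ ω f A x ∈ mono P' := by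
  rw [h.Dloc_eq, LinearMap.add_apply, LinearMap.add_apply, LinearMap.sum_apply]
  exact add_mem (add_mem (vf_mem h1 hx k1) (words_apply_mem h2 hx k2))
    (Submodule.sum_mem _ fun j hj => gn_mem _ hx (k3 j hj))

theorem Good.Dloc_ZZ {A J₀ J₁ : Finset J} (hA : A ⊆ J₀ ∪ J₁) {γ : Γ} {p : Bool}
    (hx : x ∈ ZZ Al c J₀ J₁ γ p) : Dloc δ ω f A x ∈ ZZ Al c J₀ J₁ γ (!p) := by
  refine h.Dloc_mem A hx h.dl_mem h.ow (fun g μ ν a b => ?_) (fun a b h1 h2 => ?_)
    fun j hj μ a => ?_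
  · obtain ⟨a1, a2, a3⟩ := a
    have := cech_down a1 fun j => Pi.single_eq_of_ne (b.1.2 j).symm _
    rw [ws_add, ws_single] at a2
    rw [od_add, od_single] at a3
    refine ⟨cech_up this.1 fun g' e => (b.1.1 g' e).elim .inl ?_, ?_, ?_⟩
    · rintro rfl
      exact this.2 _ (by simp)
    · rw [ws_add, b.2.1, add_comm, a2]
    · rw [od_add, b.2.2, ← a3]
      cases od μ <;> cases g.isRight <;> rfl
  · exact ⟨cech_up h2.1 fun g e => .inl (h1.1 g e), by rw [ws_add, h1.2.1, zero_add, h2.2.1],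
      by rw [od_add, h1.2.2, h2.2.2, Bool.true_xor]⟩
  · refine ⟨add_comm μ _ ▸ cech_up a.1 fun g e => .inr (.inr ⟨j, hA hj, ?_⟩),
      by rw [ws_add, ws_single, h.wtE, add_zero, a.2.1], by rw [od_add, od_single, a.2.2]; simp⟩
    exact of_not_not fun n => e (Pi.single_eq_of_ne n _)

/-- The differential preserves weights. -/
theorem Good.Dloc_wt (A : Finset J) (U : Γ → Prop) (hx : x ∈ mono fun μ => U (ws c μ)) :
    Dloc δ ω f A x ∈ mono fun μ => U (ws c μ) :=   h.Dloc_mem A hx h.dl_mem h.ow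
    (fun g μ ν a b => by rwa [ws_add, b.2.1, add_comm, ← ws_single c g, ← ws_add])
    (fun a b h1 h2 => by rwa [ws_add, h1.2.1, zero_add])
    fun j _ μ a => by rwa [ws_add, ws_single, h.wtE, add_zero]

theorem Good.proj_wt_rel (U : Γ → Prop) (hx : x ∈ rel f) :
    proj (fun μ => U (ws c μ)) x ∈ rel f :=   proj_rel (A := univ) (fun j _ m hm μ _ => by
    rw [ws_add, ws_add, ws_single, (pol_mem.1 (h.fw j) m hm).2, neg_add_cancel_right])
    (mem_mono.2 fun _ _ _ _ _ => mem_univ _) hx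

/-- A grading that the differential does not lower. -/
theorem Good.Dloc_ge (A : Finset J) (gr : Gn E O J → ℕ) (hT : ∀ j, gr (tv j) = 0)
    (hgr : ∀ g, δ g ∈ words fun μ => gr g ≤ ws gr μ) (k : ℕ)
    (hx : x ∈ mono fun μ => k ≤ ws gr μ) : Dloc δ ω f A x ∈ mono fun μ => k ≤ ws gr μ :=   h.Dloc_mem A (Pg := fun g μ => gr g ≤ ws gr μ) hx (fun g => by
      rcases g with (e | j) | o
      exacts [hgr _, words_le (fun _ _ => hT j ▸ Nat.zero_le _) (h.dl_odd _), hgr _]) h.ow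
    (fun g μ ν a b => by rw [ws_add, ws_single] at a; rw [ws_add]; omega)
    (fun a b _ h2 => by rw [ws_add]; omega) fun j _ μ a => by rw [ws_add]; omega

theorem Good.Dloc_has (A : Finset J) {K : Gn E O J → Prop} (hK : ∀ g, K g → Al g)
    (hδ : ∀ g, K g → δ g ∈ words (has K)) (hx : x ∈ mono (has K)) :
    Dloc δ ω f A x ∈ mono (has K) :=   h.Dloc_mem A (Pg := fun g μ => K g → has K μ) hx (fun g => by
      by_cases a : K g
      · rcases g with (e | j) | o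
        exacts [words_le (fun _ b _ => b) (hδ _ a), absurd (hK _ a) (h.alT j),
          words_le (fun _ b _ => b) (hδ _ a)]
      · exact words_le (fun _ _ b => absurd b a) (h.dl_odd g)) h.ow
    (fun g μ ν a b => has_add.2 ((has_add.1 a).symm.imp_left fun e => b (has_single.1 e)))
    (fun a b _ h2 => has_add.2 (.inr h2)) fun j _ μ a => has_add.2 (.inl a)

theorem Good.isCx {A J₀ J₁ : Finset J} (hA : A ⊆ J₀ ∪ J₁) (γ : Γ) :
    IsCx (Dloc δ ω f A) (ZZ Al c J₀ J₁ γ) (rel f) :=   ⟨fun _ _ hx => h.Dloc_ZZ hA hx, fun _ _ _ hx => h.Dloc_rel A hx, fun _ x _ => by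
    rw [← Module.End.mul_apply, h.Dloc_sq]
    exact zero_mem _⟩

theorem Good.isCx_kill {A J₀ J₁ : Finset J} (hA : A ⊆ J₀ ∪ J₁) (γ : Γ) {K : Gn E O J → Prop}
    (hK : ∀ g, K g → Al g) (hδ : ∀ g, K g → δ g ∈ words (has K)) :
    IsCx (Dloc δ ω f A) (ZZ Al c J₀ J₁ γ) (rel f ⊔ mono (has K)) :=   ⟨fun _ _ hx => h.Dloc_ZZ hA hx, fun _ _ _ hx => by
    obtain ⟨a, ha, b, hb, rfl⟩ := Submodule.mem_sup.1 hx
    rw [map_add]
    exact Submodule.add_mem_sup (h.Dloc_rel A ha) (h.Dloc_has A hK hδ hb), fun _ x _ => by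
    rw [← Module.End.mul_apply, h.Dloc_sq]
    exact zero_mem _⟩

/-- The Čech condition is compatible with the relations. -/
theorem Good.cech_add (J₀ J₁ : Finset J) (j : J) (m : (E ⊕ J) →₀ ℕ) (hm : coeff m (f j) ≠ 0)
    (μ : Gn E O J → ℕ) (hμ : μ (ev j) ≠ 0) :
    (cech Al J₀ J₁ (μ + ex ∅ m + Pi.single (tv j) 1) ↔ cech Al J₀ J₁ μ) ∧
      ws c (μ + ex ∅ m + Pi.single (tv j) 1) = ws c μ ∧
      od (μ + ex ∅ m + Pi.single (tv j) 1) = od μ := by
  have a := pol_mem.1 (h.fw j) m hm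
  refine ⟨⟨fun b => (cech_down (add_assoc μ _ _ ▸ b) fun j => by simp [ex]).1, fun b => ?_⟩,
    by rw [ws_add, ws_add, ws_single, a.2, neg_add_cancel_right],
    by rw [od_add, od_add, od_single, od_ex]; simp⟩
  rw [add_assoc, add_comm]
  refine cech_up b fun g e => ?_
  by_cases n : g = tv j
  · exact .inr (.inl ⟨j, n, hμ⟩)
  · exact .inl (a.1 g (by simpa [n] using e))

/-- The associated graded dg algebra. -/
theorem Good.grPart (gr : Gn E O J → ℕ) (hT : ∀ j, gr (tv j) = 0) (hE : ∀ j, gr (ev j) = 0)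
    (hgr : ∀ g, δ g ∈ words fun μ => gr g ≤ ws gr μ) (hω : ω ∈ words fun μ => 1 ≤ ws gr μ) :
    ∃ (δ₀ : Gn E O J → Op E O J) (f₀ : J → MvPolynomial (E ⊕ J) ℂ),
      Good Al c δ₀ 0 f₀ ∧ Good Al (fun g => (c g, (gr g : ℤ))) δ₀ 0 f₀ ∧
      (∀ j, (pol (f₀ j) : Sp (E ⊕ J) (O ⊕ J)) = proj (fun μ => ws gr μ = 0) (pol (f j))) ∧
      (∀ g P, δ g ∈ words P → δ₀ g ∈ (words fun μ => P μ ∧ ws gr μ = gr g) ∧
        δ g - δ₀ g ∈ words fun μ => P μ ∧ gr g < ws gr μ) ∧
      (∀ j, vf δ * mul (f j) = mul (f j) * vf δ → vf δ₀ * mul (f₀ j) = mul (f₀ j) * vf δ₀) ∧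
      ∀ (A : Finset J) (k : ℕ), ∀ y ∈ mono fun μ => ws gr μ = k,
        Dloc δ₀ 0 f₀ A y ∈ (mono fun μ => ws gr μ = k) ∧
          Dloc δ ω f A y - Dloc δ₀ 0 f₀ A y ∈ mono fun μ => k < ws gr μ := by
  classical
  choose δ₀ d1 d2 using fun g => words_split (fun μ => ws gr μ = gr g) (hgr g)
  have d : ∀ g P, δ g ∈ words P → δ₀ g ∈ (words fun μ => P μ ∧ ws gr μ = gr g) ∧
      δ g - δ₀ g ∈ words fun μ => P μ ∧ gr g < ws gr μ := fun g P hP => by
    obtain ⟨m, m1, m2⟩ := words_split (fun μ => ws gr μ = gr g) hP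
    have e1 : m - δ₀ g ∈ words fun μ => ws gr μ = gr g :=
      sub_mem (words_le (fun _ a => a.2) m1) (words_le (fun _ a => a.2) (d1 g))
    have e2 : (δ g - δ₀ g) - (δ g - m) ∈ words fun μ => ¬ ws gr μ = gr g :=
      sub_mem (words_le (fun _ a => a.2) (d2 g)) (words_le (fun _ a => a.2) m2)
    rw [sub_sub_sub_cancel_left] at e2
    have e : m - δ₀ g = 0 := words_false (words_and e1 e2) fun _ a => a.2 a.1
    obtain rfl := sub_eq_zero.1 e
    exact ⟨m1, words_le (fun _ a => ⟨a.1.1, lt_of_le_of_ne a.2.1 (Ne.symm a.2.2)⟩)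
      (words_and m2 (d2 g))⟩
  let f₀ : J → MvPolynomial (E ⊕ J) ℂ := fun j =>
    proj (fun μ => ws gr μ = 0) (pol (f j) : Sp (E ⊕ J) (O ⊕ J)) ∅
  have p : ∀ j, (pol (f₀ j) : Sp (E ⊕ J) (O ⊕ J)) = proj (fun μ => ws gr μ = 0) (pol (f j)) := by
    intro j
    funext S
    by_cases hS : S = ∅
    · subst hS
      exact Pi.single_eq_same _ _
    · ext m
      simp [coeff_proj, pol, hS]
  have L1 : Lead gr (vf δ) (vf δ₀) :=
    ⟨fun k y hy => vf_mem d1 hy fun g μ ν a b => by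
      rw [ws_add, ws_single] at a; rw [ws_add]; omega, fun k y hy => by
      rw [← LinearMap.sub_apply, ← vf_sub]
      exact vf_mem d2 hy fun g μ ν a b => by rw [ws_add, ws_single] at a; rw [ws_add]; omega⟩
  have L2 : ∀ j, Lead gr (mul (f j)) (mul (f₀ j)) := fun j => by
    refine Lead.words (mul_mem_words_of_pol (p j ▸ proj_mem _)) ?_
    change mulA _ - mulA _ ∈ _
    rw [← map_sub]
    refine mul_mem_words_of_pol ?_
    rw [pol, Pi.single_sub]
    change pol _ - pol _ ∈ _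
    rw [p]
    exact mono_le (fun _ => Nat.pos_of_ne_zero) (sub_proj_mem _)
  have w : ∀ μ, ws (fun g => (c g, (gr g : ℤ))) μ = (ws c μ, ((ws gr μ : ℕ) : ℤ)) := fun μ =>
    Prod.ext (map_ws (AddMonoidHom.fst Γ ℤ) _ μ) ((map_ws (AddMonoidHom.snd Γ ℤ) _ μ).trans
      (map_ws (Nat.castAddMonoidHom ℤ) gr μ).symm)
  have z : ∀ g, ¬ Al g → δ₀ g = 0 := fun g a =>
    words_false (d g (fun _ => False) (h.dz g a ▸ zero_mem _)).1 fun _ a => a.1
  have q : vf δ₀ * vf δ₀ = 0 := Lead.zero (h.sq ▸ L1.mul L1)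
  refine ⟨δ₀, f₀, ⟨h.alT, h.alE, h.wtE, z, fun g => words_le (fun _ a => a.1) (d g _ (h.dw g)).1,
    zero_mem _, q, by simp, fun j => p j ▸ proj_mem_of (h.fw j)⟩,
    ⟨h.alT, h.alE, fun j => by simp [h.wtE, hE], z, fun g => words_le
      (fun μ a => ⟨a.1.1, by rw [w, a.1.2.1, a.2], a.1.2.2⟩) (d g _ (h.dw g)).1,
      zero_mem _, q, by simp, fun j => ?_⟩, p, d, fun j e => sub_eq_zero.1
        (Lead.zero (sub_eq_zero.2 e ▸ (L1.mul (L2 j)).sub ((L2 j).mul L1))), fun A k y hy => ?_⟩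
  · rw [p]
    refine mono_le (P := fun μ => (sup Al μ ∧ ws c μ = -c (tv j)) ∧ ws gr μ = 0)
      (fun μ a => ⟨a.1.1, by rw [w, a.1.2, a.2, hT]; simp⟩) ?_
    rw [mono_and]
    exact ⟨proj_mem_of (h.fw j), proj_mem _⟩
  · have L : Lead gr (Dloc δ ω f A) (Dloc δ₀ 0 f₀ A) :=
      ((L1.sub (Lead.sum _ fun j => (((Lead.gn (hT j)).mul (Lead.gn (hT j))).mul
        ((L1.mul (L2 j)).sub ((L2 j).mul L1))).mul (Lead.dr (hT j)))).add
        (Lead.words (zero_mem _) (by rw [sub_zero]; exact hω))).add (Lead.sum _ fun j => Lead.gn (hE j))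
    exact ⟨L.1 k y hy, L.2 k y (mono_le (fun _ a => a.ge) hy)⟩

end Pool.Agent.MP_8be872_ag.H63
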