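import Pool.Agent.MP_8be872_ag.H63.ApiA

/-! Commutation relations and derivations. -/

namespace Pool.Agent.MP_8be872_ag.H63

open Finset H38 H56 MvPolynomial

variable {E O : Type} [Fintype E] [Fintype O] [DecidableEq E] [DecidableEq O]
  {P P' : (E ⊕ O → ℕ) → Prop}

theorem sg_mul_self (a : Bool) : sg a * sg a = 1 := by
  cases a <;> simp [sg]

theorem sg_xor (a b : Bool) : sg (xor a b) = sg a * sg b := by
  cases a <;> cases b <;> simp [sg]

theorem sg_false : sg false = 1 := by simp [sg]

theorem sg_true : sg true = -1 := by simp [sg]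

theorem sg_true_smul {R : Type} [Ring R] [Algebra ℂ R] (m : R) : sg true • m = -m := by
  rw [sg_true, neg_one_smul]

theorem dr_inl_mul (e : E) (f : MvPolynomial E ℂ) : (dr (.inl e) * mul f : Module.End ℂ (Sp E O)) =
    mul f * dr (.inl e) + mul (pderiv e f) := by
  refine LinearMap.ext fun x => funext fun S => ?_
  change pderiv e (f * x S) = f * pderiv e (x S) + pderiv e f * x S
  rw [Derivation.leibniz, smul_eq_mul, smul_eq_mul, mul_comm (x S)]

theorem dr_inr_mul (o : O) (f : MvPolynomial E ℂ) :
    (dr (.inr o) * mul f : Module.End ℂ (Sp E O)) = mul f * dr (.inr o) :=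
  (H29.compLeft_mul_contr _ o).symm

theorem gn_mul_gn (g h : E ⊕ O) :
    (gn g * gn h : Module.End ℂ (Sp E O)) = sg (g.isRight && h.isRight) • (gn h * gn g) := by
  rcases g with e | o <;> rcases h with e' | o'
  · simp only [gn, Sum.isRight_inl, Bool.and_self, sg_false, one_smul]
    rw [← mul_mul, ← mul_mul, mul_comm]
  · simp only [gn, Sum.isRight_inl, Bool.false_and, sg_false, one_smul]
    exact H29.compLeft_mul_wedge _ o'
  · simp only [gn, Sum.isRight_inl, Bool.and_false, sg_false, one_smul]
    exact (H29.compLeft_mul_wedge _ o).symm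
  · simp only [gn, Sum.isRight_inr, Bool.and_self]
    exact (H29.wedge_mul_wedge o o').trans (sg_true_smul _).symm

theorem dr_mul_dr (g h : E ⊕ O) :
    (dr g * dr h : Module.End ℂ (Sp E O)) = sg (g.isRight && h.isRight) • (dr h * dr g) := by
  rcases g with e | o <;> rcases h with e' | o'
  · simp only [Sum.isRight_inl, Bool.and_self, sg_false, one_smul]
    refine LinearMap.ext fun x => funext fun S => ?_
    change pderiv e (pderiv e' (x S)) = pderiv e' (pderiv e (x S))
    generalize x S = p
    induction p using MvPolynomial.induction_on with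
    | C a => simp
    | add p q hp hq => simp only [map_add, hp, hq]
    | mul_X p i hp =>
      simp only [Derivation.leibniz, smul_eq_mul, map_add, hp, pderiv_X]
      have h0 : ∀ a b : E, pderiv a (Pi.single (M := fun _ => MvPolynomial E ℂ) b 1 i) = 0 := by
        intro a b
        rw [Pi.single_apply]
        split_ifs <;> simp
      rw [h0, h0]
      ring
  · simp only [dr, Sum.isRight_inl, Bool.false_and, sg_false, one_smul]
    exact H29.compLeft_mul_contr _ o'
  · simp only [dr, Sum.isRight_inl, Bool.and_false, sg_false, one_smul]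
    exact (H29.compLeft_mul_contr _ o).symm
  · simp only [dr, Sum.isRight_inr, Bool.and_self]
    exact (H29.contr_mul_contr o o').trans (sg_true_smul _).symm

theorem dr_mul_gn (g h : E ⊕ O) : (dr g * gn h : Module.End ℂ (Sp E O)) =
    sg (g.isRight && h.isRight) • (gn h * dr g) + if g = h then 1 else 0 := by
  rcases g with e | o <;> rcases h with e' | o'
  · simp only [gn, Sum.isRight_inl, Bool.and_self, sg_false, one_smul, Sum.inl.injEq]
    rw [dr_inl_mul, pderiv_X, Pi.single_apply]
    by_cases h : e = e'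
    · rw [if_pos h, if_pos h.symm]
      exact congrArg _ (map_one mulA)
    · rw [if_neg h, if_neg (Ne.symm h)]
      exact congrArg _ (map_zero mulA)
  · simp only [gn, dr, Sum.isRight_inl, Bool.false_and, sg_false, one_smul, reduceCtorEq, if_false,
      add_zero]
    exact H29.compLeft_mul_wedge _ o'
  · simp only [gn, Sum.isRight_inl, Bool.and_false, sg_false, one_smul, reduceCtorEq, if_false,
      add_zero]
    exact dr_inr_mul o _
  · simp only [gn, dr, Sum.isRight_inr, Bool.and_self, Sum.inr.injEq]
    rw [H29.contr_mul_wedge, sg_true_smul (R := Module.End ℂ (Sp E O))]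
    abel

theorem dr_one (g : E ⊕ O) : dr g (one : Sp E O) = 0 :=   dr_eq_zero g (one_mem rfl)

theorem count_consB (h : E ⊕ O) (l : List (E ⊕ O)) :
    (fun g => (h :: l).count g) = Pi.single h 1 + fun g => l.count g := by
  funext g
  rw [List.count_cons, Pi.add_apply, Pi.single_apply, add_comm]
  have key : ∀ a b : E ⊕ O, (a == b) = decide (b = a) := by
    intro a b
    rcases a with a | a <;> rcases b with b | b
    · change (a == b) = _
      simp [eq_comm, beq_eq_decide]
    · rfl
    · rfl
    · change (a == b) = _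
      simp [eq_comm, beq_eq_decide]
  simp [key]

theorem od_nil : od (fun g => ([] : List (E ⊕ O)).count g) = false := od_zero

theorem word_memB (l : List (E ⊕ O)) (h : P fun g => l.count g) : (l.map gn).prod ∈ words P :=
  Submodule.subset_span ⟨l, h, rfl⟩

theorem words_le_of {C : Submodule ℂ (Module.End ℂ (Sp E O))}
    (h : ∀ l : List (E ⊕ O), P (fun g => l.count g) → (l.map gn).prod ∈ C) : words P ≤ C := by
  refine Submodule.span_le.2 ?_
  rintro _ ⟨l, hl, rfl⟩
  exact h l hl

theorem sg_and_xor (a b c : Bool) : sg (a && xor b c) = sg (a && b) * sg (a && c) := by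
  cases a <;> cases b <;> cases c <;> simp [sg]

theorem sg_xor_and (a b c : Bool) : sg (xor a b && c) = sg (a && c) * sg (b && c) := by
  cases a <;> cases b <;> cases c <;> simp [sg]

theorem gn_mul_word (g : E ⊕ O) (l : List (E ⊕ O)) : gn g * (l.map gn).prod =
    sg (g.isRight && od fun g => l.count g) • ((l.map gn).prod * gn g) := by
  induction l with
  | nil => rw [od_nil]; simp [sg_false]
  | cons h l ih =>
    rw [count_consB, od_add, od_single, sg_and_xor, List.map_cons, List.prod_cons, ← mul_assoc,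
      gn_mul_gn, smul_mul_assoc, mul_assoc, ih, mul_smul_comm, smul_smul, mul_assoc]

theorem word_mul_word (l l' : List (E ⊕ O)) : (l.map gn).prod * (l'.map gn).prod =
    sg (od (fun g => l.count g) && od fun g => l'.count g) •
      ((l'.map gn).prod * (l.map gn).prod) := by
  induction l with
  | nil => rw [od_nil]; simp [sg_false]
  | cons h l ih =>
    rw [count_consB, od_add, od_single, sg_xor_and, List.map_cons, List.prod_cons, mul_assoc, ih,
      mul_smul_comm, ← mul_assoc, gn_mul_word, smul_mul_assoc, smul_smul, mul_assoc, mul_comm (sg _)]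

/-- Supercommutativity. -/
theorem words_comm {a b : Bool} {m m' : Module.End ℂ (Sp E O)} (hm : m ∈ words fun μ => od μ = a)
    (hm' : m' ∈ words fun μ => od μ = b) : m * m' = sg (a && b) • (m' * m) := by
  induction hm using Submodule.span_induction with
  | mem x hx =>
    obtain ⟨l, hl, rfl⟩ := hx
    induction hm' using Submodule.span_induction with
    | mem y hy =>
      obtain ⟨l', hl', rfl⟩ := hy
      rw [word_mul_word, hl, hl']
    | zero => simp
    | add y z _ _ hy hz => rw [mul_add, add_mul, smul_add, hy, hz]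
    | smul c y _ hy => rw [mul_smul_comm, smul_mul_assoc, hy, smul_comm]
  | zero => simp
  | add y z _ _ hy hz => rw [mul_add, add_mul, smul_add, hy, hz]
  | smul c y _ hy => rw [mul_smul_comm, smul_mul_assoc, hy, smul_comm]

theorem mul_mem_even (f : MvPolynomial E ℂ) :
    (mul f : Module.End ℂ (Sp E O)) ∈ words fun μ => od μ = false := by
  refine mul_mem_words_of_pol (pol_mem.2 fun m _ => ?_)
  simp [od, ex]

theorem mul_mem_true (f : MvPolynomial E ℂ) :
    (mul f : Module.End ℂ (Sp E O)) ∈ words fun _ => True :=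
  words_le (fun _ _ => trivial) (mul_mem_even f)

theorem words_one_mem {m : Module.End ℂ (Sp E O)} (hm : m ∈ words P) : m one ∈ mono P :=
  words_apply_mem hm (one_mem (P := fun μ => μ = 0) rfl) fun a b ha hb => by
    rw [hb, add_zero]; exact ha

theorem mul_comm_words (f : MvPolynomial E ℂ) {m : Module.End ℂ (Sp E O)} (hm : m ∈ words P) :
    mul f * m = m * mul f := by
  induction hm using Submodule.span_induction with
  | mem x hx =>
    obtain ⟨l, _, rfl⟩ := hx
    rw [words_comm (mul_mem_even f) (word_memB l rfl), Bool.false_and, sg_false, one_smul]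
  | zero => simp
  | add y z _ _ hy hz => rw [mul_add, add_mul, hy, hz]
  | smul c y _ hy => rw [mul_smul_comm, smul_mul_assoc, hy]

theorem odd_sq {m : Module.End ℂ (Sp E O)} (hm : m ∈ words fun μ => od μ = true) :
    m * m = 0 := by
  have h := words_comm hm hm
  rw [Bool.and_self, sg_true_smul (R := Module.End ℂ (Sp E O)), eq_neg_iff_add_eq_zero,
    ← two_smul ℂ] at h
  exact (smul_eq_zero.1 h).resolve_left two_ne_zero

/-- A multiplication operator is determined by its value on the unit. -/
theorem words_ext {m : Module.End ℂ (Sp E O)} (hm : m ∈ words P) (h : m one = 0) : m = 0 := by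
  have key : ∀ (a : Bool) (n : Module.End ℂ (Sp E O)), n ∈ words (fun μ => od μ = a) →
      n one = 0 → n = 0 := fun a n hn h1 =>
    op_ext h1 fun g => ⟨_, words_comm hn (gn_mem_words (od_single g))⟩
  obtain ⟨m₀, h0, h1⟩ := words_split (fun μ => od μ = false) hm
  have h0' : m₀ ∈ words fun μ => od μ = false := words_le (fun _ h => h.2) h0
  have h1' : m - m₀ ∈ words fun μ => od μ = true :=
    words_le (fun _ h => by simpa using h.2) h1
  have h2 : (m - m₀) one = -m₀ one := by rw [LinearMap.sub_apply, h, zero_sub]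
  have h3 : m₀ one = 0 := by
    refine eq_zero_of_mem_mono (words_one_mem h0') (P' := fun μ => od μ = true) ?_ ?_
    · have h4 := words_one_mem h1'
      rw [h2] at h4
      exact (Submodule.neg_mem_iff _).1 h4
    · intro μ ha hb
      rw [ha] at hb
      exact Bool.false_ne_true hb
  have h4 := key _ _ h1' (by rw [h2, h3, neg_zero])
  rw [key _ _ h0' h3, sub_zero] at h4
  exact h4

theorem words_of_one {m : Module.End ℂ (Sp E O)} (hm : m ∈ words P) (h : m one ∈ mono P') :
    m ∈ words P' := by
  obtain ⟨m', h1, h2⟩ := exists_words h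
  have h3 : m - m' ∈ words fun _ => True :=
    Submodule.sub_mem _ (words_le (fun _ _ => trivial) hm) (words_le (fun _ _ => trivial) h1)
  rw [sub_eq_zero.1 (words_ext h3 (by rw [LinearMap.sub_apply, h2, sub_self]))]
  exact h1

theorem words_and {m : Module.End ℂ (Sp E O)} (hm : m ∈ words P) (hm' : m ∈ words P') :
    m ∈ words fun μ => P μ ∧ P' μ :=   words_of_one hm (by rw [mono_and]; exact ⟨words_one_mem hm, words_one_mem hm'⟩)

/-- Odd exponents may be assumed to be at most one. -/
theorem words_le_odd (h : ∀ μ, (∀ o, μ (.inr o) ≤ 1) → P μ → P' μ) : words P ≤ words P' :=   fun _ hm => words_of_one hm (mono_le_odd h (words_one_mem hm))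

theorem dr_br_word (g : E ⊕ O) (l : List (E ⊕ O)) :
    dr g * (l.map gn).prod - sg (g.isRight && od fun g => l.count g) • ((l.map gn).prod * dr g) ∈
      words fun μ : E ⊕ O → ℕ => μ + Pi.single g 1 = fun g => l.count g := by
  induction l with
  | nil => rw [od_nil]; simp [sg_false]
  | cons h l ih =>
    have e : dr g * ((h :: l).map gn).prod - sg (g.isRight && od fun g => (h :: l).count g) •
        (((h :: l).map gn).prod * dr g) = sg (g.isRight && h.isRight) • (gn h *
          (dr g * (l.map gn).prod - sg (g.isRight && od fun g => l.count g) •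
            ((l.map gn).prod * dr g))) + (if g = h then 1 else 0) * (l.map gn).prod := by
      rw [count_consB, od_add, od_single, sg_and_xor, List.map_cons, List.prod_cons, ← mul_assoc,
        dr_mul_gn, add_mul, mul_sub, smul_sub, mul_smul_comm, smul_smul, smul_mul_assoc,
        mul_assoc, mul_assoc]
      abel
    rw [e, count_consB]
    refine Submodule.add_mem _ (Submodule.smul_mem _ _ (mul_mem_words
      (gn_mem_words (P := fun μ => μ = Pi.single h 1) rfl) ih ?_)) ?_
    · rintro a b rfl hb
      rw [add_assoc, hb]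
    · split_ifs with hgh
      · rw [one_mul, hgh]
        exact word_memB l (add_comm _ _)
      · rw [zero_mul]
        exact Submodule.zero_mem _

theorem dr_br {a : Bool} (g : E ⊕ O) {m : Module.End ℂ (Sp E O)}
    (hm : m ∈ words fun μ => P μ ∧ od μ = a) (h : ∀ μ, P (μ + Pi.single g 1) → P' μ) :
    dr g * m - sg (g.isRight && a) • (m * dr g) ∈ words P' := by
  induction hm using Submodule.span_induction with
  | mem x hx =>
    obtain ⟨l, hl, rfl⟩ := hx
    rw [← hl.2]
    exact words_le (fun μ hμ => h μ (by rw [hμ]; exact hl.1)) (dr_br_word g l)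
  | zero => simp
  | add y z _ _ hy hz =>
    rw [mul_add, add_mul, smul_add, add_sub_add_comm]
    exact Submodule.add_mem _ hy hz
  | smul c y _ hy =>
    rw [mul_smul_comm, smul_mul_assoc, smul_comm, ← smul_sub]
    exact Submodule.smul_mem _ _ hy

variable {δ δ' : E ⊕ O → Module.End ℂ (Sp E O)} {s s' : Bool}

theorem vf_one : vf δ one = 0 := by
  simp [vf, LinearMap.sum_apply, dr_one]

theorem vf_add : vf (δ + δ') = vf δ + vf δ' := by
  simp only [vf, Pi.add_apply, add_mul, sum_add_distrib]

theorem vf_sub : vf (δ - δ') = vf δ - vf δ' := by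
  simp only [vf, Pi.sub_apply, sub_mul, sum_sub_distrib]

theorem mul_vf (m : Module.End ℂ (Sp E O)) : m * vf δ = vf fun g => m * δ g := by
  simp only [vf, mul_sum, mul_assoc]

theorem vf_br_eq (hδ : ∀ g, δ g ∈ words fun μ => od μ = xor g.isRight s) {a : Bool}
    {m : Module.End ℂ (Sp E O)} (hm : m ∈ words fun μ => od μ = a) :
    vf δ * m - sg (s && a) • (m * vf δ) =
      ∑ g, δ g * (dr g * m - sg (g.isRight && a) • (m * dr g)) := by
  rw [vf, sum_mul, mul_sum, smul_sum, ← sum_sub_distrib]
  refine sum_congr rfl fun g _ => ?_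
  rw [mul_sub, mul_smul_comm, ← mul_assoc (δ g) m, words_comm (hδ g) hm, smul_mul_assoc, smul_smul,
    sg_xor_and, ← mul_assoc (sg _), sg_mul_self, one_mul, mul_assoc, mul_assoc]

/-- The value of a derivation of parity `s` on a generator. -/
theorem vf_gn (hδ : ∀ g, δ g ∈ words fun μ => od μ = xor g.isRight s) (g : E ⊕ O) :
    vf δ * gn g - sg (s && g.isRight) • (gn g * vf δ) = δ g := by
  rw [vf_br_eq hδ (gn_mem_words (od_single g))]
  simp only [dr_mul_gn, add_sub_cancel_left, mul_ite, mul_one, mul_zero, sum_ite_eq', mem_univ,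
    if_true]

/-- The value of a derivation on a multiplication operator. -/
theorem vf_br {Pg : E ⊕ O → (E ⊕ O → ℕ) → Prop}
    (hδ : ∀ g, δ g ∈ words fun μ => Pg g μ ∧ od μ = xor g.isRight s) {a : Bool}
    {m : Module.End ℂ (Sp E O)} (hm : m ∈ words fun μ => P μ ∧ od μ = a)
    (h : ∀ g μ ν, P (μ + Pi.single g 1) → Pg g ν → P' (ν + μ)) :
    vf δ * m - sg (s && a) • (m * vf δ) ∈ words P' := by
  rw [vf_br_eq (fun g => words_le (fun _ h => h.2) (hδ g)) (words_le (fun _ h => h.2) hm)]
  exact Submodule.sum_mem _ fun g _ => mul_mem_words (hδ g)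
    (dr_br (P' := fun μ => P (μ + Pi.single g 1)) g hm fun _ h => h) fun ν μ h1 h2 => h g μ ν h2 h1.1

theorem vf_mem {Pg : E ⊕ O → (E ⊕ O → ℕ) → Prop} (hδ : ∀ g, δ g ∈ words (Pg g)) {x : Sp E O}
    (hx : x ∈ mono P) (h : ∀ g μ ν, P (μ + Pi.single g 1) → Pg g ν → P' (ν + μ)) :
    vf δ x ∈ mono P' := by
  rw [vf, LinearMap.sum_apply]
  exact Submodule.sum_mem _ fun g _ => words_apply_mem (hδ g)
    (dr_mem (P' := fun μ => P (μ + Pi.single g 1)) g hx fun _ h => h) fun ν μ h1 h2 => h g μ ν h2 h1

/-- On polynomials a derivation acts by the chain rule. -/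
theorem vf_mul (hδ : ∀ g, δ g ∈ words fun _ => True) (f : MvPolynomial E ℂ) :
    vf δ * mul f - mul f * vf δ = ∑ e, mul (pderiv e f) * δ (.inl e) := by
  rw [vf, sum_mul, mul_sum, ← sum_sub_distrib, Fintype.sum_sum_type]
  have h1 : ∀ o : O, δ (.inr o) * dr (.inr o) * mul f - mul f * (δ (.inr o) * dr (.inr o)) = 0 := by
    intro o
    rw [mul_assoc, dr_inr_mul, ← mul_assoc, ← mul_comm_words f (hδ _), mul_assoc, sub_self]
  rw [sum_eq_zero fun o _ => h1 o, add_zero]
  refine sum_congr rfl fun e _ => ?_
  rw [mul_assoc, dr_inl_mul, mul_add, ← mul_assoc, ← mul_comm_words f (hδ _), mul_assoc,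
    add_sub_cancel_left, mul_comm_words _ (hδ _)]

theorem vf_mul_comm_iff (hδ : ∀ g, δ g ∈ words fun _ => True) (f : MvPolynomial E ℂ) :
    vf δ * mul f = mul f * vf δ ↔ vf δ (pol f) = 0 := by
  have h1 : (vf δ * mul f - mul f * vf δ : Module.End ℂ (Sp E O)) one = vf δ (pol f) := by
    rw [LinearMap.sub_apply, Module.End.mul_apply, Module.End.mul_apply, vf_one, map_zero, sub_zero,
      mul_one_eq]
  rw [← h1, ← sub_eq_zero]
  refine ⟨fun h => by rw [h]; rfl, fun h => words_ext (P := fun _ => True) ?_ h⟩
  rw [vf_mul hδ]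
  exact Submodule.sum_mem _ fun e _ => mul_mem_words (mul_mem_true _) (hδ _) fun _ _ _ _ => trivial

theorem vf_br_par (hδ : ∀ g, δ g ∈ words fun μ => od μ = xor g.isRight s) {a : Bool}
    {m : Module.End ℂ (Sp E O)} (hm : m ∈ words fun μ => od μ = a) :
    vf δ * m - sg (s && a) • (m * vf δ) ∈ words fun μ => od μ = xor a s := by
  refine vf_br (Pg := fun g μ => od μ = xor g.isRight s) (P := fun μ => od μ = a)
    (fun g => words_le (fun _ h => ⟨h, h⟩) (hδ g)) (words_le (fun _ h => ⟨h, h⟩) hm) ?_
  intro g μ ν h1 h2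
  rw [od_add, od_single] at h1
  rw [od_add, h2, ← h1]
  cases od μ <;> cases g.isRight <;> cases s <;> rfl

theorem jac_aux {R : Type} [Ring R] [Algebra ℂ R] (A B V x d d' : R) (σ σ' τ : ℂ) (hτ : τ * τ = 1)
    (hA : A * x - σ • (x * A) = d) (hB : B * x - σ' • (x * B) = d')
    (hV : V * x - (σ * σ') • (x * V) =
      (A * d' - (σ * τ) • (d' * A)) - τ • (B * d - (σ' * τ) • (d * B))) :
    (A * B - τ • (B * A) - V) * x = (σ * σ') • (x * (A * B - τ • (B * A) - V)) := by
  have h1 : A * x = σ • (x * A) + d := by rw [← hA]; abel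
  have h2 : B * x = σ' • (x * B) + d' := by rw [← hB]; abel
  have h3 := eq_add_of_sub_eq hV
  have h4 : τ • ((σ' * τ) • (d * B)) = σ' • (d * B) := by
    rw [smul_smul, mul_comm σ', ← mul_assoc, hτ, one_mul]
  have h5 : A * B * x = (σ * σ') • (x * (A * B)) + σ' • (d * B) + A * d' := by
    rw [mul_assoc, h2, mul_add, mul_smul_comm, ← mul_assoc, h1, add_mul, smul_add, smul_mul_assoc,
      smul_smul, mul_comm σ', mul_assoc x]
  have h6 : B * A * x = (σ * σ') • (x * (B * A)) + σ • (d' * A) + B * d := by
    rw [mul_assoc, h1, mul_add, mul_smul_comm, ← mul_assoc, h2, add_mul, smul_add, smul_mul_assoc,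
      smul_smul, mul_assoc x]
  rw [sub_mul, sub_mul, smul_mul_assoc, h5, h6, h3, smul_sub τ, h4, mul_sub, mul_sub, mul_smul_comm]
  module

/-- The supercommutator of two derivations is the derivation with the expected values. -/
theorem vf_br_vf (hδ : ∀ g, δ g ∈ words fun μ => od μ = xor g.isRight s)
    (hδ' : ∀ g, δ' g ∈ words fun μ => od μ = xor g.isRight s') :
    vf δ * vf δ' - sg (s && s') • (vf δ' * vf δ) = vf fun g =>
      (vf δ * δ' g - sg (s && xor g.isRight s') • (δ' g * vf δ)) -
        sg (s && s') • (vf δ' * δ g - sg (s' && xor g.isRight s) • (δ g * vf δ')) := by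
  rw [← sub_eq_zero]
  refine op_ext ?_ fun g => ⟨sg (s && g.isRight) * sg (s' && g.isRight), ?_⟩
  · simp [vf_one]
  · refine jac_aux _ _ _ _ (δ g) (δ' g) _ _ _ (sg_mul_self _) (vf_gn hδ g) (vf_gn hδ' g) ?_
    rw [← sg_xor_and, ← sg_and_xor, Bool.and_comm s s', ← sg_and_xor, Bool.and_comm s' s]
    refine vf_gn (s := xor s s') (fun h => Submodule.sub_mem _ ?_ (Submodule.smul_mem _ _ ?_)) g
    · refine words_le (fun μ hμ => ?_) (vf_br_par hδ (hδ' h))
      rw [hμ]
      cases h.isRight <;> cases s <;> cases s' <;> rfl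
    · refine words_le (fun μ hμ => ?_) (vf_br_par hδ' (hδ h))
      rw [hμ]
      cases h.isRight <;> cases s <;> cases s' <;> rfl

/-- An odd derivation squares to zero if it kills its values on generators. -/
theorem vf_sq (hδ : ∀ g, δ g ∈ words fun μ => od μ = !g.isRight)
    (h : ∀ g, vf δ * δ g = sg (!g.isRight) • (δ g * vf δ)) : vf δ * vf δ = 0 := by
  have h1 : ∀ g, δ g ∈ words fun μ => od μ = xor g.isRight true := by
    intro g
    rw [Bool.xor_true]
    exact hδ g
  have h2 := vf_br_vf h1 h1
  simp only [Bool.xor_true, Bool.true_and, h, sub_self, smul_zero] at h2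
  rw [sg_true_smul (R := Module.End ℂ (Sp E O)), sub_neg_eq_add, ← two_smul ℂ] at h2
  have h3 : vf (fun _ : E ⊕ O => (0 : Module.End ℂ (Sp E O))) = 0 := by simp [vf]
  exact (smul_eq_zero.1 (h2.trans (by simpa using h3))).resolve_left two_ne_zero

/-- Two derivations agree on the subalgebra where their values agree. -/
theorem vf_congr {A : E ⊕ O → Prop} (h : ∀ g, A g → δ g = δ' g) {x : Sp E O}
    (hx : x ∈ mono (sup A)) : vf δ x = vf δ' x := by
  rw [vf, vf, LinearMap.sum_apply, LinearMap.sum_apply]
  refine sum_congr rfl fun g _ => ?_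
  by_cases hg : A g
  · rw [h g hg]
  · have h0 : dr g x = 0 := dr_eq_zero g (mono_le (fun μ hμ => by
      by_contra h1
      exact hg (hμ g h1)) hx)
    rw [Module.End.mul_apply, Module.End.mul_apply, h0, map_zero, map_zero]

theorem euler_word (c : E ⊕ O → ℂ) (l : List (E ⊕ O)) :
    vf (fun g => c g • gn g) ((l.map gn).prod one) =
      ws c (fun g => l.count g) • (l.map gn).prod one := by
  induction l with
  | nil =>
    have h0 : ws c (fun g => ([] : List (E ⊕ O)).count g) = 0 := ws_zero c
    rw [h0, zero_smul]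
    exact vf_one
  | cons h l ih =>
    have h1 := vf_gn (δ := fun g => c g • gn g) (s := false)
      (fun g => Submodule.smul_mem _ _ (gn_mem_words (by rw [od_single, Bool.xor_false]))) h
    rw [Bool.false_and, sg_false, one_smul] at h1
    rw [count_consB, ws_add, ws_single, List.map_cons, List.prod_cons, Module.End.mul_apply,
      ← Module.End.mul_apply (vf _), eq_add_of_sub_eq h1, LinearMap.add_apply, Module.End.mul_apply,
      ih, map_smul, LinearMap.smul_apply, add_smul]

/-- Euler operators. -/
theorem euler_apply (c : E ⊕ O → ℂ) {a : ℂ} {x : Sp E O} (hx : x ∈ mono fun μ => ws c μ = a) :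
    vf (fun g => c g • gn g) x = a • x := by
  have h := map_mem_of_bas (L := vf (fun g => c g • gn g) - a • LinearMap.id) (C := ⊥) ?_ hx
  · rw [Submodule.mem_bot, LinearMap.sub_apply, sub_eq_zero] at h
    exact h
  · intro S m hm
    obtain ⟨l, h1, h2⟩ := bas_eq_word S m
    rw [Submodule.mem_bot, LinearMap.sub_apply, sub_eq_zero, h2, euler_word, h1, hm]
    rfl

/-- A linear map intertwining generators up to sign, modulo `B`, intertwines on words. -/
theorem intertwine {M : Type} [AddCommGroup M] [Module ℂ M] {A : E ⊕ O → Prop}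
    (L L' : Sp E O →ₗ[ℂ] M) (B : Submodule ℂ M) (ρ : E ⊕ O → Module.End ℂ M)
    (hB : ∀ g, A g → ∀ y ∈ B, ρ g y ∈ B) (h1 : L one - L' one ∈ B)
    (h : ∀ g, A g → ∀ x ∈ mono (sup A), L (gn g x) - L' (gn g x) - ρ g (L x - L' x) ∈ B) :
    ∀ x ∈ mono (sup A), L x - L' x ∈ B := by
  intro x hx
  refine mono_ind (C := B.comap (L - L')) h1 (fun g hg y hy hy' => ?_) hx
  have h2 := B.add_mem (h g hg y hy) (hB g hg _ hy')
  rw [LinearMap.sub_apply, sub_add_cancel] at h2
  exact h2

end Pool.Agent.MP_8be872_ag.H63
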