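import Pool.Agent.MP_8be872_ag.H63.Base

/-! Statements of the abstract modules of the global model. -/

namespace Pool.Agent.MP_8be872_ag.H63

open Finset H38 H56 MvPolynomial

/-! ### Casimir operator and Kostant Laplacian -/

section Lie

variable {V ι A : Type} [Fintype V] [DecidableEq V] [DecidableEq ι] [Ring A] [Algebra ℂ A]

/-- The relations of `⊕_i gl(V_i)`. -/
def GlRel (vert : V → ι) (E : V → V → A) : Prop :=
  ∀ a b c d, vert a = vert b → vert c = vert d → E a b * E c d - E c d * E a b =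
    (if b = c then E a d else 0) - if d = a then E c b else 0

/-- The Casimir element. -/
def casimir (vert : V → ι) (E : V → V → A) : A :=
  ∑ a, ∑ b, if vert a = vert b then E a b * E b a else 0

variable (R : V × V → Prop) [DecidablePred R]

/-- Fermions commuting with `E`. -/
structure Car (E : V → V → A) (c u : Subtype R → A) : Prop where
  cc : ∀ r s, c r * c s = -(c s * c r)
  uu : ∀ r s, u r * u s = -(u s * u r)
  uc : ∀ r s, u r * c s + c s * u r = if r = s then 1 else 0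
  Ec : ∀ a b r, E a b * c r = c r * E a b
  Eu : ∀ a b r, E a b * u r = u r * E a b

/-- The Chevalley-Eilenberg differential. -/
def ceD (E : V → V → A) (c u : Subtype R → A) : A :=
  ∑ r, c r * E r.1.1 r.1.2 - ∑ r : Subtype R, ∑ r' : Subtype R, ∑ r'' : Subtype R,
    if r.1.2 = r'.1.1 ∧ r''.1 = (r.1.1, r'.1.2) then c r * c r' * u r'' else 0

/-- Its adjoint. -/
def ceH (E : V → V → A) (c u : Subtype R → A) : A :=
  ∑ r, u r * E r.1.2 r.1.1 - ∑ r : Subtype R, ∑ r' : Subtype R, ∑ r'' : Subtype R,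
    if r.1.2 = r'.1.1 ∧ r''.1 = (r.1.1, r'.1.2) then c r'' * u r' * u r else 0

/-- The total torus action. -/
def totW (E : V → V → A) (c u : Subtype R → A) (a : V) : A :=
  E a a + ∑ r : Subtype R, ((if r.1.2 = a then c r * u r else 0) - if r.1.1 = a then c r * u r else 0)

end Lie

/-- A locally finite representation with integral weights. -/
structure LocFin {V ι M : Type} [AddCommGroup M] [Module ℂ M] (vert : V → ι)
    (E : V → V → Module.End ℂ M) : Prop where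
  fin : ∀ x, ∃ U : Submodule ℂ M, FiniteDimensional ℂ U ∧ x ∈ U ∧
    ∀ a b, vert a = vert b → ∀ y ∈ U, E a b y ∈ U
  diag : ∀ x, x ∈ Submodule.span ℂ {y | ∃ n : V → ℤ, ∀ a, E a a y = (n a : ℂ) • y}

/-- Module K0: the Reynolds operator is locally a polynomial in the Casimir operator. -/
def K0Stmt : Prop :=
  ∀ (V ι M : Type) [Fintype V] [DecidableEq V] [DecidableEq ι] [AddCommGroup M] [Module ℂ M]
    (vert : V → ι) (E : V → V → Module.End ℂ M), GlRel vert E → LocFin vert E →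
    ∀ x, ∃ P : Polynomial ℂ, P.eval 0 = 1 ∧
      ∀ a b, vert a = vert b → E a b (Polynomial.aeval (casimir vert E) P x) = 0

/-- Module K1: Kostant's formula. -/
def K1Stmt : Prop :=
  ∀ (V ι A : Type) [Fintype V] [DecidableEq V] [DecidableEq ι] [Ring A] [Algebra ℂ A]
    (vert : V → ι) (key : V → ℕ) (R : V × V → Prop) [DecidablePred R] (E : V → V → A)
    (c u : Subtype R → A), Function.Injective key →
    (∀ a b, R (a, b) ↔ vert a = vert b ∧ key b < key a) → GlRel vert E → Car R E c u →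
    (2 : ℂ) • (ceD R E c u * ceH R E c u + ceH R E c u * ceD R E c u) =
      casimir vert E - ∑ a, totW R E c u a * totW R E c u a -
        ∑ r : Subtype R, (totW R E c u r.1.1 - totW R E c u r.1.2)

/-- Module K2: weight zero `𝔲`-cohomology is computed by invariants. -/
def K2Stmt : Prop :=
  ∀ (V ι M : Type) [Fintype V] [DecidableEq V] [DecidableEq ι] [AddCommGroup M] [Module ℂ M]
    (vert : V → ι) (key : V → ℕ) (R : V × V → Prop) [DecidablePred R]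
    (E : V → V → Module.End ℂ M) (c u : Subtype R → Module.End ℂ M) (D₀ : Module.End ℂ M)
    (W : Bool → Submodule ℂ M) (B : Submodule ℂ M), Function.Injective key →
    (∀ a b, R (a, b) ↔ vert a = vert b ∧ key b < key a) → GlRel vert E → Car R E c u →
    LocFin vert E → (∀ a b, vert a = vert b → D₀ * E a b = E a b * D₀) →
    (∀ r, D₀ * c r = -(c r * D₀)) → (∀ r, D₀ * u r = -(u r * D₀)) →
    (∀ p, ∀ x ∈ W p, (∀ a b, vert a = vert b → E a b x ∈ W p) ∧ D₀ x ∈ W (!p) ∧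
      ∀ r, c r x ∈ W (!p) ∧ u r x ∈ W (!p)) →
    (∀ x ∈ B, (∀ a b, vert a = vert b → E a b x ∈ B) ∧ D₀ x ∈ B ∧ ∀ r, c r x ∈ B ∧ u r x ∈ B) →
    ∀ Z Z' : Bool → Submodule ℂ M,
    (∀ p x, x ∈ Z p ↔ x ∈ W p ∧ ∀ a, totW R E c u a x = 0) →
    (∀ p x, x ∈ Z' p ↔ x ∈ W p ∧ (∀ r, u r x = 0) ∧ (∀ a, E a a x = 0) ∧
      ∀ a b, vert a = vert b → E a b x ∈ B) →
    IsCx (D₀ + ceD R E c u) Z B → IsCx D₀ Z' B →
    ∀ n, HasChi (D₀ + ceD R E c u) Z B n ↔ HasChi D₀ Z' B n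

/-! ### Čech complexes -/

section Loc

variable (E O J Γ : Type) [Fintype E] [Fintype O] [Fintype J] [DecidableEq E] [DecidableEq O]
  [DecidableEq J] [AddCommGroup Γ]

/-- Module CC: the part of the Čech complex over the charts `J₂` is acyclic if these charts are
covered by the charts `J₁`. -/
def CCAt : Prop :=
  ∀ (Al : Gn E O J → Prop) (c : Gn E O J → Γ) (δ : Gn E O J → Op E O J) (ω : Op E O J)
    (f : J → MvPolynomial (E ⊕ J) ℂ), Good Al c δ ω f →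
    ∀ gh E0 Θ r, Eqs Al δ ω gh E0 Θ r → ∀ J₀ J₁ J₂ : Finset J,
    (∀ j ∈ J₀ ∪ J₁ ∪ J₂, (pol (f j) : Sp (E ⊕ J) (O ⊕ J)) ∈ mono (sup E0)) →
    Disjoint J₀ J₁ → Disjoint J₂ (J₀ ∪ J₁) →
    (∀ y : E ⊕ J → ℂ, (∀ e, ¬ E0 (.inl e) → y e = 0) → (∀ g, Θ g → eval y (r g) = 0) →
      (∀ j ∈ J₀, eval y (f j) ≠ 0) → ∀ j ∈ J₂, eval y (f j) ≠ 0 → ∃ i ∈ J₁, eval y (f i) ≠ 0) →
    ∀ γ, Acy (Dloc δ ω f (J₁ ∪ J₂))
      (fun p => ZZ Al c J₀ (J₁ ∪ J₂) γ p ⊓ mono fun μ => ∃ j ∈ J₂, μ (ev j) ≠ 0) (rel f)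

variable {E O J Γ} in
/-- A subspace compatible with the Čech differentials and the patterns of `ε`. -/
structure InvOK (δ : Gn E O J → Op E O J) (ω : Op E O J) (f : J → MvPolynomial (E ⊕ J) ℂ)
    (I : Submodule ℂ (Sp (E ⊕ J) (O ⊕ J))) : Prop where
  pr : ∀ (U : (J → ℕ) → Prop), ∀ x ∈ I, proj (fun μ => U fun j => μ (ev j)) x ∈ I
  dd : ∀ A, ∀ x ∈ I, Dloc δ ω f A x ∈ I

/-- Module Pat: removing charts, and the filtration by the largest chart. -/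
def PatAt : Prop :=
  ∀ (Al : Gn E O J → Prop) (c : Gn E O J → Γ) (δ : Gn E O J → Op E O J) (ω : Op E O J)
    (f : J → MvPolynomial (E ⊕ J) ℂ), Good Al c δ ω f → ∀ I, InvOK δ ω f I → ∀ γ,
    (∀ J₀ J₁ J₂ : Finset J, Disjoint J₂ (J₀ ∪ J₁) →
      Acy (Dloc δ ω f (J₁ ∪ J₂)) (fun p => (ZZ Al c J₀ (J₁ ∪ J₂) γ p ⊓
        mono fun μ => ∃ j ∈ J₂, μ (ev j) ≠ 0) ⊓ I) (rel f) →
      ∀ n, HasChi (Dloc δ ω f (J₁ ∪ J₂)) (fun p => ZZ Al c J₀ (J₁ ∪ J₂) γ p ⊓ I) (rel f) n ↔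
        HasChi (Dloc δ ω f J₁) (fun p => ZZ Al c J₀ J₁ γ p ⊓ I) (rel f) n) ∧
    ∀ (J₁ : Finset J) (rk : J → ℕ) (n : J → ℤ), Set.InjOn rk J₁ →
      (∀ j ∈ J₁, HasChi (Dloc δ ω f (J₁.filter fun i => rk i < rk j))
        (fun p => ZZ Al c {j} (J₁.filter fun i => rk i < rk j) γ p ⊓ I) (rel f) (n j)) →
      HasChi (Dloc δ ω f J₁) (fun p => ZZ Al c ∅ J₁ γ p ⊓ I) (rel f) (∑ j ∈ J₁, n j)

variable {E O J Γ} in
/-- The generators in the list `L` can be killed one at a time, modulo those in `K`. -/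
structure Tri (Al : Gn E O J → Prop) (δ : Gn E O J → Op E O J) (K : Gn E O J → Prop)
    (L : List (Gn E O J)) (ρ : Gn E O J → ℤ) : Prop where
  nodup : L.Nodup
  kAl : ∀ g, K g → Al g
  kst : ∀ g, K g → δ g ∈ words (has K)
  lAl : ∀ g ∈ L, Al g ∧ ¬ K g
  pos : ∀ g, Al g → ¬ K g → 0 < ρ g
  lst : ∀ g ∈ L, δ g ∈ words fun μ => has K μ ∨ (has (· ∈ L) μ ∧ ws ρ μ < ρ g)

/-- Module One: killing generators one at a time. -/
def OneAt : Prop :=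
  ∀ (Al : Gn E O J → Prop) (c : Gn E O J → Γ) (δ : Gn E O J → Op E O J) (ω : Op E O J)
    (f : J → MvPolynomial (E ⊕ J) ℂ), Good Al c δ ω f → ∀ (j₀ : J) K L ρ, Tri Al δ K L ρ →
    ∀ l : Γ →+ ℤ, (∀ g ∈ L, g.isLeft → 0 < l (c g)) →
    (∀ γ, l γ < 0 → ∀ p, ZZ Al c {j₀} ∅ γ p ≤ rel f ⊔ mono (has K)) →
    ∀ e : Γ → ℤ, (∀ γ, HasChi (Dloc δ ω f ∅) (ZZ Al c {j₀} ∅ γ)
      (rel f ⊔ mono (has fun g => K g ∨ g ∈ L)) (e γ)) →
    ∃ e' : Γ → ℤ, (∀ γ, HasChi (Dloc δ ω f ∅) (ZZ Al c {j₀} ∅ γ) (rel f ⊔ mono (has K)) (e' γ)) ∧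
      shl ((L.filter Sum.isLeft).map c) e' = shl ((L.filter Sum.isRight).map c) e ∧
      ∀ U : Set Γ, (∀ g ∈ L, ∀ γ ∈ U, γ - c g ∈ U) →
        (∀ γ ∈ U, Acy (Dloc δ ω f ∅) (ZZ Al c {j₀} ∅ γ) (rel f ⊔ mono (has fun g => K g ∨ g ∈ L))) →
        ∀ γ ∈ U, Acy (Dloc δ ω f ∅) (ZZ Al c {j₀} ∅ γ) (rel f ⊔ mono (has K))

variable {E O J Γ} in
/-- The ideal generated by the linear forms `ν g`. -/
noncomputable def linI (ν : Matrix (Gn E O J) (Gn E O J) ℂ) : Submodule ℂ (Sp (E ⊕ J) (O ⊕ J)) :=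
  ⨆ g, LinearMap.range (lin (ν g) : Op E O J)

/-- Module Elim: an ideal generated by an acyclic complex of linear forms is acyclic. -/
def ElimAt : Prop :=
  ∀ (Al : Gn E O J → Prop) (c : Gn E O J → Γ) (δ : Gn E O J → Op E O J) (ω : Op E O J)
    (f : J → MvPolynomial (E ⊕ J) ℂ), Good Al c δ ω f → ∀ (j₀ : J) (K : Gn E O J → Prop),
    (∀ g, K g → Al g) → (∀ g, K g → δ g ∈ words (has K)) → ω ∈ words (has K) →
    vf δ * mul (f j₀) = mul (f j₀) * vf δ →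
    ∀ l : Γ →+ ℤ, (∀ g, Al g → ¬ K g → 0 < l (c g)) →
    ∀ d h : Matrix (Gn E O J) (Gn E O J) ℂ,
    (∀ g g', d g g' ≠ 0 ∨ h g g' ≠ 0 →
      Al g ∧ ¬ K g ∧ Al g' ∧ ¬ K g' ∧ c g' = c g ∧ g'.isRight = !g.isRight) →
    (∀ g, δ g - lin (d g) ∈ words fun μ => has K μ ∨ 2 ≤ ∑ g', μ g') →
    d * d = 0 → h * h = 0 → (h * d + d * h) * (h * d + d * h) = h * d + d * h →
    (∀ x ∈ linI (h * d + d * h), Dloc δ ω f ∅ x ∈ linI (h * d + d * h) ⊔ mono (has K)) →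
    ∀ P : (Gn E O J → ℕ) → Prop,
    (∀ (μ : Gn E O J → ℕ) g g', d g g' ≠ 0 ∨ h g g' ≠ 0 →
      P (μ + Pi.single g 1) → P (μ + Pi.single g' 1)) →
    (∀ μ : Gn E O J → ℕ, P (μ + Pi.single (tv j₀) 1) ↔ P μ) →
    (∀ m, coeff m (f j₀) ≠ 0 → ∀ μ, P μ → P (μ + ex ∅ m)) →
    (∀ x ∈ mono P, Dloc δ ω f ∅ x ∈ mono P ⊔ mono (has K)) →
    ∀ γ, Acy (Dloc δ ω f ∅) (fun p => ZZ Al c {j₀} ∅ γ p ⊓ (mono P ⊔ mono (has K)) ⊓
      (linI (h * d + d * h) ⊔ (rel f ⊔ mono (has K)))) (rel f ⊔ mono (has K))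

/-- Module N4: even generators `Me` mapping injectively to odd generators `Mo` at all points. -/
def N4At : Prop :=
  ∀ (Al : Gn E O J → Prop) (c : Gn E O J → Γ) (δ : Gn E O J → Op E O J) (ω : Op E O J)
    (f : J → MvPolynomial (E ⊕ J) ℂ), Good Al c δ ω f → ∀ (j₀ : J) (K : Gn E O J → Prop),
    (∀ g, K g → Al g) → (∀ g, K g → δ g ∈ words (has K)) → ω ∈ words (has K) →
    vf δ * mul (f j₀) = mul (f j₀) * vf δ →
    ∀ (Me Mo E0 Θ : Gn E O J → Prop) (r : Gn E O J → MvPolynomial (E ⊕ J) ℂ)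
      (a : Gn E O J → Gn E O J → MvPolynomial (E ⊕ J) ℂ) (cd : Gn E O J → ℤ),
    (∀ g, Me g → Al g ∧ ¬ K g ∧ g.isLeft ∧ cd g < 0 ∧
      δ g - ∑ g', mul (a g g') * gn g' ∈ words fun μ => has K μ ∨ 2 ≤ cnt (fun g => Me g ∨ Mo g) μ) →
    (∀ g, Mo g → Al g ∧ ¬ K g ∧ g.isRight ∧ cd g < 0 ∧
      δ g ∈ words fun μ => has K μ ∨ 2 ≤ cnt (fun g => Me g ∨ Mo g) μ) →
    (∀ g, E0 g → Al g ∧ ¬ K g ∧ g.isLeft ∧ ¬ Me g ∧ δ g ∈ words (has K)) →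
    (∀ g, Θ g → Al g ∧ ¬ K g ∧ g.isRight ∧ ¬ Mo g ∧ δ g - mul (r g) ∈ words (has K)) →
    (∀ g, (pol (r g) : Sp (E ⊕ J) (O ⊕ J)) ∈ mono (sup E0)) →
    (∀ g g', (pol (a g g') : Sp (E ⊕ J) (O ⊕ J)) ∈ mono (sup E0) ∧ (a g g' ≠ 0 → Me g ∧ Mo g')) →
    (pol (f j₀) : Sp (E ⊕ J) (O ⊕ J)) ∈ (mono fun μ => has K μ ∨ sup E0 μ) →
    (∀ g, δ g ∈ words fun μ => ws cd μ = cd g + 1) → cd (tv j₀) = 0 → (∀ g, E0 g → cd g = 0) →
    (∀ g, Al g → g.isLeft → cd g ≤ 0) →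
    (∀ y : E ⊕ J → ℂ, (∀ e, ¬ E0 (.inl e) → y e = 0) → (∀ g, Θ g → eval y (r g) = 0) →
      eval y (f j₀) ≠ 0 → ∀ ξ : Gn E O J → ℂ, (∀ g', ∑ g, ξ g * eval y (a g g') = 0) →
      ∀ g, Me g → ξ g = 0) →
    ∀ k, Fintype.card (O ⊕ J) < k → ∀ γ, Acy (Dloc δ ω f ∅)
      (fun p => ZZ Al c {j₀} ∅ γ p ⊓ mono fun μ => has K μ ∨ k ≤ cnt (fun g => Me g ∨ Mo g) μ)
      (rel f ⊔ mono (has K))

/-- Module NegRec: killing generators whose high powers span an acyclic ideal. -/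
def NegRecAt : Prop :=
  ∀ (Al : Gn E O J → Prop) (c : Gn E O J → Γ) (δ : Gn E O J → Op E O J) (ω : Op E O J)
    (f : J → MvPolynomial (E ⊕ J) ℂ), Good Al c δ ω f → ∀ (j₀ : J) K L ρ, Tri Al δ K L ρ →
    ω ∈ words (has K) → ∀ N : ℕ,
    (∀ k, N ≤ k → ∀ γ, Acy (Dloc δ ω f ∅)
      (fun p => ZZ Al c {j₀} ∅ γ p ⊓ mono fun μ => has K μ ∨ k ≤ cnt (· ∈ L) μ)
      (rel f ⊔ mono (has K))) →
    ∀ (l : Γ →+ ℤ) (C : ℤ) (e : Γ → ℤ), (∀ γ, HasChi (Dloc δ ω f ∅) (ZZ Al c {j₀} ∅ γ)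
      (rel f ⊔ mono (has fun g => K g ∨ g ∈ L)) (e γ)) →
    (∀ γ, C < l γ → Acy (Dloc δ ω f ∅) (ZZ Al c {j₀} ∅ γ)
      (rel f ⊔ mono (has fun g => K g ∨ g ∈ L))) →
    ∃ (e' : Γ → ℤ) (C' : ℤ),
      (∀ γ, HasChi (Dloc δ ω f ∅) (ZZ Al c {j₀} ∅ γ) (rel f ⊔ mono (has K)) (e' γ)) ∧
      shl ((L.filter Sum.isLeft).map c) e' = shl ((L.filter Sum.isRight).map c) e ∧
      ∀ γ, C' < l γ → Acy (Dloc δ ω f ∅) (ZZ Al c {j₀} ∅ γ) (rel f ⊔ mono (has K))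

/-- Module PoleA: the Čech complex of coordinates is exact below the top polar part. -/
def PoleAAt : Prop :=
  ∀ (Al : Gn E O J → Prop) (c : Gn E O J → Γ) (δ : Gn E O J → Op E O J) (ω : Op E O J)
    (f : J → MvPolynomial (E ⊕ J) ℂ), Good Al c δ ω f →
    ∀ (j₀ : J) (A : Finset J) (n : J → E ⊕ J) (cd : Gn E O J → ℤ),
    j₀ ∉ A → Set.InjOn n A → (∀ j ∈ A, f j = X (n j)) →
    (∀ g, δ g ∈ words fun μ => ws cd μ = cd g + 1) → ω ∈ (words fun μ => ws cd μ = 1) →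
    (∀ j, cd (tv j) = 0 ∧ cd (ev j) = 0 ∧
      (pol (f j) : Sp (E ⊕ J) (O ⊕ J)) ∈ mono fun μ => ws cd μ = 0) →
    (∀ g, Al g → g.isLeft → cd g ≤ 0) →
    ∀ γ, Acy (Dloc δ ω f A) (fun p => ZZ Al c {j₀} A γ p ⊓ mono fun μ => ∃ j ∈ A, μ (tv j) = 0)
      (rel f)

/-- Module Pole: local cohomology along the coordinates `n j`, `j ∈ A`. -/
def PoleAt : Prop :=
  ∀ (Al : Gn E O J → Prop) (c : Gn E O J → Γ) (δ : Gn E O J → Op E O J) (ω : Op E O J)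
    (f : J → MvPolynomial (E ⊕ J) ℂ), Good Al c δ ω f →
    ∀ (j₀ : J) (A : Finset J) (n : J → E ⊕ J) (K : Gn E O J → Prop) (ρ : Gn E O J → ℤ),
    j₀ ∉ A → Set.InjOn n A → (∀ j ∈ A, f j = X (n j)) → (∀ g, K g ↔ ∃ j ∈ A, g = .inl (n j)) →
    (∀ g, K g → Al g ∧ ρ g < 0) → (∀ g, Al g → ¬ K g → 0 < ρ g) →
    (∀ g, δ g ∈ words fun μ => ws ρ μ < ρ g) → ω ∈ (words fun μ => ws ρ μ < 0) →
    (∀ γ, Acy (Dloc δ ω f A) (fun p => ZZ Al c {j₀} A γ p ⊓ mono fun μ => ∃ j ∈ A, μ (tv j) = 0)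
      (rel f)) →
    ∀ (l : Γ →+ ℤ) (C : ℤ) (e : Γ → ℤ), (∀ g, K g → 0 < l (c g)) →
    (∀ γ, HasChi (Dloc δ ω f ∅) (ZZ Al c {j₀} ∅ γ) (rel f ⊔ mono (has K)) (e γ)) →
    (∀ γ, C < l γ → Acy (Dloc δ ω f ∅) (ZZ Al c {j₀} ∅ γ) (rel f ⊔ mono (has K))) →
    ∃ e' : Γ → ℤ, (∀ γ, HasChi (Dloc δ ω f A) (ZZ Al c {j₀} A γ) (rel f) (e' γ)) ∧
      shl (A.toList.map fun j => c (.inl (n j))) e' = e ∧ ∀ γ, C < l γ → e' γ = 0

end Loc

/-- Quantification over the index types. -/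
def AllAt (S : ∀ (E O J Γ : Type) [Fintype E] [Fintype O] [Fintype J] [DecidableEq E]
    [DecidableEq O] [DecidableEq J] [AddCommGroup Γ], Prop) : Prop :=
  ∀ (E O J Γ : Type) [Fintype E] [Fintype O] [Fintype J] [DecidableEq E] [DecidableEq O]
    [DecidableEq J] [AddCommGroup Γ], S E O J Γ

def CCStmt : Prop := AllAt @CCAt
def PatStmt : Prop := AllAt @PatAt
def OneStmt : Prop := AllAt @OneAt
def ElimStmt : Prop := AllAt @ElimAt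
def N4Stmt : Prop := AllAt @N4At
def NegRecStmt : Prop := AllAt @NegRecAt
def PoleAStmt : Prop := AllAt @PoleAAt
def PoleStmt : Prop := AllAt @PoleAt

end Pool.Agent.MP_8be872_ag.H63
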