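import Pool.Agent.MP_8be872_ag.H63.Base
import Pool.Agent.MP_8be872_ag.H29.Car

/-! Monomial subspaces, projections and words. -/

namespace Pool.Agent.MP_8be872_ag.H63

open Finset H38 H56 MvPolynomial

variable {E O : Type} [Fintype E] [Fintype O] [DecidableEq E] [DecidableEq O]
  {P P' : (E ⊕ O → ℕ) → Prop}

/-! Exponent vectors -/

theorem ws_add {Γ : Type} [AddCommMonoid Γ] (c : E ⊕ O → Γ) (a b : E ⊕ O → ℕ) :
    ws c (a + b) = ws c a + ws c b := by
  simp only [ws, Pi.add_apply, add_smul, sum_add_distrib]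

theorem ws_single {Γ : Type} [AddCommMonoid Γ] (c : E ⊕ O → Γ) (g : E ⊕ O) :
    ws c (Pi.single g 1) = c g := by
  simp only [ws, Pi.single_apply, ite_smul, one_smul, zero_smul, sum_ite_eq', mem_univ, if_true]

theorem ws_zero {Γ : Type} [AddCommMonoid Γ] (c : E ⊕ O → Γ) : ws c 0 = 0 := by simp [ws]

theorem map_ws {Γ Γ' : Type} [AddCommMonoid Γ] [AddCommMonoid Γ'] (π : Γ →+ Γ') (c : E ⊕ O → Γ)
    (μ : E ⊕ O → ℕ) : π (ws c μ) = ws (fun g => π (c g)) μ := by
  simp only [ws, map_sum, map_nsmul]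

theorem od_add (a b : E ⊕ O → ℕ) : od (a + b) = xor (od a) (od b) := by
  simp only [od, Pi.add_apply, sum_add_distrib, Nat.odd_add, ← Nat.not_odd_iff_even]
  by_cases h : Odd (∑ o, a (.inr o)) <;> by_cases h' : Odd (∑ o, b (.inr o)) <;> simp [h, h']

theorem od_single (g : E ⊕ O) : od (Pi.single g 1) = g.isRight := by
  rcases g with g | g <;> simp [od, Pi.single_apply]

theorem od_zero : od (0 : E ⊕ O → ℕ) = false := by simp [od]

theorem cnt_add (A : E ⊕ O → Prop) (a b : E ⊕ O → ℕ) : cnt A (a + b) = cnt A a + cnt A b := by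
  simp only [cnt, ← sum_add_distrib]
  refine sum_congr rfl fun g _ => ?_
  split_ifs <;> rfl

theorem cnt_single (A : E ⊕ O → Prop) (g : E ⊕ O) [Decidable (A g)] :
    cnt A (Pi.single g 1) = if A g then 1 else 0 := by
  rw [cnt, sum_eq_single g (fun b _ hb => by simp [hb]) (by simp)]
  by_cases h : A g <;> simp [h]

theorem cnt_ne_zero {A : E ⊕ O → Prop} {μ : E ⊕ O → ℕ} : cnt A μ ≠ 0 ↔ has A μ := by
  simp only [cnt, has, ne_eq, sum_eq_zero_iff, mem_univ, forall_const, ite_eq_right_iff,
    not_forall, exists_prop]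

theorem sup_add {A : E ⊕ O → Prop} {a b : E ⊕ O → ℕ} : sup A (a + b) ↔ sup A a ∧ sup A b :=
  ⟨fun h => ⟨fun g hg => h g (by simp [hg]), fun g hg => h g (by simp [hg])⟩, fun h g hg => by
    by_cases h1 : a g = 0
    · exact h.2 g (by simpa [h1] using hg)
    · exact h.1 g h1⟩

theorem has_add {A : E ⊕ O → Prop} {a b : E ⊕ O → ℕ} : has A (a + b) ↔ has A a ∨ has A b := by
  simp only [← cnt_ne_zero, cnt_add]
  omega

theorem sup_single {A : E ⊕ O → Prop} {g : E ⊕ O} : sup A (Pi.single g 1) ↔ A g :=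
  ⟨fun h => h g (by simp), fun h g' hg => by
    by_cases h1 : g' = g
    · rwa [h1]
    · simp [h1] at hg⟩

theorem has_single {A : E ⊕ O → Prop} {g : E ⊕ O} : has A (Pi.single g 1) ↔ A g := by
  classical
  rw [← cnt_ne_zero, cnt_single]
  simp

theorem ex_add (S : Finset O) (m : E →₀ ℕ) (e : E) :
    ex S (m + Finsupp.single e 1) = ex S m + Pi.single (.inl e) 1 := by
  funext g
  rcases g with g | g <;> simp [ex, Pi.single_apply, Finsupp.single_apply, eq_comm]

theorem ex_insert {S : Finset O} {o : O} (h : o ∉ S) (m : E →₀ ℕ) :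
    ex (insert o S) m = ex S m + Pi.single (.inr o) 1 := by
  funext g
  rcases g with g | g
  · simp [ex]
  · by_cases h1 : g = o <;> simp [ex, h1, h]

theorem ex_zero : ex (∅ : Finset O) (0 : E →₀ ℕ) = 0 := by
  funext g
  rcases g with g | g <;> simp [ex]

theorem ex_split (S : Finset O) (m : E →₀ ℕ) : ex S m = ex ∅ m + ex S 0 := by
  funext g
  rcases g with g | g <;> simp [ex]

theorem beq_iff' (g g' : E ⊕ O) : (g == g') = true ↔ g' = g := by
  rcases g with g | g <;> rcases g' with g' | g' <;> simp [BEq.beq, Sum.instBEq.beq, eq_comm]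

theorem count_cons' (g : E ⊕ O) (l : List (E ⊕ O)) :
    (fun g' => (g :: l).count g') = (fun g' => l.count g') + Pi.single g 1 := by
  funext g'
  simp only [List.count_cons, Pi.add_apply, Pi.single_apply, beq_iff']

theorem count_append' (l l' : List (E ⊕ O)) :
    (fun g => (l ++ l').count g) = (fun g => l.count g) + fun g => l'.count g := by
  funext g
  simp

/-! Monomial subspaces -/

theorem mem_mono {x : Sp E O} :
    x ∈ mono P ↔ ∀ S m, coeff m (x S) ≠ 0 → P (ex S m) :=
  ⟨fun h S _ hm => h S trivial (mem_support_iff.2 hm), fun h S _ m hm =>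
    h S m (mem_support_iff.1 hm)⟩

theorem mono_le' (h : ∀ S m, P (ex S m) → P' (ex S m)) : mono P ≤ mono P' := fun _ hx =>
  mem_mono.2 fun S m hm => h S m (mem_mono.1 hx S m hm)

theorem mono_le (h : ∀ μ, P μ → P' μ) : mono P ≤ mono P' := mono_le' fun _ _ => h _

/-- Odd exponents of monomials are at most one. -/
theorem mono_le_odd (h : ∀ μ, (∀ o, μ (.inr o) ≤ 1) → P μ → P' μ) : mono P ≤ mono P' :=
  mono_le' fun S m => h _ fun o => by
    simp only [ex, Sum.elim_inr]
    split_ifs <;> simp

theorem mono_and : mono (fun μ => P μ ∧ P' μ) = mono P ⊓ mono P' := by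
  ext x
  simp only [Submodule.mem_inf, mem_mono, imp_and, forall_and]

theorem mono_true : mono (fun _ : E ⊕ O → ℕ => True) = ⊤ :=
  eq_top_iff.2 fun _ _ => mem_mono.2 fun _ _ _ => trivial

theorem mono_false : mono (fun _ : E ⊕ O → ℕ => False) = ⊥ :=
  eq_bot_iff.2 fun _ hx => funext fun S => MvPolynomial.ext _ _ fun m =>
    of_not_not (mem_mono.1 hx S m)

theorem eq_zero_of_mem_mono {x : Sp E O} (h : x ∈ mono P) (h' : x ∈ mono P')
    (hd : ∀ μ, P μ → P' μ → False) : x = 0 :=
  funext fun S => MvPolynomial.ext _ _ fun m =>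
    of_not_not fun hm => hd _ (mem_mono.1 h S m hm) (mem_mono.1 h' S m hm)

theorem single_mem {S : Finset O} {f : MvPolynomial E ℂ} :
    (Pi.single S f : Sp E O) ∈ mono P ↔ ∀ m, coeff m f ≠ 0 → P (ex S m) := by
  refine mem_mono.trans ⟨fun h m hm => h S m (by simpa using hm), fun h S' m hm => ?_⟩
  by_cases h1 : S' = S
  · subst h1
    exact h m (by simpa using hm)
  · simp [h1] at hm

theorem bas_mem {S : Finset O} {m : E →₀ ℕ} (h : P (ex S m)) : bas S m ∈ mono P :=
  single_mem.2 fun m' hm => by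
    by_cases h1 : m = m'
    · rwa [← h1]
    · simp [coeff_monomial, h1] at hm

theorem mono_le_of_bas {C : Submodule ℂ (Sp E O)} (h : ∀ S m, P (ex S m) → bas S m ∈ C) :
    mono P ≤ C := by
  intro x hx
  rw [← univ_sum_single x]
  refine C.sum_mem fun S _ => ?_
  change LinearMap.single ℂ (fun _ => MvPolynomial E ℂ) S (x S) ∈ C
  rw [(x S).as_sum, map_sum]
  refine C.sum_mem fun m hm => ?_
  rw [← mul_one (coeff m (x S)), ← smul_eq_mul, ← smul_monomial, map_smul]
  exact C.smul_mem _ (h S m (mem_mono.1 hx S m (mem_support_iff.1 hm)))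

theorem mono_or : mono (fun μ => P μ ∨ P' μ) = mono P ⊔ mono P' :=
  le_antisymm (mono_le_of_bas fun _ _ h => h.elim
    (fun h => Submodule.mem_sup_left (bas_mem h)) fun h => Submodule.mem_sup_right (bas_mem h))
    (sup_le (mono_le fun _ => Or.inl) (mono_le fun _ => Or.inr))

/-- The version with a linear map. -/
theorem map_mem_of_bas {M : Type} [AddCommGroup M] [Module ℂ M] {L : Sp E O →ₗ[ℂ] M}
    {C : Submodule ℂ M} (h : ∀ S m, P (ex S m) → L (bas S m) ∈ C) {x : Sp E O} (hx : x ∈ mono P) :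
    L x ∈ C := mono_le_of_bas (C := C.comap L) h hx

theorem pol_mem {f : MvPolynomial E ℂ} :
    (pol f : Sp E O) ∈ mono P ↔ ∀ m, coeff m f ≠ 0 → P (ex ∅ m) := single_mem

theorem one_mem (h : P 0) : (one : Sp E O) ∈ mono P :=
  bas_mem (S := ∅) (m := 0) (by rwa [ex_zero])

theorem mul_apply' (f : MvPolynomial E ℂ) (x : Sp E O) (S : Finset O) : mul f x S = f * x S := rfl

theorem gn_mem (g : E ⊕ O) {x : Sp E O} (hx : x ∈ mono P)
    (h : ∀ μ, P μ → P' (μ + Pi.single g 1)) : gn g x ∈ mono P' := by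
  refine mem_mono.2 fun S m hm => ?_
  rcases g with e | o
  · rw [gn, mul_apply', coeff_X_mul'] at hm
    split_ifs at hm with h1
    · have := h _ (mem_mono.1 hx S _ hm)
      rwa [← ex_add, tsub_add_cancel_of_le (Finsupp.single_le_iff.2
        (Nat.pos_of_ne_zero (Finsupp.mem_support_iff.1 h1)))] at this
    · exact absurd rfl hm
  · rw [gn, H29.wedge_apply] at hm
    split_ifs at hm with h1
    · rw [coeff_smul] at hm
      have := h _ (mem_mono.1 hx _ m (right_ne_zero_of_smul hm))
      rwa [← ex_insert (notMem_erase o S), insert_erase h1] at this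
    · exact absurd rfl hm

theorem dr_mem (g : E ⊕ O) {x : Sp E O} (hx : x ∈ mono P)
    (h : ∀ μ, P (μ + Pi.single g 1) → P' μ) : dr g x ∈ mono P' := by
  refine mem_mono.2 fun S m hm => h _ ?_
  rcases g with e | o
  · change coeff m (pderiv e (x S)) ≠ 0 at hm
    rw [coeff_pderiv] at hm
    rw [← ex_add]
    exact mem_mono.1 hx S _ (left_ne_zero_of_mul hm)
  · rw [dr, H29.contr_apply] at hm
    split_ifs at hm with h1
    · exact absurd rfl hm
    · rw [coeff_smul] at hm
      rw [← ex_insert h1]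
      exact mem_mono.1 hx _ m (right_ne_zero_of_smul hm)

theorem dr_eq_zero (g : E ⊕ O) {x : Sp E O} (hx : x ∈ mono fun μ => μ g = 0) : dr g x = 0 := by
  have := dr_mem (P' := fun _ => False) g hx fun μ h => by simp at h
  rwa [mono_false] at this

theorem mul_one_eq (f : MvPolynomial E ℂ) : mul f (one : Sp E O) = pol f := by
  funext S
  simp [mul_apply', one, pol, Pi.single_apply]

theorem mul_mul (f f' : MvPolynomial E ℂ) :
    (mul (f * f') : Module.End ℂ (Sp E O)) = mul f * mul f' :=
  LinearMap.ext fun x => funext fun S => mul_assoc f f' (x S)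

theorem mul_add' (f f' : MvPolynomial E ℂ) :
    (mul (f + f') : Module.End ℂ (Sp E O)) = mul f + mul f' :=
  LinearMap.ext fun x => funext fun S => add_mul f f' (x S)

theorem mul_C (a : ℂ) : (mul (C a) : Module.End ℂ (Sp E O)) = algebraMap ℂ _ a :=
  LinearMap.ext fun x => funext fun S => (smul_eq_C_mul (x S) a).symm

/-- `mul` as an algebra map. -/
noncomputable def mulA : MvPolynomial E ℂ →ₐ[ℂ] Module.End ℂ (Sp E O) where
  toFun := mul
  map_one' := LinearMap.ext fun x => funext fun S => one_mul (x S)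
  map_mul' := mul_mul
  map_zero' := LinearMap.ext fun x => funext fun S => zero_mul (x S)
  map_add' := mul_add'
  commutes' := mul_C

theorem mul_eq_word (m : E →₀ ℕ) : ∃ l : List (E ⊕ O), (fun g => l.count g) = ex ∅ m ∧
    (mul (monomial m 1) : Module.End ℂ (Sp E O)) = (l.map gn).prod := by
  induction m using Finsupp.induction with
  | zero => exact ⟨[], ex_zero.symm, map_one mulA⟩
  | single_add a b f _ hb ih =>
    clear hb
    induction b with
    | zero => simpa using ih
    | succ b ih =>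
      obtain ⟨l, h1, h2⟩ := ih
      refine ⟨.inl a :: l, ?_, ?_⟩
      · rw [count_cons', h1, Finsupp.single_add, add_right_comm, ex_add]
      · rw [List.map_cons, List.prod_cons, ← h2, gn, ← mul_mul, X, monomial_mul, mul_one,
          Finsupp.single_add, add_comm (Finsupp.single a b), add_assoc]

theorem bas_eq_word (S : Finset O) (m : E →₀ ℕ) :
    ∃ l : List (E ⊕ O), (fun g => l.count g) = ex S m ∧ bas S m = (l.map gn).prod one := by
  have h0 : ∃ l : List (E ⊕ O), (fun g => l.count g) = ex S 0 ∧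
      bas S 0 = (l.map gn).prod one := by
    induction S using Finset.induction_on_min_value (Fintype.equivFin O) with
    | empty => exact ⟨[], ex_zero.symm, rfl⟩
    | insert o S ho hmin ih =>
      obtain ⟨l, h1, h2⟩ := ih
      refine ⟨.inr o :: l, by rw [count_cons', h1, ex_insert ho], ?_⟩
      rw [List.map_cons, List.prod_cons, Module.End.mul_apply, ← h2, gn]
      funext S'
      rw [H29.wedge_apply]
      by_cases h3 : S' = insert o S
      · have h4 : sgn o (insert o S) = 1 := by
          rw [sgn, filter_eq_empty_iff.2, card_empty, pow_zero]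
          intro x hx
          rcases mem_insert.1 hx with rfl | hx
          · exact lt_irrefl _
          · exact not_lt.2 (hmin x hx)
        simp [h3, h4, erase_insert ho, bas]
      · split_ifs with h4
        · have h5 : S'.erase o ≠ S := fun h => h3 (by rw [← h, insert_erase h4])
          simp [bas, h3, h5]
        · simp [bas, h3]
  obtain ⟨l, h1, h2⟩ := mul_eq_word (O := O) m
  obtain ⟨l', h3, h4⟩ := h0
  refine ⟨l ++ l', by rw [count_append', h1, h3, ← ex_split], ?_⟩
  rw [List.map_append, List.prod_append, Module.End.mul_apply, ← h4, ← h2]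
  funext S'
  simp [mul_apply', bas, Pi.single_apply]

theorem word_mem (l : List (E ⊕ O)) {x : Sp E O} (hx : x ∈ mono P)
    (h : ∀ b, P b → P' ((fun g => l.count g) + b)) : (l.map gn).prod x ∈ mono P' := by
  induction l generalizing P' with
  | nil => exact mono_le (fun b hb => by simpa [← Pi.zero_def] using h b hb) hx
  | cons g l ih =>
    rw [List.map_cons, List.prod_cons, Module.End.mul_apply]
    refine gn_mem g (ih (P' := fun μ => P' (μ + Pi.single g 1)) fun b hb => ?_) fun _ h => h
    have := h b hb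
    rwa [count_cons', add_right_comm] at this

/-- Induction over words in the generators satisfying `A`. -/
theorem mono_ind {A : E ⊕ O → Prop} {C : Submodule ℂ (Sp E O)} (h1 : one ∈ C)
    (h : ∀ g, A g → ∀ x ∈ mono (sup A), x ∈ C → gn g x ∈ C) : mono (sup A) ≤ C := by
  refine mono_le_of_bas fun S m hm => ?_
  obtain ⟨l, h2, h3⟩ := bas_eq_word S m
  rw [← h2] at hm
  rw [h3]
  clear h2 h3
  induction l with
  | nil => exact h1
  | cons g l ih =>
    rw [count_cons', sup_add, sup_single] at hm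
    rw [List.map_cons, List.prod_cons, Module.End.mul_apply]
    exact h g hm.2 _ (word_mem (P := sup A) l (one_mem fun _ h => absurd rfl h) fun b hb =>
      sup_add.2 ⟨hm.1, hb⟩) (ih hm.1)

/-- An operator killing the unit and commuting up to scalars with all generators vanishes. -/
theorem op_ext {L : Module.End ℂ (Sp E O)} (h1 : L one = 0)
    (h : ∀ g, ∃ s : ℂ, L * gn g = s • (gn g * L)) : L = 0 := by
  refine LinearMap.ext fun x => mono_ind (A := fun _ => True) (C := LinearMap.ker L) h1
    (fun g _ x _ hx => ?_) (mem_mono.2 fun _ _ _ _ _ => trivial)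
  obtain ⟨s, hs⟩ := h g
  rw [LinearMap.mem_ker] at hx ⊢
  rw [← Module.End.mul_apply, hs, LinearMap.smul_apply, Module.End.mul_apply, hx, map_zero,
    smul_zero]

/-! Projections -/

theorem coeff_proj (x : Sp E O) (S : Finset O) (m : E →₀ ℕ) [Decidable (P (ex S m))] :
    coeff m (proj P x S) = if P (ex S m) then coeff m (x S) else 0 := by
  simp only [proj, LinearMap.pi_apply, LinearMap.comp_apply, LinearMap.proj_apply]
  induction x S using MvPolynomial.induction_on' with
  | add p q hp hq =>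
    rw [map_add, coeff_add, hp, hq, coeff_add]
    split_ifs <;> simp
  | monomial u a =>
    have e : monomial u a = a • basisMonomials E ℂ u := by
      simp [smul_monomial]
    rw [e, map_smul, Module.Basis.constr_basis, ← e, coeff_smul, coeff_monomial]
    by_cases h : u = m
    · subst h
      split_ifs <;> simp_all
    · split_ifs <;> simp [coeff_monomial, h]

theorem proj_mem (x : Sp E O) : proj P x ∈ mono P := by
  classical
  refine mem_mono.2 fun S m hm => ?_
  rw [coeff_proj] at hm
  exact (ite_ne_right_iff.1 hm).1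

theorem proj_mem_of {x : Sp E O} (h : x ∈ mono P') : proj P x ∈ mono P' := by
  classical
  refine mem_mono.2 fun S m hm => ?_
  rw [coeff_proj] at hm
  exact mem_mono.1 h S m (ite_ne_right_iff.1 hm).2

theorem sub_proj_mem (x : Sp E O) : x - proj P x ∈ mono fun μ => ¬ P μ := by
  classical
  refine mem_mono.2 fun S m hm h => hm ?_
  rw [Pi.sub_apply, coeff_sub, coeff_proj, if_pos h, sub_self]

theorem proj_eq_self {x : Sp E O} (h : x ∈ mono P) : proj P x = x :=
  (sub_eq_zero.1 (eq_zero_of_mem_mono (sub_mem h (proj_mem x)) (sub_proj_mem x)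
    fun _ a b => b a)).symm

theorem proj_eq_zero {x : Sp E O} (h : x ∈ mono fun μ => ¬ P μ) : proj P x = 0 :=
  eq_zero_of_mem_mono (proj_mem x) (proj_mem_of h) fun _ a b => b a

theorem proj_proj (x : Sp E O) : proj P (proj P' x) = proj (fun μ => P μ ∧ P' μ) x := by
  classical
  funext S
  ext m
  simp only [coeff_proj, ite_and]

theorem proj_congr {x : Sp E O} {A : (E ⊕ O → ℕ) → Prop} (hx : x ∈ mono A)
    (h : ∀ μ, A μ → (P μ ↔ P' μ)) : proj P x = proj P' x := by
  classical
  funext S
  ext m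
  simp only [coeff_proj]
  by_cases h1 : coeff m (x S) = 0
  · simp [h1]
  · simp only [h _ (mem_mono.1 hx S m h1)]

/-- An operator respecting a partition of the monomials commutes with the projections. -/
theorem proj_comm {A : (E ⊕ O → ℕ) → Prop} {L : Module.End ℂ (Sp E O)}
    (h1 : ∀ y ∈ mono fun μ => A μ ∧ P μ, L y ∈ mono P')
    (h2 : ∀ y ∈ mono fun μ => A μ ∧ ¬ P μ, L y ∈ mono fun μ => ¬ P' μ)
    {x : Sp E O} (hx : x ∈ mono A) : proj P' (L x) = L (proj P x) := by
  have a := proj_eq_self (h1 (proj P x) (by rw [mono_and]; exact ⟨proj_mem_of hx, proj_mem x⟩))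
  have b := proj_eq_zero (h2 (x - proj P x) (by
    rw [mono_and]; exact ⟨sub_mem hx (proj_mem_of hx), sub_proj_mem x⟩))
  rwa [map_sub, map_sub, a, sub_eq_zero] at b

/-- An element is the finite sum of its homogeneous parts. -/
theorem exists_sum_proj {Γ : Type} (c : (E ⊕ O → ℕ) → Γ) (x : Sp E O) :
    ∃ s : Finset Γ, x = ∑ γ ∈ s, proj (fun μ => c μ = γ) x ∧
      ∀ γ ∉ s, proj (fun μ => c μ = γ) x = 0 := by
  classical
  have hs : ∀ S m, coeff m (x S) ≠ 0 →
      c (ex S m) ∈ univ.biUnion fun S => (x S).support.image fun m => c (ex S m) := fun S m h =>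
    mem_biUnion.2 ⟨S, mem_univ _, mem_image_of_mem _ (mem_support_iff.2 h)⟩
  refine ⟨_, ?_, fun γ h => proj_eq_zero (mem_mono.2 fun S m hm e => h (e ▸ hs S m hm))⟩
  funext S
  ext m
  simp only [Finset.sum_apply, coeff_sum, coeff_proj, sum_ite_eq]
  by_cases h1 : coeff m (x S) = 0
  · simp [h1]
  · rw [if_pos (hs S m h1)]

/-! Words -/

theorem words_le (h : ∀ μ, P μ → P' μ) : words P ≤ words P' :=
  Submodule.span_mono fun _ ⟨l, h1, h2⟩ => ⟨l, h _ h1, h2⟩

theorem one_mem_words (h : P 0) : (1 : Module.End ℂ (Sp E O)) ∈ words P :=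
  Submodule.subset_span ⟨[], h, rfl⟩

theorem gn_mem_words {g : E ⊕ O} (h : P (Pi.single g 1)) : gn g ∈ words P :=
  Submodule.subset_span ⟨[g], by simpa [count_cons', ← Pi.zero_def] using h, by simp⟩

theorem mul_mem_words {P'' : (E ⊕ O → ℕ) → Prop} {m m' : Module.End ℂ (Sp E O)} (hm : m ∈ words P)
    (hm' : m' ∈ words P') (h : ∀ a b, P a → P' b → P'' (a + b)) : m * m' ∈ words P'' := by
  have h1 := Submodule.mul_mem_mul hm hm'
  rw [words, words, Submodule.span_mul_span] at h1
  refine Submodule.span_mono ?_ h1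
  rintro _ ⟨_, ⟨l, a, rfl⟩, _, ⟨l', b, rfl⟩, rfl⟩
  exact ⟨l ++ l', by rw [count_append']; exact h _ _ a b, by simp⟩

theorem words_apply_mem {P'' : (E ⊕ O → ℕ) → Prop} {m : Module.End ℂ (Sp E O)} (hm : m ∈ words P)
    {x : Sp E O} (hx : x ∈ mono P') (h : ∀ a b, P a → P' b → P'' (a + b)) : m x ∈ mono P'' := by
  refine (Submodule.span_le (p := (mono P'').comap (LinearMap.applyₗ x))).2 ?_ hm
  rintro _ ⟨l, a, rfl⟩
  exact word_mem l hx fun b hb => h _ _ a hb

theorem words_split (A : (E ⊕ O → ℕ) → Prop) {m : Module.End ℂ (Sp E O)} (hm : m ∈ words P) :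
    ∃ m₀ ∈ words fun μ => P μ ∧ A μ, m - m₀ ∈ words fun μ => P μ ∧ ¬ A μ := by
  have h : m ∈ (words fun μ => P μ ∧ A μ) ⊔ words fun μ => P μ ∧ ¬ A μ := by
    refine Submodule.span_le.2 ?_ hm
    rintro _ ⟨l, a, rfl⟩
    by_cases h : A fun g => l.count g
    · exact Submodule.mem_sup_left (Submodule.subset_span ⟨l, ⟨a, h⟩, rfl⟩)
    · exact Submodule.mem_sup_right (Submodule.subset_span ⟨l, ⟨a, h⟩, rfl⟩)
  obtain ⟨a, ha, b, hb, rfl⟩ := Submodule.mem_sup.1 h
  exact ⟨a, ha, by rwa [add_sub_cancel_left]⟩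

theorem exists_words {x : Sp E O} (hx : x ∈ mono P) : ∃ m ∈ words P, m one = x := by
  refine mono_le_of_bas (C := (words P).map (LinearMap.applyₗ one)) (fun S m h => ?_) hx
  obtain ⟨l, h1, h2⟩ := bas_eq_word S m
  exact ⟨_, Submodule.subset_span ⟨l, h1 ▸ h, rfl⟩, h2.symm⟩

theorem mul_mem_words_of_pol {f : MvPolynomial E ℂ} (h : (pol f : Sp E O) ∈ mono P) :
    (mul f : Module.End ℂ (Sp E O)) ∈ words P := by
  change mulA f ∈ words P
  rw [f.as_sum, map_sum]
  refine Submodule.sum_mem _ fun m hm => ?_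
  rw [← mul_one (coeff m f), ← smul_eq_mul, ← smul_monomial, map_smul]
  obtain ⟨l, h1, h2⟩ := mul_eq_word (O := O) m
  exact Submodule.smul_mem _ _
    (Submodule.subset_span ⟨l, h1 ▸ pol_mem.1 h m (mem_support_iff.1 hm), h2⟩)

end Pool.Agent.MP_8be872_ag.H63
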