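import Pool.Agent.MP_8be872_ag.H63.SpecC
import Pool.Agent.MP_8be872_ag.H56.FinC

/-! Statements for the cells, the fixed loci and the characters. -/

namespace Pool.Agent.MP_8be872_ag.H63

open Finset H38 H56 MvPolynomial
open scoped Matrix

variable {Q : Quiv} {w v D : Fin Q.n → ℕ}

/-- The linearization of `Phi` at the point `α = al0`, all other matrices zero. -/
noncomputable def linPhi (lab : Bas Q D → Bas Q v × ℕ)
    (y : Kd Q → Matrix (Nb Q w v D) (Nb Q w v D) ℂ) : Kd Q → Matrix (Nb Q w v D) (Nb Q w v D) ℂ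
  | .inl (.inl _) => 0
  | .inl (.inr true) => al0 lab * YS lab y kc - YS lab y kc * al0 lab
  | .inl (.inr false) => y ke * al0 lab - al0 lab * y ke
  | .inr (.inl ε) => y (kx ε) * al0 lab - al0 lab * y (kx ε)
  | .inr (.inr _) => 0

/-- The commutator with the shift. -/
noncomputable def cm0 (lab : Bas Q D → Bas Q v × ℕ) (y : Matrix (Nb Q w v D) (Nb Q w v D) ℂ) :
    Matrix (Nb Q w v D) (Nb Q w v D) ℂ := y * al0 lab - al0 lab * y

/-- Module Toep: matrices commuting with the shift. -/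
def ToepStmt : Prop :=
  ∀ (Q : Quiv) (w v D : Fin Q.n → ℕ) (d : Bas Q v → ℕ) (lab : Bas Q D → Bas Q v × ℕ), IsLab d lab →
    (∀ k k' : Kd Q, (∃ ε, k = kx ε ∧ k' = kt ε) ∨ (k = ke ∧ k' = kz) →
      (∀ y : Matrix (Nb Q w v D) (Nb Q w v D) ℂ, (∀ p q, ¬ shS lab k p q → y p q = 0) →
        (∀ p q, shS lab k' p q → cm0 lab y p q = 0) →
        (∀ p q, 0 < lvk d lab k p q → y p q = 0) ∧ ∀ p τ, y p (.inl τ) =
          ∑ p', (al0 lab ^ ((lab τ).2 + 1)) p' p * y p' (.inr (.inl (lab τ).1))) ∧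
      ∀ t : Matrix (Nb Q w v D) (Nb Q w v D) ℂ,
        (∀ p q, ¬ (shS lab k' p q ∧ lvk d lab k' p q ≤ 0) → t p q = 0) →
        ∃ y : Matrix (Nb Q w v D) (Nb Q w v D) ℂ, (∀ p q, ¬ (shS lab k p q ∧ blk q = 0) → y p q = 0) ∧
          (∀ p q, y p q ≠ 0 → ∃ p' q', t p' q' ≠ 0 ∧ lvk d lab k p q = lvk d lab k' p' q' ∧
            ∀ σ, xs σ d lab q - xs σ d lab p = xs σ d lab q' - xs σ d lab p' + qq) ∧
          ∀ p q, shS lab k' p q → cm0 lab y p q = t p q) ∧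
    (∀ y : Kd Q → Matrix (Nb Q w v D) (Nb Q w v D) ℂ, y ka = 0 →
      (∀ p q, ¬ (shS lab kc p q ∧ 0 < lvk d lab kc p q) → y kc p q = 0) →
      (∀ p q, shS lab ka p q → ¬ isNe d lab p q → linPhi lab y ka p q = 0) → y kc = 0) ∧
    (∀ t : Matrix (Nb Q w v D) (Nb Q w v D) ℂ,
      ∃ y : Kd Q → Matrix (Nb Q w v D) (Nb Q w v D) ℂ, y ka = 0 ∧
        (∀ p q, ¬ (shS lab kc p q ∧ 0 < lvk d lab kc p q) → y kc p q = 0) ∧
        ∀ p q, shS lab ka p q → ¬ isNe d lab p q → linPhi lab y ka p q = t p q) ∧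
    ∀ (P : Bas Q v → Pth Q w) (y : Kd Q → Matrix (Nb Q w v D) (Nb Q w v D) ℂ), y ka = al0 lab →
      (∀ ε p q, ¬ shape rad (kx ε) p q → y (kx ε) p q = 0) → (Fmat P y).det ≠ 0 →
      ∀ ξ : Matrix (Nb Q w v D) (Nb Q w v D) ℂ, (∀ p q, ¬ shape rad kz p q → ξ p q = 0) →
      (∀ u : Matrix (Nb Q w v D) (Nb Q w v D) ℂ, (∀ p q, ¬ shape rad ke p q → u p q = 0) →
        ∑ p, ∑ q, ξ p q * cm0 lab u p q = 0) →
      (∀ t : Arr Q → Matrix (Nb Q w v D) (Nb Q w v D) ℂ,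
        (∀ ε p q, ¬ shape rad (kt ε) p q → t ε p q = 0) →
        ∑ p, ∑ q, ξ p q * (∑ o, (y (kx (o, true)) * t (o, false) + t (o, true) * y (kx (o, false)) -
          y (kx (o, false)) * t (o, true) - t (o, false) * y (kx (o, true)))) p q = 0) → ξ = 0

section J

variable {J : Type} [Fintype J] [DecidableEq J]

/-- The linear part of the differential on the slice. -/
noncomputable def d0 (lab : Bas Q D → Bas Q v × ℕ) :
    Matrix (Ix Q w v D J ⊕ Ix Q w v D J) (Ix Q w v D J ⊕ Ix Q w v D J) ℂ :=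
  fun g g' => coeff 0 (dr g' (dS lab g one) ∅)

open Classical in
/-- The projection to the linear forms that vanish on the fixed locus. -/
noncomputable def nuF (d : Bas Q v → ℕ) (lab : Bas Q D → Bas Q v × ℕ) :
    Matrix (Ix Q w v D J ⊕ Ix Q w v D J) (Ix Q w v D J ⊕ Ix Q w v D J) ℂ :=
  ofM (fun k p q => if shS lab k p q ∧ lvk d lab k p q = 0 ∧ k ≠ kc then
    match q with
    | .inl τ => Pi.single (gg k p q) 1 - if (∃ ε, k = kx ε) ∨ k = ke then
        ∑ p', (al0 lab ^ ((lab τ).2 + 1)) p' p • Pi.single (gg k p' (.inr (.inl (lab τ).1))) 1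
        else 0
    | .inr _ => 0
    else 0) 0 0

/-- Generators of nonzero level. -/
def lvNe (d : Bas Q v → ℕ) (lab : Bas Q D → Bas Q v × ℕ) (g : Ix Q w v D J ⊕ Ix Q w v D J) : Prop :=
  AlS lab g ∧ lvG d lab g ≠ 0

end J

/-! ### The fixed locus as a free dg algebra -/

section Fix

variable (Q w v) (e : Fin Q.n → ℕ → ℤ)

/-- Odd generators. -/
abbrev Of := Subtype (RootP Q v) ⊕ Subtype (RelP Q v e)

/-- The space of cochains. -/
abbrev Mf := Sp (Option (Co Q w v)) (Of Q v e)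

/-- The matrices of generators. -/
noncomputable def Yf : Kd Q → Matrix (Bas Q v ⊕ Bas Q w) (Bas Q v ⊕ Bas Q w)
    (Module.End ℂ (Mf Q w v e))
  | .inl (.inl ε) => fun p q => gn (.inl (some (ε, p, q)))
  | .inr (.inr true) => fun p q => match p, q with
    | .inl a, .inl b => if h : RootP Q v (a, b) then gn (.inr (.inl ⟨(a, b), h⟩)) else 0
    | _, _ => 0
  | .inr (.inr false) => fun p q => match p, q with
    | .inl a, .inl b => if h : RelP Q v e (a, b) then gn (.inr (.inr ⟨(a, b), h⟩)) else 0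
    | _, _ => 0
  | _ => 0

/-- The values of the differential. -/
noncomputable def df : Option (Co Q w v) ⊕ Of Q v e → Module.End ℂ (Mf Q w v e)
  | .inl none => 0
  | .inl (some (ε, p, q)) => Phi Q (Yf Q w v e) (kx ε) p q
  | .inr (.inl r) => Phi Q (Yf Q w v e) kc (.inl r.1.1) (.inl r.1.2)
  | .inr (.inr β) => Phi Q (Yf Q w v e) ke (.inl β.1.1) (.inl β.1.2)

/-- Weights. -/
noncomputable def wf (φ : G) : Option (Co Q w v) ⊕ Of Q v e → G
  | .inl c => polWt (basWt Q w v) (arrWt Q) φ c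
  | .inr (.inl r) => xV r.1.2.1 r.1.2.2 - xV r.1.1.1 r.1.1.2
  | .inr (.inr β) => relWt Q v e β

/-- Cochains. -/
noncomputable def Zf (φ γ : G) (p : Bool) : Submodule ℂ (Mf Q w v e) :=
  mono fun μ => ws (wf Q w v e φ) μ = γ ∧ od μ = p

/-- Relations. -/
noncomputable def Bf (F : Pol (Arr Q) (Bas Q v) (Bas Q w)) : Submodule ℂ (Mf Q w v e) :=
  extOf _ ((chart Q w v e F).restrictScalars ℂ)

end Fix

/-- Module Fx0: the total complex computes `chi`. -/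
def Fx0Stmt : Prop :=
  ∀ (Q : Quiv) (w v : Fin Q.n → ℕ) (e : Fin Q.n → ℕ → ℤ) (F : Pol (Arr Q) (Bas Q v) (Bas Q w))
    (φ : G), Incr Q v e → Cuts Q w v F φ → ∀ γ,
    IsCx (vf (df Q w v e)) (Zf Q w v e φ γ) (Bf Q w v e F) ∧
    ((∀ p p', FiniteDimensional ℂ (Hfix Q w v e F φ γ p p')) →
      HasChi (vf (df Q w v e)) (Zf Q w v e φ γ) (Bf Q w v e F) (chi Q w v e F φ γ))

variable (Q w v D) (J : Type) [Fintype J] [DecidableEq J]

/-- Module LinS: the linear part of the differential. -/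
def LinSAt : Prop :=
  ∀ (d : Bas Q v → ℕ) (lab : Bas Q D → Bas Q v × ℕ), IsLab d lab →
    (∀ g, dS (w := w) (J := J) lab g - lin (d0 lab g) ∈ words fun μ => 2 ≤ ∑ g', μ g') ∧
    d0 (w := w) (J := J) lab * d0 lab = 0 ∧
    (∀ g g', d0 (w := w) (J := J) lab g g' ≠ 0 → AlS lab g ∧ AlS lab g') ∧
    ∀ (y : Ix Q w v D J ⊕ Ix Q w v D J → ℂ) k p q, shS lab k p q → (∀ p q, y (gg ka p q) = 0) →
      (d0 lab *ᵥ y) (gg k p q) = linPhi lab (fun k p q => open Classical in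
        if shS lab k p q then y (gg k p q) else 0) k p q

/-- Data of a cell. -/
structure CellHyp (σ : Bas Q v ≃ Bas Q v) (d : Bas Q v → ℕ) (lab : Bas Q D → Bas Q v × ℕ)
    (m : Bas Q D → ℤ) (P : Bas Q v → Pth Q w) (φ₀ : G) (f : J → MvPolynomial (Ix Q w v D J) ℂ)
    (φ : J → G) (j₀ : J) : Prop where
  isLab : IsLab d lab
  vert : ∀ a, (σ a).1 = a.1
  const : ∀ τ τ', τ.1 = τ'.1 → m τ = m τ'
  path : PathOK P φ₀
  hom : ∀ j, HomS σ d lab (f j) (φ j)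
  fj : f j₀ = resS lab (FP P)
  wj : φ j₀ = φ₀
  closed : vf (dS lab) * mul (f j₀) = mul (f j₀) * vf (dS lab)

/-- Module NegAcy: high powers of the ideal of generators of positive level are acyclic. -/
def NegAcyAt : Prop :=
  ∀ σ d lab m P φ₀ f φ j₀, CellHyp Q w v D J σ d lab m P φ₀ f φ j₀ →
    ∀ k, Fintype.card (Ix Q w v D J) < k → ∀ γ, Acy (Dloc (dS lab) (omS lab m) f ∅)
      (fun p => ZZ (AlS lab) (wt (xs σ d lab) φ) {j₀} ∅ γ p ⊓ mono fun μ => has (isN d lab) μ ∨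
        k ≤ cnt (fun g => AlS lab g ∧ ¬ isN d lab g ∧ 0 < lvG d lab g) μ)
      (rel f ⊔ mono (has (isN d lab)))

/-- Module Fx1: the redundant generators of level zero span an acyclic ideal. -/
def Fx1At : Prop :=
  ∀ σ d lab m P φ₀ f φ j₀, CellHyp Q w v D J σ d lab m P φ₀ f φ j₀ →
    (∀ x ∈ linI (nuF d lab), Dloc (dS lab) (omS lab m) f ∅ x ∈
      linI (nuF d lab) ⊔ mono (has (lvNe d lab))) ∧
    ∀ γ, Acy (Dloc (dS lab) (omS lab m) f ∅)
      (fun p => ZZ (AlS lab) (wt (xs σ d lab) φ) {j₀} ∅ γ p ⊓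
        (linI (nuF d lab) ⊔ (rel f ⊔ mono (has (lvNe d lab))))) (rel f ⊔ mono (has (lvNe d lab)))

def LinSStmt : Prop := AllQ @LinSAt
def NegAcyStmt : Prop := AllQ @NegAcyAt
def Fx1Stmt : Prop := AllQ @Fx1At

/-- Module Fx2: the quotient is the dg algebra of the fixed locus. -/
def Fx2Stmt : Prop :=
  ∀ (Q : Quiv) (w v : Fin Q.n → ℕ) (D : Fin Q.n →₀ ℕ) (J : Type) [Fintype J] [DecidableEq J]
    σ d lab m P φ₀ f φ j₀ (e : Fin Q.n → ℕ → ℕ), CellHyp Q w v D J σ d lab m P φ₀ f φ j₀ →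
    IsSort D d σ e → ∀ γ n,
    IsCx (Dloc (dS lab) (omS lab m) f ∅) (ZZ (AlS lab) (wt (xs σ d lab) φ) {j₀} ∅ γ)
      (linI (nuF d lab) ⊔ (rel f ⊔ mono (has (lvNe d lab)))) →
    IsCx (vf (df Q w v fun i a => e i a)) (Zf Q w v (fun i a => e i a) φ₀ γ)
      (Bf Q w v (fun i a => e i a) (emb (Fold P))) →
    HasChi (vf (df Q w v fun i a => e i a)) (Zf Q w v (fun i a => e i a) φ₀ γ)
      (Bf Q w v (fun i a => e i a) (emb (Fold P))) n →
    HasChi (Dloc (dS lab) (omS lab m) f ∅) (ZZ (AlS lab) (wt (xs σ d lab) φ) {j₀} ∅ γ)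
      (linI (nuF d lab) ⊔ (rel f ⊔ mono (has (lvNe d lab)))) (-n)

/-! ### Characters -/

variable {Q w v D J}

/-- The normal directions of the flag at the origin. -/
noncomputable def flagK (σ : Bas Q v ≃ Bas Q v) (d : Bas Q v → ℕ) : K :=
  ∏ a : Bas Q v, ∏ b : Bas Q v, if a.1 = b.1 ∧ (a.2 : ℕ) < b.2 ∧ d a ≠ d b then
    (1 - mon (xV (σ b).1 (σ b).2 + (d b : ℤ) • qq - (xV (σ a).1 (σ a).2 + (d a : ℤ) • qq)))⁻¹ else 1

open Classical in
/-- The product of `1 - e^(weight)` over the even or odd generators of nonzero level. -/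
noncomputable def movK (σ : Bas Q v ≃ Bas Q v) (d : Bas Q v → ℕ) (lab : Bas Q D → Bas Q v × ℕ)
    (s : Bool) : K :=
  ∏ g : Ix Q w v D Empty ⊕ Ix Q w v D Empty with lvNe d lab g ∧ g.isRight = s,
    (1 - mon (wt (xs σ d lab) 0 g))

/-- Module CharId: the moving part of the cell. -/
def CharIdStmt : Prop :=
  ∀ Q : Quiv, (∀ e, Q.hd e ≠ Q.tl e) → ∀ w v : Fin Q.n → ℕ, InOrbit Q w (fun i => v i) →
    ∀ (D : Fin Q.n →₀ ℕ) d σ e (lab : Bas Q D → Bas Q v × ℕ) Λ κ, IsLab d lab → IsSort D d σ e →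
    LamOK (w := w) σ d lab Λ → IsKap (w := w) (v := v) (D := D) κ →
    mon (Λ κ) * movK (w := w) σ d lab true =
      moving Q w v (fun i a => e i a) * flagK σ d * movK (w := w) σ d lab false

/-- Module SymF: the flags at the origin sum to one. -/
def SymFStmt : Prop :=
  ∀ (Q : Quiv) (w v : Fin Q.n → ℕ) (D : Fin Q.n →₀ ℕ) (σ : (Bas Q v → ℕ) → Bas Q v ≃ Bas Q v)
    (e : (Bas Q v → ℕ) → Fin Q.n → ℕ → ℕ), (∀ d ∈ comps Q v D, IsSort D d (σ d) (e d)) → ∀ k : ℕ,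
    ∑ d ∈ comps Q v D, res Sall (mon (k • allX Q v) * (moving Q w v (fun i a => e d i a) *
      flagK (σ d) d * fixB Q w v fun i a => e d i a)) =
    ∑ e' ∈ types Q v D, res Sall (mon (k • allX Q v) *
      (moving Q w v (fun i a => e' i a) * fixB Q w v fun i a => e' i a))

/-- Module Res: the expansions in `q` and in `q⁻¹` agree after clearing flavour denominators. -/
def ResStmt : Prop :=
  ∀ (Q : Quiv) (w v : Fin Q.n → ℕ) (e : Fin Q.n → ℕ → ℤ) (F : Pol (Arr Q) (Bas Q v) (Bas Q w))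
    (φ : G), FixOK Q w v e F φ → co 0 φ = 0 → (∀ a : Bas Q v, H56.xi Q v a φ = -1) →
    ∀ (LD LN : List G) (E : G → ℤ) (C : ℤ) (U : K),
    (∀ β ∈ LD, co 0 β ≠ 0 ∧ ∃ n : Bas Q v → ℤ, free (β - ∑ a, n a • xV a.1 a.2)) →
    (∀ γ, C < co 0 γ → E γ = 0) → shl LD E = shl LN (chi Q w v e F φ) → U ∈ LF →
    U * (LD.map fun β => 1 - mon β).prod = (LN.map fun β => 1 - mon β).prod →
    ∃ L : List G, (∀ β ∈ L, free β ∧ co 0 β ≠ 0) ∧ ∀ g, ((shl L E g : ℤ) : ℚ) =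
      shl L (fun γ => ∑ᶠ β, U.coeff β * chi Q w v e F φ (γ - β)) g

end Pool.Agent.MP_8be872_ag.H63
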