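import Pool.Agent.MP_8be872_ag.H63.DefsI
import Pool.Agent.MP_8be872_ag.H63.SpecA
import Pool.Agent.MP_8be872_ag.H56.GSpec
import Pool.Agent.MP_8be872_ag.H38.Hahn

/-! Definitions and statements of the global modules (gauge action, covers). -/

namespace Pool.Agent.MP_8be872_ag.H63

open Finset H38 H56 MvPolynomial
open scoped Matrix

variable {Q : Quiv} {w v D : Fin Q.n → ℕ}

/-- Even kinds. -/
abbrev kx (ε : Arr Q) : Kd Q := .inl (.inl ε)
abbrev ka : Kd Q := .inl (.inr true)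
abbrev kz : Kd Q := .inl (.inr false)
/-- Odd kinds. -/
abbrev kt (ε : Arr Q) : Kd Q := .inr (.inl ε)
abbrev kc : Kd Q := .inr (.inr true)
abbrev ke : Kd Q := .inr (.inr false)

/-- Ghosts of the unipotent radical of the stabilizer of `T` and of a flag in `V`. -/
def radF (p q : Nb Q w v D) : Prop :=
  blk p < blk q ∨ ∃ a b : Bas Q v, p = .inr (.inl a) ∧ q = .inr (.inl b) ∧ (b.2 : ℕ) < a.2

/-- The whole parabolic subalgebra. -/
def radP (p q : Nb Q w v D) : Prop := blk q = 0 → blk p = 0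

/-- The exponent of a gauge weight. -/
noncomputable def xi : Nb Q w v D → G →+ ℤ
  | .inl a => co (3 * Nat.pair a.1 (v a.1 + a.2) + 4)
  | .inr (.inl a) => co (3 * Nat.pair a.1 a.2 + 4)
  | .inr (.inr _) => 0

variable (w v D) in
/-- The gauge part of `γ` on the block `b` is a product of powers of determinants. -/
def Const (b : ℕ) (γ : G) : Prop :=
  ∀ p q : Nb Q w v D, blk p = b → blk q = b → vx p = vx q → xi p γ = xi q γ

/-- Off-diagonal matrix units of `gl(T)`. -/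
def offT (a b : Nb Q w v D) : Prop := a ≠ b ∧ vx a = vx b ∧ blk a = 0 ∧ blk b = 0

/-- Cohomological degree of a kind. -/
def kdeg : Kd Q → ℤ
  | .inl (.inr false) => -2
  | .inl _ => 0
  | .inr (.inr true) => 1
  | .inr _ => -1

section J

variable {J : Type}

/-- Allowed generators. -/
def AlG (R : Nb Q w v D → Nb Q w v D → Prop) : Ix Q w v D J ⊕ Ix Q w v D J → Prop :=
  ofM (shape R) ⊥ ⊥

/-- Generators of the kinds satisfying `U`. -/
def kind (U : Kd Q → Prop) : Ix Q w v D J ⊕ Ix Q w v D J → Prop := ofM (fun k _ _ => U k) ⊥ ⊥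

/-- Cohomological degree. -/
def cdG : Ix Q w v D J ⊕ Ix Q w v D J → ℤ := ofM (fun k _ _ => kdeg k) 0 0

/-- Coordinates of degree zero. -/
def E0G (g : Ix Q w v D J ⊕ Ix Q w v D J) : Prop := AlG rad g ∧ kind (fun k => kdeg k = 0) g

/-- The matrices of polynomial coordinates. -/
noncomputable def Ypol : Kd Q → Matrix (Nb Q w v D) (Nb Q w v D) (MvPolynomial (Ix Q w v D J) ℂ) :=
  msk rad fun k p q => (gg k p q).elim X 0

/-- The classical equations. -/
noncomputable def rG : Ix Q w v D J ⊕ Ix Q w v D J → MvPolynomial (Ix Q w v D J) ℂ :=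
  ofM (msk rad (Phi Q Ypol)) 0 0

variable [Fintype J] [DecidableEq J]

/-- Operators. -/
abbrev OpQ (Q : Quiv) (w v D : Fin Q.n → ℕ) (J : Type) :=
  Module.End ℂ (Sp (Ix Q w v D J) (Ix Q w v D J))

/-- The values of the differential. -/
noncomputable def dG (R : Nb Q w v D → Nb Q w v D → Prop) :
    Ix Q w v D J ⊕ Ix Q w v D J → OpQ Q w v D J := ofM (msk R (Phi Q (Yg R))) 0 0

/-- Invariants of `sl(T)` modulo the relations. -/
noncomputable def InvT (f : J → MvPolynomial (Ix Q w v D J) ℂ) :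
    Submodule ℂ (Sp (Ix Q w v D J) (Ix Q w v D J)) :=
  ⨅ (a) (b) (_ : offT a b), (rel f).comap (lie radF a b)

/-- `F` is a polynomial in the degree zero coordinates of weight `ψ`. -/
def Homog (F : MvPolynomial (Ix Q w v D J) ℂ) (ψ : G) : Prop :=
  (pol F : Sp (Ix Q w v D J) (Ix Q w v D J)) ∈
    mono fun μ => sup E0G μ ∧ ws (wt bw (0 : J → G)) μ = ψ

/-- `F` is a semi-invariant of `GL(T)` of weight `ψ`. -/
def SemiT (F : MvPolynomial (Ix Q w v D J) ℂ) (ψ : G) : Prop :=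
  Homog F ψ ∧ Const w v D 0 ψ ∧ ∀ a b, offT a b → lie radF a b (pol F) = 0

/-- The complex with a flag at the origin and `GL(T)`-invariants. -/
def ChiC (f : J → MvPolynomial (Ix Q w v D J) ℂ) (φ : J → G) (J₀ J₁ : Finset J) (γ : G) (n : ℤ) :
    Prop :=
  HasChi (Dloc (dG radF) 0 f J₁) (fun p => ZZ (AlG radF) (wt bw φ) J₀ J₁ γ p ⊓ InvT f) (rel f) n

end J

/-- Quantification over the data. -/
def AllQ (S : ∀ (Q : Quiv) (_ _ _ : Fin Q.n → ℕ) (J : Type) [Fintype J] [DecidableEq J], Prop) :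
    Prop :=
  ∀ (Q : Quiv) (w v D : Fin Q.n → ℕ) (J : Type) [Fintype J] [DecidableEq J], S Q w v D J

/-- Module DSq: the formulas `Phi` are consistent. -/
def DSqStmt : Prop :=
  (∀ (Q : Quiv) (N A A' : Type) [Fintype N] [Ring A] [Ring A'] (h : A →+* A')
    (Y : Kd Q → Matrix N N A) (k : Kd Q), (Phi Q Y k).map h = Phi Q (fun k => (Y k).map h) k) ∧
  ∀ (Q : Quiv) (w v D : Fin Q.n → ℕ) (A : Type) [Ring A] (d : A)
    (Y : Kd Q → Matrix (Nb Q w v D) (Nb Q w v D) A), (∀ k p q, ¬ shape radP k p q → Y k p q = 0) →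
    (∀ k p q, shape radP k p q →
      (if k.isRight then d * Y k p q + Y k p q * d else d * Y k p q - Y k p q * d) = Phi Q Y k p q) →
    ∀ k p q, shape radP k p q →
      (if k.isRight then d * Phi Q Y k p q - Phi Q Y k p q * d
        else d * Phi Q Y k p q + Phi Q Y k p q * d) = 0

variable (Q w v D) (J : Type) [Fintype J] [DecidableEq J]

/-- Module Glob1: the global dg algebras. -/
def Glob1At : Prop :=
  (∀ R : Nb Q w v D → Nb Q w v D → Prop, R = rad ∨ R = radF →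
    (∀ (φ : J → G) (f : J → MvPolynomial (Ix Q w v D J) ℂ), (∀ j, Homog (f j) (φ j)) →
      Good (AlG R) (wt bw φ) (dG R) 0 f) ∧
    Eqs (AlG R) (dG (J := J) R) 0 (fun g => AlG R g ∧ kind (· = kc) g) E0G
      (fun g => AlG R g ∧ kind (fun k => kdeg k = -1) g) rG ∧
    ∀ y : Ix Q w v D J → ℂ,
      (∀ g, AlG R g ∧ kind (fun k => kdeg k = -1) g → eval y (rG g) = 0) ↔ OnQ y) ∧
  ∀ (y : Ix Q w v D J → ℂ) (k : Kd Q), (Ypol k).map (eval y) = pt y k

/-- Pairs of basis vectors in a Levi block on which `lie R` is a representation. -/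
def LevP (R : Nb Q w v D → Nb Q w v D → Prop) (a b : Nb Q w v D) : Prop :=
  vx a = vx b ∧ blk a = blk b ∧ (blk a = 0 ∨ (blk a = 1 ∧ R = rad))

/-- Module Glob2: the gauge action. -/
structure Glob2At : Prop where
  /-- `lie` is an even derivation with linear values -/
  val : ∀ (R : Nb Q w v D → Nb Q w v D → Prop) a b, ∃ δ : _ → OpQ Q w v D J, lie R a b = vf δ ∧
    (∀ g, ¬ AlG R g → δ g = 0) ∧ ∀ g, δ g ∈ words fun μ => ∃ k p q p' q', g = gg k p q ∧
      μ = Pi.single (gg k p' q') 1 ∧ shape R k p' q' ∧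
      ((p' = p ∧ q = b ∧ q' = a) ∨ (p = a ∧ p' = b ∧ q' = q))
  wts : ∀ (R : Nb Q w v D → Nb Q w v D → Prop) a b (x : Nb Q w v D → G) (φ : J → G) (γ : G),
    ∀ y ∈ mono fun μ => ws (wt x φ) μ = γ,
      lie R a b y ∈ mono fun μ => ws (wt x φ) μ = γ + (x a - x b)
  comm : ∀ R : Nb Q w v D → Nb Q w v D → Prop, R = rad ∨ R = radF → ∀ a b, LevP Q w v D R a b →
    lie (J := J) R a b * vf (dG R) = vf (dG R) * lie R a b
  brk : ∀ R : Nb Q w v D → Nb Q w v D → Prop, R = rad ∨ R = radF → ∀ a b c d,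
    LevP Q w v D R a b → LevP Q w v D R c d →
    lie (J := J) R a b * lie R c d - lie R c d * lie R a b =
      (if b = c then lie R a d else 0) - if d = a then lie R c b else 0
  diag : ∀ (R : Nb Q w v D → Nb Q w v D → Prop) a (γ : G), blk a < 2 →
    ∀ y ∈ mono fun μ => ws (fun g => open Classical in
        if AlG R g then wt bw (0 : J → G) g else 0) μ = γ,
      lie R a a y = (xi a γ : ℂ) • y
  radT : ∀ a b : Nb Q w v D, blk a = 0 → blk b = 0 → lie (J := J) radF a b = lie rad a b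
  onPol : ∀ (R R' : Nb Q w v D → Nb Q w v D → Prop) a b (F : MvPolynomial (Ix Q w v D J) ℂ),
    (pol F : Sp (Ix Q w v D J) (Ix Q w v D J)) ∈ mono (sup E0G) →
      lie R a b (pol F) = lie R' a b (pol F)
  dpol : ∀ (R : Nb Q w v D → Nb Q w v D → Prop) (F : MvPolynomial (Ix Q w v D J) ℂ),
    (pol F : Sp (Ix Q w v D J) (Ix Q w v D J)) ∈ mono (sup E0G) →
      vf (dG R) * mul F - mul F * vf (dG R) =
        ∑ a, ∑ b, Yg R kc a b * (lie R a b * mul F - mul F * lie R a b)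
  const : ∀ (F : MvPolynomial (Ix Q w v D J) ℂ) (ψ : G) (b : ℕ), b < 2 → F ≠ 0 → Homog F ψ →
    (∀ p q : Nb Q w v D, p ≠ q → vx p = vx q → blk p = b → blk q = b →
      lie rad p q (pol F) = 0) → Const w v D b ψ
  /-- a derivation by a matrix identity: the value of `lie` on polynomial matrix entries -/
  der : ∀ a b, ∃ dd : Derivation ℂ (MvPolynomial (Ix Q w v D J) ℂ) (MvPolynomial (Ix Q w v D J) ℂ),
    (∀ F, lie (J := J) rad a b (pol F) = pol (dd F)) ∧ ∀ k, k.isLeft → (Ypol k).map dd =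
      msk rad (fun k => Ypol k * Matrix.single a b 1 - Matrix.single a b 1 * Ypol k) k

/-- Module Glob3: the complex of the statement and the invariants. -/
def Glob3At : Prop :=
  ∀ (f : J → MvPolynomial (Ix Q w v D J) ℂ) (φ : J → G),
    (Cover f φ → (∀ j, SemiT (f j) (φ j) ∧ Const w v D 1 (φ j)) ∧
      (∀ R : Nb Q w v D → Nb Q w v D → Prop, R = rad ∨ R = radF →
        ∀ j, vf (dG R) * mul (f j) = mul (f j) * vf (dG R)) ∧
      Dif = Dloc (dG rad) 0 f univ ∧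
      (∀ γ p, coch f φ γ p = ZZ (AlG rad) (wt bw φ) ∅ univ γ p ⊓
        ⨅ (a) (b) (_ : a ≠ b ∧ LevP Q w v D rad a b), (rel f).comap (lie rad a b)) ∧
      ∀ γ p, ∀ x ∈ coch f φ γ p, Dif x ∈ coch f φ γ (!p) ∧ (x ∈ rel f → Dif x ∈ rel f) ∧
        Dif (Dif x) = 0) ∧
    ((∀ j, SemiT (f j) (φ j)) → InvOK (dG radF) 0 f (InvT f) ∧
      ∀ a b, offT a b → (∀ A, lie radF a b * Dloc (dG radF) 0 f A =
        Dloc (dG radF) 0 f A * lie radF a b) ∧ ∀ x ∈ rel f, lie radF a b x ∈ rel f)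

/-- Module Exa: invariants of `GL(T)` are exact. -/
def ExaAt : Prop :=
  ∀ (f : J → MvPolynomial (Ix Q w v D J) ℂ) (φ : J → G), (∀ j, SemiT (f j) (φ j)) →
    ∀ γ, Const w v D 0 γ → ∀ (A J₀ J₁ : Finset J) (U : (J → ℕ) → Prop),
    Acy (Dloc (dG radF) 0 f A) (fun p => ZZ (AlG radF) (wt bw φ) J₀ J₁ γ p ⊓
      mono fun μ => U fun j => μ (ev j)) (rel f) →
    Acy (Dloc (dG radF) 0 f A) (fun p => (ZZ (AlG radF) (wt bw φ) J₀ J₁ γ p ⊓
      mono fun μ => U fun j => μ (ev j)) ⊓ InvT f) (rel f)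

/-- Module AC: from invariants of `GL(V)` to the flag at the origin. -/
def ACAt : Prop :=
  ∀ (f : J → MvPolynomial (Ix Q w v D J) ℂ) (φ : J → G), Cover f φ →
    ∀ γ, Const w v D 1 γ → ∀ n, ChiC f φ ∅ univ γ n → HasChi Dif (coch f φ γ) (rel f) n

/-- Module Ren: enlarging the index set of the charts. -/
def RenAt : Prop :=
  ∀ (J' : Type) [Fintype J'] [DecidableEq J'] (ι : J ↪ J')
    (f : J → MvPolynomial (Ix Q w v D J) ℂ) (φ : J → G)
    (f' : J' → MvPolynomial (Ix Q w v D J') ℂ) (φ' : J' → G),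
    (∀ j, SemiT (f j) (φ j)) → (∀ j, f' (ι j) = rename (Sum.map id ι) (f j) ∧ φ' (ι j) = φ j) →
    (∀ j, SemiT (rename (Sum.map id ι) (f j) : MvPolynomial (Ix Q w v D J') ℂ) (φ j)) ∧
    ((∀ j, SemiT (f' j) (φ' j)) →
      ∀ γ n, ChiC f' φ' ∅ (univ.map ι) γ n → ChiC f φ ∅ univ γ n) ∧
    ∀ y : Ix Q w v D J' → ℂ, (OnQ y ↔ OnQ (y ∘ Sum.map id ι)) ∧ (Stab y ↔ Stab (y ∘ Sum.map id ι))

def Glob1Stmt : Prop := AllQ @Glob1At
def Glob2Stmt : Prop := AllQ @Glob2At
def Glob3Stmt : Prop := AllQ @Glob3At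
def ExaStmt : Prop := AllQ @ExaAt
def ACStmt : Prop := AllQ @ACAt
def RenStmt : Prop := AllQ @RenAt

/-- Module Kap: the square root of the virtual canonical character. -/
def KapStmt : Prop :=
  ∀ (Q : Quiv) (w v D : Fin Q.n → ℕ), (∃ κ, IsKap (w := w) (v := v) (D := D) κ) ∧
    ∀ κ, IsKap (w := w) (v := v) (D := D) κ → Const w v D 0 κ ∧ Const w v D 1 κ

end Pool.Agent.MP_8be872_ag.H63
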