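import Pool.Agent.MP_8be872_ag.H63.SpecB

/-! Definitions and statements for the charts, slices and pointwise linear algebra. -/

namespace Pool.Agent.MP_8be872_ag.H63

open Finset H38 H56 MvPolynomial
open scoped Matrix

variable {Q : Quiv} {w v D : Fin Q.n → ℕ}

variable (Q v D) in
/-- Unsorted splitting types. -/
def comps : Finset (Bas Q v → ℕ) :=
  (Fintype.piFinset fun _ => range (∑ i, D i + 1)).filter fun d => ∀ i, ∑ a, d ⟨i, a⟩ = D i

/-- A labelling of the basis of `T` by the pairs `(a, k)`, `k < d a`. -/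
structure IsLab (d : Bas Q v → ℕ) (lab : Bas Q D → Bas Q v × ℕ) : Prop where
  inj : Function.Injective lab
  vert : ∀ τ, (lab τ).1.1 = τ.1
  lt : ∀ τ, (lab τ).2 < d (lab τ).1
  surj : ∀ a k, k < d a → ∃ τ, lab τ = (a, k)

/-- The position `(a, k)`, `0 ≤ k ≤ d a`, of a basis vector of `H`. -/
def hp (lab : Bas Q D → Bas Q v × ℕ) : Nb Q w v D → Option (Bas Q v × ℕ)
  | .inl τ => some ((lab τ).1, (lab τ).2 + 1)
  | .inr (.inl a) => some (a, 0)
  | .inr (.inr _) => none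

/-- The shift `η_(a,k+1) ↦ η_(a,k)`. -/
def al0 (lab : Bas Q D → Bas Q v × ℕ) : Matrix (Nb Q w v D) (Nb Q w v D) ℂ := fun p q =>
  match q with
  | .inl τ => if hp lab p = some (lab τ) then 1 else 0
  | .inr _ => 0

/-- Rows of `α` that are free on the slice. -/
def top (lab : Bas Q D → Bas Q v × ℕ) (p : Nb Q w v D) : Prop := ∀ q, al0 lab p q = 0

/-- The `q`-exponent of a basis vector. -/
def lv (d : Bas Q v → ℕ) (lab : Bas Q D → Bas Q v × ℕ) : Nb Q w v D → ℤ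
  | .inl τ => d (lab τ).1 - ((lab τ).2 + 1)
  | .inr (.inl a) => d a
  | .inr (.inr _) => 0

/-- Weights of the basis vectors on the slice. -/
noncomputable def xs (σ : Bas Q v ≃ Bas Q v) (d : Bas Q v → ℕ) (lab : Bas Q D → Bas Q v × ℕ)
    (p : Nb Q w v D) : G :=
  (match p with
    | .inl τ => xV (σ (lab τ).1).1 (σ (lab τ).1).2
    | .inr (.inl a) => xV (σ a).1 (σ a).2
    | .inr (.inr b) => uF b.1 b.2) + lv d lab p • qq

/-- The `q`-exponent of the weight of the entry `(p, q)` of the matrix `k`. -/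
def lvk (d : Bas Q v → ℕ) (lab : Bas Q D → Bas Q v × ℕ) (k : Kd Q) (p q : Nb Q w v D) : ℤ :=
  lv d lab q - lv d lab p + match k with
    | .inl (.inl _) | .inr (.inr _) => 0
    | _ => 1

/-- The minor of the rows `c_a t^k`, `(a, k)` in the image of `lab`. -/
def minorP {A : Type} [CommRing A] (lab : Bas Q D → Bas Q v × ℕ)
    (α : Matrix (Nb Q w v D) (Nb Q w v D) A) : A :=
  (Matrix.of fun τ τ' : Bas Q D =>
    (α ^ ((lab τ).2 + 1)) (.inr (.inl (lab τ).1)) (.inl τ')).det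

/-- Entries of `α` that vanish on the cell. -/
def isNe (d : Bas Q v → ℕ) (lab : Bas Q D → Bas Q v × ℕ) (p q : Nb Q w v D) : Prop :=
  ∃ a τ, hp lab p = some (a, d a) ∧ q = .inl τ ∧ a.1 = τ.1 ∧
    (d a < (lab τ).2 ∨ (d a = (lab τ).2 ∧ (a.2 : ℕ) < (lab τ).1.2))

/-- The score that the greedy basis minimizes. -/
def score (d : Bas Q v → ℕ) : ℕ := ∑ a, ∑ k ∈ range (d a), (k * (∑ i, v i + 1) + a.2)

/-- Paths: a framing vector and a word of arrows with target vertices. -/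
abbrev Pth (Q : Quiv) (w : Fin Q.n → ℕ) := Bas Q w × List (Arr Q × Fin Q.n)

open Classical in
/-- Apply a word of arrows, projecting to the given vertices. -/
noncomputable def colP {N A : Type} [Fintype N] [CommRing A] (at' : Fin Q.n → N → Prop)
    (x : Arr Q → Matrix N N A) (y₀ : N → A) (l : List (Arr Q × Fin Q.n)) : N → A :=
  l.foldr (fun s y p => if at' s.2 p then (x s.1 *ᵥ y) p else 0) y₀

/-- The matrix `(α | paths | W)`. -/
noncomputable def Fmat {A : Type} [CommRing A] (P : Bas Q v → Pth Q w)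
    (Y : Kd Q → Matrix (Nb Q w v D) (Nb Q w v D) A) : Matrix (Nb Q w v D) (Nb Q w v D) A :=
  fun p q => match q with
    | .inl _ => Y ka p q
    | .inr (.inl b) => colP (fun j p => blk p < 2 ∧ vx p = j) (fun ε => Y (kx ε))
        (Pi.single (.inr (.inr (P b).1)) 1) (P b).2 p
    | .inr (.inr _) => if p = q then 1 else 0

/-- The determinant of the paths on `V`. -/
noncomputable def Fold (P : Bas Q v → Pth Q w) : Pol0 (Arr Q) (Bas Q v) (Bas Q w) :=
  (Matrix.of fun a b : Bas Q v =>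
    colP (fun j (p : Bas Q v ⊕ Bas Q w) => ∃ a, p = .inl a ∧ a.1 = j) mat0
      (Pi.single (.inr (P b).1) 1) (P b).2 (.inl a)).det

/-- The paths cut out the stable locus. -/
def PathOK (P : Bas Q v → Pth Q w) (φ : G) : Prop :=
  (∀ b, ∃ ε l, (P b).2 = (ε, b.1) :: l) ∧ Fold P ≠ 0 ∧ Cuts Q w v (emb (Fold P)) φ

/-- The specialization of the weights to the slice. -/
structure LamOK (σ : Bas Q v ≃ Bas Q v) (d : Bas Q v → ℕ) (lab : Bas Q D → Bas Q v × ℕ)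
    (Λ : G →+ G) : Prop where
  bas : ∀ p : Nb Q w v D, Λ (bw p) = xs σ d lab p
  fix : ∀ g, free g → Λ g = g
  inj : ∀ γ, (∀ τ, xi (.inl τ : Nb Q w v D) γ = 0) → Λ γ = 0 → γ = 0

/-- `σ` sorts `d` to `e`. -/
structure IsSort (D : Fin Q.n →₀ ℕ) (d : Bas Q v → ℕ) (σ : Bas Q v ≃ Bas Q v)
    (e : Fin Q.n → ℕ → ℕ) : Prop where
  vert : ∀ a, (σ a).1 = a.1
  val : ∀ a, e (σ a).1 (σ a).2 = d a
  ord : ∀ a b, a.1 = b.1 →
    (((σ b).2 : ℕ) < (σ a).2 ↔ d b < d a ∨ (d b = d a ∧ (b.2 : ℕ) < a.2))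
  mem : e ∈ types Q v D

section J

variable {J : Type}

/-- Allowed entries on the slice. -/
def shS (lab : Bas Q D → Bas Q v × ℕ) (k : Kd Q) (p q : Nb Q w v D) : Prop :=
  shape radF k p q ∧ (k = ka → top lab p)

/-- Allowed generators on the slice. -/
def AlS (lab : Bas Q D → Bas Q v × ℕ) : Ix Q w v D J ⊕ Ix Q w v D J → Prop := ofM (shS lab) ⊥ ⊥

/-- Conormal coordinates of the cell. -/
def isN (d : Bas Q v → ℕ) (lab : Bas Q D → Bas Q v × ℕ) : Ix Q w v D J ⊕ Ix Q w v D J → Prop :=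
  ofM (fun k p q => k = ka ∧ isNe d lab p q) ⊥ ⊥

/-- The `q`-exponent of a generator. -/
def lvG (d : Bas Q v → ℕ) (lab : Bas Q D → Bas Q v × ℕ) : Ix Q w v D J ⊕ Ix Q w v D J → ℤ :=
  ofM (lvk d lab) 0 0

open Classical in
/-- The matrices on the slice with entries `y`. -/
noncomputable def YS {A : Type} [Ring A] [Algebra ℂ A] (lab : Bas Q D → Bas Q v × ℕ)
    (y : Kd Q → Nb Q w v D → Nb Q w v D → A) : Kd Q → Matrix (Nb Q w v D) (Nb Q w v D) A :=
  let base : Kd Q → Matrix (Nb Q w v D) (Nb Q w v D) A :=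
    fun k p q => if shS lab k p q then y k p q else 0
  let a0 : Matrix (Nb Q w v D) (Nb Q w v D) A := (al0 lab).map (algebraMap ℂ A)
  fun k => if k = ka then a0 + base ka else if k = kc then
    ∑ i ∈ range (Fintype.card (Bas Q D) + 1), a0ᵀ ^ i * base kc * (a0 + base ka) ^ i else base k

/-- The matrices of polynomial coordinates on the slice. -/
noncomputable def YSpol (lab : Bas Q D → Bas Q v × ℕ) :
    Kd Q → Matrix (Nb Q w v D) (Nb Q w v D) (MvPolynomial (Ix Q w v D J) ℂ) :=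
  YS lab fun k p q => (gg k p q).elim X 0

open Classical in
/-- The classical equations on the slice. -/
noncomputable def rS (lab : Bas Q D → Bas Q v × ℕ) :
    Ix Q w v D J ⊕ Ix Q w v D J → MvPolynomial (Ix Q w v D J) ℂ :=
  ofM (fun k p q => if shS lab k p q then Phi Q (YSpol lab) k p q else 0) 0 0

open Classical in
/-- Restriction to the slice. -/
noncomputable def resS (lab : Bas Q D → Bas Q v × ℕ) :
    MvPolynomial (Ix Q w v D J) ℂ →ₐ[ℂ] MvPolynomial (Ix Q w v D J) ℂ :=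
  aeval fun e => match e with
    | .inl (.inr true, p, q) => if top lab p then X e else C (al0 lab p q)
    | _ => X e

/-- The function cutting out the locus that is nonsingular at infinity. -/
noncomputable def FP (P : Bas Q v → Pth Q w) : MvPolynomial (Ix Q w v D J) ℂ := (Fmat P Ypol).det

variable [Fintype J] [DecidableEq J]

open Classical in
/-- The values of the differential on the slice. -/
noncomputable def dS (lab : Bas Q D → Bas Q v × ℕ) : Ix Q w v D J ⊕ Ix Q w v D J → OpQ Q w v D J :=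
  ofM (fun k p q => if shS lab k p q then Phi Q (YS lab fun k p q => gn (gg k p q)) k p q else 0) 0 0

/-- The twist by powers of `det T_i`. -/
noncomputable def omS (lab : Bas Q D → Bas Q v × ℕ) (m : Bas Q D → ℤ) : OpQ Q w v D J :=
  -∑ τ, (m τ : ℂ) • YS lab (fun k p q => gn (gg k p q)) kc (.inl τ) (.inl τ)

/-- Restriction of cochains to the slice. -/
noncomputable def resO (lab : Bas Q D → Bas Q v × ℕ) : OpQ Q w v D J :=
  (resS lab).toLinearMap.compLeft _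

/-- Coordinates of degree zero on the slice. -/
def E0S (lab : Bas Q D → Bas Q v × ℕ) (g : Ix Q w v D J ⊕ Ix Q w v D J) : Prop :=
  AlS lab g ∧ kind (fun k => kdeg k = 0) g

/-- Homogeneous functions on the slice. -/
def HomS (σ : Bas Q v ≃ Bas Q v) (d : Bas Q v → ℕ) (lab : Bas Q D → Bas Q v × ℕ)
    (F : MvPolynomial (Ix Q w v D J) ℂ) (ψ : G) : Prop :=
  (pol F : Sp (Ix Q w v D J) (Ix Q w v D J)) ∈
    mono fun μ => sup (E0S lab) μ ∧ ws (wt (xs σ d lab) (0 : J → G)) μ = ψ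

end J

/-- Module Obs: observability indices. -/
def ObsStmt : Prop :=
  ∀ (Q : Quiv) (w v D : Fin Q.n → ℕ), (∀ d ∈ comps Q v D, ∃ lab : Bas Q D → _, IsLab d lab) ∧
    ∀ lab : (Bas Q v → ℕ) → Bas Q D → Bas Q v × ℕ, (∀ d ∈ comps Q v D, IsLab d (lab d)) →
    (∀ α : Matrix (Nb Q w v D) (Nb Q w v D) ℂ, (∀ p q, ¬ shape rad ka p q → α p q = 0) →
      ((∀ (s : ℂ) (z : Nb Q w v D → ℂ), (∀ p, blk p ≠ 0 → z p = 0) → α *ᵥ z = s • z → z = 0) ↔
        ∃ d ∈ comps Q v D, minorP (lab d) α ≠ 0)) ∧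
    ∀ d ∈ comps Q v D, ∀ z : Matrix (Nb Q w v D) (Nb Q w v D) ℂ,
      (∀ p q, ¬ shS (lab d) ka p q → z p q = 0) →
      ((∃ d' ∈ comps Q v D, d' ≠ d ∧ score d' ≤ score d ∧ minorP (lab d') (al0 (lab d) + z) ≠ 0) →
        ∃ p q, isNe d (lab d) p q ∧ z p q ≠ 0) ∧
      ((∃ p q, isNe d (lab d) p q ∧ z p q ≠ 0) →
        ∃ d' ∈ comps Q v D, score d' < score d ∧ minorP (lab d') (al0 (lab d) + z) ≠ 0)

/-- Module Path: paths cutting out the stable locus exist. -/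
def PathStmt : Prop :=
  ∀ Q : Quiv, (∀ e, Q.hd e ≠ Q.tl e) → ∀ w v : Fin Q.n → ℕ, InOrbit Q w (fun i => v i) →
    ∃ (P : Bas Q v → Pth Q w) (φ : G), PathOK P φ

/-- Module Sort: sorting permutations and specializations exist. -/
def SortStmt : Prop :=
  ∀ (Q : Quiv) (w v : Fin Q.n → ℕ) (D : Fin Q.n →₀ ℕ), ∀ d ∈ comps Q v D,
    (∃ σ e, IsSort D d σ e) ∧ ∀ (σ : Bas Q v ≃ Bas Q v) (lab : Bas Q D → Bas Q v × ℕ),
      ∃ Λ, LamOK (w := w) σ d lab Λ

variable (Q w v D) (J : Type) [Fintype J] [DecidableEq J]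

/-- Module P1: nonsingularity at infinity. -/
def P1At : Prop :=
  ∀ (P : Bas Q v → Pth Q w) (φ : G), PathOK P φ → ∀ y : Ix Q w v D J → ℂ, OnQ y →
    (Stab y ↔ (∀ (s : ℂ) (z : Nb Q w v D → ℂ), (∀ p, blk p ≠ 0 → z p = 0) →
      pt y ka *ᵥ z = s • z → z = 0) ∧ (Fmat P (pt y)).det ≠ 0)

/-- Module Semi: weights and invariance of the cutting function and of the minors. -/
def SemiAt : Prop :=
  (∀ (P : Bas Q v → Pth Q w) (φ : G), PathOK P φ → ∃ ψ, Homog (FP (D := D) (J := J) P) ψ ∧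
    (∀ τ, xi (.inl τ : Nb Q w v D) ψ = 0) ∧
    (∀ a b : Nb Q w v D, a ≠ b → arrow (.inr true) a b → blk a ≤ blk b →
      lie (J := J) rad a b (pol (FP P)) = 0) ∧
    ∀ (σ : Bas Q v ≃ Bas Q v) d (lab : Bas Q D → Bas Q v × ℕ) Λ, IsLab d lab →
      LamOK (w := w) σ d lab Λ → Λ ψ = φ) ∧
  (∀ d (lab : Bas Q D → Bas Q v × ℕ), IsLab d lab →
    (∃ ψ, SemiT (minorP lab (Ypol (w := w) (J := J) ka)) ψ ∧
      ∀ σ Λ, LamOK (w := w) σ d lab Λ → Λ ψ = 0) ∧
    resS lab (minorP lab (Ypol (w := w) (J := J) ka)) = 1 ∧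
    ∀ k, kdeg k = 0 → (Ypol (w := w) (J := J) k).map (resS lab) = YSpol lab k) ∧
  ∀ (F F' : MvPolynomial (Ix Q w v D J) ℂ) (ψ ψ' : G), SemiT F ψ → SemiT F' ψ' →
    SemiT (F * F') (ψ + ψ') ∧ SemiT (1 : MvPolynomial (Ix Q w v D J) ℂ) 0

/-- Module SlF: the dg algebra of the slice. -/
def SlFAt : Prop :=
  ∀ (σ : Bas Q v ≃ Bas Q v) (d : Bas Q v → ℕ) (lab : Bas Q D → Bas Q v × ℕ) (m : Bas Q D → ℤ),
    IsLab d lab → (∀ a, (σ a).1 = a.1) → (∀ τ τ', τ.1 = τ'.1 → m τ = m τ') →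
    (∀ (φ : J → G) (f : J → MvPolynomial (Ix Q w v D J) ℂ), (∀ j, HomS σ d lab (f j) (φ j)) →
      Good (AlS lab) (wt (xs σ d lab) φ) (dS lab) (omS lab m) f) ∧
    Eqs (AlS lab) (dS (w := w) (J := J) lab) (omS lab m) (fun g => AlS lab g ∧ kind (· = kc) g)
      (E0S lab) (fun g => AlS lab g ∧ kind (fun k => kdeg k = -1) g) (rS lab) ∧
    (∀ g, dS (w := w) (J := J) lab g ∈ words fun μ => ws cdG μ = cdG g + 1) ∧
    omS (w := w) (J := J) lab m ∈ (words fun μ => ws cdG μ = 1) ∧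
    (∀ k p q, shape radP k p q →
      (if k.isRight then vf (dS lab) * YS lab (fun k p q => gn (gg k p q)) k p q +
          YS lab (fun k p q => gn (gg k p q)) k p q * vf (dS lab)
        else vf (dS lab) * YS lab (fun k p q => gn (gg k p q)) k p q -
          YS lab (fun k p q => gn (gg k p q)) k p q * vf (dS (w := w) (J := J) lab)) =
        Phi Q (YS lab fun k p q => gn (gg k p q)) k p q)

/-- Module SlW: weights on the slice. -/
def SlWAt : Prop :=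
  ∀ (σ : Bas Q v ≃ Bas Q v) (d : Bas Q v → ℕ) (lab : Bas Q D → Bas Q v × ℕ),
    IsLab d lab → (∀ a, (σ a).1 = a.1) →
    (∀ (φ : J → G) (g : Ix Q w v D J ⊕ Ix Q w v D J), AlS lab g →
      co 0 (wt (xs σ d lab) φ g) = lvG d lab g) ∧
    (∀ g : Ix Q w v D J ⊕ Ix Q w v D J, isN d lab g → AlS lab g) ∧
    (∀ p q : Nb Q w v D, shS lab ka p q → 0 < lvk d lab ka p q) ∧
    (∃ l : G →+ ℤ, ∀ (φ : J → G) (g : Ix Q w v D J ⊕ Ix Q w v D J), AlS lab g →
      (isN d lab g → l (wt (xs σ d lab) φ g) < 0) ∧ (¬ isN d lab g → 0 < l (wt (xs σ d lab) φ g))) ∧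
    ∀ Λ, LamOK (w := w) σ d lab Λ → ∀ (F : MvPolynomial (Ix Q w v D J) ℂ) (ψ : G), Homog F ψ →
      HomS σ d lab (resS lab F) (Λ ψ)

/-- Common hypotheses of the slice theorem. -/
structure SlHyp (σ : Bas Q v ≃ Bas Q v) (d : Bas Q v → ℕ) (lab : Bas Q D → Bas Q v × ℕ)
    (Λ : G →+ G) (f f' : J → MvPolynomial (Ix Q w v D J) ℂ) (φ φ' : J → G) (J₀ J₁ : Finset J)
    (γ : G) : Prop where
  isLab : IsLab d lab
  vert : ∀ a, (σ a).1 = a.1
  lam : LamOK (w := w) σ d lab Λ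
  semi : ∀ j, SemiT (f j) (φ j)
  hom : ∀ j, HomS σ d lab (f' j) (φ' j)
  res : ∀ j ∈ J₀ ∪ J₁, f' j = resS lab (f j) ∧ φ' j = Λ (φ j)
  const : Const w v D 0 γ

/-- Module Sl1: restriction to the slice is a chain map. -/
def Sl1At : Prop :=
  (∀ σ d lab Λ f f' φ φ' J₀ J₁ γ, SlHyp Q w v D J σ d lab Λ f f' φ φ' J₀ J₁ γ →
    ∀ p, ∀ x ∈ ZZ (AlG radF) (wt bw φ) J₀ J₁ γ p,
      resO lab x ∈ ZZ (AlS lab) (wt (xs σ d lab) φ') J₀ J₁ (Λ γ) p ∧
      (x ∈ rel f → resO lab x ∈ rel f') ∧ (x ∈ InvT f →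
        resO lab (Dloc (dG radF) 0 f J₁ x) -
          Dloc (dS lab) (omS lab fun τ => xi (.inl τ : Nb Q w v D) γ) f' J₁ (resO lab x) ∈
            rel f')) ∧
  ∀ d (lab : Bas Q D → Bas Q v × ℕ) (F : MvPolynomial (Ix Q w v D J) ℂ) (ψ : G), IsLab d lab →
    Homog F ψ → (∀ τ, xi (.inl τ : Nb Q w v D) ψ = 0) →
    (∀ a b : Nb Q w v D, a ≠ b → arrow (.inr true) a b → blk a ≤ blk b →
      lie rad a b (pol F) = 0) →
    vf (dS lab) * mul (resS lab F) = mul (resS lab F) * vf (dS lab)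

/-- Module Sl2: restriction of invariants to the slice is injective. -/
def Sl2At : Prop :=
  ∀ σ d lab Λ f f' φ φ' J₀ J₁ γ, SlHyp Q w v D J σ d lab Λ f f' φ φ' J₀ J₁ γ →
    ∀ p, ∀ x ∈ ZZ (AlG radF) (wt bw φ) J₀ J₁ γ p ⊓ InvT f, resO lab x ∈ rel f' → x ∈ rel f

/-- Module Sl3: restriction of invariants to the slice is surjective on the chart. -/
def Sl3At : Prop :=
  ∀ σ d lab Λ f f' φ φ' J₀ J₁ γ, SlHyp Q w v D J σ d lab Λ f f' φ φ' J₀ J₁ γ →
    (∃ j₀ ∈ J₀, ∃ F ψ, SemiT F ψ ∧ f j₀ = F * minorP lab (Ypol ka)) →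
    ∀ p, ∀ y ∈ ZZ (AlS lab) (wt (xs σ d lab) φ') J₀ J₁ (Λ γ) p,
      ∃ x ∈ ZZ (AlG radF) (wt bw φ) J₀ J₁ γ p ⊓ InvT f, y - resO lab x ∈ rel f'

def P1Stmt : Prop := ∀ (Q : Quiv) (w v D : Fin Q.n → ℕ) (J : Type), P1At Q w v D J
def SemiStmt : Prop := AllQ @SemiAt
def SlFStmt : Prop := AllQ @SlFAt
def SlWStmt : Prop := AllQ @SlWAt
def Sl1Stmt : Prop := AllQ @Sl1At
def Sl2Stmt : Prop := AllQ @Sl2At
def Sl3Stmt : Prop := AllQ @Sl3At

/-- Module Cov: an invariant cover exists. -/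
def CovStmt : Prop :=
  ∀ (Q : Quiv) (w v D : Fin Q.n → ℕ) (P : Bas Q v → Pth Q w) (φ₀ : G), PathOK P φ₀ →
    ∃ (n : ℕ) (f : Fin n → MvPolynomial (Ix Q w v D (Fin n)) ℂ) (φ : Fin n → G), Cover f φ

end Pool.Agent.MP_8be872_ag.H63
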