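import Pool.Agent.MP_8be872_ag.H63.Sup

/-! Internal definitions for the global model (no proofs). -/

namespace Pool.Agent.MP_8be872_ag.H63

open Finset H38 H56 MvPolynomial

/-! ### Complexes -/

section Cx

variable {M : Type} [AddCommGroup M] [Module ℂ M]

/-- `(Z / B, D)` is a `ℤ/2`-graded complex. -/
structure IsCx (D : Module.End ℂ M) (Z : Bool → Submodule ℂ M) (B : Submodule ℂ M) : Prop where
  mapZ : ∀ p, ∀ x ∈ Z p, D x ∈ Z (!p)
  mapB : ∀ p, ∀ x ∈ Z p, x ∈ B → D x ∈ B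
  sq : ∀ p, ∀ x ∈ Z p, D (D x) ∈ B

/-- Every cocycle of `Z₁` is a coboundary from `Z₀`, modulo `B`. -/
def Ex (D : Module.End ℂ M) (Z₀ Z₁ B : Submodule ℂ M) : Prop :=
  ∀ x ∈ Z₁, D x ∈ B → ∃ y ∈ Z₀, x - D y ∈ B

/-- The complex is acyclic. -/
def Acy (D : Module.End ℂ M) (Z : Bool → Submodule ℂ M) (B : Submodule ℂ M) : Prop :=
  ∀ p, Ex D (Z (!p)) (Z p) B

/-- Finite-dimensional cohomology of Euler characteristic `n` (even minus odd). -/
def HasChi (D : Module.End ℂ M) (Z : Bool → Submodule ℂ M) (B : Submodule ℂ M) (n : ℤ) : Prop :=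
  (∀ p, hDim D Z B p < Cardinal.aleph0) ∧
    ((hDim D Z B false).toNat : ℤ) - (hDim D Z B true).toNat = n

end Cx

/-- The sign `(-1)^b`. -/
noncomputable def sg (b : Bool) : ℂ := if b then -1 else 1

/-! ### The free supercommutative algebra -/

section Super

variable {E O : Type} [Fintype E] [Fintype O] [DecidableEq E] [DecidableEq O]

/-- The unit. -/
noncomputable def one : Sp E O := Pi.single ∅ 1

/-- A polynomial in the even generators as an element. -/
noncomputable def pol (f : MvPolynomial E ℂ) : Sp E O := Pi.single ∅ f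

/-- The exponent vector of a monomial. -/
def ex (S : Finset O) (m : E →₀ ℕ) : E ⊕ O → ℕ := Sum.elim m fun o => if o ∈ S then 1 else 0

/-- The monomial basis. -/
noncomputable def bas (S : Finset O) (m : E →₀ ℕ) : Sp E O := Pi.single S (monomial m 1)

/-- Parity of an exponent vector. -/
def od (μ : E ⊕ O → ℕ) : Bool := decide (Odd (∑ o, μ (.inr o)))

/-- Weight of an exponent vector. -/
def ws {Γ : Type} [AddCommMonoid Γ] (c : E ⊕ O → Γ) (μ : E ⊕ O → ℕ) : Γ := ∑ g, μ g • c g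

/-- Only generators satisfying `A` occur. -/
def sup (A : E ⊕ O → Prop) (μ : E ⊕ O → ℕ) : Prop := ∀ g, μ g ≠ 0 → A g

/-- Some generator satisfying `A` occurs. -/
def has (A : E ⊕ O → Prop) (μ : E ⊕ O → ℕ) : Prop := ∃ g, A g ∧ μ g ≠ 0

open Classical in
/-- The number of factors satisfying `A`. -/
noncomputable def cnt (A : E ⊕ O → Prop) (μ : E ⊕ O → ℕ) : ℕ := ∑ g, if A g then μ g else 0

/-- Multiplication operators spanned by words whose exponent vector satisfies `P`. -/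
noncomputable def words (P : (E ⊕ O → ℕ) → Prop) : Submodule ℂ (Module.End ℂ (Sp E O)) :=
  Submodule.span ℂ {m | ∃ l : List (E ⊕ O), P (fun g => l.count g) ∧ m = (l.map gn).prod}

open Classical in
/-- Projection to the monomials satisfying `P`. -/
noncomputable def proj (P : (E ⊕ O → ℕ) → Prop) : Module.End ℂ (Sp E O) :=
  LinearMap.pi fun S => ((basisMonomials E ℂ).constr ℂ fun m =>
    if P (ex S m) then monomial m 1 else 0) ∘ₗ LinearMap.proj S

/-- The linear map sending a monomial to the corresponding product of the `ρ g`. -/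
noncomputable def lift {R : Type} [Ring R] [Algebra ℂ R] (ρ : E ⊕ O → R) : Sp E O →ₗ[ℂ] R :=
  ∑ S : Finset O, ((basisMonomials E ℂ).constr ℂ fun m =>
    ((univ : Finset E).toList.map fun e => ρ (.inl e) ^ m e).prod *
      ((List.finRange (Fintype.card O)).map fun i =>
        if (Fintype.equivFin O).symm i ∈ S then ρ (.inr ((Fintype.equivFin O).symm i)) else 1).prod)
    ∘ₗ LinearMap.proj S

/-- A linear combination of generators. -/
noncomputable def lin (u : E ⊕ O → ℂ) : Module.End ℂ (Sp E O) := ∑ g, u g • gn g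

/-- Set the even generators satisfying `K` to zero. -/
noncomputable def kill (K : E ⊕ O → Prop) : MvPolynomial E ℂ →ₐ[ℂ] MvPolynomial E ℂ :=
  open Classical in aeval fun e => if K (.inl e) then 0 else X e

end Super

/-! ### Čech complexes of a dg algebra -/

section Loc

variable {E O J : Type} [Fintype E] [Fintype O] [Fintype J] [DecidableEq E] [DecidableEq O]
  [DecidableEq J]

/-- Generators: even and odd ones of the dg algebra, `T_j` and `ε_j`. -/
abbrev Gn (E O J : Type) := (E ⊕ J) ⊕ (O ⊕ J)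

/-- Operators. -/
abbrev Op (E O J : Type) := Module.End ℂ (Sp (E ⊕ J) (O ⊕ J))

/-- The variable `T_j`. -/
abbrev tv (j : J) : Gn E O J := .inl (.inr j)

/-- The variable `ε_j`. -/
abbrev ev (j : J) : Gn E O J := .inr (.inr j)

/-- The total differential: `T_j ↦ -T_j² D(f_j)`, a twist `ω` and the Čech differential. -/
noncomputable def Dloc (δ : Gn E O J → Op E O J) (ω : Op E O J)
    (f : J → MvPolynomial (E ⊕ J) ℂ) (J₁ : Finset J) : Op E O J :=
  vf δ - ∑ j, gn (tv j) * gn (tv j) * (vf δ * mul (f j) - mul (f j) * vf δ) * dr (tv j) + ω +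
    ∑ j ∈ J₁, gn (ev j)

/-- Čech monomials: the set of `ε` contains `J₀`, lies in `J₀ ∪ J₁` and is nonempty. -/
def cech (Al : Gn E O J → Prop) (J₀ J₁ : Finset J) (μ : Gn E O J → ℕ) : Prop :=
  (∀ g, μ g ≠ 0 → Al g ∨ (∃ j, g = tv j ∧ μ (ev j) ≠ 0) ∨ ∃ j ∈ J₀ ∪ J₁, g = ev j) ∧
    (∀ j ∈ J₀, μ (ev j) ≠ 0) ∧ ∃ j, μ (ev j) ≠ 0

/-- Čech cochains of weight `γ` and parity `p`. -/
noncomputable def ZZ {Γ : Type} [AddCommGroup Γ] (Al : Gn E O J → Prop) (c : Gn E O J → Γ)
    (J₀ J₁ : Finset J) (γ : Γ) (p : Bool) : Submodule ℂ (Sp (E ⊕ J) (O ⊕ J)) :=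
  mono fun μ => cech Al J₀ J₁ μ ∧ ws c μ = γ ∧ od μ = p

/-- A graded dg algebra on the generators `Al`, a flat twist and homogeneous functions. -/
structure Good {Γ : Type} [AddCommGroup Γ] (Al : Gn E O J → Prop) (c : Gn E O J → Γ)
    (δ : Gn E O J → Op E O J) (ω : Op E O J) (f : J → MvPolynomial (E ⊕ J) ℂ) : Prop where
  alT : ∀ j, ¬ Al (tv j)
  alE : ∀ j, ¬ Al (ev j)
  wtE : ∀ j, c (ev j) = 0
  dz : ∀ g, ¬ Al g → δ g = 0
  dw : ∀ g, δ g ∈ words fun μ => sup Al μ ∧ ws c μ = c g ∧ od μ = !g.isRight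
  ow : ω ∈ words fun μ => sup Al μ ∧ ws c μ = 0 ∧ od μ = true
  sq : vf δ * vf δ = 0
  osq : vf δ * ω + ω * vf δ = 0
  fw : ∀ j, pol (f j) ∈ mono fun μ => sup Al μ ∧ ws c μ = -c (tv j)

/-- Data for the Nullstellensatz: ghosts `gh`, coordinates `E0`, equations `r o`, `o ∈ Θ`. -/
structure Eqs (Al : Gn E O J → Prop) (δ : Gn E O J → Op E O J) (ω : Op E O J)
    (gh E0 Θ : Gn E O J → Prop) (r : Gn E O J → MvPolynomial (E ⊕ J) ℂ) : Prop where
  ghO : ∀ g, gh g → Al g ∧ g.isRight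
  e0E : ∀ g, E0 g → Al g ∧ g.isLeft
  thO : ∀ g, Θ g → Al g ∧ g.isRight ∧ ¬ gh g
  mono_gh : ∀ g, δ g ∈ words fun μ => cnt gh (Pi.single g 1) ≤ cnt gh μ
  e0 : ∀ g, E0 g → δ g ∈ words (has gh)
  om : ω ∈ words (has gh)
  th : ∀ g, Θ g → δ g - mul (r g) ∈ words (has gh)
  rv : ∀ g, (pol (r g) : Sp (E ⊕ J) (O ⊕ J)) ∈ mono (sup E0)

end Loc

end Pool.Agent.MP_8be872_ag.H63
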