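import Pool.Agent.MP_8be872_ag.H63.Sup

/-!
The derived moduli stack of quasimaps of degree `D` from `P^1` to a Nakajima quiver variety that
are nonsingular at infinity, and the cohomology of its symmetrized virtual structure sheaf.

A bundle `𝒱` with `H^1(𝒱(-1)) = 0` is the cokernel of `s_0 - s_∞ α : T ⊗ O(-1) → H ⊗ O`, where
`T = H^0(𝒱(-[0])) ⊆ H = H^0(𝒱) = T ⊕ V` and `α : T → H`.  The complex `RΓ(Hom(𝒱, 𝒱'))` is
`Hom_P(H, H') → Hom(T, H')`, `x ↦ x α - α x`, where `Hom_P` are the maps sending `T` to `T'`.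
The gauge group is the parabolic subgroup `P` of `∏ GL(H_i)` fixing `T`; its Levi factor is
treated by invariants, its unipotent radical `Hom(V, T)` by Chevalley-Eilenberg ghosts.
-/

namespace Pool.Agent.MP_8be872_ag.H63

open Finset H38 H56 MvPolynomial
open scoped Matrix

variable (Q : Quiv) (w v D : Fin Q.n → ℕ)

/-- Basis of `T ⊕ V ⊕ W`. -/
abbrev Nb := Bas Q D ⊕ Bas Q v ⊕ Bas Q w

/-- Matrices of generators: `inl` are even (arrows `x`, `α`, `ζ`), `inr` are odd (`θ`, the ghosts
`c`, `η`). -/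
abbrev Kd := (Arr Q ⊕ Bool) ⊕ (Arr Q ⊕ Bool)

/-- Indices of the even (and of the odd) generators: matrix entries and Čech variables. -/
abbrev Ix (J : Type) := (Arr Q ⊕ Bool) × Nb Q w v D × Nb Q w v D ⊕ J

instance : DecidableEq (Nb Q w v D) := instDecidableEqSum

instance {J : Type} [DecidableEq J] : DecidableEq (Ix Q w v D J) := instDecidableEqSum

/-- The differential: `θ` imposes `x α = α x`, `η` the moment map, `ζ` the relation among them, and
`c` acts by commutators. -/
def Phi {N R : Type} [Fintype N] [Ring R] (Y : Kd Q → Matrix N N R) : Kd Q → Matrix N N R :=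
  let x := fun ε => Y (.inl (.inl ε))
  let α := Y (.inl (.inr true))
  let ζ := Y (.inl (.inr false))
  let θ := fun ε => Y (.inr (.inl ε))
  let c := Y (.inr (.inr true))
  let η := Y (.inr (.inr false))
  fun
  | .inl (.inl ε) => x ε * c - c * x ε
  | .inl (.inr true) => α * c - c * α
  | .inl (.inr false) => η * α - α * η - ∑ o, (x (o, true) * θ (o, false) +
      θ (o, true) * x (o, false) - x (o, false) * θ (o, true) - θ (o, false) * x (o, true)) +
      ζ * c - c * ζ
  | .inr (.inl ε) => x ε * α - α * x ε - c * θ ε - θ ε * c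
  | .inr (.inr true) => -(c * c)
  | .inr (.inr false) => ∑ o, (x (o, true) * x (o, false) - x (o, false) * x (o, true)) -
      c * η - η * c

variable {Q w v D}

/-- The commutator with a matrix unit. -/
def adE {N R : Type} [Fintype N] [DecidableEq N] [Ring R] (Y : Kd Q → Matrix N N R) (a b : N)
    (k : Kd Q) : Matrix N N R :=
  Y k * Matrix.single a b 1 - Matrix.single a b 1 * Y k

/-- `D` is a differential on the subquotient `Z / B`. -/
def IsCplx {M : Type} [AddCommGroup M] [Module ℂ M] (D : Module.End ℂ M)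
    (Z : Bool → Submodule ℂ M) (B : Submodule ℂ M) : Prop :=
  ∀ p, ∀ x ∈ Z p, D x ∈ Z (!p) ∧ (x ∈ B → D x ∈ B) ∧ D (D x) = 0

/-- The vertex of a basis vector. -/
def vx : Nb Q w v D → Fin Q.n := Sum.elim (·.1) (Sum.elim (·.1) (·.1))

/-- The block of a basis vector: `0` for `T`, `1` for `V`, `2` for `W`. -/
def blk : Nb Q w v D → ℕ := Sum.elim (fun _ => 0) (Sum.elim (fun _ => 1) fun _ => 2)

/-- The entries of a representation of the framed double quiver on `H = T ⊕ V` and `W`, and of an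
endomorphism of `H`. -/
def arrow : Arr Q ⊕ Bool → Nb Q w v D → Nb Q w v D → Prop
  | .inl (some e, s), p, q => blk p < 2 ∧ blk q < 2 ∧
      vx p = (if s then Q.hd e else Q.tl e) ∧ vx q = if s then Q.tl e else Q.hd e
  | .inl (none, s), p, q => vx p = vx q ∧ if s then blk p < 2 ∧ blk q = 2 else blk p = 2 ∧ blk q < 2
  | .inr _, p, q => vx p = vx q ∧ blk p < 2 ∧ blk q < 2

/-- The entries that are coordinates: `x`, `η` preserve `T`; `α`, `ζ`, `θ` are defined on `T`; the
ghosts have the entries `R`. -/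
def shape (R : Nb Q w v D → Nb Q w v D → Prop) (k : Kd Q) (p q : Nb Q w v D) : Prop :=
  arrow (k.elim id id) p q ∧ match k with
    | .inl (.inl _) | .inr (.inr false) => blk q = 0 → blk p = 0
    | .inr (.inr true) => R p q
    | _ => blk q = 0

/-- The unipotent radical `Hom(V, T)` of the gauge group. -/
def rad (p q : Nb Q w v D) : Prop := blk p < blk q

variable {J : Type}

/-- The generator in position `(p, q)` of the matrix `k`. -/
def gg (k : Kd Q) (p q : Nb Q w v D) : Ix Q w v D J ⊕ Ix Q w v D J :=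
  k.map (fun τ => .inl (τ, p, q)) fun τ => .inl (τ, p, q)

/-- A function on generators from its values on matrix entries and on the Čech variables. -/
def ofM {A : Type} (M : Kd Q → Nb Q w v D → Nb Q w v D → A) (t e : J → A) :
    Ix Q w v D J ⊕ Ix Q w v D J → A
  | .inl (.inl (τ, p, q)) => M (.inl τ) p q
  | .inl (.inr j) => t j
  | .inr (.inl (τ, p, q)) => M (.inr τ) p q
  | .inr (.inr j) => e j

open Classical in
/-- Keep only the entries that are coordinates. -/
noncomputable def msk {A : Type} [Zero A] (R : Nb Q w v D → Nb Q w v D → Prop)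
    (M : Kd Q → Nb Q w v D → Nb Q w v D → A) (k : Kd Q) : Matrix (Nb Q w v D) (Nb Q w v D) A :=
  fun p q => if shape R k p q then M k p q else 0

/-- Gauge and framing weights of the basis vectors. -/
noncomputable def bw : Nb Q w v D → G :=
  Sum.elim (fun a => xV a.1 (v a.1 + a.2)) (basWt Q w v)

/-- Weights of the generators; the basis vector `p` has weight `x p`, and `f j` has weight `φ j`. -/
noncomputable def wt (x : Nb Q w v D → G) (φ : J → G) : Ix Q w v D J ⊕ Ix Q w v D J → G :=
  ofM (fun k p q => x q - x p - match k with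
    | .inl (.inl ε) => arrWt Q ε
    | .inl (.inr true) => -qq
    | .inl (.inr false) => -hb - qq
    | .inr (.inl ε) => arrWt Q ε - qq
    | .inr (.inr true) => 0
    | .inr (.inr false) => -hb) (fun j => -φ j) 0

/-- `κ` is the character of `K_vir^(1/2) q^(deg P / 2)`. -/
def IsKap (κ : G) : Prop :=
  2 • κ = (∑ k, ∑ p : Nb Q w v D, ∑ q, (k.elim (fun _ => 1) fun _ => -1 : ℤ) •
    msk rad (fun k p q => wt bw (0 : Empty → G) (gg k p q)) k p q) +
      (∑ i, aExp Q w v i * D i) • qq

/-- The matrices at the point with coordinates `y`. -/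
noncomputable def pt (y : Ix Q w v D J → ℂ) : Kd Q → Matrix (Nb Q w v D) (Nb Q w v D) ℂ :=
  msk rad fun k p q => (gg k p q).elim y 0

/-- The classical equations `x α = α x` on `T` and `μ = 0`. -/
def OnQ (y : Ix Q w v D J → ℂ) : Prop := ∀ τ, msk rad (Phi Q (pt y)) (.inr τ) = 0

/-- `𝒱` is a bundle (`α - s` is injective on `T` for all `s`) and `W` generates the fibre
`H / α T` at infinity. -/
def Stab (y : Ix Q w v D J → ℂ) : Prop :=
  (∀ (s : ℂ) (z : Nb Q w v D → ℂ), (∀ p, blk p ≠ 0 → z p = 0) →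
    pt y (.inl (.inr true)) *ᵥ z = s • z → z = 0) ∧
  ∀ S : Submodule ℂ (Nb Q w v D → ℂ), (∀ z, pt y (.inl (.inr true)) *ᵥ z ∈ S) →
    (∀ b, Pi.single (.inr (.inr b)) 1 ∈ S) → (∀ ε, ∀ z ∈ S, pt y (.inl (.inl ε)) *ᵥ z ∈ S) → S = ⊤

variable [Fintype J] [DecidableEq J]

/-- The matrices of generators. -/
noncomputable def Yg (R : Nb Q w v D → Nb Q w v D → Prop) :
    Kd Q → Matrix (Nb Q w v D) (Nb Q w v D) (Module.End ℂ (Sp (Ix Q w v D J) (Ix Q w v D J))) :=
  msk R fun k p q => gn (gg k p q)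

/-- The derivation whose values on the matrices of generators are the matrices `M`. -/
noncomputable def derM (M : Kd Q → Matrix (Nb Q w v D) (Nb Q w v D)
    (Module.End ℂ (Sp (Ix Q w v D J) (Ix Q w v D J)))) :
    Module.End ℂ (Sp (Ix Q w v D J) (Ix Q w v D J)) :=
  vf (ofM (msk rad M) 0 0)

/-- The action of the matrix unit `E_(a,b)` of the gauge Lie algebra. -/
noncomputable def gAct (a b : Nb Q w v D) : Module.End ℂ (Sp (Ix Q w v D J) (Ix Q w v D J)) :=
  derM (adE (Yg rad) a b)

/-- The total differential: dg structure, ghosts and Čech differential. -/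
noncomputable def Dtot : Module.End ℂ (Sp (Ix Q w v D J) (Ix Q w v D J)) :=
  derM (Phi Q (Yg rad)) + ∑ j, gn (.inr (.inr j))

/-- `f j` is a semi-invariant of the gauge group of weight `φ j`, and the sets `f j ≠ 0` cover the
stable locus. -/
def IsAtlas (f : J → MvPolynomial (Ix Q w v D J) ℂ) (φ : J → G) : Prop :=
  (∀ j, f j ≠ 0 ∧ Pi.single ∅ (f j) ∈ mono (fun μ => ∑ g, μ g • wt bw φ g = φ j ∧ ∀ g, μ g ≠ 0 →
      ∃ τ p q, τ ≠ .inr false ∧ shape rad (.inl τ) p q ∧ g = gg (.inl τ) p q) ∧
    ∀ a b, a ≠ b → arrow (.inr true) a b → blk a ≤ blk b → gAct a b (Pi.single ∅ (f j)) = 0) ∧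
  ∀ y, OnQ y → (Stab y ↔ ∃ j, eval y (f j) ≠ 0)

/-- Čech cochains of weight `γ` and parity `p`, invariant under the Levi factor. -/
noncomputable def cochQ (f : J → MvPolynomial (Ix Q w v D J) ℂ) (φ : J → G) (γ : G) (p : Bool) :
    Submodule ℂ (Sp (Ix Q w v D J) (Ix Q w v D J)) :=
  mono (fun μ => (∀ g, μ g ≠ 0 → ofM (shape rad) (fun j => μ (.inr (.inr j)) ≠ 0) ⊤ g) ∧
    (∃ j, μ (.inr (.inr j)) ≠ 0) ∧ ∑ g, μ g • wt bw φ g = γ ∧ (Odd (∑ o, μ (.inr o)) ↔ p)) ⊓
  ⨅ (a) (b) (_ : a ≠ b ∧ arrow (.inr true) a b ∧ blk a = blk b), (rel f).comap (gAct a b)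

/-- The cochains of weight `γ` modulo the relations form a complex. -/
def qmCplx (f : J → MvPolynomial (Ix Q w v D J) ℂ) (φ : J → G) (γ : G) : Prop :=
  IsCplx Dtot (cochQ f φ γ) (rel f)

/-- The dimension of the parity `p` cohomology in weight `γ`. -/
noncomputable def qmDim (f : J → MvPolynomial (Ix Q w v D J) ℂ) (φ : J → G) (γ : G) (p : Bool) :
    Cardinal :=
  hDim Dtot (cochQ f φ γ) (rel f) p

/-- The multiplicity of the weight `g` in `χ(QM^D, O_vir ⊗ κ)`; a Čech `k`-cochain has `k + 1` odd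
Čech variables. -/
noncomputable def qmEul (f : J → MvPolynomial (Ix Q w v D J) ℂ) (φ : J → G) (κ g : G) : ℤ :=
  (qmDim f φ (g - κ) true).toNat - (qmDim f φ (g - κ) false).toNat

end Pool.Agent.MP_8be872_ag.H63
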