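import Pool.Agent.MP_8be872_ag.H63.Defs

/-! The forms of the definitions used in the proofs. -/

namespace Pool.Agent.MP_8be872_ag.H63

open Finset H38 H56 MvPolynomial
open scoped Matrix

variable {Q : Quiv} {w v D : Fin Q.n → ℕ} {J : Type} [Fintype J] [DecidableEq J]

/-- The action of the matrix unit `E_(a,b)` of the gauge Lie algebra. -/
noncomputable def lie (R : Nb Q w v D → Nb Q w v D → Prop) (a b : Nb Q w v D) :
    Module.End ℂ (Sp (Ix Q w v D J) (Ix Q w v D J)) :=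
  vf (ofM (msk R fun k => Yg R k * Matrix.single a b 1 - Matrix.single a b 1 * Yg R k) 0 0)

/-- The total differential: dg structure, ghosts and Čech differential. -/
noncomputable def Dif : Module.End ℂ (Sp (Ix Q w v D J) (Ix Q w v D J)) :=
  vf (ofM (msk rad (Phi Q (Yg rad))) 0 0) + ∑ j, gn (.inr (.inr j))

/-- `f j` is a semi-invariant of the gauge group of weight `φ j`, and the sets `f j ≠ 0` cover the
stable locus. -/
def Cover (f : J → MvPolynomial (Ix Q w v D J) ℂ) (φ : J → G) : Prop :=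
  (∀ j, f j ≠ 0 ∧ Pi.single ∅ (f j) ∈ mono (fun μ => ∑ g, μ g • wt bw φ g = φ j ∧ ∀ g, μ g ≠ 0 →
      ∃ τ p q, τ ≠ .inr false ∧ shape rad (.inl τ) p q ∧ g = gg (.inl τ) p q) ∧
    ∀ a b, a ≠ b → arrow (.inr true) a b → blk a ≤ blk b → lie rad a b (Pi.single ∅ (f j)) = 0) ∧
  ∀ y, OnQ y → (Stab y ↔ ∃ j, eval y (f j) ≠ 0)

/-- Čech cochains of weight `γ` and parity `p`, invariant under the Levi factor. -/
noncomputable def coch (f : J → MvPolynomial (Ix Q w v D J) ℂ) (φ : J → G) (γ : G) (p : Bool) :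
    Submodule ℂ (Sp (Ix Q w v D J) (Ix Q w v D J)) :=
  mono (fun μ => (∀ g, μ g ≠ 0 → ofM (shape rad) (fun j => μ (.inr (.inr j)) ≠ 0) ⊤ g) ∧
    (∃ j, μ (.inr (.inr j)) ≠ 0) ∧ ∑ g, μ g • wt bw φ g = γ ∧ (Odd (∑ o, μ (.inr o)) ↔ p)) ⊓
  ⨅ (a) (b) (_ : a ≠ b ∧ arrow (.inr true) a b ∧ blk a = blk b), (rel f).comap (lie rad a b)

/-- The multiplicity of the weight `g` in `χ(QM^D, O_vir ⊗ κ)`; a Čech `k`-cochain has `k + 1` odd
Čech variables. -/
noncomputable def qmChi (f : J → MvPolynomial (Ix Q w v D J) ℂ) (φ : J → G) (κ g : G) : ℤ :=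
  (hDim Dif (coch f φ (g - κ)) (rel f) true).toNat - (hDim Dif (coch f φ (g - κ)) (rel f) false).toNat

/-- The statement. -/
def QMStmt : Prop :=
  ∀ Q : Quiv, (∀ e, Q.hd e ≠ Q.tl e) → ∀ w v : Fin Q.n → ℕ, InOrbit Q w (fun i => v i) →
    (negRoots Q w v).Finite ∧ ∀ D : Fin Q.n →₀ ℕ, (∃ κ, IsKap (w := w) (v := v) (D := D) κ) ∧
    (∃ (n : ℕ) (f : Fin n → MvPolynomial (Ix Q w v D (Fin n)) ℂ) (φ : Fin n → G), Cover f φ) ∧
    ∀ κ, IsKap (w := w) (v := v) (D := D) κ →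
    ∀ (n : ℕ) (f : Fin n → MvPolynomial (Ix Q w v D (Fin n)) ℂ) (φ : Fin n → G), Cover f φ →
      (∀ γ p, ∀ x ∈ coch f φ γ p, Dif x ∈ coch f φ γ (!p) ∧ (x ∈ rel f → Dif x ∈ rel f) ∧
        Dif (Dif x) = 0) ∧
      (∀ g, free g → ∀ p, hDim Dif (coch f φ (g - κ)) (rel f) p < Cardinal.aleph0) ∧
      (∃ C, ∀ g, free g → C < ofLex g 0 → qmChi f φ κ g = 0) ∧
      ∃ L : List G, (∀ β ∈ L, free β ∧ ofLex β 0 ≠ 0) ∧ ∀ g, free g → ∀ᶠ J in Filter.atTop,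
        (-1 : ℚ) ^ (∑ i, aExp Q w v i * D i) *
            shl L (qmChi f φ κ) (g + (∑ i, aExp Q w v i * D i) • tau) =
          ((L.map fun β => 1 - mon β).prod * MvPowerSeries.coeff D (rhs Q w v J)).coeff g

end Pool.Agent.MP_8be872_ag.H63
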