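import Pool.Agent.MP_8be872_ag.H63.GlueD
import Pool.Agent.MP_8be872_ag.H56.Final
import Pool.Agent.MP_8be872_ag.H59.Orbit
import Pool.Agent.MP_8be872_ag.H50.K0
import Pool.Agent.MP_8be872_ag.H97.K1
import Pool.Agent.MP_8be872_ag.H73.K2
import Pool.Agent.MP_8be872_ag.H70.CC
import Pool.Agent.MP_8be872_ag.H23.Pat
import Pool.Agent.MP_8be872_ag.H28.One
import Pool.Agent.MP_8be872_ag.H80.Elim
import Pool.Agent.MP_8be872_ag.H62.N4
import Pool.Agent.MP_8be872_ag.H87.NegRec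
import Pool.Agent.MP_8be872_ag.H35.PoleA
import Pool.Agent.MP_8be872_ag.H27.Pole
import Pool.Agent.MP_8be872_ag.H70.DSq
import Pool.Agent.MP_8be872_ag.H44.Glob1
import Pool.Agent.MP_8be872_ag.H26.Glob2
import Pool.Agent.MP_8be872_ag.H41.Glob3
import Pool.Agent.MP_8be872_ag.H45.Exa
import Pool.Agent.MP_8be872_ag.H94.AC
import Pool.Agent.MP_8be872_ag.H82.Ren
import Pool.Agent.MP_8be872_ag.H17.Kap
import Pool.Agent.MP_8be872_ag.H71.Obs
import Pool.Agent.MP_8be872_ag.H24.Path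
import Pool.Agent.MP_8be872_ag.H55.Sort
import Pool.Agent.MP_8be872_ag.H9.P1
import Pool.Agent.MP_8be872_ag.H56.Semi
import Pool.Agent.MP_8be872_ag.H89.SlF
import Pool.Agent.MP_8be872_ag.H52.SlW
import Pool.Agent.MP_8be872_ag.H57.SlE
import Pool.Agent.MP_8be872_ag.H62.Sl2
import Pool.Agent.MP_8be872_ag.H49.Sl3
import Pool.Agent.MP_8be872_ag.H50.Cov
import Pool.Agent.MP_8be872_ag.H35.Toep
import Pool.Agent.MP_8be872_ag.H36.LinS
import Pool.Agent.MP_8be872_ag.H83.FxD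
import Pool.Agent.MP_8be872_ag.H37.Fx1
import Pool.Agent.MP_8be872_ag.H88.Fx2
import Pool.Agent.MP_8be872_ag.H68.Char
import Pool.Agent.MP_8be872_ag.H93.SymF
import Pool.Agent.MP_8be872_ag.H51.Res
import Pool.Agent.MP_8be872_ag.H24.NegPt
import Pool.Agent.MP_8be872_ag.H29.NegE
import Pool.Agent.MP_8be872_ag.H34.NegN
import Pool.Agent.MP_8be872_ag.H11.NegAcy
import Pool.Agent.MP_8be872_ag.H7.CellChi
import Pool.Agent.MP_8be872_ag.H23.Num

/-! The theorem. -/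

namespace Pool.Agent.MP_8be872_ag.H63

open H56

theorem fixAll : FixAllStmt := fun _ _ _ _ _ _ hd hF =>
  fixOK H29.ce (H24.loc H29.ce rep frac)
    (H88.van H29.ce rep frac (H24.loc H29.ce rep frac) (H4.cell H29.ce rep)) (H42.kos rep frac)
    (H71.char rep) (H64.cut rep) hd hF

theorem qm : QMStmt :=
  have g1 := H44.glob1 H70.dsq
  have g2 := H26.glob2 H70.dsq
  have g3 := H41.glob3 g1 g2
  have hS := H56.semi g2
  have hF := H89.slF H70.dsq
  have hP := H9.p1 H70.dsq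
  have hL := H36.linS H70.dsq hF
  have geo := geo_of_orbit H59.orbit
  qm_of H70.cc H23.pat g1 g2 g3 (H45.exa H50.k0 g1 g2 g3) (H94.ac (H73.k2 H50.k0 H97.k1) g1 g2 g3)
    (H82.ren H70.dsq) H71.obs hP hS hF H52.slW (H57.sl1 H70.dsq g1 g2 hF H52.slW)
    (H62.sl2 g1 g2 g3 hS) (H49.sl3 g1 g2 hS H52.slW)
    (H7.cellChi H28.one_stmt (H87.negRec H28.one_stmt) H35.poleA H27.pole hF H52.slW
      (H11.negAcy hF H52.slW (H29.negE H80.elim hF H52.slW H35.toep hL)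
        (H34.negN H70.dsq H62.n4 hF H52.slW (H24.negPt H35.toep)))
      H83.fx0 (H37.fx1 H80.elim hF H52.slW H35.toep hL) (H88.Fx.fx2 H70.dsq hF H35.toep))
    fixAll H17.kap H24.path H55.sort (H50.cov g2 H71.obs hP hS) geo
    (H23.num_stmt geo fixAll H68.charId H93.symF H51.resS_stmt)

end Pool.Agent.MP_8be872_ag.H63
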