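import Pool.Agent.MP_8be872_ag.H63.SpecE
import Pool.Agent.MP_8be872_ag.H63.LocA
import Pool.Agent.MP_8be872_ag.H63.Tool

/-! Changing covers and restricting a chart to its slice. -/

namespace Pool.Agent.MP_8be872_ag.H63

open Finset H38 H56 MvPolynomial
open scoped Matrix

section Abs

variable {E O J Γ : Type} [Fintype E] [Fintype O] [Fintype J] [DecidableEq E] [DecidableEq O]
  [DecidableEq J] [AddCommGroup Γ]

theorem swapS (hcc : CCStmt) (hpat : PatStmt) {Al : Gn E O J → Prop} {c : Gn E O J → Γ}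
    {δ : Gn E O J → Op E O J} {ω : Op E O J} {f : J → MvPolynomial (E ⊕ J) ℂ}
    (h : Good Al c δ ω f) {gh E0 Θ : Gn E O J → Prop} {r : Gn E O J → MvPolynomial (E ⊕ J) ℂ}
    (he : Eqs Al δ ω gh E0 Θ r) {J₀ J₁ J₂ : Finset J}
    (hf : ∀ j, (pol (f j) : Sp (E ⊕ J) (O ⊕ J)) ∈ mono (sup E0)) (h1 : Disjoint J₀ J₁)
    (h2 : Disjoint J₂ (J₀ ∪ J₁))
    (hcov : ∀ y : E ⊕ J → ℂ, (∀ j ∈ J₀, eval y (f j) ≠ 0) → ∀ j ∈ J₂, eval y (f j) ≠ 0 →
      ∃ i ∈ J₁, eval y (f i) ≠ 0) (γ : Γ) (n : ℤ) :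
    HasChi (Dloc δ ω f (J₁ ∪ J₂)) (ZZ Al c J₀ (J₁ ∪ J₂) γ) (rel f) n ↔
      HasChi (Dloc δ ω f J₁) (ZZ Al c J₀ J₁ γ) (rel f) n := by
  have a := hcc E O J Γ Al c δ ω f h gh E0 Θ r he J₀ J₁ J₂ (fun j _ => hf j) h1 h2
    (fun y _ _ => hcov y) γ
  have b := (hpat E O J Γ Al c δ ω f h ⊤ ⟨fun _ _ _ => trivial, fun _ _ _ => trivial⟩ γ).1
    J₀ J₁ J₂ h2 (by simpa only [inf_top_eq] using a) n
  simpa only [inf_top_eq] using b

omit [Fintype J] [DecidableEq J] in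
theorem pol_X_mem {P : (E ⊕ O → ℕ) → Prop} {e : E} (h : P (Pi.single (.inl e) 1)) :
    (pol (X e) : Sp E O) ∈ mono P := by
  rw [← mul_one_eq]
  exact gn_mem (P := fun μ => μ = 0) (.inl e) (one_mem rfl) fun μ a => by rwa [a, zero_add]

end Abs

variable {Q : Quiv} {w v D : Fin Q.n → ℕ}

theorem map_minorP {A B : Type} [CommRing A] [CommRing B] (h : A →+* B)
    (lab : Bas Q D → Bas Q v × ℕ) (α : Matrix (Nb Q w v D) (Nb Q w v D) A) :
    h (minorP lab α) = minorP lab (α.map h) := by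
  rw [minorP, minorP, RingHom.map_det]
  congr 1
  ext τ τ'
  exact congrFun (congrFun (map_pow h.mapMatrix α ((lab τ).2 + 1)) _) _

theorem map_colP {N A B : Type} [Fintype N] [CommRing A] [CommRing B] (h : A →+* B)
    (at' : Fin Q.n → N → Prop) (x : Arr Q → Matrix N N A) (y : N → A)
    (l : List (Arr Q × Fin Q.n)) (p : N) :
    h (colP at' x y l p) = colP at' (fun ε => (x ε).map h) (fun p => h (y p)) l p := by
  induction l generalizing p with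
  | nil => rfl
  | cons s l ih =>
    classical
    change h (if at' s.2 p then (x s.1 *ᵥ colP at' x y l) p else 0) = if at' s.2 p then
      ((x s.1).map h *ᵥ colP at' (fun ε => (x ε).map h) (fun p => h (y p)) l) p else 0
    split_ifs
    · simp only [Matrix.mulVec, dotProduct, map_sum, map_mul, ih, Matrix.map_apply]
    · exact map_zero h

theorem map_Fmat {A B : Type} [CommRing A] [CommRing B] (h : A →+* B) (P : Bas Q v → Pth Q w)
    (Y : Kd Q → Matrix (Nb Q w v D) (Nb Q w v D) A) :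
    h (Fmat P Y).det = (Fmat P fun k => (Y k).map h).det := by
  rw [RingHom.map_det]
  congr 1
  ext p q
  rcases q with q | q | q
  · rfl
  · simp only [RingHom.mapMatrix_apply, Matrix.map_apply, Fmat, map_colP]
    congr 1
    funext p
    simp only [Pi.single_apply]
    split_ifs <;> simp
  · change h (if _ then _ else _) = if _ then _ else _
    split_ifs <;> simp

variable {J : Type} [Fintype J] [DecidableEq J]

theorem swapG (hcc : CCStmt) (hpat : PatStmt) (h1 : Glob1Stmt) (h3 : Glob3Stmt) (hexa : ExaStmt)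
    {f : J → MvPolynomial (Ix Q w v D J) ℂ} {φ : J → G} (hs : ∀ j, SemiT (f j) (φ j))
    {J₁ J₂ : Finset J} (hd : Disjoint J₂ J₁)
    (hcov : ∀ y, OnQ y → ∀ j ∈ J₂, eval y (f j) ≠ 0 → ∃ i ∈ J₁, eval y (f i) ≠ 0)
    {γ : G} (hγ : Const w v D 0 γ) (n : ℤ) : ChiC f φ ∅ (J₁ ∪ J₂) γ n ↔ ChiC f φ ∅ J₁ γ n := by
  obtain ⟨hG, hE, hO⟩ := (h1 Q w v D J).1 radF (Or.inr rfl)
  have good := hG φ f fun j => (hs j).1
  have a := hcc _ _ J G _ _ _ _ f good _ _ _ _ hE ∅ J₁ J₂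
    (fun j _ => mono_le (fun _ a => a.1) (hs j).1) (disjoint_empty_left _) (by simpa using hd)
    (fun y _ hy _ => hcov y ((hO y).1 hy)) γ
  exact (hpat _ _ J G _ _ _ _ f good _ ((h3 Q w v D J f φ).2 hs).1 γ).1 ∅ J₁ J₂ (by simpa using hd)
    (hexa Q w v D J f φ hs γ hγ (J₁ ∪ J₂) ∅ (J₁ ∪ J₂) (fun u => ∃ j ∈ J₂, u j ≠ 0) a) n

theorem slice (h1 : Glob1Stmt) (h3 : Glob3Stmt) (hF : SlFStmt) (s1 : Sl1Stmt) (s2 : Sl2Stmt)
    (s3 : Sl3Stmt) {σ d lab Λ} {f f' : J → MvPolynomial (Ix Q w v D J) ℂ} {φ φ' J₀ J₁ γ}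
    (h : SlHyp Q w v D J σ d lab Λ f f' φ φ' J₀ J₁ γ)
    (hj : ∃ j₀ ∈ J₀, ∃ F ψ, SemiT F ψ ∧ f j₀ = F * minorP lab (Ypol ka)) (n : ℤ) :
    ChiC f φ J₀ J₁ γ n ↔ HasChi (Dloc (dS lab) (omS lab fun τ => xi (.inl τ : Nb Q w v D) γ) f' J₁)
      (ZZ (AlS lab) (wt (xs σ d lab) φ') J₀ J₁ (Λ γ)) (rel f') n := by
  have good := ((h1 Q w v D J).1 radF (Or.inr rfl)).1 φ f fun j => (h.semi j).1
  have good' := (hF Q w v D J σ d lab (fun τ => xi (.inl τ : Nb Q w v D) γ) h.isLab h.vert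
    fun τ τ' e => h.const _ _ rfl rfl e).1 φ' f' h.hom
  have inv := ((h3 Q w v D J f φ).2 h.semi).1
  have a := (s1 Q w v D J).1 _ _ _ _ _ _ _ _ _ _ _ h
  have cx := good.isCx (A := J₁) (J₀ := J₀) subset_union_right γ
  have m : ChMap (resO lab) false (Dloc (dG radF) 0 f J₁)
      (fun p => ZZ (AlG radF) (wt bw φ) J₀ J₁ γ p ⊓ InvT f) (rel f)
      (Dloc (dS lab) (omS lab fun τ => xi (.inl τ : Nb Q w v D) γ) f' J₁)
      (ZZ (AlS lab) (wt (xs σ d lab) φ') J₀ J₁ (Λ γ)) (rel f') :=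
    ⟨⟨fun p x hx => ⟨cx.mapZ p x hx.1, inv.dd _ x hx.2⟩, fun p x hx => cx.mapB p x hx.1,
        fun p x hx => cx.sq p x hx.1⟩, good'.isCx subset_union_right _,
      fun p x hx => ⟨_, by simpa using (a p x hx.1).1, by simp⟩,
      fun p x hx => (a p x hx.1).2.1, fun p => ⟨1, one_ne_zero, fun x hx y _ e => by
        have := add_mem ((a p x hx.1).2.2 hx.2) (good'.Dloc_rel J₁ e)
        rwa [map_sub, sub_add_sub_cancel, ← one_smul ℂ (Dloc _ _ _ _ y)] at this⟩⟩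
  exact (m.iso (fun p y hy => s3 Q w v D J _ _ _ _ _ _ _ _ _ _ _ h hj p y (by simpa using hy))
    (s2 Q w v D J _ _ _ _ _ _ _ _ _ _ _ h)).1 n

end Pool.Agent.MP_8be872_ag.H63
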