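import Pool.Agent.MP_8be872_ag.H63.GlueA

/-! The contribution of one chart. -/

namespace Pool.Agent.MP_8be872_ag.H63

open Finset H38 H56 MvPolynomial
open scoped Matrix

variable {Q : Quiv} {w v D : Fin Q.n → ℕ} {J : Type} [Fintype J] [DecidableEq J]

theorem semiT_FP (h2 : Glob2Stmt) (hS : SemiStmt) {P : Bas Q v → Pth Q w} {φ₀ : G}
    (hP : PathOK P φ₀) : ∃ ψ, SemiT (FP (D := D) (J := J) P) ψ ∧
      (∀ d (lab : Bas Q D → Bas Q v × ℕ), IsLab d lab → Sl1Stmt →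
        vf (dS lab) * mul (resS lab (FP (J := J) P)) = mul (resS lab (FP P)) * vf (dS lab)) ∧
      ∀ (σ : Bas Q v ≃ Bas Q v) d (lab : Bas Q D → Bas Q v × ℕ) Λ, IsLab d lab →
        LamOK (w := w) σ d lab Λ → Λ ψ = φ₀ := by
  obtain ⟨ψ, a1, a2, a3, a4⟩ := (hS Q w v D J).1 P φ₀ hP
  refine ⟨ψ, ⟨a1, ?_, ?_⟩, fun d lab hl s1 => (s1 Q w v D J).2 d lab _ ψ hl a1 a2 a3, a4⟩
  · rintro (p | p | p) (q | q | q) hp hq -
    · rw [a2, a2]
    all_goals simp [blk] at hp hq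
  · rintro a b ⟨b1, b2, b3, b4⟩
    rw [(h2 Q w v D J).onPol radF rad a b _ (mono_le (fun _ a => a.1) a1)]
    exact a3 a b b1 ⟨b2, by omega, by omega⟩ (by omega)

open Classical in
theorem eval_minor (hS : SemiStmt) {d} {lab lab' : Bas Q D → Bas Q v × ℕ} (hl : IsLab d lab)
    (y : Ix Q w v D J → ℂ) : eval y (resS lab (minorP lab' (Ypol ka))) =
      minorP lab' (al0 lab + Matrix.of fun p q =>
        if shS lab ka p q then y (.inl (.inr true, p, q)) else 0) := by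
  have a := ((hS Q w v D J).2.1 d lab hl).2.2 ka rfl
  rw [show resS lab (minorP lab' (Ypol ka)) = (resS (J := J) lab).toRingHom (minorP lab' (Ypol ka))
    from rfl, map_minorP, map_minorP]
  congr 1
  refine (congrArg (Matrix.map · (eval y)) a).trans ?_
  ext p q
  change eval y (C (al0 lab p q) + if shS lab ka p q then X (.inl (.inr true, p, q)) else 0) =
    al0 lab p q + if shS lab ka p q then y (.inl (.inr true, p, q)) else 0
  split_ifs <;> simp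

theorem chart (hcc : CCStmt) (hpat : PatStmt) (h1 : Glob1Stmt) (h2 : Glob2Stmt) (h3 : Glob3Stmt)
    (hO : ObsStmt) (hS : SemiStmt) (hF : SlFStmt) (hW : SlWStmt) (s1 : Sl1Stmt) (s2 : Sl2Stmt)
    (s3 : Sl3Stmt) {P : Bas Q v → Pth Q w} {φ₀ : G} (hP : PathOK P φ₀)
    {lab : (Bas Q v → ℕ) → Bas Q D → Bas Q v × ℕ} (hlab : ∀ d ∈ comps Q v D, IsLab d (lab d))
    {f : J → MvPolynomial (Ix Q w v D J) ℂ} {φ : J → G} (hs : ∀ j, SemiT (f j) (φ j))
    (ι : comps Q v D → J) (hι : ∀ d, f (ι d) = FP P * minorP (lab d) (Ypol ka))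
    (ν : Nb Q w v D × Nb Q w v D → J) (hν : Function.Injective ν) (hνι : ∀ d r, ι d ≠ ν r)
    (d : comps Q v D) {σ : Bas Q v ≃ Bas Q v} {Λ : G →+ G} (hσ : ∀ a, (σ a).1 = a.1)
    (hΛ : LamOK (w := w) σ d (lab d) Λ) (hφ : Λ (φ (ι d)) = φ₀) {J₁ : Finset J}
    (j1 : ∀ j ∈ J₁, ∃ d', j = ι d' ∧ d' ≠ d ∧ score d'.1 ≤ score d.1)
    (j2 : ∀ d', score d'.1 < score d.1 → ι d' ∈ J₁) (j3 : ι d ∉ J₁) :
    ∃ (f' : J → MvPolynomial (Ix Q w v D J) ℂ) (φ' : J → G) (A : Finset J) (n : J → Ix Q w v D J),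
      (∀ m : Bas Q D → ℤ, (∀ τ τ', τ.1 = τ'.1 → m τ = m τ') →
        CellHyp Q w v D J σ d (lab d) m P φ₀ f' φ' (ι d)) ∧ ι d ∉ A ∧ Set.InjOn n A ∧
      (∀ j ∈ A, f' j = X (n j)) ∧ (∀ g, isN d (lab d) g ↔ ∃ j ∈ A, g = .inl (n j)) ∧
      ∀ γ, Const w v D 0 γ → ∀ k,
        HasChi (Dloc (dS (lab d)) (omS (lab d) fun τ => xi (.inl τ : Nb Q w v D) γ) f' A)
          (ZZ (AlS (lab d)) (wt (xs σ d (lab d)) φ') {ι d} A (Λ γ)) (rel f') k →
        ChiC f φ {ι d} J₁ γ k := by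
  classical
  have hl := hlab d d.2
  obtain ⟨ψ, p1, p2, -⟩ := semiT_FP (D := D) (J := J) h2 hS hP
  obtain ⟨-, w2, -, -, w5⟩ := hW Q w v D J σ d (lab d) hl hσ
  obtain ⟨n, hn⟩ : ∃ n : J → Ix Q w v D J, ∀ r, n (ν r) = .inl (.inr true, r) :=
    ⟨Function.extend ν (fun r => .inl (.inr true, r)) .inr, hν.extend_apply _ _⟩
  let A : Finset J := univ.filter fun j => ∃ r, isNe d (lab d) r.1 r.2 ∧ j = ν r
  have hA : ∀ {j}, j ∈ A ↔ ∃ r, isNe d (lab d) r.1 r.2 ∧ j = ν r := by simp [A]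
  have hιA : ∀ d', ι d' ∉ A := fun d' h => by
    obtain ⟨r, -, e⟩ := hA.1 h
    exact hνι _ _ e
  let f' : J → MvPolynomial (Ix Q w v D J) ℂ := fun j =>
    if j ∈ A then X (n j) else resS (lab d) (f j)
  let φ' : J → G := fun j =>
    if j ∈ A then wt (xs σ d (lab d)) (0 : J → G) (.inl (n j)) else Λ (φ j)
  have hN : ∀ g, isN d (lab d) g ↔ ∃ j ∈ A, g = .inl (n j) := fun g => by
    constructor
    · rcases g with (⟨k, r⟩ | j) | (⟨k, r⟩ | j)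
      · rintro ⟨e, h⟩
        obtain rfl : k = .inr true := Sum.inl.inj e
        exact ⟨ν r, hA.2 ⟨r, h, rfl⟩, by rw [hn]⟩
      · exact False.elim
      · exact fun h => absurd h.1 (by simp)
      · exact False.elim
    · rintro ⟨j, hj, rfl⟩
      obtain ⟨r, h, rfl⟩ := hA.1 hj
      rw [hn]
      exact ⟨rfl, h⟩
  have hom : ∀ j, HomS σ d (lab d) (f' j) (φ' j) := fun j => by
    simp only [f', φ']
    split_ifs with h
    · refine pol_X_mem ⟨sup_single.2 ⟨w2 _ ((hN _).2 ⟨j, h, rfl⟩), ?_⟩, ws_single _ _⟩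
      obtain ⟨r, -, rfl⟩ := hA.1 h
      rw [hn]
      rfl
    · exact w5 Λ hΛ _ _ (hs j).1
  have fι : ∀ d', f' (ι d') = resS (lab d) (FP P) * resS (lab d) (minorP (lab d') (Ypol ka)) :=
    fun d' => by simp only [f', if_neg (hιA d'), hι, map_mul]
  have fd : f' (ι d) = resS (lab d) (FP P) := by
    rw [fι, ((hS Q w v D J).2.1 d _ hl).2.1, mul_one]
  have hJA : ∀ j ∈ J₁, j ∉ A := fun j hj => by
    obtain ⟨d', rfl, -⟩ := j1 j hj
    exact hιA d'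
  refine ⟨f', φ', A, n, fun m hm => ⟨hl, hσ, hm, hP, hom, fd, by simp only [φ', if_neg (hιA d), hφ],
    fd ▸ p2 d _ hl s1⟩, hιA d, fun j hj j' hj' e => ?_, fun j hj => if_pos hj, hN,
    fun γ hγ k hk => ?_⟩
  · obtain ⟨r, -, rfl⟩ := hA.1 hj
    obtain ⟨r', -, rfl⟩ := hA.1 hj'
    rw [hn, hn] at e
    rw [(Prod.mk.inj (Sum.inl.inj e)).2]
  have H : SlHyp Q w v D J σ d (lab d) Λ f f' φ φ' {ι d} J₁ γ :=
    ⟨hl, hσ, hΛ, hs, hom, fun j hj => by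
      have : j ∉ A := (mem_union.1 hj).elim (fun e => mem_singleton.1 e ▸ hιA d) (hJA j)
      simp only [f', φ', if_neg this, and_self], hγ⟩
  rw [slice h1 h3 hF s1 s2 s3 H ⟨ι d, mem_singleton_self _, _, ψ, p1, hι d⟩]
  obtain ⟨g1, g2, -⟩ := hF Q w v D J σ d (lab d) (fun τ => xi (.inl τ : Nb Q w v D) γ) hl hσ
    fun τ τ' e => hγ _ _ rfl rfl e
  have e0 : ∀ j, (pol (f' j) : Sp (Ix Q w v D J) (Ix Q w v D J)) ∈ mono (sup (E0S (lab d))) :=
    fun j => mono_le (fun _ a => a.1) (hom j)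
  have ob := fun y : Ix Q w v D J → ℂ => ((hO Q w v D).2 lab hlab).2 d d.2
    (Matrix.of fun p q => if shS (lab d) ka p q then y (.inl (.inr true, p, q)) else 0)
    fun p q h => if_neg h
  have ev : ∀ (y : Ix Q w v D J → ℂ) r, isNe d (lab d) r.1 r.2 → eval y (f' (ν r)) =
      if shS (lab d) ka r.1 r.2 then y (.inl (.inr true, r.1, r.2)) else 0 := fun y r h => by
    have : shS (lab d) ka r.1 r.2 := w2 (.inl (.inl (.inr true, r))) ⟨rfl, h⟩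
    simp only [f', if_pos (hA.2 ⟨r, h, rfl⟩), hn, eval_X, if_pos this]
  rw [← swapS hcc hpat (g1 φ' f' hom) g2 e0 (J₂ := A) (disjoint_singleton_left.2 j3)
    (disjoint_union_right.2 ⟨disjoint_singleton_right.2 (hιA d), disjoint_right.2 hJA⟩)
    (fun y hy j hj e => ?_), union_comm,
    swapS hcc hpat (g1 φ' f' hom) g2 e0 (J₂ := J₁) (disjoint_singleton_left.2 (hιA d))
    (disjoint_union_right.2 ⟨disjoint_singleton_right.2 j3, disjoint_left.2 hJA⟩)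
    (fun y hy j hj e => ?_)]
  · exact hk
  · obtain ⟨d', rfl, b1, b2⟩ := j1 j hj
    rw [fι, map_mul, eval_minor hS hl] at e
    obtain ⟨p, q, b3, b4⟩ := (ob y).1 ⟨d', d'.2, fun h => b1 (Subtype.ext h), b2,
      right_ne_zero_of_mul e⟩
    exact ⟨ν (p, q), hA.2 ⟨_, b3, rfl⟩, by rwa [ev y (p, q) b3]⟩
  · obtain ⟨r, h, rfl⟩ := hA.1 hj
    rw [ev y r h] at e
    obtain ⟨d', b1, b2, b3⟩ := (ob y).2 ⟨r.1, r.2, h, e⟩
    refine ⟨ι ⟨d', b1⟩, j2 _ b2, ?_⟩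
    rw [fι, map_mul, eval_minor hS hl]
    exact mul_ne_zero (fd ▸ hy _ (mem_singleton_self _)) b3

end Pool.Agent.MP_8be872_ag.H63
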