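import Pool.Agent.MP_8be872_ag.H63.GlueB

/-! The sum over the charts. -/

namespace Pool.Agent.MP_8be872_ag.H63

open Finset H38 H56 MvPolynomial
open scoped Matrix

variable {Q : Quiv} {w v : Fin Q.n → ℕ} {D : Fin Q.n →₀ ℕ}

theorem shl_unique (hW : SlWStmt) {σ : Bas Q v ≃ Bas Q v} {d} {lab : Bas Q D → Bas Q v × ℕ}
    (hl : IsLab d lab) (hσ : ∀ a, (σ a).1 = a.1) {E E' : G → ℤ} {C C' : ℤ}
    (h : shl (movL w σ d lab false) E = shl (movL w σ d lab false) E')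
    (hE : ∀ γ, C < co 0 γ → E γ = 0) (hE' : ∀ γ, C' < co 0 γ → E' γ = 0) : E = E' := by
  classical
  have a := shl_add (movL w σ d lab false) (E - E') E'
  rw [sub_add_cancel, h, right_eq_add] at a
  refine sub_eq_zero.1 (shl_inj (co 0) _ (fun β hβ => ?_) _ (max C C') (fun γ hγ => ?_) a)
  · obtain ⟨g, hg, rfl⟩ := List.mem_map.1 hβ
    have := (mem_filter.1 (mem_toList.1 hg)).2.1
    rw [(hW Q w v D Empty σ d lab hl hσ).1 0 g this.1]
    exact this.2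
  · rw [Pi.sub_apply, hE γ (lt_of_le_of_lt (le_max_left _ _) hγ),
      hE' γ (lt_of_le_of_lt (le_max_right _ _) hγ), sub_zero]

theorem stab_iff (h1 : Glob1Stmt) (hO : ObsStmt) (hP1 : P1Stmt) {J : Type} [Fintype J]
    [DecidableEq J] {P : Bas Q v → Pth Q w} {φ₀ : G} (hP : PathOK P φ₀)
    {lab : (Bas Q v → ℕ) → Bas Q D → Bas Q v × ℕ} (hlab : ∀ d ∈ comps Q v D, IsLab d (lab d))
    {y : Ix Q w v D J → ℂ} (hy : OnQ y) : Stab y ↔
      ∃ d ∈ comps Q v D, eval y (FP P * minorP (lab d) (Ypol ka)) ≠ 0 := by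
  have a := (h1 Q w v D J).2 y
  rw [hP1 Q w v D J P φ₀ hP y hy, 
    ((hO Q w v D).2 lab hlab).1 (pt y ka) fun p q h => if_neg h]
  simp only [map_mul, FP, map_minorP, map_Fmat, a, mul_ne_zero_iff]
  exact ⟨fun ⟨⟨d, b, c⟩, e⟩ => ⟨d, b, e, c⟩, fun ⟨d, b, e, c⟩ => ⟨⟨d, b, c⟩, e⟩⟩

theorem glue (hcc : CCStmt) (hpat : PatStmt) (h1 : Glob1Stmt) (h2 : Glob2Stmt) (h3 : Glob3Stmt)
    (hexa : ExaStmt) (hac : ACStmt) (hren : RenStmt) (hO : ObsStmt) (hP1 : P1Stmt) (hS : SemiStmt)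
    (hF : SlFStmt) (hW : SlWStmt) (s1 : Sl1Stmt) (s2 : Sl2Stmt) (s3 : Sl3Stmt)
    (hcell : CellChiStmt) (hfix : FixAllStmt) {P : Bas Q v → Pth Q w} {φ₀ : G} (hP : PathOK P φ₀)
    {lab : (Bas Q v → ℕ) → Bas Q D → Bas Q v × ℕ} {σ : (Bas Q v → ℕ) → Bas Q v ≃ Bas Q v}
    {e : (Bas Q v → ℕ) → Fin Q.n → ℕ → ℕ} {Λ : (Bas Q v → ℕ) → G →+ G}
    (h : ∀ d ∈ comps Q v D, IsLab d (lab d) ∧ IsSort D d (σ d) (e d) ∧
      LamOK (w := w) (σ d) d (lab d) (Λ d))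
    {J : Type} [Fintype J] [DecidableEq J] {f : J → MvPolynomial (Ix Q w v D J) ℂ} {φ : J → G}
    (hc : Cover f φ) : ∃ (E : (Bas Q v → ℕ) → G → ℤ) (C : (Bas Q v → ℕ) → ℤ),
      (∀ d ∈ comps Q v D, shl (movL w (σ d) d (lab d) false) (E d) =
        shl (movL w (σ d) d (lab d) true) (chi Q w v (fun i a => e d i a) (emb (Fold P)) φ₀) ∧
        ∀ γ, C d < co 0 γ → E d γ = 0) ∧
      ∀ γ, Const w v D 0 γ → Const w v D 1 γ →
        HasChi Dif (coch f φ γ) (rel f) (∑ d ∈ comps Q v D, -E d (Λ d γ)) := by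
  classical
  have hlab : ∀ d ∈ comps Q v D, IsLab d (lab d) := fun d hd => (h d hd).1
  let J' := J ⊕ comps Q v D ⊕ Nb Q w v D × Nb Q w v D
  let ι₀ : J ↪ J' := Function.Embedding.inl
  let ι : comps Q v D ↪ J' := Function.Embedding.inl.trans Function.Embedding.inr
  obtain ⟨ψ, p1, -, p3⟩ := semiT_FP (D := D) (J := J') h2 hS hP
  choose ψ' q1 q2 using fun d : comps Q v D => ((hS Q w v D J').2.1 d _ (hlab d d.2)).1
  let f' : J' → MvPolynomial (Ix Q w v D J') ℂ := Sum.elim (fun j => rename (Sum.map id ι₀) (f j))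
    (Sum.elim (fun d => FP P * minorP (lab d) (Ypol ka)) fun _ => 1)
  let φ' : J' → G := Sum.elim φ (Sum.elim (fun d => ψ + ψ' d) fun _ => 0)
  have hs := fun j => (((h3 Q w v D J f φ).1 hc).1 j).1
  obtain ⟨r1, r2, r3⟩ := hren Q w v D J J' ι₀ f φ f' φ' hs fun j => ⟨rfl, rfl⟩
  have hs' : ∀ j, SemiT (f' j) (φ' j) := by
    rintro (j | d | r)
    exacts [r1 j, ((hS Q w v D J').2.2 _ _ _ _ p1 (q1 d)).1, ((hS Q w v D J').2.2 _ _ _ _ p1 p1).2]
  let M := Fintype.card (comps Q v D)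
  let rk₀ : comps Q v D → ℕ := fun d => score d.1 * M + Fintype.equivFin _ d
  let rk : J' → ℕ := Sum.elim 0 (Sum.elim rk₀ 0)
  have k1 : ∀ d d' : comps Q v D, score d'.1 < score d.1 → rk₀ d' < rk₀ d := fun d d' a => by
    have := (Fintype.equivFin _ d').2
    have := Nat.mul_le_mul_right M (Nat.succ_le_of_lt a)
    simp only [rk₀, Nat.succ_mul, M] at *
    omega
  have k2 : Function.Injective rk₀ := fun d d' a => by
    have b : score d.1 = score d'.1 :=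
      le_antisymm (not_lt.1 fun c => (k1 _ _ c).ne' a) (not_lt.1 fun c => (k1 _ _ c).ne a)
    simp only [rk₀, b, add_right_inj] at a
    exact (Fintype.equivFin _).injective (Fin.ext a)
  have key : ∀ d : comps Q v D, ∃ (E : G → ℤ) (C : ℤ), (shl (movL w (σ d) d (lab d) false) E =
      shl (movL w (σ d) d (lab d) true) (chi Q w v (fun i a => e d i a) (emb (Fold P)) φ₀) ∧
      ∀ γ, C < co 0 γ → E γ = 0) ∧ ∀ γ, Const w v D 0 γ →
        ChiC f' φ' {ι d} ((univ.map ι).filter fun i => rk i < rk (ι d)) γ (-E (Λ d γ)) := by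
    intro d
    obtain ⟨a1, a2, a3⟩ := h d d.2
    obtain ⟨g, χ, A, n, b1, b2, b3, b4, b5, b6⟩ := chart hcc hpat h1 h2 h3 hO hS hF hW s1 s2 s3 hP
      hlab hs' ι (fun _ => rfl) (fun r => .inr (.inr r))
      (Sum.inr_injective.comp Sum.inr_injective) (fun _ _ => by simp [ι, J']) d a2.vert a3
      (by
        change Λ d (ψ + ψ' d) = φ₀
        rw [map_add, p3 _ _ _ _ a1 a3, q2 d _ _ a3, add_zero])
      (J₁ := (univ.map ι).filter fun i => rk i < rk (ι d))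
      (fun j hj => by
        obtain ⟨c1, c2⟩ := mem_filter.1 hj
        obtain ⟨d', -, rfl⟩ := mem_map.1 c1
        exact ⟨d', rfl, fun e => lt_irrefl _ (e ▸ c2), not_lt.1 fun e => (k1 _ _ e).not_gt c2⟩)
      (fun d' a => mem_filter.2 ⟨mem_map_of_mem _ (mem_univ _), k1 _ _ a⟩) (by simp)
    have fx := hfix Q w v _ _ _ (incr_of_mem a2.mem) hP.2.2
    obtain ⟨E, C, -, c2, c3⟩ := hcell Q w v D J' _ _ _ 0 P φ₀ g χ _ _ A n (b1 0 fun _ _ _ => rfl)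
      a2 b2 b3 b4 b5 fx
    refine ⟨E, C, ⟨c2, c3⟩, fun γ hγ => b6 γ hγ _ ?_⟩
    obtain ⟨E', C', c4, c5, c6⟩ := hcell Q w v D J' _ _ _ _ P φ₀ g χ _ _ A n
      (b1 (fun τ => xi (.inl τ : Nb Q w v D) γ) fun τ τ' e => hγ _ _ rfl rfl e) a2 b2 b3 b4 b5 fx
    rw [shl_unique hW a1 a2.vert (c2.trans c5.symm) c3 c6]
    exact c4 _
  choose E C k3 k4 using key
  refine ⟨fun d => if hd : d ∈ comps Q v D then E ⟨d, hd⟩ else 0,
    fun d => if hd : d ∈ comps Q v D then C ⟨d, hd⟩ else 0,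
    fun d hd => by simpa only [dif_pos hd] using k3 ⟨d, hd⟩, fun γ g0 g1 => ?_⟩
  refine hac Q w v D J f φ hc γ g1 _ (r2 hs' γ _ ?_)
  have st : ∀ y : Ix Q w v D J' → ℂ, OnQ y →
      ((∃ j ∈ univ.map ι₀, eval y (f' j) ≠ 0) ↔ ∃ j ∈ univ.map ι, eval y (f' j) ≠ 0) := by
    intro y hy
    have a := (hc.2 _ ((r3 y).1.1 hy)).symm.trans ((r3 y).2.symm.trans (stab_iff h1 hO hP1 hP hlab hy))
    simp only [mem_map, mem_univ, true_and, exists_exists_eq_and]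
    refine (exists_congr fun j => ?_).trans (a.trans ⟨fun ⟨d, b, c⟩ => ⟨⟨d, b⟩, c⟩,
      fun ⟨d, c⟩ => ⟨d, d.2, c⟩⟩)
    rw [← eval_rename]
    rfl
  have dj : Disjoint (univ.map ι) (univ.map ι₀) := disjoint_left.2 fun j a b => by
    obtain ⟨d, -, rfl⟩ := mem_map.1 a
    simp [ι, ι₀, J'] at b
  rw [← swapG hcc hpat h1 h3 hexa hs' dj (fun y hy j hj e => (st y hy).2 ⟨j, hj, e⟩) g0, union_comm,
    swapG hcc hpat h1 h3 hexa hs' dj.symm (fun y hy j hj e => (st y hy).1 ⟨j, hj, e⟩) g0]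
  have := (hpat _ _ J' G _ _ _ _ f' (((h1 Q w v D J').1 radF (Or.inr rfl)).1 φ' f'
    fun j => (hs' j).1) _ ((h3 Q w v D J' f' φ').2 hs').1 γ).2 (univ.map ι) rk
    (Sum.elim 0 (Sum.elim (fun d => -E d (Λ d γ)) 0))
    (fun j hj j' hj' a => by
      obtain ⟨d, -, rfl⟩ := mem_map.1 hj
      obtain ⟨d', -, rfl⟩ := mem_map.1 hj'
      exact congrArg ι (k2 a))
    fun j hj => by
      obtain ⟨d, -, rfl⟩ := mem_map.1 hj
      exact k4 d γ g0
  rw [sum_map] at this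
  rw [← sum_coe_sort]
  simp only [dif_pos (Subtype.prop _)]
  exact this

end Pool.Agent.MP_8be872_ag.H63
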