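import Pool.Agent.MP_8be872_ag.H63.GlueC

/-! The theorem from the modules. -/

namespace Pool.Agent.MP_8be872_ag.H63

open Finset H38 H56 MvPolynomial

theorem xi_of_free {Q : Quiv} {w v D : Fin Q.n → ℕ} (p : Nb Q w v D) {g : G} (h : free g) :
    xi p g = 0 := by
  rcases p with p | p | p
  exacts [h _ _, h _ _, rfl]

theorem not_stab {Q : Quiv} {w v D : Fin Q.n → ℕ} {J : Type} [IsEmpty (Bas Q v)]
    [Nonempty (Bas Q D)] (y : Ix Q w v D J → ℂ) : ¬ Stab y := fun h => by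
  obtain ⟨s, hs⟩ := Module.End.exists_eigenvalue
    (Matrix.toLin' ((pt y ka).submatrix Sum.inl Sum.inl))
  obtain ⟨z, h1, h2⟩ := hs.exists_hasEigenvector
  have h3 := Module.End.mem_eigenspace_iff.1 h1
  refine h2 (funext fun a => congrFun (h.1 s (Sum.elim z 0) ?_ (funext fun p => ?_)) (.inl a))
  · rintro (p | p) hp
    exacts [absurd rfl hp, rfl]
  · rcases p with p | p | p
    · simpa [Matrix.mulVec, dotProduct] using congrFun h3 p
    · exact isEmptyElim p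
    · have : ∀ q, pt y ka (.inr (.inr p)) q = 0 := fun q => if_neg fun h => by
        simpa [blk] using h.1.2.1
      simp [Matrix.mulVec, dotProduct, this]

theorem qm_of (hcc : CCStmt) (hpat : PatStmt) (h1 : Glob1Stmt) (h2 : Glob2Stmt) (h3 : Glob3Stmt)
    (hexa : ExaStmt) (hac : ACStmt) (hren : RenStmt) (hO : ObsStmt) (hP1 : P1Stmt) (hS : SemiStmt)
    (hF : SlFStmt) (hW : SlWStmt) (s1 : Sl1Stmt) (s2 : Sl2Stmt) (s3 : Sl3Stmt)
    (hcell : CellChiStmt) (hfix : FixAllStmt) (hkap : KapStmt) (hpath : PathStmt)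
    (hsort : SortStmt) (hcov : CovStmt) (hgeo : GeoStmt) (hnum : NumStmt) : QMStmt := by
  classical
  intro Q hQ w v hv
  obtain ⟨P, φ₀, hP⟩ := hpath Q hQ w v hv
  refine ⟨(hgeo Q hQ w v hv).2.2.2.1, fun D => ⟨(hkap Q w v D).1, hcov Q w v D P φ₀ hP,
    fun κ hκ n f φ hc => ⟨((h3 Q w v D _ f φ).1 hc).2.2.2.2, ?_⟩⟩⟩
  have k0 : ∀ g, free g → Const w v D 0 (g - κ) ∧ Const w v D 1 (g - κ) := fun g hg => by
    obtain ⟨a, b⟩ := (hkap Q w v D).2 κ hκ
    refine ⟨fun p q c d e => ?_, fun p q c d e => ?_⟩ <;>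
      rw [map_sub, map_sub, xi_of_free p hg, xi_of_free q hg]
    exacts [by rw [a p q c d e], by rw [b p q c d e]]
  by_cases hne : Nonempty (Bas Q D → Bas Q v × ℕ)
  · have ex : ∀ d : Bas Q v → ℕ, ∃ (lab : Bas Q D → Bas Q v × ℕ) (σ : Bas Q v ≃ Bas Q v)
        (e : Fin Q.n → ℕ → ℕ) (Λ : G →+ G), d ∈ comps Q v D → IsLab d lab ∧ IsSort D d σ e ∧
          LamOK (w := w) σ d lab Λ := fun d => by
      by_cases hd : d ∈ comps Q v D
      · obtain ⟨lab, a⟩ := (hO Q w v D).1 d hd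
        obtain ⟨⟨σ, e, b⟩, c⟩ := hsort Q w v D d hd
        obtain ⟨Λ, c⟩ := c σ lab
        exact ⟨lab, σ, e, Λ, fun _ => ⟨a, b, c⟩⟩
      · exact ⟨hne.some, Equiv.refl _, 0, 0, fun h => absurd h hd⟩
    choose lab σ e Λ h using ex
    obtain ⟨E, C, a1, a2⟩ := glue hcc hpat h1 h2 h3 hexa hac hren hO hP1 hS hF hW s1 s2 s3 hcell
      hfix hP h hc
    have a3 := fun g hg => a2 (g - κ) (k0 g hg).1 (k0 g hg).2
    refine ⟨fun g hg => (a3 g hg).1, hnum Q hQ w v hv D P φ₀ hP lab σ e Λ κ E C hκ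
      (fun d hd => ⟨(h d hd).1, (h d hd).2.1, (h d hd).2.2, a1 d hd⟩) _ fun g hg => ?_⟩
    have := (a3 g hg).2
    rw [sum_neg_distrib] at this
    rw [qmChi, ← neg_sub, this, neg_neg]
  · have e1 : IsEmpty (Bas Q v) := not_nonempty_iff.1 fun ⟨a⟩ => hne ⟨fun _ => (a, 0)⟩
    have e2 : Nonempty (Bas Q D) := not_isEmpty_iff.1 fun _ => hne ⟨isEmptyElim⟩
    have hs := fun j => (((h3 Q w v D _ f φ).1 hc).1 j).1
    have a3 : ∀ g, free g → HasChi Dif (coch f φ (g - κ)) (rel f) 0 := fun g hg => by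
      refine hac Q w v D _ f φ hc _ (k0 g hg).2 _ ?_
      rw [← empty_union univ, swapG hcc hpat h1 h3 hexa hs (disjoint_empty_right _)
        (fun y hy j _ e => absurd ((hc.2 y hy).2 ⟨j, e⟩) (not_stab y)) (k0 g hg).1]
      exact (hpat _ _ _ G _ _ _ _ f (((h1 Q w v D _).1 radF (Or.inr rfl)).1 φ f
        fun j => (hs j).1) _ ((h3 Q w v D _ f φ).2 hs).1 _).2 ∅ 0 0 (by simp) (by simp)
    have a4 : ∀ g, free g → qmChi f φ κ g = 0 := fun g hg => by
      rw [qmChi, ← neg_sub, (a3 g hg).2, neg_zero]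
    refine ⟨fun g hg => (a3 g hg).1, ⟨0, fun g hg _ => a4 g hg⟩, [], by simp, fun g hg => ?_⟩
    have ht : types Q v D = ∅ := by
      obtain ⟨i, a⟩ := e2
      have hv : v i = 0 := Nat.eq_zero_of_not_pos fun h => e1.false ⟨i, ⟨0, h⟩⟩
      rw [types, Fintype.piFinset_eq_empty.2 ⟨i, by
        rw [hv, range_zero, piAntidiag_empty_of_ne_zero (Nat.ne_zero_of_lt a.2)]⟩, filter_empty]
    refine (((hgeo Q hQ w v hv).2.2.2.2 _ _ hP.2.2 D).2 g hg).mono fun J hJ => ?_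
    rw [shl_nil, a4 _ (Sall.add_mem hg (Sall.zsmul_mem (fun j a => co_ix_tau _ _) _)),
      List.map_nil, List.prod_nil, one_mul, ← hJ, vertexCoeff, ht, sum_empty, Int.cast_zero]

end Pool.Agent.MP_8be872_ag.H63
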