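import Pool.Agent.MP_8be872_ag.H63.ApiC

/-! The Čech relations. -/

namespace Pool.Agent.MP_8be872_ag.H63

open Finset H38 H56 MvPolynomial

variable {E O J : Type} [Fintype E] [Fintype O] [Fintype J] [DecidableEq E] [DecidableEq O]
  [DecidableEq J] {f f' : J → MvPolynomial (E ⊕ J) ℂ} {P : (Gn E O J → ℕ) → Prop}
  {x : Sp (E ⊕ J) (O ⊕ J)}

/-- No variable `T_j` occurs. -/
def tfree (μ : Gn E O J → ℕ) : Prop := ∀ j, μ (tv j) = 0

/-- Only the `ε_j`, `j ∈ A`, occur. -/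
def pat (A : Finset J) (μ : Gn E O J → ℕ) : Prop := ∀ j, μ (ev j) ≠ 0 → j ∈ A

theorem mem_rel : x ∈ rel f ↔
    ∀ S, x S ∈ Ideal.span {y | ∃ j, .inr j ∈ S ∧ y = f j * X (.inr j) - 1} :=
  ⟨fun h S => h S trivial, fun h S _ => h S⟩

theorem lb_ex {S : Finset (O ⊕ J)} {m : E ⊕ J →₀ ℕ} {j : J} :
    ex S m (ev j) ≠ 0 ↔ .inr j ∈ S := by simp [ex]

theorem lb_ev {j : J} : x ∈ (mono fun μ => μ (ev j) ≠ 0) ↔ ∀ S, .inr j ∉ S → x S = 0 :=
  ⟨fun h S hS => MvPolynomial.ext _ _ fun m => of_not_not fun hm =>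
    hS (lb_ex.1 (mem_mono.1 h S m hm)), fun h => mem_mono.2 fun S m hm =>
      lb_ex.2 (of_not_not fun hS => hm (by rw [h S hS, coeff_zero]))⟩

theorem lb_pat {A : Finset J} (h : x ∈ mono (pat A)) (S : Finset (O ⊕ J)) :
    x S = 0 ∨ ∀ j, .inr j ∈ S → j ∈ A :=
  or_iff_not_imp_left.2 fun h0 j hj => by
    obtain ⟨m, hm⟩ := exists_coeff_ne_zero h0
    exact mem_mono.1 h S m hm j (lb_ex.2 hj)

theorem lb_univ (x : Sp (E ⊕ J) (O ⊕ J)) : x ∈ mono (pat univ) :=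
  mem_mono.2 fun _ _ _ j _ => mem_univ j

theorem lb_mul_ev {j : J} (p : MvPolynomial (E ⊕ J) ℂ) (h : x ∈ mono fun μ => μ (ev j) ≠ 0) :
    mul p x ∈ mono fun μ => μ (ev j) ≠ 0 :=
  lb_ev.2 fun S hS => by rw [mul_apply', lb_ev.1 h S hS, mul_zero]

theorem lb_comm (p q : MvPolynomial (E ⊕ J) ℂ) (x : Sp (E ⊕ J) (O ⊕ J)) :
    mul p (mul q x) = mul q (mul p x) := funext fun S => mul_left_comm p q (x S)

theorem lb_mul_rel (p : MvPolynomial (E ⊕ J) ℂ) (hx : x ∈ rel f) : mul p x ∈ rel f :=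
  mem_rel.2 fun S => Ideal.mul_mem_left _ _ (mem_rel.1 hx S)

theorem rel_gen (j : J) (hx : x ∈ mono fun μ => μ (ev j) ≠ 0) :
    mul (f j * X (.inr j) - 1) x ∈ rel f :=
  mem_rel.2 fun S => by
    rw [mul_apply']
    by_cases h : Sum.inr j ∈ S
    · exact Ideal.mul_mem_right _ _ (Ideal.subset_span ⟨j, h, rfl⟩)
    · rw [lb_ev.1 hx S h, mul_zero]
      exact zero_mem _

/-- The relations with index in `B`. -/
noncomputable def lbR (f : J → MvPolynomial (E ⊕ J) ℂ) (B : Finset J) :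
    Submodule ℂ (Sp (E ⊕ J) (O ⊕ J)) :=
  ⨆ j ∈ B, (mono fun μ => μ (ev j) ≠ 0).map (mul (f j * X (.inr j) - 1))

theorem lb_le {B : Finset J} {C : Submodule ℂ (Sp (E ⊕ J) (O ⊕ J))}
    (h : ∀ j ∈ B, ∀ u ∈ mono fun μ => μ (ev j) ≠ 0, mul (f j * X (.inr j) - 1) u ∈ C) :
    lbR f B ≤ C := iSup₂_le fun j hj => Submodule.map_le_iff_le_comap.2 (h j hj)

theorem lb_gen {B : Finset J} {j : J} (hj : j ∈ B) (hx : x ∈ mono fun μ => μ (ev j) ≠ 0) :
    mul (f j * X (.inr j) - 1) x ∈ lbR f B :=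
  Submodule.mem_iSup_of_mem j (Submodule.mem_iSup_of_mem hj (Submodule.mem_map_of_mem hx))

theorem lb_mul {B : Finset J} (p : MvPolynomial (E ⊕ J) ℂ) (hx : x ∈ lbR f B) :
    mul p x ∈ lbR f B :=
  lb_le (C := (lbR f B).comap (mul p)) (fun j hj u hu => by
    rw [Submodule.mem_comap, lb_comm]
    exact lb_gen hj (lb_mul_ev p hu)) hx

theorem lb_mem {A : Finset J} (hA : x ∈ mono (pat A)) (hx : x ∈ rel f) : x ∈ lbR f A := by
  rw [← univ_sum_single x]
  refine sum_mem fun S _ => ?_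
  rcases lb_pat hA S with h | h
  · rw [h, Pi.single_zero]
    exact zero_mem _
  have e : ∀ p q : MvPolynomial (E ⊕ J) ℂ,
      (Pi.single S (p * q) : Sp (E ⊕ J) (O ⊕ J)) = mul p (Pi.single S q) := fun p q =>
    funext fun S' => by
      rw [mul_apply', Pi.single_apply, Pi.single_apply, mul_ite, mul_zero]
  refine Submodule.span_induction
    (p := fun y _ => (Pi.single S y : Sp (E ⊕ J) (O ⊕ J)) ∈ lbR f A) ?_ ?_ ?_ ?_ (mem_rel.1 hx S)
  · rintro _ ⟨j, hj, rfl⟩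
    have e1 := e (f j * X (.inr j) - 1) 1
    rw [mul_one] at e1
    rw [e1]
    exact lb_gen (h j hj) (single_mem.2 fun m _ => lb_ex.2 hj)
  · rw [Pi.single_zero]
    exact zero_mem _
  · intro y z _ _ hy hz
    rw [Pi.single_add]
    exact add_mem hy hz
  · intro p y _ hy
    rw [smul_eq_mul, e]
    exact lb_mul p hy

theorem rel_eq : (rel f : Submodule ℂ (Sp (E ⊕ J) (O ⊕ J))) =
    ⨆ j, LinearMap.range (mul (f j * X (.inr j) - 1) * gn (ev j) : Op E O J) := by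
  refine le_antisymm (fun x hx => lb_le (fun j _ u hu => ?_) (lb_mem (lb_univ x) hx))
    (iSup_le fun j => ?_)
  · refine Submodule.mem_iSup_of_mem j ⟨contr (.inr j) u, ?_⟩
    have h0 : wedge (.inr j) u = 0 := funext fun S => by
      rw [H29.wedge_apply, lb_ev.1 hu _ (notMem_erase _ S), smul_zero, ite_self]
      rfl
    have h1 := H29.contr_wedge_apply (.inr j) (.inr j) u
    rw [h0, map_zero, if_pos rfl, eq_comm, sub_eq_zero] at h1
    rw [Module.End.mul_apply, gn, ← h1]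
  · rintro _ ⟨u, rfl⟩
    exact rel_gen j (gn_mem (ev j) (apiC_top u) fun μ _ => by simp)

theorem lb_span {S S' : Finset (O ⊕ J)} (h : ∀ j, .inr j ∈ S → .inr j ∈ S') (hx : x ∈ rel f) :
    x S ∈ Ideal.span {y | ∃ j, .inr j ∈ S' ∧ y = f j * X (.inr j) - 1} := by
  refine Ideal.span_mono ?_ (mem_rel.1 hx S)
  rintro y ⟨j, hj, e⟩
  exact ⟨j, h j hj, e⟩

theorem lb_gn_rel (g : Gn E O J) (hx : x ∈ rel f) : gn g x ∈ rel f := by
  rcases g with e | o
  · exact lb_mul_rel _ hx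
  · refine mem_rel.2 fun S => ?_
    rw [gn, H29.wedge_apply]
    split_ifs
    · exact Submodule.smul_of_tower_mem _ _ (lb_span (fun j hj => mem_of_mem_erase hj) hx)
    · exact zero_mem _

theorem words_rel {m : Op E O J} (hm : m ∈ words P) (hx : x ∈ rel f) : m x ∈ rel f := by
  refine (Submodule.span_le (p := (rel f).comap (LinearMap.applyₗ x))).2 ?_ hm
  rintro _ ⟨l, -, rfl⟩
  change (l.map gn).prod x ∈ rel f
  induction l with
  | nil => exact hx
  | cons g l ih => exact lb_gn_rel g ih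

theorem dr_rel (o : O) (hx : x ∈ rel f) : dr (.inr (.inl o)) x ∈ rel f := by
  refine mem_rel.2 fun S => ?_
  rw [dr, H29.contr_apply]
  split_ifs
  · exact zero_mem _
  · exact Submodule.smul_of_tower_mem _ _ (lb_span (fun j hj => by simpa using hj) hx)

/-- A derivation commuting with the relations preserves them. -/
theorem vf_rel {δ : Gn E O J → Op E O J} {s : Bool}
    (hδ : ∀ g, δ g ∈ words fun μ => od μ = xor g.isRight s) (hE : ∀ j, δ (ev j) = 0)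
    (h : ∀ j, ∃ m ∈ words fun _ : Gn E O J → ℕ => True,
      vf δ * mul (f j * X (.inr j) - 1) - mul (f j * X (.inr j) - 1) * vf δ =
        m * mul (f j * X (.inr j) - 1)) (hx : x ∈ rel f) : vf δ x ∈ rel f := by
  refine lb_le (C := (rel f).comap (vf δ)) (fun j _ u hu => ?_) (lb_mem (lb_univ x) hx)
  obtain ⟨m, hm, e⟩ := h j
  have e' := LinearMap.congr_fun (sub_eq_iff_eq_add.1 e) u
  simp only [LinearMap.add_apply, Module.End.mul_apply] at e'
  rw [Submodule.mem_comap, e']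
  refine add_mem (words_rel hm (rel_gen j hu)) (rel_gen j ?_)
  rw [vf, LinearMap.sum_apply]
  refine sum_mem fun g _ => ?_
  by_cases hg : g = ev j
  · rw [hg, hE, zero_mul]
    exact zero_mem _
  · exact words_apply_mem (hδ g) (dr_mem (P' := fun μ => μ (ev j) ≠ 0) g hu fun μ h => by
      simpa [Pi.single_eq_of_ne (Ne.symm hg)] using h) fun a b _ h => by simp [h]

theorem lb_rel {B : Finset J} (h : ∀ j ∈ B, f j = f' j) (hx : x ∈ lbR f B) : x ∈ rel f' :=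
  lb_le (fun j hj _ hu => h j hj ▸ rel_gen j hu) hx

theorem rel_congr {A : Finset J} (h : ∀ j ∈ A, f j = f' j) (hA : x ∈ mono (pat A)) :
    x ∈ rel f ↔ x ∈ rel f' :=
  ⟨fun hx => lb_rel h (lb_mem hA hx), fun hx => lb_rel (fun j hj => (h j hj).symm) (lb_mem hA hx)⟩

theorem lb_mulT {Q : (Gn E O J → ℕ) → Prop} (p : MvPolynomial (E ⊕ J) ℂ) (j : J) (hx : x ∈ mono P)
    (h : ∀ m, coeff m p ≠ 0 → ∀ μ, P μ → Q (μ + ex ∅ m + Pi.single (tv j) 1)) :
    mul (p * X (.inr j)) x ∈ mono Q := by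
  rw [mul_comm, mul_mul]
  refine gn_mem (P := fun ν => ∃ m, coeff m p ≠ 0 ∧ ∃ μ, P μ ∧ ν = μ + ex ∅ m) (tv j)
    (words_apply_mem (mul_mem_words_of_pol (P := fun a => ∃ m, coeff m p ≠ 0 ∧ a = ex ∅ m)
      (pol_mem.2 fun m hm => ⟨m, hm, rfl⟩)) hx ?_) ?_
  · rintro _ b ⟨m, hm, rfl⟩ hb
    exact ⟨m, hm, b, hb, add_comm _ _⟩
  · rintro _ ⟨m, hm, μ, hμ, rfl⟩
    exact h m hm μ hμ

theorem lb_sub (p q : MvPolynomial (E ⊕ J) ℂ) (x : Sp (E ⊕ J) (O ⊕ J)) :
    mul (p - q) x = mul p x - mul q x := funext fun S => sub_mul p q (x S)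

theorem lb_one (x : Sp (E ⊕ J) (O ⊕ J)) : mul 1 x = x := funext fun S => one_mul (x S)

theorem lb_proj {p : MvPolynomial (E ⊕ J) ℂ} {j : J} (h : ∀ m, coeff m p ≠ 0 → ∀ μ,
      μ (ev j) ≠ 0 → (P (μ + ex ∅ m + Pi.single (tv j) 1) ↔ P μ))
    (hx : x ∈ mono fun μ => μ (ev j) ≠ 0) :
    proj P (mul (p * X (.inr j) - 1) x) = mul (p * X (.inr j) - 1) (proj P x) := by
  rw [lb_sub, lb_sub, lb_one, lb_one, map_sub]
  congr 1
  exact proj_comm (fun y hy => lb_mulT p j hy fun m hm μ hμ => (h m hm μ hμ.1).2 hμ.2)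
    (fun y hy => lb_mulT p j hy fun m hm μ hμ h' => hμ.2 ((h m hm μ hμ.1).1 h')) hx

theorem lb_projR {A : Finset J} (h : ∀ j ∈ A, ∀ m, coeff m (f j) ≠ 0 → ∀ μ, μ (ev j) ≠ 0 →
      (P (μ + ex ∅ m + Pi.single (tv j) 1) ↔ P μ)) (hx : x ∈ lbR f A) : proj P x ∈ lbR f A :=
  lb_le (C := (lbR f A).comap (proj P)) (fun j hj u hu => by
    rw [Submodule.mem_comap, lb_proj (h j hj) hu]
    exact lb_gen hj (proj_mem_of hu)) hx

/-- Projections compatible with the relations. -/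
theorem proj_rel {A : Finset J} (h : ∀ j ∈ A, ∀ m, coeff m (f j) ≠ 0 → ∀ μ, μ (ev j) ≠ 0 →
      (P (μ + ex ∅ m + Pi.single (tv j) 1) ↔ P μ))
    (hA : x ∈ mono (pat A)) (hx : x ∈ rel f) : proj P x ∈ rel f :=
  lb_rel (fun _ _ => rfl) (lb_projR h (lb_mem hA hx))

theorem lb_unit {A : Finset J} {I : Ideal (MvPolynomial (E ⊕ J) ℂ)}
    (hI : ∀ j ∈ A, f j * X (.inr j) - 1 ∈ I) {N : ℕ} {y : MvPolynomial (E ⊕ J) ℂ}
    (h : (∏ j ∈ A, f j) ^ N * y ∈ I) : y ∈ I := by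
  rw [← Ideal.Quotient.eq_zero_iff_mem] at h ⊢
  rw [map_mul, map_pow, map_prod] at h
  refine (IsUnit.mul_right_eq_zero (IsUnit.pow N ?_)).1 h
  refine prod_induction _ IsUnit (fun _ _ => IsUnit.mul) isUnit_one fun j hj => ?_
  exact IsUnit.of_mul_eq_one (Ideal.Quotient.mk I (X (.inr j)))
    ((Ideal.Quotient.eq (y := 1)).2 (hI j hj))

/-- The `f j` are units. -/
theorem rel_unit {A : Finset J} (hA : x ∈ mono fun μ => ∀ j ∈ A, μ (ev j) ≠ 0) (N : ℕ)
    (h : mul ((∏ j ∈ A, f j) ^ N) x ∈ rel f) : x ∈ rel f := by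
  refine mem_rel.2 fun S => ?_
  by_cases h0 : x S = 0
  · rw [h0]
    exact zero_mem _
  · obtain ⟨m, hm⟩ := exists_coeff_ne_zero h0
    refine lb_unit (fun j hj => ?_) (mem_rel.1 h S)
    exact Ideal.subset_span ⟨j, lb_ex.1 (mem_mono.1 hA S m hm j hj), rfl⟩

theorem lb_diff (p q : MvPolynomial (E ⊕ J) ℂ) (j : J) (x : Sp (E ⊕ J) (O ⊕ J)) :
    mul (p * X (.inr j) - 1) x = mul (q * X (.inr j) - 1) x + mul ((p - q) * X (.inr j)) x :=
  funext fun S => by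
    simp only [Pi.add_apply, mul_apply']
    ring

/-- Killing generators. -/
theorem kill_rel {K : Gn E O J → Prop} (hT : ∀ j, ¬ K (tv j)) (hE : ∀ j, ¬ K (ev j)) :
    x ∈ rel f ⊔ mono (has K) ↔
      proj (fun μ => ¬ has K μ) x ∈ rel fun j => kill (O := O ⊕ J) K (f j) := by
  classical
  have _ := hE
  have hk : ∀ j (u : Sp (E ⊕ J) (O ⊕ J)),
      mul ((f j - kill (O := O ⊕ J) K (f j)) * X (.inr j)) u ∈ mono (has K) := fun j u =>
    lb_mulT _ j (apiC_top u) fun m hm μ _ =>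
      has_add.2 (.inl (has_add.2 (.inr (pol_mem.1 (kill_sub K (f j)).1 m hm))))
  have hz : ∀ u ∈ mono (has K), proj (fun μ => ¬ has K μ) u = 0 := fun u hu =>
    proj_eq_zero (mono_le (fun _ h => not_not.2 h) hu)
  constructor
  · intro h
    obtain ⟨y, hy, z, hz', rfl⟩ := Submodule.mem_sup.1 h
    rw [map_add, hz z hz', add_zero]
    refine lb_le (C := (rel _).comap (proj _)) (fun j _ u hu => ?_) (lb_mem (lb_univ y) hy)
    rw [Submodule.mem_comap, lb_diff _ (kill (O := O ⊕ J) K (f j)), map_add, hz _ (hk j u),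
      add_zero, lb_proj (fun m hm μ _ => ?_) hu]
    · exact rel_gen (f := fun j => kill (O := O ⊕ J) K (f j)) j (proj_mem_of hu)
    · rw [apiC_kill] at hm
      have : ¬ has K (ex ∅ m) := fun h => hm (if_neg (not_not.2 h))
      simp [has_add, has_single, this, hT j]
  · intro h
    rw [← add_sub_cancel (proj (fun μ => ¬ has K μ) x) x]
    refine add_mem (lb_le (fun j _ u hu => ?_) (lb_mem (lb_univ _) h))
      (Submodule.mem_sup_right (mono_le (fun _ => not_not.1) (sub_proj_mem x)))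
    rw [eq_sub_of_add_eq (lb_diff (f j) (kill (O := O ⊕ J) K (f j)) j u).symm]
    exact sub_mem (Submodule.mem_sup_left (rel_gen j hu)) (Submodule.mem_sup_right (hk j u))

theorem lb_mm (p q : MvPolynomial (E ⊕ J) ℂ) (x : Sp (E ⊕ J) (O ⊕ J)) :
    mul (p * q) x = mul p (mul q x) := funext fun S => mul_assoc p q (x S)

theorem lb_euler (j : J) {n : ℕ} (hx : x ∈ mono fun μ => μ (tv j) = n) :
    gn (tv j) (dr (tv j) x) = (n : ℂ) • x := by
  refine mono_le_of_bas (C := LinearMap.eqLocus (gn (tv j) * dr (tv j) : Op E O J) ((n : ℂ) • 1))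
    (fun S m hm => funext fun S' => ?_) hx
  change X (.inr j) * pderiv (.inr j) (bas S m S') = (n : ℂ) • bas S m S'
  rw [bas, Pi.single_apply]
  split_ifs
  · rw [X_mul_pderiv_monomial, ← hm, Nat.cast_smul_eq_nsmul]
    rfl
  · simp

theorem lb_T {Q : (Gn E O J → ℕ) → Prop} (j : J) (hx : gn (tv j) x ∈ mono P)
    (h : ∀ μ, P (μ + Pi.single (tv j) 1) → Q μ) : x ∈ mono Q :=
  mem_mono.2 fun S m hm => h _ <| by
    rw [← ex_add, add_comm]
    exact mem_mono.1 hx S _ (by rwa [gn, mul_apply', coeff_X_mul])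

/-- The algebra generated by `p`, `T_j` and the derivative in `T_j`. -/
noncomputable abbrev lbA (O : Type) [Fintype O] [DecidableEq O] (p : MvPolynomial (E ⊕ J) ℂ)
    (j : J) : Subalgebra ℂ (Op E O J) :=
  Algebra.adjoin ℂ {mul p, gn (tv j), dr (tv j)}

theorem lb_A_mem {p : MvPolynomial (E ⊕ J) ℂ} {j : J} {ρ : Op E O J} (hρ : ρ ∈ lbA O p j)
    (C : Submodule ℂ (Sp (E ⊕ J) (O ⊕ J))) (h1 : ∀ u ∈ C, mul p u ∈ C)
    (h2 : ∀ u ∈ C, gn (tv j) u ∈ C) (h3 : ∀ u ∈ C, dr (tv j) u ∈ C) : ∀ y ∈ C, ρ y ∈ C := by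
  induction hρ using Algebra.adjoin_induction with
  | mem a ha =>
    rcases ha with rfl | rfl | rfl
    exacts [h1, h2, h3]
  | algebraMap c => exact fun y hy => C.smul_mem c hy
  | add a b _ _ ha hb => exact fun y hy => add_mem (ha y hy) (hb y hy)
  | mul a b _ _ ha hb => exact fun y hy => ha _ (hb y hy)

theorem lb_A_comm {p : MvPolynomial (E ⊕ J) ℂ} {j : J} {ρ : Op E O J} (hρ : ρ ∈ lbA O p j)
    (L : Op E O J) (h2 : L * gn (tv j) = gn (tv j) * L) (h3 : L * dr (tv j) = dr (tv j) * L)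
    (h1 : L * mul p = mul p * L) : L * ρ = ρ * L := by
  induction hρ using Algebra.adjoin_induction with
  | mem a ha =>
    rcases ha with rfl | rfl | rfl
    exacts [h1, h2, h3]
  | algebraMap c => exact (Algebra.commutes c L).symm
  | add a b _ _ ha hb => rw [mul_add, add_mul, ha, hb]
  | mul a b _ _ ha hb => rw [← mul_assoc, ha, mul_assoc, hb, mul_assoc]

theorem lb_A_pow (p : MvPolynomial (E ⊕ J) ℂ) (j : J) (N : ℕ) : mul (p ^ N) ∈ lbA O p j := by
  have : (mul (p ^ N) : Op E O J) = mul p ^ N := map_pow mulA p N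
  rw [this]
  exact pow_mem (Algebra.subset_adjoin (by simp)) N

theorem lb_sigma (p : MvPolynomial (E ⊕ J) ℂ) (j : J) (M : ℕ) : ∃ σ ∈ lbA O p j,
    ∀ n ≤ M, ∀ u ∈ mono fun μ => μ (tv j) = n, u - gn (tv j) (σ u) = if n = 0 then u else 0 := by
  have hT : gn (tv j) ∈ lbA O p j := Algebra.subset_adjoin (by simp)
  have hD : dr (tv j) ∈ lbA O p j := Algebra.subset_adjoin (by simp)
  induction M with
  | zero => exact ⟨0, zero_mem _, fun n hn u _ => by simp [Nat.le_zero.1 hn]⟩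
  | succ M ih =>
    obtain ⟨σ, hσ, h⟩ := ih
    refine ⟨σ + ((M + 1 : ℕ) : ℂ)⁻¹ • (dr (tv j) - σ * (gn (tv j) * dr (tv j))),
      add_mem hσ (Subalgebra.smul_mem _ (sub_mem hD (mul_mem hσ (mul_mem hT hD))) _),
      fun n hn u hu => ?_⟩
    have e : u - gn (tv j) ((σ + ((M + 1 : ℕ) : ℂ)⁻¹ •
        (dr (tv j) - σ * (gn (tv j) * dr (tv j))) : Op E O J) u) =
        (1 - ((M + 1 : ℕ) : ℂ)⁻¹ * n) • (u - gn (tv j) (σ u)) := by
      simp only [LinearMap.add_apply, LinearMap.smul_apply, LinearMap.sub_apply,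
        Module.End.mul_apply, map_add, map_smul, map_sub, lb_euler j hu]
      module
    rw [e]
    rcases hn.eq_or_lt with rfl | hn
    · rw [inv_mul_cancel₀ (Nat.cast_ne_zero.2 M.succ_ne_zero), sub_self, zero_smul,
        if_neg M.succ_ne_zero]
    · rw [h n (Nat.lt_succ_iff.1 hn) u hu]
      split_ifs with h0
      · simp [h0]
      · exact smul_zero _

theorem lb_bdd (c : (Gn E O J → ℕ) → ℤ) (k : ℤ) (x : Sp (E ⊕ J) (O ⊕ J)) :
    ∃ d : ℕ, x ∈ mono fun μ => k - d ≤ c μ := by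
  classical
  obtain ⟨s, -, hs⟩ := exists_sum_proj c x
  obtain ⟨b, hb⟩ := s.bddBelow
  refine ⟨(k - b).toNat, mem_mono.2 fun S m hm => ?_⟩
  have : c (ex S m) ∈ s := of_not_not fun h => hm (by
    have := coeff_proj (P := fun μ => c μ = c (ex S m)) x S m
    rw [hs _ h, if_pos rfl] at this
    exact this.symm)
  have := hb this
  omega

theorem lb_deg (j : J) (x : Sp (E ⊕ J) (O ⊕ J)) : ∃ n : ℕ, x ∈ mono fun μ => μ (tv j) ≤ n := by
  obtain ⟨n, hn⟩ := exists_deg x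
  exact ⟨n, mono_le (fun μ h => (single_le_sum (fun _ _ => Nat.zero_le _)
    (mem_univ (tv j))).trans h) hn⟩

theorem lb_bound {ι : Type} (j : J) (s : Finset ι) (u : ι → Sp (E ⊕ J) (O ⊕ J)) :
    ∃ n : ℕ, ∀ y ∈ s, u y ∈ mono fun μ => μ (tv j) ≤ n := by
  choose d hd using lb_deg (E := E) (O := O) j
  obtain ⟨n, hn⟩ := (s.image fun y => d (u y)).bddAbove
  exact ⟨n, fun y hy => mono_le (fun μ h => h.trans (hn (mem_coe.2 (mem_image_of_mem _ hy))))
    (hd (u y))⟩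

theorem lb_closed {C : Submodule ℂ (Sp (E ⊕ J) (O ⊕ J))} {B : Finset J}
    (h : ∀ j ∈ B, ∀ u ∈ C, mul (f j) u ∈ C) (N : ℕ) :
    ∀ u ∈ C, mul ((∏ j ∈ B, f j) ^ N) u ∈ C := by
  have h1 : ∀ u ∈ C, mul 1 u ∈ C := fun u hu => by rwa [lb_one]
  have h2 : ∀ p q : MvPolynomial (E ⊕ J) ℂ, (∀ u ∈ C, mul p u ∈ C) → (∀ u ∈ C, mul q u ∈ C) →
      ∀ u ∈ C, mul (p * q) u ∈ C := fun p q hp hq u hu => by
    rw [lb_mm]
    exact hp _ (hq u hu)
  have h3 := prod_induction f (fun p => ∀ u ∈ C, mul p u ∈ C) h2 h1 h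
  induction N with
  | zero => rwa [pow_zero]
  | succ N ih =>
    rw [pow_succ]
    exact h2 _ _ ih h3

variable (hf : ∀ j, (pol (f j) : Sp (E ⊕ J) (O ⊕ J)) ∈ mono tfree)
include hf

theorem lb_mulf (j : J) (hx : x ∈ mono P) (h : ∀ a μ, tfree a → P μ → P (a + μ)) :
    mul (f j) x ∈ mono P := words_apply_mem (mul_mem_words_of_pol (hf j)) hx h

theorem lb_phi {A : Finset J} (h0 : ∀ j ∈ A, f j ≠ 0) :
    ∃ φ : MvPolynomial (E ⊕ J) ℂ →ₐ[ℂ] FractionRing (MvPolynomial (E ⊕ J) ℂ),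
      (∀ p, (∀ m, coeff m p ≠ 0 → ∀ j ∈ A, m (.inr j) = 0) → φ p = algebraMap _ _ p) ∧
        ∀ j ∈ A, φ (f j * X (.inr j) - 1) = 0 := by
  let ι := IsScalarTower.toAlgHom ℂ (MvPolynomial (E ⊕ J) ℂ)
    (FractionRing (MvPolynomial (E ⊕ J) ℂ))
  let φ : MvPolynomial (E ⊕ J) ℂ →ₐ[ℂ] FractionRing (MvPolynomial (E ⊕ J) ℂ) :=
    aeval (Sum.elim (fun e => ι (X (.inl e))) fun j => if j ∈ A then (ι (f j))⁻¹ else ι (X (.inr j)))
  have h1 : ∀ p, (∀ m, coeff m p ≠ 0 → ∀ j ∈ A, m (.inr j) = 0) → φ p = ι p := fun p hp => by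
    refine hom_congr_vars (f₁ := φ.toRingHom) (f₂ := ι.toRingHom) (RingHom.ext fun c => ?_)
      (fun i hi _ => ?_) rfl
    · exact (φ.commutes c).trans (ι.commutes c).symm
    · obtain ⟨m, hm, hi⟩ := (mem_vars_iff_mem_support i).1 hi
      change φ (X i) = ι (X i)
      rw [aeval_X]
      rcases i with e | j
      · rfl
      · exact if_neg fun h => Finsupp.mem_support_iff.1 hi (hp m (mem_support_iff.1 hm) j h)
  refine ⟨φ, h1, fun j hj => ?_⟩
  rw [map_sub, map_mul, map_one, h1 _ fun m hm i _ => pol_mem.1 (hf j) m hm i, aeval_X,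
    Sum.elim_inr, if_pos hj, mul_inv_cancel₀, sub_self]
  exact (map_ne_zero_iff _ (IsFractionRing.injective _ _)).2 (h0 j hj)

theorem lb_free {A : Finset J} {y : MvPolynomial (E ⊕ J) ℂ} {S : Finset (O ⊕ J)}
    (hS : ∀ j, .inr j ∈ S → j ∈ A) (hy : ∀ m, coeff m y ≠ 0 → ∀ j ∈ A, m (.inr j) = 0)
    (h : y ∈ Ideal.span {y | ∃ j, .inr j ∈ S ∧ y = f j * X (.inr j) - 1}) :
    (∏ j ∈ A, f j) * y = 0 := by
  by_cases h0 : ∀ j ∈ A, f j ≠ 0
  · obtain ⟨φ, h1, h2⟩ := lb_phi hf h0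
    have : φ y = 0 := by
      refine (Ideal.span_le (I := RingHom.ker φ)).2 ?_ h
      rintro _ ⟨j, hj, rfl⟩
      exact h2 j (hS j hj)
    rw [h1 y hy, map_eq_zero_iff _ (IsFractionRing.injective _ _)] at this
    rw [this, mul_zero]
  · push Not at h0
    obtain ⟨j, hj, h0⟩ := h0
    rw [prod_eq_zero hj h0, zero_mul]

theorem lb_rho (j : J) (M N : ℕ) (hN : M ≤ N) : ∃ ρ ∈ lbA O (f j) j, ∃ ζ ∈ lbA O (f j) j,
    (∀ y ∈ mono fun μ => μ (tv j) ≤ M, (ρ y ∈ mono fun μ => μ (tv j) = 0) ∧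
      ρ y - mul (f j ^ N) y = mul (f j * X (.inr j) - 1) (ζ y)) ∧
    ∀ y ∈ mono fun μ => μ (tv j) = 0, ρ y = mul (f j ^ N) y := by
  have hT : gn (tv j) ∈ lbA O (f j) j := Algebra.subset_adjoin (by simp)
  have hF : ∀ N, ∀ u ∈ mono fun μ : Gn E O J → ℕ => μ (tv j) = 0,
      mul (f j ^ N) u ∈ mono fun μ => μ (tv j) = 0 := fun N => by
    simpa using lb_closed (f := f) (B := {j}) (C := mono fun μ : Gn E O J → ℕ => μ (tv j) = 0)
      (fun i _ u hu => lb_mulf hf i hu fun a μ ha h => by simp [ha j, h]) N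
  induction M generalizing N with
  | zero =>
    exact ⟨_, lb_A_pow _ j N, 0, zero_mem _, fun y hy => ⟨hF N y (mono_le (fun _ => Nat.le_zero.1)
      hy), by simp⟩, fun _ _ => rfl⟩
  | succ M ih =>
    obtain ⟨N, rfl⟩ := Nat.exists_eq_add_one_of_ne_zero (n := N) (by omega)
    obtain ⟨ρ, hρ, ζ, hζ, h1, -⟩ := ih N (by omega)
    obtain ⟨σ, hσ, h2⟩ := lb_sigma (O := O) (f j) j (M + 1)
    refine ⟨mul (f j ^ (N + 1)) * (1 - gn (tv j) * σ) + ρ * σ, add_mem (mul_mem (lb_A_pow _ j _)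
      (sub_mem (Subalgebra.one_mem _) (mul_mem hT hσ))) (mul_mem hρ hσ), ζ * σ - mul (f j ^ N) * σ,
      sub_mem (mul_mem hζ hσ) (mul_mem (lb_A_pow _ j _) hσ), fun y hy => ?_, fun y hy => ?_⟩
    · have h3 : y - gn (tv j) (σ y) ∈ mono fun μ => μ (tv j) = 0 := by
        have e : ∀ u, u - gn (tv j) (σ u) = (1 - gn (tv j) * σ : Op E O J) u := fun _ => rfl
        rw [e]
        refine map_mem_of_bas (fun S m hm => ?_) hy
        rw [← e, h2 _ hm _ (bas_mem rfl)]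
        split_ifs with h
        · exact bas_mem h
        · exact zero_mem _
      have h4 : σ y ∈ mono fun μ => μ (tv j) ≤ M := by
        refine lb_T (P := fun μ => μ (tv j) ≤ M + 1) j ?_ fun μ h => by simpa using h
        rw [← sub_sub_cancel y (gn (tv j) (σ y))]
        exact sub_mem hy (mono_le (fun μ h => h.le.trans (Nat.zero_le _)) h3)
      simp only [LinearMap.add_apply, LinearMap.sub_apply, Module.End.mul_apply,
        Module.End.one_apply]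
      refine ⟨add_mem (hF _ _ h3) (h1 _ h4).1, funext fun S => ?_⟩
      have h5 := congrFun (h1 _ h4).2 S
      simp only [Pi.add_apply, Pi.sub_apply, mul_apply', gn] at h5 ⊢
      linear_combination h5
    · have h3 := h2 0 (Nat.zero_le _) y hy
      rw [if_pos rfl, sub_eq_self] at h3
      have h4 : σ y = 0 := by
        have := lb_T (P := fun _ => False) (Q := fun _ => False) (x := σ y) j
          (by rw [h3]; exact zero_mem _) fun _ h => h
        rwa [mono_false] at this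
      simp [h4]

/-- Clearing denominators: for large `N` there is an operator `ρ` that is multiplication by
`f j ^ N` modulo `f j T_j - 1` on the finitely many given elements. -/
theorem clear (j : J) (s : Finset (Sp (E ⊕ J) (O ⊕ J))) : ∃ N₀ : ℕ, ∀ N ≥ N₀, ∃ ρ : Op E O J,
    (∀ y ∈ s, ρ y ∈ mono fun μ => μ (tv j) = 0) ∧
    (∀ y ∈ s, ∃ z, ρ y - mul (f j ^ N) y = mul (f j * X (.inr j) - 1) z ∧
      ∀ C : Submodule ℂ (Sp (E ⊕ J) (O ⊕ J)), (∀ u ∈ C, mul (f j) u ∈ C) →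
        (∀ u ∈ C, gn (tv j) u ∈ C) → (∀ u ∈ C, dr (tv j) u ∈ C) → y ∈ C → z ∈ C) ∧
    (∀ y ∈ s, ρ (mul (f j * X (.inr j) - 1) y) = 0) ∧
    (∀ y ∈ mono fun μ => μ (tv j) = 0, ρ y = mul (f j ^ N) y) ∧
    (∀ L : Op E O J, L * gn (tv j) = gn (tv j) * L → L * dr (tv j) = dr (tv j) * L →
      L * mul (f j) = mul (f j) * L → L * ρ = ρ * L) ∧
    ∀ C : Submodule ℂ (Sp (E ⊕ J) (O ⊕ J)), (∀ u ∈ C, mul (f j) u ∈ C) →
      (∀ u ∈ C, gn (tv j) u ∈ C) → (∀ u ∈ C, dr (tv j) u ∈ C) → ∀ y ∈ C, ρ y ∈ C := by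
  obtain ⟨M, hM⟩ := lb_bound j s fun y => y
  obtain ⟨M', hM'⟩ := lb_bound j s fun y => mul (f j * X (.inr j) - 1) y
  refine ⟨M + M' + 1, fun N hN => ?_⟩
  obtain ⟨N, rfl⟩ := Nat.exists_eq_add_one_of_ne_zero (n := N) (by omega)
  obtain ⟨ρ, hρ, ζ, hζ, h1, h2⟩ := lb_rho (O := O) hf j N N le_rfl
  have hy1 := fun y hy => h1 _ (mono_le (fun μ h => by omega) (hM y hy))
  have hy2 := fun y hy => h1 _ (mono_le (fun μ h => by omega) (hM' y hy))
  have hF : mul (f j) ∈ lbA O (f j) j := Algebra.subset_adjoin (by simp)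
  have hρ' : mul (f j) * ρ ∈ lbA O (f j) j := mul_mem hF hρ
  have hζ' : mul (f j) * ζ ∈ lbA O (f j) j := mul_mem hF hζ
  refine ⟨mul (f j) * ρ, fun y hy => ?_, fun y hy => ⟨_, ?_, fun C a b c =>
    lb_A_mem hζ' C a b c y⟩, fun y hy => ?_, fun y hy => ?_, lb_A_comm hρ', lb_A_mem hρ'⟩
  · rw [Module.End.mul_apply]
    exact lb_mulf hf j (hy1 y hy).1 fun a μ ha h => by simp [ha j, h]
  · rw [Module.End.mul_apply, Module.End.mul_apply, pow_succ', lb_mm, ← map_sub, (hy1 y hy).2,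
      lb_comm]
  · funext S
    have h3 := lb_free hf (O := O) (A := {j}) (S := {.inr j}) (fun i hi => by simpa using hi)
      (y := ρ (mul (f j * X (.inr j) - 1) y) S) (fun m hm i hi => by
        rw [mem_singleton.1 hi]
        exact mem_mono.1 (hy2 y hy).1 S m hm) (by
        rw [sub_eq_iff_eq_add.1 (hy2 y hy).2, lb_comm (f j ^ N), ← map_add, mul_apply']
        exact Ideal.mul_mem_right _ _ (Ideal.subset_span ⟨j, mem_singleton_self _, rfl⟩))
    rw [prod_singleton] at h3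
    rw [Module.End.mul_apply, mul_apply', h3, Pi.zero_apply]
  · rw [Module.End.mul_apply, h2 y hy, pow_succ', lb_mm]

/-- All denominators at once. -/
theorem clear_all {A : Finset J}
    (hA : x ∈ mono fun μ => (∀ j ∈ A, μ (ev j) ≠ 0) ∧ ∀ j, μ (tv j) ≠ 0 → j ∈ A) :
    ∃ (N : ℕ) (x' : Sp (E ⊕ J) (O ⊕ J)), x' ∈ mono tfree ∧
      x' - mul ((∏ j ∈ A, f j) ^ N) x ∈ rel f ∧
      ∀ C : Submodule ℂ (Sp (E ⊕ J) (O ⊕ J)), (∀ j ∈ A, ∀ u ∈ C, mul (f j) u ∈ C) →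
        (∀ j ∈ A, ∀ u ∈ C, gn (tv j) u ∈ C) → (∀ j ∈ A, ∀ u ∈ C, dr (tv j) u ∈ C) →
        x ∈ C → x' ∈ C := by
  have key : ∀ B : Finset J, B ⊆ A → ∃ (N : ℕ) (x' : Sp (E ⊕ J) (O ⊕ J)),
      (x' ∈ mono fun μ => (∀ j ∈ A, μ (ev j) ≠ 0) ∧ ∀ j, μ (tv j) ≠ 0 → j ∈ A ∧ j ∉ B) ∧
      x' - mul ((∏ j ∈ B, f j) ^ N) x ∈ rel f ∧
      ∀ C : Submodule ℂ (Sp (E ⊕ J) (O ⊕ J)), (∀ j ∈ A, ∀ u ∈ C, mul (f j) u ∈ C) →
        (∀ j ∈ A, ∀ u ∈ C, gn (tv j) u ∈ C) → (∀ j ∈ A, ∀ u ∈ C, dr (tv j) u ∈ C) →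
        x ∈ C → x' ∈ C := by
    intro B
    induction B using Finset.induction_on with
    | empty =>
      exact fun _ => ⟨0, x, mono_le (fun μ h => ⟨h.1, fun j hj => ⟨h.2 j hj, notMem_empty j⟩⟩) hA,
        by rw [pow_zero, lb_one, sub_self]; exact zero_mem _, fun _ _ _ _ h => h⟩
    | insert j B hj ih =>
      intro hB
      have hjA : j ∈ A := hB (mem_insert_self j B)
      have hBA : B ⊆ A := (subset_insert j B).trans hB
      obtain ⟨N, y, h1, h2, h3⟩ := ih hBA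
      obtain ⟨N₀, h⟩ := clear hf j {y}
      obtain ⟨ρ, r1, r2, -, -, -, r3⟩ := h (N₀ + N) (Nat.le_add_right _ _)
      obtain ⟨z, z1, z2⟩ := r2 y (mem_singleton_self y)
      have hm : ∀ (B' : Finset J) i, ∀ u ∈ mono fun μ : Gn E O J → ℕ =>
          (∀ j ∈ A, μ (ev j) ≠ 0) ∧ ∀ j, μ (tv j) ≠ 0 → j ∈ A ∧ j ∉ B', mul (f i) u ∈ mono fun μ =>
          (∀ j ∈ A, μ (ev j) ≠ 0) ∧ ∀ j, μ (tv j) ≠ 0 → j ∈ A ∧ j ∉ B' := fun B' i u hu =>
        lb_mulf hf i hu fun a μ ha h => ⟨fun l hl => by simp [h.1 l hl],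
          fun l hl => h.2 l (by simpa [ha l] using hl)⟩
      refine ⟨N₀ + N, mul ((∏ j ∈ B, f j) ^ N₀) (ρ y), lb_closed (fun i _ => hm _ i) _ _ ?_, ?_,
        fun C a b c hx => lb_closed (fun i hi => a i (hBA hi)) _ _
          (r3 C (a j hjA) (b j hjA) (c j hjA) y (h3 C a b c hx))⟩
      · have := r3 _ (hm B j) (fun u hu => gn_mem _ hu fun μ h => ⟨fun l hl => by simp [h.1 l hl],
          fun l hl => by
            by_cases e : l = j
            · exact e ▸ ⟨hjA, hj⟩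
            · exact h.2 l (by simpa [Pi.single_apply, e] using hl)⟩)
          (fun u hu => dr_mem _ hu fun μ h => ⟨fun l hl => by simpa using h.1 l hl,
            fun l hl => h.2 l (by simp [hl])⟩) y h1
        refine mono_le (fun μ h => ⟨h.1.1, fun l hl => ⟨(h.1.2 l hl).1, fun e => ?_⟩⟩)
          (mono_and.ge ⟨this, r1 y (mem_singleton_self y)⟩)
        rcases mem_insert.1 e with rfl | e
        exacts [hl h.2, (h.1.2 l hl).2 e]
      · have hz : z ∈ mono fun μ => μ (ev j) ≠ 0 := z2 _ (fun u hu => lb_mul_ev _ hu)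
          (fun u hu => lb_mul_ev _ hu) (fun u hu => dr_mem _ hu fun μ h => by simpa using h)
          (mono_le (fun μ h => h.1 j hjA) h1)
        have e : mul ((∏ j ∈ B, f j) ^ N₀) (ρ y) - mul ((∏ j ∈ insert j B, f j) ^ (N₀ + N)) x =
            mul ((∏ j ∈ B, f j) ^ N₀) (ρ y - mul (f j ^ (N₀ + N)) y +
              mul (f j ^ (N₀ + N)) (y - mul ((∏ j ∈ B, f j) ^ N) x)) := funext fun S => by
          simp only [Pi.add_apply, Pi.sub_apply, mul_apply', prod_insert hj]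
          ring
        rw [e, z1]
        exact lb_mul_rel _ (add_mem (rel_gen j hz) (lb_mul_rel _ h2))
  obtain ⟨N, y, h1, h2⟩ := key A Subset.rfl
  exact ⟨N, y, mono_le (fun μ h j => of_not_not fun hj => (h.2 j hj).2 (h.2 j hj).1) h1, h2⟩

theorem free_rel {A : Finset J} (hA : x ∈ mono fun μ => tfree μ ∧ pat A μ) (hx : x ∈ rel f) :
    ∃ N : ℕ, mul ((∏ j ∈ A, f j) ^ N) x = 0 := by
  refine ⟨1, funext fun S => ?_⟩
  rw [mul_apply', pow_one]
  rcases lb_pat (mono_le (fun _ h => h.2) hA) S with h | h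
  · rw [h]
    exact mul_zero _
  · exact lb_free hf h (fun m hm j _ => (mem_mono.1 hA S m hm).1 j) (mem_rel.1 hx S)

/-- A nonzero polynomial without `T` is not a zero divisor. -/
theorem rel_nzd {p : MvPolynomial (E ⊕ J) ℂ} (hp : p ≠ 0)
    (hp' : (pol p : Sp (E ⊕ J) (O ⊕ J)) ∈ mono tfree) (h : mul p x ∈ rel f) : x ∈ rel f := by
  refine mem_rel.2 fun S => ?_
  have hx := mem_rel.1 h S
  rw [mul_apply'] at hx
  generalize x S = y at hx
  set I := Ideal.span {y | ∃ j, Sum.inr j ∈ S ∧ y = f j * X (.inr j) - 1}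
  let A : Finset J := univ.filter fun j => Sum.inr j ∈ S
  have hI : ∀ j ∈ A, f j * X (.inr j) - 1 ∈ I := fun j hj =>
    Ideal.subset_span ⟨j, (mem_filter.1 hj).2, rfl⟩
  by_cases h0 : ∀ j ∈ A, f j ≠ 0
  swap
  · push Not at h0
    obtain ⟨j, hj, h0⟩ := h0
    refine lb_unit hI (N := 1) ?_
    rw [prod_eq_zero hj h0, pow_one, zero_mul]
    exact zero_mem _
  obtain ⟨φ, h1, h2⟩ := lb_phi hf h0
  have hker : ∀ w ∈ I, φ w = 0 := fun w hw => by
    refine (Ideal.span_le (I := RingHom.ker φ)).2 ?_ hw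
    rintro _ ⟨j, hj, rfl⟩
    exact h2 j (mem_filter.2 ⟨mem_univ j, hj⟩)
  have hprod : ∀ B : Finset J, φ (∏ j ∈ B, f j) = algebraMap _ _ (∏ j ∈ B, f j) := fun B => by
    rw [map_prod, map_prod]
    exact prod_congr rfl fun j _ => h1 _ fun m hm i _ => pol_mem.1 (hf j) m hm i
  have key : ∀ w : MvPolynomial (E ⊕ J) ℂ, ∃ (N : ℕ) (w' : MvPolynomial (E ⊕ J) ℂ),
      φ w' = algebraMap _ _ w' ∧ w' - (∏ j ∈ A, f j) ^ N * w ∈ I := fun w => by
    induction w using MvPolynomial.induction_on with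
    | C a => exact ⟨0, C a, h1 _ fun m hm j _ => by
        rw [coeff_C] at hm
        rw [← (ite_ne_right_iff.1 hm).1]
        rfl, by simp⟩
    | add a b ha hb =>
      obtain ⟨N, a', a1, a2⟩ := ha
      obtain ⟨M, b', b1, b2⟩ := hb
      refine ⟨N + M, (∏ j ∈ A, f j) ^ M * a' + (∏ j ∈ A, f j) ^ N * b', by
        simp only [map_add, map_mul, map_pow, hprod, a1, b1], ?_⟩
      convert add_mem (I.mul_mem_left ((∏ j ∈ A, f j) ^ M) a2)
        (I.mul_mem_left ((∏ j ∈ A, f j) ^ N) b2) using 1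
      ring
    | mul_X a e ha =>
      obtain ⟨N, a', a1, a2⟩ := ha
      by_cases he : ∃ j ∈ A, e = .inr j
      · obtain ⟨j, hj, rfl⟩ := he
        refine ⟨N + 1, (∏ j ∈ A.erase j, f j) * a', by simp only [map_mul, hprod, a1], ?_⟩
        convert sub_mem (I.mul_mem_left (∏ j ∈ A.erase j, f j) a2) (I.mul_mem_left
          ((∏ j ∈ A.erase j, f j) * ((∏ j ∈ A, f j) ^ N * a)) (hI j hj)) using 1
        rw [pow_succ _ N, mul_assoc _ _ (a * _)]
        generalize (∏ j ∈ A, f j) ^ N = q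
        rw [← mul_prod_erase A f hj]
        ring
      · refine ⟨N, a' * X e, ?_, ?_⟩
        · rw [map_mul, map_mul, a1, h1 (X e) fun m hm j hj => ?_]
          rw [coeff_X] at hm
          rw [← (ite_ne_right_iff.1 hm).1]
          exact Finsupp.single_eq_of_ne fun h => he ⟨j, hj, h.symm⟩
        · rw [← mul_assoc, ← sub_mul]
          exact I.mul_mem_right _ a2
  obtain ⟨N, y', k1, k2⟩ := key y
  have h3 := hker _ hx
  rw [map_mul, h1 p fun m hm j _ => pol_mem.1 hp' m hm j, mul_eq_zero,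
    map_eq_zero_iff _ (IsFractionRing.injective _ _)] at h3
  have h4 := hker _ k2
  rw [map_sub, map_mul, h3.resolve_left hp, mul_zero, sub_zero, k1,
    map_eq_zero_iff _ (IsFractionRing.injective _ _)] at h4
  rw [h4, zero_sub, neg_mem_iff] at k2
  exact lb_unit hI k2

theorem lb_nzd {B : Finset J} {j : J} (hj : j ∉ B) (p : MvPolynomial (E ⊕ J) ℂ)
    (h : mul (p * X (.inr j) - 1) x ∈ lbR f B) : x ∈ lbR f B := by
  obtain ⟨n, hn⟩ := lb_deg j x
  have key : ∀ k : ℕ, ∃ u ∈ mono fun μ : Gn E O J → ℕ => k ≤ μ (tv j), x - u ∈ lbR f B ∧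
      mul (p * X (.inr j) - 1) u ∈ lbR f B := fun k => by
    induction k with
    | zero => exact ⟨x, mem_mono.2 fun _ _ _ => Nat.zero_le _, (sub_self x).symm ▸ zero_mem _, h⟩
    | succ k ih =>
      obtain ⟨u, h1, h2, h3⟩ := ih
      refine ⟨mul (p * X (.inr j)) u, ?_, ?_, ?_⟩
      · refine lb_mulT (Q := fun μ => k + 1 ≤ μ (tv j)) p j h1 fun m _ μ h => ?_
        simp only [Pi.add_apply, Pi.single_eq_same]
        omega
      · rw [lb_sub, lb_one] at h3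
        convert sub_mem h2 h3 using 1
        abel
      · rw [lb_comm]
        exact lb_mul _ h3
  obtain ⟨u, h1, h2, -⟩ := key (n + 1)
  have := lb_projR (P := fun μ => μ (tv j) ≤ n) (fun i hi m hm μ _ => by
    have e : i ≠ j := fun e => hj (e ▸ hi)
    simp [pol_mem.1 (hf i) m hm j, e.symm]) h2
  rwa [map_sub, proj_eq_self hn, proj_eq_zero (mono_le (fun μ h => by omega) h1), sub_zero] at this

/-- Initial forms when only the function `f j₀` is inhomogeneous. -/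
theorem rel_init {A : Finset J} (gr : Gn E O J → ℤ) (j₀ : J) (h0 : gr (tv j₀) = 0)
    (hF : (pol (f j₀) : Sp (E ⊕ J) (O ⊕ J)) ∈ mono fun μ => 0 ≤ ws gr μ)
    (hF₀ : (pol (f' j₀) : Sp (E ⊕ J) (O ⊕ J)) = proj (fun μ => ws gr μ = 0) (pol (f j₀)))
    (hj : ∀ j ∈ A, j ≠ j₀ → f' j = f j ∧
      (pol (f j) : Sp (E ⊕ J) (O ⊕ J)) ∈ mono fun μ => ws gr μ = -gr (tv j))
    (hA : x ∈ mono (pat A)) (k : ℤ) :
    (x ∈ rel f → x ∈ (mono fun μ => k ≤ ws gr μ) → proj (fun μ => ws gr μ = k) x ∈ rel f') ∧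
    ((∀ j ∈ A, ∀ m, coeff m (f j) ≠ 0 → ∀ μ, μ (ev j) ≠ 0 →
        (P (μ + ex ∅ m + Pi.single (tv j) 1) ↔ P μ)) →
      x ∈ rel f' → x ∈ (mono fun μ => P μ ∧ ws gr μ = k) →
        ∃ y ∈ mono fun μ => P μ ∧ k < ws gr μ, x - y ∈ rel f) := by
  classical
  have c0 : ∀ m, coeff m (f' j₀) = if ws gr (ex ∅ m) = 0 then coeff m (f j₀) else 0 := fun m => by
    have := coeff_proj (P := fun μ => ws gr μ = 0) (pol (f j₀) : Sp (E ⊕ J) (O ⊕ J)) ∅ m
    rwa [← hF₀, pol, pol, Pi.single_eq_same, Pi.single_eq_same] at this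
  have c1 : ∀ m, coeff m (f' j₀) ≠ 0 → coeff m (f j₀) ≠ 0 ∧ ∀ μ,
      ws gr (μ + ex ∅ m + Pi.single (tv j₀) 1) = ws gr μ := fun m hm => by
    rw [c0] at hm
    obtain ⟨a, b⟩ := ite_ne_right_iff.1 hm
    exact ⟨b, fun μ => by rw [ws_add, ws_add, ws_single, a, h0, add_zero, add_zero]⟩
  have c2 : ∀ m, coeff m (f j₀ - f' j₀) ≠ 0 → coeff m (f j₀) ≠ 0 ∧ ∀ μ,
      ws gr μ < ws gr (μ + ex ∅ m + Pi.single (tv j₀) 1) := fun m hm => by
    rw [coeff_sub, c0] at hm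
    have a : ws gr (ex ∅ m) ≠ 0 := fun a => hm (by rw [if_pos a, sub_self])
    rw [if_neg a, sub_zero] at hm
    have b := pol_mem.1 hF m hm
    exact ⟨hm, fun μ => by rw [ws_add, ws_add, ws_single, h0]; omega⟩
  have c3 : ∀ j ∈ A, j ≠ j₀ → ∀ m, coeff m (f j) ≠ 0 → ∀ μ,
      ws gr (μ + ex ∅ m + Pi.single (tv j) 1) = ws gr μ := fun j a b m hm μ => by
    rw [ws_add, ws_add, ws_single, pol_mem.1 (hj j a b).2 m hm]
    ring
  refine ⟨fun hx hk => ?_, fun hP hx hk => ?_⟩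
  · have hp : ∀ n, ∀ h ∈ lbR f (A.erase j₀), proj (fun μ => ws gr μ = n) h ∈ lbR f (A.erase j₀) :=
      fun n h hh => lb_projR (fun j a m hm μ _ => by
        rw [c3 j (mem_of_mem_erase a) (ne_of_mem_erase a) m hm]) hh
    have hL : ∀ n, ∀ u ∈ mono fun μ : Gn E O J → ℕ => μ (ev j₀) ≠ 0 ∧ n ≤ ws gr μ,
        proj (fun μ => ws gr μ = n) (mul (f j₀ * X (.inr j₀) - 1) u) =
          mul (f' j₀ * X (.inr j₀) - 1) (proj (fun μ => ws gr μ = n) u) := fun n u hu => by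
      rw [lb_diff _ (f' j₀), map_add, lb_proj (fun m hm μ _ => by rw [(c1 m hm).2])
        (mono_le (fun _ h => h.1) hu), proj_eq_zero (lb_mulT _ j₀ hu fun m hm μ h =>
          (h.2.trans_lt ((c2 m hm).2 μ)).ne'), add_zero]
    have key : ∀ d : ℕ, ∀ u ∈ mono fun μ : Gn E O J → ℕ => μ (ev j₀) ≠ 0 ∧ k - d ≤ ws gr μ,
        ∀ h ∈ lbR f (A.erase j₀), mul (f j₀ * X (.inr j₀) - 1) u + h = x →
          proj (fun μ => ws gr μ = k) x ∈ rel f' := fun d => by
      induction d with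
      | zero =>
        intro u hu h hh e
        rw [Nat.cast_zero, sub_zero] at hu
        rw [← e, map_add, hL k u hu]
        exact add_mem (rel_gen j₀ (proj_mem_of (mono_le (fun _ h => h.1) hu))) (lb_rel
          (fun j a => (hj j (mem_of_mem_erase a) (ne_of_mem_erase a)).1.symm) (hp k h hh))
      | succ d ih =>
        intro u hu h hh e
        have e1 := congrArg (proj fun μ => ws gr μ = k - (d + 1 : ℕ)) e
        rw [map_add, hL _ u hu, proj_eq_zero (x := x) (mono_le (fun μ h => by omega) hk),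
          add_eq_zero_iff_eq_neg] at e1
        have h2 := lb_nzd hf (notMem_erase j₀ A) _ (e1 ▸ neg_mem (hp _ h hh))
        refine ih (u - proj (fun μ => ws gr μ = k - (d + 1 : ℕ)) u) (mono_le
          (fun μ h => ⟨h.1.1, by have := h.1.2; have := h.2; omega⟩) (mono_and.ge
            ⟨sub_mem hu (proj_mem_of hu), sub_proj_mem u⟩)) _
          (add_mem hh (lb_mul (f j₀ * X (.inr j₀) - 1) h2)) ?_
        rw [← e, map_sub]
        abel
    have : x ∈ (mono fun μ => μ (ev j₀) ≠ 0).map (mul (f j₀ * X (.inr j₀) - 1)) ⊔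
        lbR f (A.erase j₀) := by
      refine lb_le (fun j a u hu => ?_) (lb_mem hA hx)
      by_cases e : j = j₀
      · subst e
        exact Submodule.mem_sup_left (Submodule.mem_map_of_mem hu)
      · exact Submodule.mem_sup_right (lb_gen (mem_erase.2 ⟨e, a⟩) hu)
    obtain ⟨_, ⟨u, hu, rfl⟩, h, hh, e⟩ := Submodule.mem_sup.1 this
    obtain ⟨d, hd⟩ := lb_bdd (ws gr) k u
    exact key d u (mono_and.ge ⟨hu, hd⟩) h hh e
  · have : proj (fun μ => P μ ∧ ws gr μ = k) x ∈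
        (mono fun μ => P μ ∧ k < ws gr μ) ⊔ rel f := by
      refine Submodule.mem_comap.1 (lb_le (fun j a u hu => ?_) (lb_mem hA hx))
      rw [Submodule.mem_comap]
      by_cases e : j = j₀
      · subst e
        rw [lb_proj (fun m hm μ h => by rw [(c1 m hm).2, hP j a m (c1 m hm).1 μ h]) hu,
          eq_sub_of_add_eq (lb_diff (f j) (f' j) j _).symm]
        exact sub_mem (Submodule.mem_sup_right (rel_gen j (proj_mem_of hu)))
          (Submodule.mem_sup_left (lb_mulT _ j (mono_and.ge ⟨proj_mem_of hu, proj_mem u⟩)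
            fun m hm μ h => ⟨(hP j a m (c2 m hm).1 μ h.1).2 h.2.1, h.2.2 ▸ (c2 m hm).2 μ⟩))
      · rw [(hj j a e).1, lb_proj (fun m hm μ h => by rw [c3 j a e m hm, hP j a m hm μ h]) hu]
        exact Submodule.mem_sup_right (rel_gen j (proj_mem_of hu))
    rw [proj_eq_self hk] at this
    obtain ⟨y, hy, z, hz, e⟩ := Submodule.mem_sup.1 this
    exact ⟨y, hy, by rw [← e, add_sub_cancel_left]; exact hz⟩

end Pool.Agent.MP_8be872_ag.H63
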