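import Pool.Agent.MP_8be872_ag.H63.SpecD

/-! Statements for the positive part of a cell, the character of a cell and the final count. -/

namespace Pool.Agent.MP_8be872_ag.H63

open Finset H38 H56 MvPolynomial
open scoped Matrix

variable {Q : Quiv} {w v D : Fin Q.n → ℕ}

/-- The entries of `θ` that are paired with entries of `x`. -/
def thP (lab : Bas Q D → Bas Q v × ℕ) (p q : Nb Q w v D) : Prop :=
  ∃ τ, q = .inl τ ∧ (blk p = 0 ∨ (lab τ).2 = 0)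

/-- Module NegPt: no automorphisms of positive level at stable points. -/
def NegPtStmt : Prop :=
  ∀ (Q : Quiv) (w v D : Fin Q.n → ℕ) (d : Bas Q v → ℕ) (lab : Bas Q D → Bas Q v × ℕ), IsLab d lab →
    ∀ (P : Bas Q v → Pth Q w) (y : Kd Q → Matrix (Nb Q w v D) (Nb Q w v D) ℂ), y ka = al0 lab →
    (∀ ε p q, ¬ (shS lab (kx ε) p q ∧ lvk d lab (kx ε) p q ≤ 0) → y (kx ε) p q = 0) →
    (∀ ε p q, shS lab (kt ε) p q → lvk d lab (kt ε) p q ≤ 0 → cm0 lab (y (kx ε)) p q = 0) →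
    (Fmat P y).det ≠ 0 → ∀ ξ : Matrix (Nb Q w v D) (Nb Q w v D) ℂ,
    (∀ p q, ¬ (shS lab kz p q ∧ 0 < lvk d lab kz p q) → ξ p q = 0) →
    (∀ u : Matrix (Nb Q w v D) (Nb Q w v D) ℂ,
      (∀ p q, ¬ (shS lab ke p q ∧ 0 < lvk d lab ke p q) → u p q = 0) →
      ∑ p, ∑ q, ξ p q * cm0 lab u p q = 0) →
    (∀ t : Arr Q → Matrix (Nb Q w v D) (Nb Q w v D) ℂ,
      (∀ ε p q, ¬ (shS lab (kt ε) p q ∧ 0 < lvk d lab (kt ε) p q ∧ ¬ thP lab p q) → t ε p q = 0) →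
      ∑ p, ∑ q, ξ p q * (∑ o, (y (kx (o, true)) * t (o, false) + t (o, true) * y (kx (o, false)) -
        y (kx (o, false)) * t (o, true) - t (o, false) * y (kx (o, true)))) p q = 0) → ξ = 0

section J

variable {J : Type}

open Classical in
/-- Ghosts of nonpositive level. -/
noncomputable def grC (d : Bas Q v → ℕ) (lab : Bas Q D → Bas Q v × ℕ)
    (g : Ix Q w v D J ⊕ Ix Q w v D J) : ℕ :=
  if AlS lab g ∧ kind (· = kc) g ∧ lvG d lab g ≤ 0 then 1 else 0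

/-- Generators of positive level that are not conormal to the cell. -/
def posL (d : Bas Q v → ℕ) (lab : Bas Q D → Bas Q v × ℕ) (g : Ix Q w v D J ⊕ Ix Q w v D J) : Prop :=
  AlS lab g ∧ ¬ isN d lab g ∧ 0 < lvG d lab g

/-- All entries of `α` and the generators of positive level that cancel in pairs. -/
def bigK (d : Bas Q v → ℕ) (lab : Bas Q D → Bas Q v × ℕ) (g : Ix Q w v D J ⊕ Ix Q w v D J) : Prop :=
  AlS lab g ∧ ofM (fun k p q => k = ka ∨ (0 < lvk d lab k p q ∧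
    (k = kc ∨ (∃ ε, k = kx ε) ∨ ((∃ ε, k = kt ε) ∧ thP lab p q)))) ⊥ ⊥ g

variable [Fintype J] [DecidableEq J]

/-- The leading part of the differential for the number of ghosts of nonpositive level. -/
structure Gr0 (σ : Bas Q v ≃ Bas Q v) (d : Bas Q v → ℕ) (lab : Bas Q D → Bas Q v × ℕ)
    (f : J → MvPolynomial (Ix Q w v D J) ℂ) (φ : J → G) (j₀ : J)
    (δ₀ : Ix Q w v D J ⊕ Ix Q w v D J → OpQ Q w v D J) : Prop where
  good : Good (AlS lab) (wt (xs σ d lab) φ) δ₀ 0 f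
  lead : ∀ g P, dS lab g ∈ words P → δ₀ g ∈ (words fun μ => P μ ∧ ws (grC d lab) μ = grC d lab g) ∧
    dS lab g - δ₀ g ∈ words fun μ => P μ ∧ grC d lab g < ws (grC d lab) μ
  closed : vf δ₀ * mul (f j₀) = mul (f j₀) * vf δ₀

end J

variable (Q w v D) (J : Type) [Fintype J] [DecidableEq J]

/-- Module NegE: the generators that cancel in pairs span an acyclic ideal. -/
def NegEAt : Prop :=
  ∀ σ d lab m P φ₀ f φ j₀ δ₀, CellHyp Q w v D J σ d lab m P φ₀ f φ j₀ → Gr0 σ d lab f φ j₀ δ₀ →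
    (∀ g, bigK d lab g → δ₀ g ∈ words (has (bigK d lab))) ∧
    ∀ k γ, Acy (Dloc δ₀ 0 f ∅)
      (fun p => ZZ (AlS lab) (wt (xs σ d lab) φ) {j₀} ∅ γ p ⊓
        (mono (fun μ => k ≤ cnt (posL d lab) μ) ⊔ mono (has (isN d lab))) ⊓
        (rel f ⊔ mono (has (bigK d lab)))) (rel f ⊔ mono (has (isN d lab)))

/-- Module NegN: the remaining generators of positive level. -/
def NegNAt : Prop :=
  ∀ σ d lab m P φ₀ f φ j₀ δ₀, CellHyp Q w v D J σ d lab m P φ₀ f φ j₀ → Gr0 σ d lab f φ j₀ δ₀ →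
    (∀ g, bigK d lab g → δ₀ g ∈ words (has (bigK d lab))) →
    ∀ k, Fintype.card (Ix Q w v D J) < k → ∀ γ, Acy (Dloc δ₀ 0 f ∅)
      (fun p => ZZ (AlS lab) (wt (xs σ d lab) φ) {j₀} ∅ γ p ⊓
        mono fun μ => has (bigK d lab) μ ∨ k ≤ cnt (posL d lab) μ)
      (rel f ⊔ mono (has (bigK d lab)))

def NegEStmt : Prop := AllQ @NegEAt
def NegNStmt : Prop := AllQ @NegNAt

variable {Q v D} in
open Classical in
/-- The weights of the even or odd generators of nonzero level. -/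
noncomputable def movL (σ : Bas Q v ≃ Bas Q v) (d : Bas Q v → ℕ) (lab : Bas Q D → Bas Q v × ℕ)
    (s : Bool) : List G :=
  (univ.filter fun g : Ix Q w v D Empty ⊕ Ix Q w v D Empty =>
    lvNe d lab g ∧ g.isRight = s).toList.map (wt (xs σ d lab) 0)

/-- Module CellChi: the character of the local cohomology along a cell. -/
def CellChiStmt : Prop :=
  ∀ (Q : Quiv) (w v : Fin Q.n → ℕ) (D : Fin Q.n →₀ ℕ) (J : Type) [Fintype J] [DecidableEq J]
    σ d lab m P φ₀ f φ j₀ (e : Fin Q.n → ℕ → ℕ) (A : Finset J) (n : J → Ix Q w v D J),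
    CellHyp Q w v D J σ d lab m P φ₀ f φ j₀ → IsSort D d σ e → j₀ ∉ A → Set.InjOn n A →
    (∀ j ∈ A, f j = X (n j)) → (∀ g, isN d lab g ↔ ∃ j ∈ A, g = .inl (n j)) →
    FixOK Q w v (fun i a => e i a) (emb (Fold P)) φ₀ →
    ∃ (E : G → ℤ) (C : ℤ), (∀ γ, HasChi (Dloc (dS lab) (omS lab m) f A)
        (ZZ (AlS lab) (wt (xs σ d lab) φ) {j₀} A γ) (rel f) (-E γ)) ∧
      shl (movL w σ d lab false) E =
        shl (movL w σ d lab true) (chi Q w v (fun i a => e i a) (emb (Fold P)) φ₀) ∧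
      ∀ γ, C < co 0 γ → E γ = 0

/-- The fixed loci have finite-dimensional cohomology with the expected character. -/
def FixAllStmt : Prop :=
  ∀ (Q : Quiv) (w v : Fin Q.n → ℕ) (e : Fin Q.n → ℕ → ℤ) (F : Pol (Arr Q) (Bas Q v) (Bas Q w))
    (φ : G), Incr Q v e → Cuts Q w v F φ → FixOK Q w v e F φ

/-- Module Num: the sum over the cells. -/
def NumStmt : Prop :=
  ∀ Q : Quiv, (∀ e, Q.hd e ≠ Q.tl e) → ∀ w v : Fin Q.n → ℕ, InOrbit Q w (fun i => v i) →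
    ∀ (D : Fin Q.n →₀ ℕ) (P : Bas Q v → Pth Q w) (φ₀ : G), PathOK P φ₀ →
    ∀ (lab : (Bas Q v → ℕ) → Bas Q D → Bas Q v × ℕ) (σ : (Bas Q v → ℕ) → Bas Q v ≃ Bas Q v)
      (e : (Bas Q v → ℕ) → Fin Q.n → ℕ → ℕ) (Λ : (Bas Q v → ℕ) → G →+ G) (κ : G)
      (E : (Bas Q v → ℕ) → G → ℤ) (C : (Bas Q v → ℕ) → ℤ), IsKap (w := w) (v := v) (D := D) κ →
    (∀ d ∈ comps Q v D, IsLab d (lab d) ∧ IsSort D d (σ d) (e d) ∧
      LamOK (w := w) (σ d) d (lab d) (Λ d) ∧ shl (movL w (σ d) d (lab d) false) (E d) =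
        shl (movL w (σ d) d (lab d) true) (chi Q w v (fun i a => e d i a) (emb (Fold P)) φ₀) ∧
      ∀ γ, C d < co 0 γ → E d γ = 0) →
    ∀ χ : G → ℤ, (∀ g, free g → χ g = ∑ d ∈ comps Q v D, E d (Λ d (g - κ))) →
    (∃ C, ∀ g, free g → C < ofLex g 0 → χ g = 0) ∧
      ∃ L : List G, (∀ β ∈ L, free β ∧ ofLex β 0 ≠ 0) ∧ ∀ g, free g → ∀ᶠ J in Filter.atTop,
        (-1 : ℚ) ^ (∑ i, aExp Q w v i * D i) * shl L χ (g + (∑ i, aExp Q w v i * D i) • tau) =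
          ((L.map fun β => 1 - mon β).prod * MvPowerSeries.coeff D (rhs Q w v J)).coeff g

end Pool.Agent.MP_8be872_ag.H63
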