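import Pool.Agent.MP_8be872_ag.H56.Geo

/-! Free supercommutative algebras, Čech relations and cohomology of subquotient complexes. -/

namespace Pool.Agent.MP_8be872_ag.H63

open Finset H38 H56 MvPolynomial

section Super

variable {E O : Type} [Fintype E] [Fintype O] [DecidableEq E] [DecidableEq O]

/-- The free supercommutative algebra on even generators `E` and odd generators `O`. -/
abbrev Sp (E O : Type) := Finset O → MvPolynomial E ℂ

/-- Multiplication by a polynomial in the even generators. -/
noncomputable def mul (p : MvPolynomial E ℂ) : Module.End ℂ (Sp E O) :=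
  (LinearMap.mulLeft ℂ p).compLeft (Finset O)

/-- Left multiplication by a generator. -/
noncomputable def gn : E ⊕ O → Module.End ℂ (Sp E O)
  | .inl e => mul (X e)
  | .inr o => wedge o

/-- The derivative with respect to a generator. -/
noncomputable def dr : E ⊕ O → Module.End ℂ (Sp E O)
  | .inl e => (pderiv e).toLinearMap.compLeft (Finset O)
  | .inr o => contr o

/-- The derivation sending the generator `g` to `δ g`. -/
noncomputable def vf (δ : E ⊕ O → Module.End ℂ (Sp E O)) : Module.End ℂ (Sp E O) :=
  ∑ g, δ g * dr g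

/-- The span of the monomials whose exponent vector satisfies `P`. -/
noncomputable def mono (P : (E ⊕ O → ℕ) → Prop) : Submodule ℂ (Sp E O) :=
  Submodule.pi Set.univ fun S =>
    restrictSupport ℂ {m | P (Sum.elim m fun o => if o ∈ S then 1 else 0)}

/-- Čech relations: the even generator `j` inverts `f j` on the multiples of the odd
generator `j`. -/
noncomputable def rel {J : Type} (f : J → MvPolynomial (E ⊕ J) ℂ) :
    Submodule ℂ (Sp (E ⊕ J) (O ⊕ J)) :=
  Submodule.pi Set.univ fun S =>
    (Ideal.span {y | ∃ j, .inr j ∈ S ∧ y = f j * X (.inr j) - 1}).restrictScalars ℂ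

end Super

/-- The dimension of the parity `p` cohomology of the complex `(Z / B, D)`. -/
noncomputable def hDim {M : Type} [AddCommGroup M] [Module ℂ M] (D : Module.End ℂ M)
    (Z : Bool → Submodule ℂ M) (B : Submodule ℂ M) (p : Bool) : Cardinal :=
  Module.rank ℂ (↥(Z p ⊓ B.comap D) ⧸ ((Z (!p)).map D ⊔ B).submoduleOf (Z p ⊓ B.comap D))

/-- Multiplication of a character by `∏_{β ∈ L} (1 - e^β)`. -/
def shl {Γ A : Type} [AddCommGroup Γ] [AddCommGroup A] (L : List Γ) (χ : Γ → A) : Γ → A :=
  L.foldr (fun β ψ g => ψ g - ψ (g - β)) χ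

/-- Weights of `T × ℂ^*_q`: no gauge part. -/
def free (g : G) : Prop := ∀ i a, ofLex g (3 * Nat.pair i a + 4) = 0

end Pool.Agent.MP_8be872_ag.H63
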